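import Mathlib

/-!
Abstract irrationality criterion: small linear forms with controlled `p`-adic denominators,
nonvanishing being read off from the `n`-adic valuation for prime `n`.
Seat: helper7.
-/

open Finset

namespace Pool.Agent.OddZetaG

/-- a rational number which is `p`-integral for every prime `p` is an integer -/
theorem exists_int_of_padicNorm_le_one (x : ℚ)
    (h : ∀ p : ℕ, p.Prime → padicNorm p x ≤ 1) : ∃ z : ℤ, x = z := by
  by_cases hd : x.den = 1
  · exact ⟨x.num, (Rat.coe_int_num_of_den_eq_one hd).symm⟩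
  · exfalso
    obtain ⟨p, hp, hpd⟩ := Nat.exists_prime_and_dvd hd
    have hpf : Fact p.Prime := Fact.mk hp
    have h1 := h p hp
    have hnd : ¬ (p : ℤ) ∣ x.num := by
      intro hh
      have h2 : p ∣ x.num.natAbs := Int.natCast_dvd.1 hh
      have := Nat.dvd_gcd h2 hpd
      rw [x.reduced] at this
      exact hp.one_lt.ne' (Nat.dvd_one.1 this)
    have hx : x * (x.den : ℚ) = x.num := Rat.mul_den_eq_num x
    have h4 : padicNorm p (x * (x.den : ℚ)) = 1 := by
      rw [hx]
      exact (padicNorm.int_eq_one_iff _).2 hnd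
    rw [padicNorm.mul] at h4
    have h5 : padicNorm p (x.den : ℚ) < 1 := (padicNorm.nat_lt_one_iff _).2 hpd
    have h6 : 0 ≤ padicNorm p x := padicNorm.nonneg _
    have h7 : 0 ≤ padicNorm p (x.den : ℚ) := padicNorm.nonneg _
    nlinarith

/-- multiplying by an integer does not increase the norm -/
theorem padicNorm_mul_int_le (p : ℕ) [Fact p.Prime] (r : ℚ) (m : ℤ) {c : ℚ}
    (h : padicNorm p r ≤ c) : padicNorm p (r * m) ≤ c := by
  rw [padicNorm.mul]
  have h1 : padicNorm p (m : ℚ) ≤ 1 := padicNorm.of_int m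
  have h2 : 0 ≤ padicNorm p r := padicNorm.nonneg _
  have h3 : 0 ≤ padicNorm p (m : ℚ) := padicNorm.nonneg _
  nlinarith

/-- combination of bounds for the coefficients -/
theorem padicNorm_comb_le {ι : Type*} (J : Finset ι) (p : ℕ) [Fact p.Prime] (r0 : ℚ) (r : ι → ℚ)
    (m0 : ℤ) (m : ι → ℤ) (c : ℚ) (h0 : padicNorm p r0 ≤ c) (h : ∀ j ∈ J, padicNorm p (r j) ≤ c) :
    padicNorm p (r0 * m0 + ∑ j ∈ J, r j * m j) ≤ c := by
  have hc : 0 ≤ c := le_trans (padicNorm.nonneg _) h0
  refine le_trans padicNorm.nonarchimedean (max_le (padicNorm_mul_int_le p r0 m0 h0) ?_)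
  exact padicNorm.sum_le' (fun j hj => padicNorm_mul_int_le p (r j) (m j) (h j hj)) hc

/-- eventually the error terms are small -/
theorem eventually_small (C : ℕ) (hC : 0 < C) (E : ℕ) (c : ℝ) {del : ℝ} (hdel : 0 < del) :
    ∃ N : ℕ, ∀ n ≥ N,
    c + ((Nat.sqrt (C * n) : ℝ) + 1) * (2 * E * Real.log (C * n)) < del * n := by
  have hCr : (1 : ℝ) ≤ C := by exact_mod_cast hC
  have h1 : (fun n : ℕ => c + ((Real.sqrt (C * n)) + 1) * (2 * E * Real.log (C * n)))
      =o[Filter.atTop] (fun n : ℕ => (n : ℝ)) := by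
    have hA : (fun x : ℝ => c + (Real.sqrt x + 1) * (2 * E * Real.log x)) =o[Filter.atTop]
        (fun x : ℝ => x) := by
      have hlog : (fun x : ℝ => Real.log x) =o[Filter.atTop] (fun x : ℝ => x ^ (1/4 : ℝ)) :=
        isLittleO_log_rpow_atTop (by norm_num)
      have hsq : (fun x : ℝ => Real.sqrt x + 1) =O[Filter.atTop] (fun x : ℝ => x ^ (1/2 : ℝ)) := by
        have e1 : (fun x : ℝ => Real.sqrt x) =O[Filter.atTop] (fun x : ℝ => x ^ (1/2 : ℝ)) := by
          simp only [Real.sqrt_eq_rpow]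
          exact Asymptotics.isBigO_refl _ _
        have e2 : (fun _ : ℝ => (1 : ℝ)) =O[Filter.atTop] (fun x : ℝ => x ^ (1/2 : ℝ)) := by
          refine Asymptotics.IsBigO.of_bound 1 ?_
          filter_upwards [Filter.eventually_ge_atTop 1] with x hx
          have := Real.one_le_rpow hx (by norm_num : (0:ℝ) ≤ 1/2)
          rw [norm_one, Real.norm_eq_abs, abs_of_nonneg (by positivity), one_mul]
          exact this
        exact e1.add e2
      have h3 : (fun x : ℝ => (Real.sqrt x + 1) * Real.log x) =o[Filter.atTop]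
          (fun x : ℝ => x ^ (1/2 : ℝ) * x ^ (1/4 : ℝ)) := hsq.mul_isLittleO hlog
      have h4 : (fun x : ℝ => x ^ (1/2 : ℝ) * x ^ (1/4 : ℝ)) =O[Filter.atTop] (fun x : ℝ => x) := by
        refine Asymptotics.IsBigO.of_bound 1 ?_
        filter_upwards [Filter.eventually_ge_atTop 1] with x hx
        rw [← Real.rpow_add (by linarith)]
        have hx' : x = x ^ (1 : ℝ) := (Real.rpow_one x).symm
        rw [Real.norm_eq_abs, Real.norm_eq_abs, abs_of_nonneg (by positivity),
          abs_of_nonneg (by linarith), one_mul]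
        nth_rewrite 2 [hx']
        exact Real.rpow_le_rpow_of_exponent_le hx (by norm_num)
      have h5 := (h3.trans_isBigO h4).const_mul_left (2 * E : ℝ)
      have h6 : (fun _ : ℝ => c) =o[Filter.atTop] (fun x : ℝ => x) := by
        rw [Asymptotics.isLittleO_const_left]
        right
        exact Filter.tendsto_abs_atTop_atTop
      refine (h6.add h5).congr_left ?_
      intro x; ring
    have hB : Filter.Tendsto (fun n : ℕ => (C : ℝ) * n) Filter.atTop Filter.atTop :=
      Filter.Tendsto.const_mul_atTop (by linarith) tendsto_natCast_atTop_atTop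
    have hC' := hA.comp_tendsto hB
    refine hC'.trans_isBigO ?_
    refine Asymptotics.IsBigO.of_bound C ?_
    filter_upwards with n
    simp
  have h2 := h1.bound (by linarith : (0:ℝ) < del / 2)
  rw [Filter.eventually_atTop] at h2
  obtain ⟨N, hN⟩ := h2
  refine ⟨max N 1, fun n hn => ?_⟩
  have hn1 : (1 : ℝ) ≤ n := by exact_mod_cast le_trans (le_max_right _ _) hn
  have h3 := hN n (le_trans (le_max_left _ _) hn)
  rw [Real.norm_eq_abs, Real.norm_eq_abs, abs_of_nonneg (by linarith : (0:ℝ) ≤ (n:ℝ))] at h3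
  have h4 := (abs_le.1 h3).2
  have h5 : (Nat.sqrt (C * n) : ℝ) ≤ Real.sqrt (C * n) := by
    have := Real.nat_sqrt_le_real_sqrt (a := C * n)
    push_cast at this
    exact this
  have h6 : 0 ≤ Real.log (C * n) := Real.log_nonneg (by nlinarith)
  have h7 : ((Nat.sqrt (C * n) : ℝ) + 1) * (2 * E * Real.log (C * n)) ≤
      (Real.sqrt (C * n) + 1) * (2 * E * Real.log (C * n)) := by
    apply mul_le_mul_of_nonneg_right (by linarith) (by positivity)
  have h8 : del / 2 * n < del * n := by nlinarith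
  linarith

/-- exponent used for the few small primes and for `p = n` -/
def kexp (C E n p : ℕ) : ℕ := E * (Nat.log p (C * n) + 1)

theorem crude_exp (C E n p : ℕ) (hp : 1 < p) : ((C : ℚ) * n) ^ E ≤ (p : ℚ) ^ kexp C E n p := by
  have h1 : C * n < p ^ (Nat.log p (C * n) + 1) := Nat.lt_pow_succ_log_self hp _
  have h2 : (C : ℚ) * n ≤ (p : ℚ) ^ (Nat.log p (C * n) + 1) := by exact_mod_cast h1.le
  unfold kexp
  rw [mul_comm E, pow_mul]
  exact pow_le_pow_left₀ (by positivity) h2 E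

theorem kexp_log (C E n p : ℕ) (hC : 0 < C) (hn : 0 < n) (hp : 1 < p) (hpn : p ≤ C * n) :
    (kexp C E n p : ℝ) * Real.log p ≤ 2 * E * Real.log (C * n) := by
  have h1 : p ^ Nat.log p (C * n) ≤ C * n := Nat.pow_log_le_self p (Nat.mul_pos hC hn).ne'
  have hp0 : (0:ℝ) < p := by exact_mod_cast (by omega : 0 < p)
  have h2 : (Nat.log p (C * n) : ℝ) * Real.log p ≤ Real.log (C * n) := by
    rw [← Real.log_pow]
    apply Real.log_le_log (by positivity)
    exact_mod_cast h1
  have h3 : Real.log p ≤ Real.log (C * n) := by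
    apply Real.log_le_log hp0
    exact_mod_cast hpn
  have hE : (0 : ℝ) ≤ E := Nat.cast_nonneg E
  unfold kexp
  push_cast
  calc (E : ℝ) * ((Nat.log p (C * n) : ℝ) + 1) * Real.log p
      = E * ((Nat.log p (C * n) : ℝ) * Real.log p + Real.log p) := by ring
    _ ≤ E * (Real.log (C * n) + Real.log (C * n)) := by gcongr
    _ = 2 * E * Real.log (C * n) := by ring

/-- all primes up to `C n` -/
def Ps (C n : ℕ) : Finset ℕ := (Finset.Icc 1 (C * n)).filter (fun p => p.Prime)

/-- exponent of `p` in the denominator -/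
def eexp (C E : ℕ) (d : ℕ → ℕ → ℕ) (n p : ℕ) : ℕ :=
  if C * n < p ^ 2 ∧ p ≠ n then d n p else kexp C E n p

/-- the denominator -/
def Dn (C E : ℕ) (d : ℕ → ℕ → ℕ) (n : ℕ) : ℕ := ∏ p ∈ Ps C n, p ^ eexp C E d n p

theorem Dn_pos (C E : ℕ) (d : ℕ → ℕ → ℕ) (n : ℕ) : 0 < Dn C E d n := by
  unfold Dn
  apply Finset.prod_pos
  intro p hp
  simp only [Ps, Finset.mem_filter] at hp
  exact pow_pos hp.2.pos _

theorem padicNorm_Dn (C E : ℕ) (d : ℕ → ℕ → ℕ) (n p : ℕ) [Fact p.Prime] (hp : p ∈ Ps C n) :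
    padicNorm p (Dn C E d n : ℚ) ≤ (p : ℚ) ^ (-(eexp C E d n p : ℤ)) := by
  have h : p ^ eexp C E d n p ∣ Dn C E d n :=
    Finset.dvd_prod_of_mem (fun q => q ^ eexp C E d n q) hp
  have h2 : ((p ^ eexp C E d n p : ℕ) : ℤ) ∣ (Dn C E d n : ℤ) := by exact_mod_cast h
  have := (padicNorm.dvd_iff_norm_le (p := p)).1 h2
  exact_mod_cast this

theorem log_Dn_le (C E : ℕ) (hC : 0 < C) (d : ℕ → ℕ → ℕ) (n : ℕ) (hn : 0 < n) {be : ℝ}
    (hd : ∑ p ∈ (Finset.Icc 1 (C * n)).filter (fun p => p.Prime ∧ C * n < p ^ 2 ∧ p ≠ n),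
      (d n p : ℝ) * Real.log p ≤ be * n) :
    Real.log (Dn C E d n) ≤ be * n +
      ((Nat.sqrt (C * n) : ℝ) + 1) * (2 * E * Real.log (C * n)) := by
  have h1 : Real.log (Dn C E d n) = ∑ p ∈ Ps C n, (eexp C E d n p : ℝ) * Real.log p := by
    unfold Dn
    push_cast
    rw [Real.log_prod]
    · apply Finset.sum_congr rfl
      intro p _
      rw [Real.log_pow]
    · intro p hp
      simp only [Ps, Finset.mem_filter] at hp
      have : (0 : ℝ) < p := by exact_mod_cast hp.2.pos
      positivity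
  rw [h1, ← Finset.sum_filter_add_sum_filter_not (Ps C n) (fun p => C * n < p ^ 2 ∧ p ≠ n)]
  refine add_le_add ?_ ?_
  · refine le_trans (le_of_eq ?_) hd
    have hset : (Ps C n).filter (fun p => C * n < p ^ 2 ∧ p ≠ n) =
        (Finset.Icc 1 (C * n)).filter (fun p => p.Prime ∧ C * n < p ^ 2 ∧ p ≠ n) := by
      unfold Ps
      rw [Finset.filter_filter]
    rw [hset]
    apply Finset.sum_congr rfl
    intro p hp
    simp only [Finset.mem_filter] at hp
    rw [eexp, if_pos hp.2.2]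
  · have hlog : 0 ≤ Real.log (C * n) := by
      apply Real.log_nonneg
      have : (1 : ℝ) ≤ n := by exact_mod_cast hn
      have hCr : (1 : ℝ) ≤ C := by exact_mod_cast hC
      nlinarith
    calc ∑ p ∈ (Ps C n).filter (fun p => ¬(C * n < p ^ 2 ∧ p ≠ n)),
          (eexp C E d n p : ℝ) * Real.log p
        ≤ ∑ p ∈ (Ps C n).filter (fun p => ¬(C * n < p ^ 2 ∧ p ≠ n)), 2 * E * Real.log (C * n) := by
          apply Finset.sum_le_sum
          intro p hp
          simp only [Finset.mem_filter, Ps, Finset.mem_Icc] at hp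
          rw [eexp, if_neg hp.2]
          exact kexp_log C E n p hC hn hp.1.2.one_lt hp.1.1.2
      _ = (((Ps C n).filter (fun p => ¬(C * n < p ^ 2 ∧ p ≠ n))).card : ℝ) *
            (2 * E * Real.log (C * n)) := by
          rw [Finset.sum_const, nsmul_eq_mul]
      _ ≤ ((Nat.sqrt (C * n) : ℝ) + 1) * (2 * E * Real.log (C * n)) := by
          apply mul_le_mul_of_nonneg_right _ (by positivity)
          have hsub : (Ps C n).filter (fun p => ¬(C * n < p ^ 2 ∧ p ≠ n)) ⊆
              insert n (Finset.Icc 1 (Nat.sqrt (C * n))) := by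
            intro p hp
            simp only [Finset.mem_filter, Ps, Finset.mem_Icc, Finset.mem_insert] at hp ⊢
            by_cases hpn : p = n
            · exact Or.inl hpn
            · right
              refine ⟨hp.1.1.1, ?_⟩
              have h2 : ¬ C * n < p ^ 2 := fun h => hp.2 ⟨h, hpn⟩
              rw [Nat.le_sqrt]
              nlinarith
          have hc := Finset.card_le_card hsub
          have hc2 := Finset.card_insert_le n (Finset.Icc 1 (Nat.sqrt (C * n)))
          rw [Nat.card_Icc] at hc2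
          have hc3 : ((Ps C n).filter (fun p => ¬(C * n < p ^ 2 ∧ p ≠ n))).card
              ≤ Nat.sqrt (C * n) + 1 := by omega
          exact_mod_cast hc3

/-- abstract irrationality criterion -/
theorem crit {ι : Type*} (J : Finset ι) (C E w : ℕ) (hC : 0 < C) (z : ι → ℝ)
    (r0 : ℕ → ℚ) (r : ℕ → ι → ℚ) (S : ℕ → ℝ)
    (hSeq : ∀ n, 0 < n → S n = (r0 n : ℝ) + ∑ j ∈ J, (r n j : ℝ) * z j)
    {al be : ℝ} (hab : be < al)
    (hS : ∃ N : ℕ, ∀ n ≥ N, Odd n → |S n| ≤ Real.exp (-al * n))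
    (hcrude : ∀ (n p : ℕ) [Fact p.Prime], 0 < n → padicNorm p (r0 n) ≤ ((C : ℚ) * n) ^ E ∧
      ∀ j ∈ J, padicNorm p (r n j) ≤ ((C : ℚ) * n) ^ E)
    (hlarge : ∀ (n p : ℕ) [Fact p.Prime], 0 < n → C * n < p → padicNorm p (r0 n) ≤ 1 ∧
      ∀ j ∈ J, padicNorm p (r n j) ≤ 1)
    (hmid : ∃ d : ℕ → ℕ → ℕ, ∃ N : ℕ, ∀ n ≥ N, n.Prime →
      (∀ (p : ℕ) [Fact p.Prime], p ≠ n → C * n < p ^ 2 → p ≤ C * n →
        padicNorm p (r0 n) ≤ (p : ℚ) ^ (d n p) ∧ ∀ j ∈ J, padicNorm p (r n j) ≤ (p : ℚ) ^ (d n p)) ∧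
      ∑ p ∈ (Finset.Icc 1 (C * n)).filter (fun p => p.Prime ∧ C * n < p ^ 2 ∧ p ≠ n),
        (d n p : ℝ) * Real.log p ≤ be * n)
    (hnv0 : ∃ N : ℕ, ∀ n ≥ N, n.Prime → padicNorm n (r0 n) = (n : ℚ) ^ (w + 1))
    (hnv : ∃ N : ℕ, ∀ n ≥ N, n.Prime → ∀ j ∈ J, padicNorm n (r n j) ≤ (n : ℚ) ^ w) :
    ∃ j ∈ J, Irrational (z j) := by
  by_contra hcon
  push Not at hcon
  have hq : ∀ j : ι, ∃ q : ℚ, j ∈ J → z j = q := by
    intro j
    by_cases hj : j ∈ J
    · have h1 := hcon j hj
      rw [Irrational] at h1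
      push Not at h1
      obtain ⟨q, hq⟩ := h1
      exact ⟨q, fun _ => hq.symm⟩
    · exact ⟨0, fun h => absurd h hj⟩
  choose Q hQ using hq
  obtain ⟨d, N1, hd⟩ := hmid
  obtain ⟨N2, hS⟩ := hS
  obtain ⟨N3, hE0⟩ := hnv0
  obtain ⟨N4, hE⟩ := hnv
  -- common denominator
  set q : ℕ := ∏ j ∈ J, (Q j).den with hqdef
  have hq0 : 0 < q := Finset.prod_pos (fun j _ => (Q j).den_pos)
  obtain ⟨N5, hsm⟩ := eventually_small C hC E (Real.log q) (sub_pos.2 hab)
  obtain ⟨n, hn, hnp⟩ := Nat.exists_infinite_primes (N1 + N2 + N3 + N4 + N5 + q + 100)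
  have hn0 : 0 < n := hnp.pos
  have hnf : Fact n.Prime := ⟨hnp⟩
  have hnodd : Odd n := hnp.odd_of_ne_two (by omega)
  obtain ⟨hd1, hd2⟩ := hd n (by omega) hnp
  -- the integers
  have hm : ∀ j : ι, ∃ m : ℤ, j ∈ J → (q : ℚ) * Q j = m := by
    intro j
    by_cases hj : j ∈ J
    · obtain ⟨c, hc⟩ : (Q j).den ∣ q := Finset.dvd_prod_of_mem (fun j => (Q j).den) hj
      refine ⟨(Q j).num * c, fun _ => ?_⟩
      rw [hc]
      push_cast
      have := Rat.mul_den_eq_num (Q j)
      linear_combination (c : ℚ) * this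
    · exact ⟨0, fun h => absurd h hj⟩
  choose m hm using hm
  set x : ℚ := r0 n * ((q : ℤ) : ℚ) + ∑ j ∈ J, r n j * (m j : ℚ) with hx
  have hxS : (x : ℝ) = q * S n := by
    rw [hSeq n hn0, hx]
    push_cast
    rw [mul_add, Finset.mul_sum]
    congr 1
    · ring
    · refine Finset.sum_congr rfl (fun j hj => ?_)
      have e5 : ((q : ℝ)) * Q j = m j := by exact_mod_cast hm j hj
      rw [hQ j hj, ← e5]
      ring
  -- integrality
  have hint : ∃ y : ℤ, (Dn C E d n : ℚ) * x = y := by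
    apply exists_int_of_padicNorm_le_one
    intro p hp
    have hpf : Fact p.Prime := ⟨hp⟩
    rw [padicNorm.mul]
    have hxn : 0 ≤ padicNorm p x := padicNorm.nonneg _
    by_cases hpl : p ≤ C * n
    · have hmem : p ∈ Ps C n := by
        simp only [Ps, Finset.mem_filter, Finset.mem_Icc]
        exact ⟨⟨hp.pos, hpl⟩, hp⟩
      have h1 := padicNorm_Dn C E d n p hmem
      have h2 : padicNorm p x ≤ (p : ℚ) ^ (eexp C E d n p : ℤ) := by
        rw [zpow_natCast]
        by_cases hc : C * n < p ^ 2 ∧ p ≠ n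
        · rw [eexp, if_pos hc]
          have hbd := hd1 p hc.2 hc.1 hpl
          exact padicNorm_comb_le J p _ _ _ _ _ hbd.1 hbd.2
        · rw [eexp, if_neg hc]
          have hce := crude_exp C E n p hp.one_lt
          have hcr := hcrude n p hn0
          exact padicNorm_comb_le J p _ _ _ _ _ (hcr.1.trans hce)
            (fun j hj => (hcr.2 j hj).trans hce)
      have hp0 : (0 : ℚ) < p := by exact_mod_cast hp.pos
      calc padicNorm p (Dn C E d n) * padicNorm p x
          ≤ (p : ℚ) ^ (-(eexp C E d n p : ℤ)) * (p : ℚ) ^ (eexp C E d n p : ℤ) :=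
            mul_le_mul h1 h2 hxn (by positivity)
        _ = 1 := by rw [← zpow_add₀ hp0.ne']; simp
    · have h1 : padicNorm p (Dn C E d n : ℚ) ≤ 1 := padicNorm.of_nat (p := p) (Dn C E d n)
      have h2 : padicNorm p x ≤ 1 := by
        have hl := hlarge n p hn0 (by omega)
        exact padicNorm_comb_le J p _ _ _ _ _ hl.1 hl.2
      have h3 : 0 ≤ padicNorm p (Dn C E d n : ℚ) := padicNorm.nonneg _
      nlinarith
  obtain ⟨y, hy⟩ := hint
  -- size
  have hDpos : (0 : ℝ) < Dn C E d n := by exact_mod_cast Dn_pos C E d n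
  have hqpos : (0 : ℝ) < q := by exact_mod_cast hq0
  have hsize : |(y : ℝ)| < 1 := by
    have e1 : (y : ℝ) = Dn C E d n * (q * S n) := by
      rw [← hxS]
      exact_mod_cast hy.symm
    rw [e1, abs_mul, abs_mul, abs_of_pos hDpos, abs_of_pos hqpos]
    have hSn := hS n (by omega) hnodd
    have hD := log_Dn_le C E hC d n hn0 hd2
    have hsm' := hsm n (by omega)
    have hDe : (Dn C E d n : ℝ) = Real.exp (Real.log (Dn C E d n)) := (Real.exp_log hDpos).symm
    have hqe : (q : ℝ) = Real.exp (Real.log q) := (Real.exp_log hqpos).symm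
    calc (Dn C E d n : ℝ) * (q * |S n|)
        ≤ Real.exp (Real.log (Dn C E d n)) * (Real.exp (Real.log q) * Real.exp (-al * n)) := by
          rw [← hDe, ← hqe]
          gcongr
      _ = Real.exp (Real.log (Dn C E d n) + Real.log q + -al * n) := by
          rw [Real.exp_add, Real.exp_add]; ring
      _ < 1 := by
          rw [Real.exp_lt_one_iff]
          linarith
  have hz0 : y = 0 := by
    have : |y| < 1 := by exact_mod_cast hsize
    exact Int.abs_lt_one_iff.1 this
  have hx0 : x = 0 := by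
    rw [hz0] at hy
    have hD0 : (Dn C E d n : ℚ) ≠ 0 := by exact_mod_cast (Dn_pos C E d n).ne'
    simpa [hD0] using hy
  -- nonvanishing
  have hqn : padicNorm n ((q : ℤ) : ℚ) = 1 := by
    rw [padicNorm.int_eq_one_iff]
    intro hdiv
    have : n ∣ q := by exact_mod_cast hdiv
    have := Nat.le_of_dvd hq0 this
    omega
  have e0 : padicNorm n (r0 n * ((q : ℤ) : ℚ)) = (n : ℚ) ^ (w + 1) := by
    rw [padicNorm.mul, hE0 n (by omega) hnp, hqn, mul_one]
  have hsum : padicNorm n (∑ j ∈ J, r n j * (m j : ℚ)) ≤ (n : ℚ) ^ w :=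
    padicNorm.sum_le' (fun j hj => padicNorm_mul_int_le n _ _ (hE n (by omega) hnp j hj))
      (by positivity)
  have hlt : (n : ℚ) ^ w < (n : ℚ) ^ (w + 1) := by
    have hn1 : (1 : ℚ) < n := by exact_mod_cast hnp.one_lt
    exact pow_lt_pow_right₀ hn1 (by omega)
  have hne : padicNorm n (r0 n * ((q : ℤ) : ℚ)) ≠ padicNorm n (∑ j ∈ J, r n j * (m j : ℚ)) := by
    rw [e0]
    exact (lt_of_le_of_lt hsum hlt).ne'
  have hfin := padicNorm.add_eq_max_of_ne hne
  rw [← hx, hx0, padicNorm.zero, e0] at hfin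
  have h9' : (0 : ℚ) < (n : ℚ) ^ (w + 1) := by
    have : (0 : ℚ) < n := by exact_mod_cast hn0
    positivity
  have := le_max_left ((n : ℚ) ^ (w + 1)) (padicNorm n (∑ j ∈ J, r n j * (m j : ℚ)))
  linarith

end Pool.Agent.OddZetaG
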