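import Mathlib

/-!
Generic definitions: `k` derivatives (`k` even), pole blocks `[h n, (C - h) n]` indexed by `P`,
zero blocks indexed by `M`.  The case `C = 83, k = 2` is `Pool.Agent.OddZeta`.
Seat: helper7.
-/

open Finset

namespace Pool.Agent.OddZetaG

/-- data of a construction; blocks are indexed by `P` (poles) and `M` (zeros), the block of the
index `i` is `[h i * n, (C - h i) * n]` -/
structure Dat where
  C : ℕ
  P : Finset ℕ
  M : Finset ℕ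
  h : ℕ → ℕ
  k : ℕ
  A : ℕ
  s : ℕ
  lo : ℕ

/-- well-formed data (everything decidable) -/
structure Dat.OK (D : Dat) : Prop where
  keven : Even D.k
  kpos : 2 ≤ D.k
  cardM : D.M.card = D.k + 1
  cardP : D.P.card = D.M.card + D.A
  Aeven : Even D.A
  A4 : 4 ≤ D.A
  P_ge : ∀ i ∈ D.P, D.s ≤ D.h i
  P_lt : ∀ i ∈ D.P, 2 * D.h i < D.C
  M_lt : ∀ i ∈ D.M, D.h i < D.s
  s_le : D.s ≤ D.lo
  lo_lt : 2 * D.lo < D.C
  lo_ok : #{i ∈ D.P | D.h i < D.lo} ≤ D.k + 1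
  deg : ∑ i ∈ D.M, (D.C - 2 * D.h i) ≤ ∑ i ∈ D.P, (D.C - 2 * D.h i)

variable (D : Dat)

/-- length of the block of `h` -/
def Nl (n h : ℕ) : ℕ := (D.C - 2 * h) * n

/-- the block of `h`, a set of integers `m` (the factors `t + m`) -/
def blk (n h : ℕ) : Finset ℕ := Finset.Icc (h * n) ((D.C - h) * n)

/-- normalising constant -/
def K (n : ℕ) : ℚ :=
  (∏ i ∈ D.P, ((Nl D n (D.h i)).factorial : ℚ)) / ∏ i ∈ D.M, ((Nl D n (D.h i)).factorial : ℚ)

/-- pole order of `R n` at `-l` (net) -/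
def ord (n l : ℕ) : ℤ :=
  (#{i ∈ D.P | l ∈ blk D n (D.h i)} : ℤ) - (#{i ∈ D.M | l ∈ blk D n (D.h i)} : ℤ)

/-- product over the block of `h`, without `m = l`, of `(m - l) + X` -/
noncomputable def B (n h l : ℕ) : PowerSeries ℚ :=
  ∏ m ∈ (blk D n h).erase l, (PowerSeries.C ((m : ℚ) - (l : ℚ)) + PowerSeries.X)

/-- `F n l` is the power series of `ε ^ ord * R n (-l + ε)` -/
noncomputable def F (n l : ℕ) : PowerSeries ℚ :=
  PowerSeries.C (K D n) * (PowerSeries.C (D.C * (n : ℚ) - 2 * (l : ℚ)) + 2 * PowerSeries.X) *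
    (∏ i ∈ D.M, B D n (D.h i) l) * (∏ i ∈ D.P, B D n (D.h i) l)⁻¹

/-- partial fraction coefficient of `1 / (t + l) ^ i` in `R n t` -/
noncomputable def a (n l i : ℕ) : ℚ :=
  if (i : ℤ) ≤ ord D n l then PowerSeries.coeff (ord D n l - i).toNat (F D n l) else 0

/-- the rational function, as a function of a complex variable -/
noncomputable def R (n : ℕ) (t : ℂ) : ℂ :=
  (K D n : ℂ) * (2 * t + D.C * n) * (∏ i ∈ D.M, ∏ m ∈ blk D n (D.h i), (t + m)) /
    ∏ i ∈ D.P, ∏ m ∈ blk D n (D.h i), (t + m)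

/-- the range of the poles -/
def poles (n : ℕ) : Finset ℕ := Finset.Icc (D.lo * n) ((D.C - D.lo) * n)

/-- `∑_{m > M} 1 / m ^ s` -/
noncomputable def tail (s M : ℕ) : ℝ := ∑' m : ℕ, 1 / ((m : ℝ) + M + 1) ^ s

/-- harmonic number `∑_{m = 1}^{M} 1 / m ^ s` -/
def Hs (s M : ℕ) : ℚ := ∑ m ∈ Finset.Icc 1 M, 1 / (m : ℚ) ^ s

/-- the analytic sum: `S n = ∑_{t > - s n} R^(k)(t) / k!` -/
noncomputable def S (n : ℕ) : ℝ :=
  ∑ l ∈ poles D n, ∑ i ∈ Finset.Icc 1 D.A,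
    ((a D n l i * ((i + D.k - 1).choose D.k : ℚ) : ℚ) : ℝ) * tail (i + D.k) (l - D.s * n)

/-- coefficient of `ζ(j)` -/
noncomputable def rho (n j : ℕ) : ℚ :=
  ∑ l ∈ poles D n, a D n l (j - D.k) * ((j - 1).choose D.k : ℚ)

/-- local contribution to the constant term -/
noncomputable def T (n l : ℕ) : ℚ :=
  - ∑ i ∈ Finset.Icc 1 D.A, a D n l i * ((i + D.k - 1).choose D.k : ℚ) * Hs (i + D.k) (l - D.s * n)

/-- constant term -/
noncomputable def rho0 (n : ℕ) : ℚ := ∑ l ∈ poles D n, T D n l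

/-- the odd `j` whose `ζ(j)` occurs -/
def Js : Finset ℕ := (Finset.Icc (D.k + 3) (D.k + D.A)).filter (fun j => Odd j)

/-! ### arithmetic data for one prime `p` -/

/-- `⌊(l - h n)/p⌋` -/
def fA (n l p h : ℕ) : ℤ := ((l : ℤ) - h * n) / p

/-- `⌊((C - h) n - l)/p⌋` -/
def fB (n l p h : ℕ) : ℤ := ((D.C - h : ℤ) * n - l) / p

/-- number of `m` in the block of `h`, `m ≠ l`, with `p ∣ m - l` -/
def cnt (n l p h : ℕ) : ℤ := fA n l p h + fB D n l p h + if l ∈ blk D n h then 0 else 1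

/-- the valuation exponent `V` at `l` (for `p ^ 2 > C n`) -/
def V (n l p : ℕ) : ℤ :=
  (∑ i ∈ D.P, (((Nl D n (D.h i) / p : ℕ) : ℤ) - cnt D n l p (D.h i))) -
    ∑ i ∈ D.M, (((Nl D n (D.h i) / p : ℕ) : ℤ) - cnt D n l p (D.h i))

/-- `E0` -/
def E0 (n p : ℕ) : ℤ :=
  (∑ i ∈ D.P, ((Nl D n (D.h i) / p : ℕ) : ℤ)) - ∑ i ∈ D.M, ((Nl D n (D.h i) / p : ℕ) : ℤ)

/-- `l` is self-paired: `⌊(l-hn)/p⌋ - ⌊((C-h)n-l)/p⌋` does not depend on the block -/
def selfP (n l p : ℕ) : Prop :=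
  ∀ i ∈ D.P ∪ D.M, ∀ j ∈ D.P ∪ D.M,
    fA n l p (D.h i) - fB D n l p (D.h i) = fA n l p (D.h j) - fB D n l p (D.h j)

instance (n l p : ℕ) : Decidable (selfP D n l p) := by unfold selfP; infer_instance

/-- no pole-type factor at `l` is divisible by `p` -/
def noP (n l p : ℕ) : Prop := ∀ i ∈ D.P, cnt D n l p (D.h i) ≤ 0

instance (n l p : ℕ) : Decidable (noP D n l p) := by unfold noP; infer_instance

/-- local exponent bound -/
def bnd (n l p : ℕ) : ℤ :=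
  if p ≤ l - D.s * n then ord D n l - V D n l p + D.k - (if selfP D n l p then 1 else 0)
  else if noP D n l p then min (ord D n l - V D n l p - 1) (- E0 D n p)
  else ord D n l - V D n l p - 1

end Pool.Agent.OddZetaG
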