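import Pool.Agent.OddZetaG.TabSem

/-!
Families of data `F.D j` (`j = 0, 1, 2, ...`): base blocks and `j` copies of the increment blocks;
cell checks for all `j` at once.  Seat: helper57.
-/

open Finset

namespace Pool.Agent.OddZetaG

open Pool.Agent.OddZetaG.Tab

/-- data from lists of block parameters: zero blocks have the indices `0, ..., |ML| - 1` -/
def ofL (C k A s lo : ℕ) (PL ML : List ℕ) : Dat where
  C := C
  P := Finset.Ico ML.length (ML.length + PL.length)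
  M := Finset.range ML.length
  h := fun i => (ML ++ PL).getD i 0
  k := k
  A := A
  s := s
  lo := lo

/-- a family: base `P0, M0` and increment `P1, M1`; `UP` and `UL` list the pole parameters and all
parameters without repetition, `OU` the thresholds -/
structure Fam where
  C : ℕ
  k0 : ℕ
  k1 : ℕ
  A0 : ℕ
  A1 : ℕ
  s : ℕ
  lo : ℕ
  P0 : List ℕ
  M0 : List ℕ
  P1 : List ℕ
  M1 : List ℕ
  UP : List ℕ
  UL : List ℕ
  OU : List ℕ

namespace Fam

variable (F : Fam)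

def PL (j : ℕ) : List ℕ := F.P0 ++ (List.replicate j F.P1).flatten
def ML (j : ℕ) : List ℕ := F.M0 ++ (List.replicate j F.M1).flatten

/-- the data of the family -/
def D (j : ℕ) : Dat := ofL F.C (F.k0 + F.k1 * j) (F.A0 + F.A1 * j) F.s F.lo (F.PL j) (F.ML j)

/-- well-formed family (everything decidable) -/
structure OK (F : Fam) : Prop where
  k0even : Even F.k0
  k1even : Even F.k1
  k0pos : 2 ≤ F.k0
  lM0 : F.M0.length = F.k0 + 1
  lM1 : F.M1.length = F.k1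
  lP0 : F.P0.length = F.k0 + 1 + F.A0
  lP1 : F.P1.length = F.k1 + F.A1
  A0even : Even F.A0
  A1even : Even F.A1
  A4 : 4 ≤ F.A0
  Pge : ∀ x ∈ F.UP, F.s ≤ x
  Mlt : ∀ x ∈ F.M0 ++ F.M1, x < F.s
  lt : ∀ x ∈ F.UL, 2 * x < F.C
  PU : ∀ x ∈ F.P0 ++ F.P1, x ∈ F.UP
  AU : ∀ x ∈ (F.P0 ++ F.P1) ++ (F.M0 ++ F.M1), x ∈ F.UL
  OUz : 0 ∈ F.OU
  OUm : ∀ x ∈ F.UL, x ∈ F.OU ∧ F.C - x ∈ F.OU
  smem : F.s ∈ F.P0
  lomem : F.lo ∈ F.P0
  lo0 : (F.P0.map (fun h => if h < F.lo then 1 else 0)).sum ≤ F.k0 + 1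
  lo1 : (F.P1.map (fun h => if h < F.lo then 1 else 0)).sum ≤ F.k1
  deg0 : (F.M0.map (fun h => F.C - 2 * h)).sum ≤ (F.P0.map (fun h => F.C - 2 * h)).sum
  deg1 : (F.M1.map (fun h => F.C - 2 * h)).sum ≤ (F.P1.map (fun h => F.C - 2 * h)).sum

end Fam

theorem map_getD_range (l r : List ℕ) :
    (Multiset.range l.length).map (fun i => (l ++ r).getD i 0) = (l : Multiset ℕ) := by
  rw [← Multiset.coe_range, Multiset.map_coe]
  congr 1
  apply List.ext_getElem
  · simp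
  · intro i h1 h2
    simp only [List.getElem_map, List.getElem_range]
    rw [List.getD_eq_getElem?_getD, List.getElem?_append_left h2, List.getElem?_eq_getElem h2]
    rfl

theorem map_getD_Ico (l r : List ℕ) :
    (Finset.Ico l.length (l.length + r.length)).val.map (fun i => (l ++ r).getD i 0) =
      (r : Multiset ℕ) := by
  have h1 : (Finset.Ico l.length (l.length + r.length)).val =
      ((List.range r.length).map (fun i => l.length + i) : Multiset ℕ) := by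
    rw [Nat.Ico_eq_range', ← List.range'_eq_map_range, Nat.add_sub_cancel_left]
  rw [h1, Multiset.map_coe, List.map_map]
  congr 1
  apply List.ext_getElem
  · simp
  · intro i h1 h2
    simp only [List.getElem_map, List.getElem_range, Function.comp]
    rw [List.getD_eq_getElem?_getD, List.getElem?_append_right (Nat.le_add_right _ _),
      Nat.add_sub_cancel_left, List.getElem?_eq_getElem h2]
    rfl

theorem lists_ofL (C k A s lo : ℕ) (PL ML : List ℕ) (hC : 0 < C)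
    (hlt : ∀ h ∈ PL ++ ML, 2 * h < C) : Lists (ofL C k A s lo PL ML) PL ML where
  P_eq := map_getD_Ico ML PL
  M_eq := map_getD_range ML PL
  lt := hlt
  Cpos := hC

theorem mem_flatten_replicate {j x : ℕ} {l : List ℕ} (h : x ∈ (List.replicate j l).flatten) :
    x ∈ l := by
  rw [List.mem_flatten] at h
  obtain ⟨t, ht, hx⟩ := h
  rwa [List.eq_of_mem_replicate ht] at hx

theorem sum_flatten_replicate {α : Type*} [AddCommMonoid α] (j : ℕ) (l : List ℕ) (f : ℕ → α) :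
    ((List.replicate j l).flatten.map f).sum = j • (l.map f).sum := by
  induction j with
  | zero => simp
  | succ j ih =>
    rw [List.replicate_succ, List.flatten_cons, List.map_append, List.sum_append, ih, succ_nsmul']

theorem length_flatten_replicate (j : ℕ) (l : List ℕ) :
    ((List.replicate j l).flatten).length = l.length * j := by
  rw [List.length_flatten, List.map_replicate, List.sum_replicate, smul_eq_mul, Nat.mul_comm]

namespace Fam

variable {F : Fam}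

theorem mem_PL {j x : ℕ} (h : x ∈ F.PL j) : x ∈ F.P0 ++ F.P1 := by
  unfold PL at h
  rw [List.mem_append] at h ⊢
  exact h.imp id mem_flatten_replicate

theorem mem_ML {j x : ℕ} (h : x ∈ F.ML j) : x ∈ F.M0 ++ F.M1 := by
  unfold ML at h
  rw [List.mem_append] at h ⊢
  exact h.imp id mem_flatten_replicate

theorem mem_UL (hF : F.OK) {j x : ℕ} (h : x ∈ F.PL j ++ F.ML j) : x ∈ F.UL := by
  apply hF.AU
  rw [List.mem_append] at h ⊢
  exact h.imp mem_PL mem_ML

theorem Cpos (hF : F.OK) : 0 < F.C := by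
  have := hF.lt F.s (hF.AU F.s (List.mem_append_left _ (List.mem_append_left _ hF.smem)))
  omega

theorem lists (hF : F.OK) (j : ℕ) : Lists (F.D j) (F.PL j) (F.ML j) :=
  lists_ofL _ _ _ _ _ _ _ (Cpos hF) fun h hh => hF.lt h (mem_UL hF hh)

/-- sums over the pole blocks of `D j` -/
theorem sumPj (hF : F.OK) {α : Type*} [AddCommMonoid α] (j : ℕ) (f : ℕ → α) :
    ∑ i ∈ (F.D j).P, f ((F.D j).h i) = (F.P0.map f).sum + j • (F.P1.map f).sum := by
  have h1 : ∑ i ∈ (F.D j).P, f ((F.D j).h i) = (((F.D j).P.val.map (F.D j).h).map f).sum := by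
    rw [Multiset.map_map]
    rfl
  rw [h1, (lists hF j).P_eq, Multiset.map_coe, Multiset.sum_coe]
  unfold PL
  rw [List.map_append, List.sum_append, sum_flatten_replicate]

/-- sums over the zero blocks of `D j` -/
theorem sumMj (hF : F.OK) {α : Type*} [AddCommMonoid α] (j : ℕ) (f : ℕ → α) :
    ∑ i ∈ (F.D j).M, f ((F.D j).h i) = (F.M0.map f).sum + j • (F.M1.map f).sum := by
  have h1 : ∑ i ∈ (F.D j).M, f ((F.D j).h i) = (((F.D j).M.val.map (F.D j).h).map f).sum := by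
    rw [Multiset.map_map]
    rfl
  rw [h1, (lists hF j).M_eq, Multiset.map_coe, Multiset.sum_coe]
  unfold ML
  rw [List.map_append, List.sum_append, sum_flatten_replicate]

theorem h_mem_Pj (hF : F.OK) {j i : ℕ} (hi : i ∈ (F.D j).P) : (F.D j).h i ∈ F.P0 ++ F.P1 :=
  mem_PL (h_mem_P (lists hF j) hi)

theorem h_mem_Mj (hF : F.OK) {j i : ℕ} (hi : i ∈ (F.D j).M) : (F.D j).h i ∈ F.M0 ++ F.M1 := by
  have h1 : (F.D j).h i ∈ (F.D j).M.val.map (F.D j).h := Multiset.mem_map_of_mem _ hi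
  rw [(lists hF j).M_eq] at h1
  exact mem_ML h1

theorem length_PL (F : Fam) (j : ℕ) : (F.PL j).length = F.P0.length + F.P1.length * j := by
  unfold PL
  rw [List.length_append, length_flatten_replicate]

theorem length_ML (F : Fam) (j : ℕ) : (F.ML j).length = F.M0.length + F.M1.length * j := by
  unfold ML
  rw [List.length_append, length_flatten_replicate]

theorem cardPj (F : Fam) (j : ℕ) : (F.D j).P.card = F.P0.length + F.P1.length * j := by
  show (Finset.Ico (F.ML j).length ((F.ML j).length + (F.PL j).length)).card = _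
  rw [Nat.card_Ico, Nat.add_sub_cancel_left, length_PL]

theorem cardMj (F : Fam) (j : ℕ) : (F.D j).M.card = F.M0.length + F.M1.length * j := by
  show (Finset.range (F.ML j).length).card = _
  rw [Finset.card_range, length_ML]

theorem OKj (hF : F.OK) (j : ℕ) : (F.D j).OK where
  keven := hF.k0even.add (hF.k1even.mul_right j)
  kpos := le_trans hF.k0pos (Nat.le_add_right _ _)
  cardM := by
    rw [cardMj, hF.lM0, hF.lM1]
    show F.k0 + 1 + F.k1 * j = F.k0 + F.k1 * j + 1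
    ring
  cardP := by
    rw [cardMj, cardPj, hF.lM0, hF.lM1, hF.lP0, hF.lP1]
    show F.k0 + 1 + F.A0 + (F.k1 + F.A1) * j = F.k0 + 1 + F.k1 * j + (F.A0 + F.A1 * j)
    ring
  Aeven := hF.A0even.add (hF.A1even.mul_right j)
  A4 := le_trans hF.A4 (Nat.le_add_right _ _)
  P_ge := fun i hi => hF.Pge _ (hF.PU _ (h_mem_Pj hF hi))
  P_lt := fun i hi => hF.lt _ (hF.AU _ (List.mem_append_left _ (h_mem_Pj hF hi)))
  M_lt := fun i hi => hF.Mlt _ (h_mem_Mj hF hi)
  s_le := hF.Pge _ (hF.PU _ (List.mem_append_left _ hF.lomem))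
  lo_lt := hF.lt _ (hF.AU _ (List.mem_append_left _ (List.mem_append_left _ hF.lomem)))
  lo_ok := by
    show #{i ∈ (F.D j).P | (F.D j).h i < F.lo} ≤ F.k0 + F.k1 * j + 1
    rw [Finset.card_filter, sumPj hF j (fun h => if h < F.lo then 1 else 0), smul_eq_mul]
    have h1 := Nat.mul_le_mul_left j hF.lo1
    have h0 := hF.lo0
    rw [Nat.mul_comm j F.k1] at h1
    omega
  deg := by
    show ∑ i ∈ (F.D j).M, (F.C - 2 * (F.D j).h i) ≤ ∑ i ∈ (F.D j).P, (F.C - 2 * (F.D j).h i)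
    rw [sumPj hF j (fun h => F.C - 2 * h), sumMj hF j (fun h => F.C - 2 * h), smul_eq_mul, smul_eq_mul]
    have h1 := Nat.mul_le_mul_left j hF.deg1
    have h0 := hF.deg0
    omega

theorem smem' (hF : F.OK) (j : ℕ) : (F.D j).s ∈ F.PL j := List.mem_append_left _ hF.smem

theorem lomem' (hF : F.OK) (j : ℕ) : (F.D j).lo ∈ F.PL j := List.mem_append_left _ hF.lomem

theorem hs0 (hF : F.OK) (j : ℕ) : ∃ i ∈ (F.D j).P, (F.D j).h i = (F.D j).s := by
  have h1 : (F.D j).s ∈ (F.D j).P.val.map (F.D j).h := by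
    rw [(lists hF j).P_eq]
    exact smem' hF j
  rw [Multiset.mem_map] at h1
  exact h1

end Fam

/-! ### cell checks -/

/-- one threshold -/
def oktF (F : Fam) (a b X0 X1 t : ℕ) : Bool :=
  (Nat.ble 128 (X0 / 256 ^ t % 256) ||
    (Nat.beq 127 (X0 / 256 ^ t % 256) && selfb F.C F.UL [] a b t)) &&
    Nat.ble 128 (X1 / 256 ^ t % 256)

/-- check of the periodic cell with test point `a / b`, values `d0 + j d1` -/
def okPerF (F : Fam) (a b d0 d1 : ℕ) : Bool :=
  F.OU.all fun o => oktF F a b (XX F.C F.k0 F.P0 F.M0 a b d0) (XX F.C F.k1 F.P1 F.M1 a b d1)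
    ((o * a) % b)

/-- one threshold, explicit range -/
def okFF (F : Fam) (a b d0 d1 X0 X1 Y t : ℕ) : Bool :=
  !(Nat.ble ((F.lo * a) / b + 1) (Y + stb a b t F.lo) &&
    Nat.ble (Y + enb F.C a b t F.lo) (((F.C - F.lo) * a) / b)) ||
  (oktF F a b X0 X1 t ||
  (Nat.ble (Y + stb a b t F.s) ((F.s * a) / b + 1) &&
    ((Nat.ble 127 (X0 / 256 ^ t % 256 + F.k0) && Nat.ble 128 (X1 / 256 ^ t % 256 + F.k1)) ||
      (Nat.ble (sFl' F.C a b F.M0 + sFl a b F.P0 + kabS F.C a b F.P0)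
          (d0 + sFl' F.C a b F.P0 + sFl a b F.M0 + kabS F.C a b F.M0) &&
        (Nat.ble (sFl' F.C a b F.M1 + sFl a b F.P1 + kabS F.C a b F.P1)
          (d1 + sFl' F.C a b F.P1 + sFl a b F.M1 + kabS F.C a b F.M1) &&
            F.UP.all (noPb F.C a b Y t))))))

def okFullF (F : Fam) (Ym a b d0 d1 : ℕ) : Bool :=
  (List.range (Ym + 1)).all fun Y => F.OU.all fun o =>
    okFF F a b d0 d1 (XX F.C F.k0 F.P0 F.M0 a b d0) (XX F.C F.k1 F.P1 F.M1 a b d1) Y ((o * a) % b)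

def roomF (F : Fam) (d0 d1 : ℕ) : Bool := room F.k0 F.P0 F.M0 d0 && room F.k1 F.P1 F.M1 d1

theorem arcSum_j (F : Fam) (j a b t : ℕ) : arcSum F.C (F.PL j) (F.ML j) a b t =
    arcSum F.C F.P0 F.M0 a b t + j * arcSum F.C F.P1 F.M1 a b t := by
  unfold arcSum Fam.PL Fam.ML
  rw [List.map_append, List.sum_append, sum_flatten_replicate, List.map_append, List.sum_append,
    sum_flatten_replicate]
  simp only [nsmul_eq_mul]
  ring

variable {F : Fam}

theorem mem_OU_of (hF : F.OK) {j o : ℕ} (h : o ∈ Ol F.C (F.PL j) (F.ML j)) : o ∈ F.OU := by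
  unfold Ol at h
  rw [List.mem_cons, List.mem_append, List.mem_map] at h
  rcases h with rfl | h | ⟨x, hx, rfl⟩
  · exact hF.OUz
  · exact (hF.OUm o (Fam.mem_UL hF h)).1
  · exact (hF.OUm x (Fam.mem_UL hF hx)).2

theorem selfA_j (hF : F.OK) {j a b t : ℕ} (h : selfA F.C F.UL [] a b t) :
    selfA F.C (F.PL j) (F.ML j) a b t := by
  have hm : ∀ x ∈ F.PL j ++ F.ML j, x ∈ F.UL ++ [] := by
    intro x hx
    rw [List.append_nil]
    exact Fam.mem_UL hF hx
  exact fun x hx y hy => h x (hm x hx) y (hm y hy)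

/-- auxiliary data whose lists are `UL`, `[]` -/
theorem listsU (hF : F.OK) : Lists (ofL F.C 0 0 0 0 F.UL []) F.UL [] := by
  apply lists_ofL _ _ _ _ _ _ _ (Fam.Cpos hF)
  intro h hh
  rw [List.append_nil] at hh
  exact hF.lt h hh

theorem oktF_spec (hF : F.OK) {a b d0 d1 t : ℕ} (j : ℕ) (hr : roomF F d0 d1 = true) (ht : t < b)
    (h : oktF F a b (XX F.C F.k0 F.P0 F.M0 a b d0) (XX F.C F.k1 F.P1 F.M1 a b d1) t = true) :
    arcSum F.C (F.PL j) (F.ML j) a b t + (F.D j).k ≤ ((d0 + j * d1 : ℕ) : ℤ) ∨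
      (selfA F.C (F.PL j) (F.ML j) a b t ∧
        arcSum F.C (F.PL j) (F.ML j) a b t + (F.D j).k ≤ ((d0 + j * d1 : ℕ) : ℤ) + 1) := by
  unfold roomF at hr
  rw [Bool.and_eq_true] at hr
  have hk : (((F.D j).k : ℕ) : ℤ) = F.k0 + j * F.k1 := by
    show (((F.k0 + F.k1 * j : ℕ)) : ℤ) = _
    push_cast
    ring
  rw [arcSum_j, hk]
  unfold oktF at h
  rw [Bool.and_eq_true, Bool.or_eq_true, Bool.and_eq_true] at h
  have g0 := XX_digit (C := F.C) (k := F.k0) (PL := F.P0) (ML := F.M0) (a := a) hr.1 ht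
  have g1 := XX_digit (C := F.C) (k := F.k1) (PL := F.P1) (ML := F.M1) (a := a) hr.2 ht
  obtain ⟨h, h1⟩ := h
  have h1 := Nat.le_of_ble_eq_true h1
  have e1 : arcSum F.C F.P1 F.M1 a b t + F.k1 ≤ (d1 : ℤ) := by omega
  have e1' : (j : ℤ) * (arcSum F.C F.P1 F.M1 a b t + F.k1) ≤ j * (d1 : ℤ) :=
    mul_le_mul_of_nonneg_left e1 (Int.natCast_nonneg j)
  rcases h with h | ⟨h, h'⟩
  · left
    have h := Nat.le_of_ble_eq_true h
    have e0 : arcSum F.C F.P0 F.M0 a b t + F.k0 ≤ (d0 : ℤ) := by omega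
    push_cast
    linarith
  · right
    refine ⟨selfA_j hF (selfA_of (listsU hF) h'), ?_⟩
    have h := Nat.eq_of_beq_eq_true h
    have e0 : arcSum F.C F.P0 F.M0 a b t + F.k0 ≤ (d0 : ℤ) + 1 := by omega
    push_cast
    linarith

theorem perF (hF : F.OK) {a b d0 d1 : ℕ} (j : ℕ) (hb : 0 < b) (hr : roomF F d0 d1 = true)
    (h : okPerF F a b d0 d1 = true) : PerOK (F.D j) a b (d0 + j * d1) := by
  intro n p l hp hS
  apply bnd_per (Fam.lists hF j) l hp hb hS
  intro o ho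
  unfold okPerF at h
  rw [List.all_eq_true] at h
  exact oktF_spec hF j hr (Nat.mod_lt _ hb) (h o (mem_OU_of hF ho))

theorem Eint_j (F : Fam) (j a b : ℕ) : Eint F.C (F.PL j) (F.ML j) a b =
    Eint F.C F.P0 F.M0 a b + j * Eint F.C F.P1 F.M1 a b := by
  unfold Eint
  simp only [kabS_eq, sFl_eq, sFl'_eq]
  unfold Fam.PL Fam.ML
  simp only [List.map_append, List.sum_append, sum_flatten_replicate, nsmul_eq_mul]
  ring

theorem fullF (hF : F.OK) {a b d0 d1 Ym : ℕ} (j : ℕ) (hb : 0 < b) (hr : roomF F d0 d1 = true)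
    (h : okFullF F Ym a b d0 d1 = true) : FullOK (F.D j) Ym a b (d0 + j * d1) := by
  intro n p l hp hnp hS hl hYm
  obtain ⟨o, ho, H⟩ := key (Fam.lists hF j) l hp hb hS
  have hN : n / p = 0 := Nat.div_eq_of_lt hnp
  apply bnd_full_sem (Fam.lists hF j) (Fam.smem' hF j) (Fam.lomem' hF j) hp H hN hl
  unfold okFullF at h
  rw [List.all_eq_true] at h
  have h3 := h (l / p) (List.mem_range.2 (by omega))
  rw [List.all_eq_true] at h3
  have hok := h3 o (mem_OU_of hF ho)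
  have ht : al a b o < b := Nat.mod_lt _ hb
  change okFF F a b d0 d1 (XX F.C F.k0 F.P0 F.M0 a b d0) (XX F.C F.k1 F.P1 F.M1 a b d1) (l / p)
    (al a b o) = true at hok
  unfold okFF at hok
  rw [Bool.or_eq_true, Bool.or_eq_true, Bool.and_eq_true, Bool.or_eq_true, Bool.and_eq_true,
    Bool.and_eq_true, Bool.and_eq_true, Bool.not_eq_true', Bool.and_eq_false_iff] at hok
  rcases hok with hok | hok | ⟨hok1, hok2⟩
  · left
    have e1 := stb_eq a b (al a b o) F.lo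
    have e2 := enb_eq F.C a b (al a b o) F.lo
    show ¬ (0 ≤ ((l / p : ℕ) : ℤ) - fl a b F.lo - 1 + St a b (al a b o) F.lo ∧
        0 ≤ (fl a b (F.C - F.lo) : ℤ) - ((l / p : ℕ) : ℤ) - En F.C a b (al a b o) F.lo)
    rw [← e1, ← e2]
    unfold fl
    rcases hok with hok | hok
    · have : ¬ ((F.lo * a) / b + 1 ≤ l / p + stb a b (al a b o) F.lo) := by
        intro h3
        rw [Nat.ble_eq_true_of_le h3] at hok
        exact Bool.noConfusion hok
      omega
    · have : ¬ (l / p + enb F.C a b (al a b o) F.lo ≤ ((F.C - F.lo) * a) / b) := by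
        intro h3
        rw [Nat.ble_eq_true_of_le h3] at hok
        exact Bool.noConfusion hok
      omega
  · right
    left
    exact oktF_spec hF j hr ht hok
  · right
    right
    unfold roomF at hr
    rw [Bool.and_eq_true] at hr
    have g0 := XX_digit (C := F.C) (k := F.k0) (PL := F.P0) (ML := F.M0) (a := a) hr.1 ht
    have g1 := XX_digit (C := F.C) (k := F.k1) (PL := F.P1) (ML := F.M1) (a := a) hr.2 ht
    constructor
    · have e1 := stb_eq a b (al a b o) F.s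
      show ((l / p : ℕ) : ℤ) - fl a b F.s - 1 + St a b (al a b o) F.s < 1
      rw [← e1]
      unfold fl
      have h3 := Nat.le_of_ble_eq_true hok1
      omega
    · rcases hok2 with ⟨h6, h6'⟩ | ⟨h6, h7, h8⟩
      · left
        show arcSum F.C (F.PL j) (F.ML j) a b (al a b o) ≤ _
        rw [arcSum_j]
        have h6 := Nat.le_of_ble_eq_true h6
        have h6' := Nat.le_of_ble_eq_true h6'
        have e0 : arcSum F.C F.P0 F.M0 a b (al a b o) ≤ (d0 : ℤ) + 1 := by omega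
        have e1 : arcSum F.C F.P1 F.M1 a b (al a b o) ≤ (d1 : ℤ) := by omega
        have e1' := mul_le_mul_of_nonneg_left e1 (Int.natCast_nonneg j)
        push_cast
        linarith
      · right
        refine ⟨?_, ?_⟩
        · show - Eint F.C (F.PL j) (F.ML j) a b ≤ _
          rw [Eint_j]
          have h6 := Nat.le_of_ble_eq_true h6
          have h7 := Nat.le_of_ble_eq_true h7
          have e0 : - Eint F.C F.P0 F.M0 a b ≤ (d0 : ℤ) := by unfold Eint; omega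
          have e1 : - Eint F.C F.P1 F.M1 a b ≤ (d1 : ℤ) := by unfold Eint; omega
          have e1' := mul_le_mul_of_nonneg_left e1 (Int.natCast_nonneg j)
          push_cast
          linarith
        · intro x hx
          rw [List.all_eq_true] at h8
          exact h8 x (hF.PU x (Fam.mem_PL hx))

/-! ### table entries `(a1, b1, a2, b2, d0, d1)` with value `d0 + j d1` -/

def vj (j : ℕ) (e : ℕ × ℕ × ℕ × ℕ × ℕ × ℕ) : ℕ × ℕ × ℕ × ℕ × ℕ :=
  (e.1, e.2.1, e.2.2.1, e.2.2.2.1, e.2.2.2.2.1 + j * e.2.2.2.2.2)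
def v0 (e : ℕ × ℕ × ℕ × ℕ × ℕ × ℕ) : ℕ × ℕ × ℕ × ℕ × ℕ :=
  (e.1, e.2.1, e.2.2.1, e.2.2.2.1, e.2.2.2.2.1)
def v1 (e : ℕ × ℕ × ℕ × ℕ × ℕ × ℕ) : ℕ × ℕ × ℕ × ℕ × ℕ :=
  (e.1, e.2.1, e.2.2.1, e.2.2.2.1, e.2.2.2.2.2)

def cellP (F : Fam) (e : ℕ × ℕ × ℕ × ℕ × ℕ × ℕ) : Bool :=
  sameb F.C e.1 e.2.1 e.2.2.1 e.2.2.2.1 && (roomF F e.2.2.2.2.1 e.2.2.2.2.2 &&
    okPerF F (e.1 + e.2.2.1) (e.2.1 + e.2.2.2.1) e.2.2.2.2.1 e.2.2.2.2.2)

def cellF (F : Fam) (Ym : ℕ) (e : ℕ × ℕ × ℕ × ℕ × ℕ × ℕ) : Bool :=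
  sameb F.C e.1 e.2.1 e.2.2.1 e.2.2.2.1 && (roomF F e.2.2.2.2.1 e.2.2.2.2.2 &&
    okFullF F Ym (e.1 + e.2.2.1) (e.2.1 + e.2.2.2.1) e.2.2.2.2.1 e.2.2.2.2.2)

theorem cellP_spec (hF : F.OK) {e : ℕ × ℕ × ℕ × ℕ × ℕ × ℕ} (j : ℕ) (h : cellP F e = true) :
    CellP (F.D j) (vj j e) := by
  unfold cellP at h
  rw [Bool.and_eq_true, Bool.and_eq_true] at h
  obtain ⟨h1, h2, h3⟩ := h
  have h4 := sameb_iff h1
  have h5 : 0 < e.2.1 + e.2.2.2.1 := by omega
  exact ⟨h1, perF hF j h5 h2 h3⟩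

theorem cellF_spec (hF : F.OK) {Ym : ℕ} {e : ℕ × ℕ × ℕ × ℕ × ℕ × ℕ} (j : ℕ)
    (h : cellF F Ym e = true) : CellF (F.D j) Ym (vj j e) := by
  unfold cellF at h
  rw [Bool.and_eq_true, Bool.and_eq_true] at h
  obtain ⟨h1, h2, h3⟩ := h
  have h4 := sameb_iff h1
  have h5 : 0 < e.2.1 + e.2.2.2.1 := by omega
  exact ⟨h1, fullF hF j h5 h2 h3⟩

theorem chain_vj (j : ℕ) (l : List (ℕ × ℕ × ℕ × ℕ × ℕ × ℕ)) : ∀ s1 s2 t1 t2 : ℕ,
    chain s1 s2 (l.map (vj j)) t1 t2 = chain s1 s2 (l.map v0) t1 t2 := by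
  induction l with
  | nil => intros; rfl
  | cons e l ih =>
    intro s1 s2 t1 t2
    simp only [List.map_cons, chain, vj, v0]
    rw [ih]

theorem sumUb_vj (j N : ℕ) (l : List (ℕ × ℕ × ℕ × ℕ × ℕ × ℕ)) :
    sumUb N (l.map (vj j)) = sumUb N (l.map v0) + j * sumUb N (l.map v1) := by
  induction l with
  | nil => rfl
  | cons e l ih =>
    have h : ∀ f : (ℕ × ℕ × ℕ × ℕ × ℕ × ℕ) → (ℕ × ℕ × ℕ × ℕ × ℕ),
        sumUb N ((e :: l).map f) = ub N (f e) + sumUb N (l.map f) := fun f => rfl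
    rw [h, h, h, ih]
    simp only [ub, vj, v0, v1]
    ring

/-- the table theorem of a family -/
theorem sum_bound_fam (hF : F.OK) {T0 T1a T1b : List (ℕ × ℕ × ℕ × ℕ × ℕ × ℕ)} {u v Ym : ℕ} (c : ℕ)
    (huv : u ≤ v) (hv : 0 < v) (hY : (F.C - F.lo) * u ≤ (Ym + 1) * v)
    (h0 : T0.all (cellF F Ym) = true) (h1a : T1a.all (cellP F) = true)
    (h1b : T1b.all (cellP F) = true)
    (c0 : chain 1 F.C (T0.map v0) u v = true) (c1b : chain u v (T1b.map v0) 1 1 = true)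
    (c1 : chain 0 1 ((T1a ++ T1b).map v0) 1 1 = true)
    (hp0 : T0.all (fun e => Nat.blt 0 e.1) = true) (hp1 : T1b.all (fun e => Nat.blt 0 e.1) = true)
    (B00 B01 B10 B11 : ℕ) (Bf0 Bf1 : ℕ → ℕ)
    (n00 : sumUb 0 (T0.map v0) ≤ B00) (n01 : sumUb 0 (T0.map v1) ≤ B01)
    (n10 : sumUb 0 (T1b.map v0) ≤ B10) (n11 : sumUb 0 (T1b.map v1) ≤ B11)
    (nf0 : ∀ i < c, sumUb (i + 1) ((T1a ++ T1b).map v0) ≤ Bf0 i)
    (nf1 : ∀ i < c, sumUb (i + 1) ((T1a ++ T1b).map v1) ≤ Bf1 i)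
    {be0 be1 : ℝ}
    (hbe0 : ((B00 + B10 + ∑ i ∈ Finset.range c, Bf0 i : ℕ) : ℝ) / 1000000000 +
      ((F.P0.length + F.k0 : ℕ) : ℝ) / ((c + 1 : ℕ) : ℝ) < be0)
    (hbe1 : ((B01 + B11 + ∑ i ∈ Finset.range c, Bf1 i : ℕ) : ℝ) / 1000000000 +
      ((F.P1.length + F.k1 : ℕ) : ℝ) / ((c + 1 : ℕ) : ℝ) ≤ be1) (j : ℕ) :
    ∃ d : ℕ → ℕ → ℕ, ∃ N : ℕ, ∀ n ≥ N, n.Prime →
      (∀ p : ℕ, p.Prime → p ≠ n → (F.D j).C * n < p ^ 2 → p ≤ (F.D j).C * n →
        ∀ l ∈ poles (F.D j) n, bnd (F.D j) n l p ≤ d n p) ∧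
      ∑ p ∈ (Finset.Icc 1 ((F.D j).C * n)).filter
          (fun p => p.Prime ∧ (F.D j).C * n < p ^ 2 ∧ p ≠ n),
        (d n p : ℝ) * Real.log p ≤ (be0 + j * be1 : ℝ) * n := by
  have happ : (T1a ++ T1b).map (vj j) = T1a.map (vj j) ++ T1b.map (vj j) := List.map_append
  refine sum_bound_sem (D := F.D j) (T0 := T0.map (vj j)) (T1a := T1a.map (vj j))
    (T1b := T1b.map (vj j)) (Fam.lists hF j) (Fam.lomem' hF j) (u := u) (v := v) (Ym := Ym) c
    huv hv hY ?_ ?_ ?_ ?_ ?_ ?_ ?_ (B00 + j * B01) (B10 + j * B11)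
    (fun i => Bf0 i + j * Bf1 i) ?_ ?_ ?_ ?_
  · intro e he
    rw [List.mem_map] at he
    obtain ⟨e, he, rfl⟩ := he
    rw [List.all_eq_true] at h0
    exact cellF_spec hF j (h0 e he)
  · intro e he
    rw [← happ, List.mem_map] at he
    obtain ⟨e, he, rfl⟩ := he
    rw [List.mem_append] at he
    rw [List.all_eq_true] at h1a h1b
    rcases he with he | he
    · exact cellP_spec hF j (h1a e he)
    · exact cellP_spec hF j (h1b e he)
  · show chain 1 F.C _ _ _ = true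
    rw [chain_vj]
    exact c0
  · rw [chain_vj]
    exact c1b
  · rw [← happ, chain_vj]
    exact c1
  · intro e he
    rw [List.mem_map] at he
    obtain ⟨e, he, rfl⟩ := he
    rw [List.all_eq_true] at hp0
    have := hp0 e he
    rwa [Nat.blt_eq] at this
  · intro e he
    rw [List.mem_map] at he
    obtain ⟨e, he, rfl⟩ := he
    rw [List.all_eq_true] at hp1
    have := hp1 e he
    rwa [Nat.blt_eq] at this
  · rw [sumUb_vj]
    exact Nat.add_le_add n00 (Nat.mul_le_mul_left _ n01)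
  · rw [sumUb_vj]
    exact Nat.add_le_add n10 (Nat.mul_le_mul_left _ n11)
  · intro i hi
    rw [← happ, sumUb_vj]
    exact Nat.add_le_add (nf0 i hi) (Nat.mul_le_mul_left _ (nf1 i hi))
  · rw [Fam.length_PL, Finset.sum_add_distrib, ← Finset.mul_sum]
    have hk : (F.D j).k = F.k0 + F.k1 * j := rfl
    rw [hk]
    have hj : (0 : ℝ) ≤ j := Nat.cast_nonneg j
    have h1 := mul_le_mul_of_nonneg_left hbe1 hj
    have e : (((B00 + j * B01 + (B10 + j * B11) +
        (∑ i ∈ Finset.range c, Bf0 i + j * ∑ i ∈ Finset.range c, Bf1 i) : ℕ)) : ℝ) / 1000000000 +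
        (((F.P0.length + F.P1.length * j + (F.k0 + F.k1 * j) : ℕ)) : ℝ) / ((c + 1 : ℕ) : ℝ) =
        (((B00 + B10 + ∑ i ∈ Finset.range c, Bf0 i : ℕ) : ℝ) / 1000000000 +
          ((F.P0.length + F.k0 : ℕ) : ℝ) / ((c + 1 : ℕ) : ℝ)) +
        j * (((B01 + B11 + ∑ i ∈ Finset.range c, Bf1 i : ℕ) : ℝ) / 1000000000 +
          ((F.P1.length + F.k1 : ℕ) : ℝ) / ((c + 1 : ℕ) : ℝ)) := by
      push_cast
      ring
    rw [e]
    linarith

end Pool.Agent.OddZetaG
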