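import Pool.Agent.OddZetaG.NvPole

/-!
Nonvanishing, `p`-adically at the prime `n = p` (generic construction).
Seat: helper7.
-/

open Finset

namespace Pool.Agent.OddZetaG

open Pool.Agent.OddZeta (PInt PCong p_inv_nonneg padicNorm_self padicNorm_inv pint_one pint_add
  pint_mul pint_C pint_X pint_prod pint_inv pcong_refl pcong_symm pcong_trans coeff_mul_le pcong_mul
  pint_of_pcong_one p_inv_lt_one norm_eq_one_of_close constantCoeff_norm_of_pcong_one
  ne_zero_of_norm_one pcong_one_prod pcong_one_inv ps_prod_inv rescale_inv rescale_C rescale_X')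

variable {D : Dat} {p : ℕ} [hp : Fact p.Prime]

theorem norm_sub_eq_one {m j : ℕ} (hm : m ≤ D.C) (hj : j ≤ D.C) (hmj : m ≠ j) (hpC : D.C < p) :
    padicNorm p ((m : ℚ) - j) = 1 := by
  have h1 := (padicNorm.int_eq_one_iff (p := p) ((m : ℤ) - j)).2 (by
    intro h
    have h2 : (m : ℤ) - j ≠ 0 := by
      intro h3; apply hmj; omega
    have h4 := Int.le_of_dvd (b := |(m : ℤ) - j|) (abs_pos.2 h2) ((dvd_abs _ _).2 h)
    have h5 : |(m : ℤ) - j| ≤ D.C := abs_le.2 ⟨by omega, by omega⟩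
    omega)
  simpa using h1

theorem pint_two : PInt p (2 : PowerSeries ℚ) := by
  have h2 : (2 : PowerSeries ℚ) = PowerSeries.C 2 := by rw [map_ofNat]
  rw [h2]
  have := padicNorm.of_nat (p := p) 2
  exact pint_C (by simpa using this)

theorem B1_int {h j : ℕ} (hj : j ≤ D.C) (hpC : D.C < p) : PInt p (B D 1 h j) := by
  unfold B
  refine pint_prod _ _ ?_
  intro m hm
  rw [Finset.mem_erase, blk, Finset.mem_Icc] at hm
  refine pint_add (pint_C ?_) pint_X
  rw [norm_sub_eq_one (by omega) hj hm.1 hpC]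

theorem B1_const {h j : ℕ} (hj : j ≤ D.C) (hpC : D.C < p) :
    padicNorm p (PowerSeries.constantCoeff (B D 1 h j)) = 1 := by
  unfold B
  rw [map_prod]
  have : ∀ m ∈ (blk D 1 h).erase j, padicNorm p (PowerSeries.constantCoeff
      (PowerSeries.C ((m : ℚ) - (j : ℚ)) + PowerSeries.X)) = 1 := by
    intro m hm
    rw [Finset.mem_erase, blk, Finset.mem_Icc] at hm
    simp only [map_add, PowerSeries.constantCoeff_C, PowerSeries.constantCoeff_X, add_zero]
    exact norm_sub_eq_one (by omega) hj hm.1 hpC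
  generalize (blk D 1 h).erase j = s at this
  induction s using Finset.induction_on with
  | empty => simp
  | insert i s his ih =>
    rw [Finset.prod_insert his, padicNorm.mul, this i (Finset.mem_insert_self _ _),
      ih (fun m hm => this m (Finset.mem_insert_of_mem hm)), one_mul]

theorem fact_norm {h : ℕ} (hpC : D.C < p) : padicNorm p (((Nl D 1 h).factorial : ℚ)⁻¹) = 1 := by
  rw [padicNorm_inv]
  have : padicNorm p ((Nl D 1 h).factorial : ℚ) = 1 := by
    refine norm_of_not_dvd ?_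
    intro h1
    have h2 := (Nat.Prime.dvd_factorial hp.out).1 h1
    unfold Nl at h2
    omega
  rw [this, inv_one]

theorem G1_int {h j : ℕ} (hj : j ≤ D.C) (hpC : D.C < p) : PInt p (G D 1 h j) :=
  pint_mul (B1_int hj hpC) (pint_C (fact_norm hpC).le)

theorem G1_const {h j : ℕ} (hj : j ≤ D.C) (hpC : D.C < p) :
    padicNorm p (PowerSeries.constantCoeff (G D 1 h j)) = 1 := by
  unfold G
  rw [map_mul, padicNorm.mul, B1_const hj hpC, PowerSeries.constantCoeff_C, fact_norm hpC, one_mul]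

theorem F1_int {j : ℕ} (hj : j ≤ D.C) (hpC : D.C < p) : PInt p (F D 1 j) := by
  rw [F_eq]
  refine pint_mul (pint_mul ?_ ?_) ?_
  · refine pint_add (pint_C ?_) (pint_mul pint_two pint_X)
    have := padicNorm.of_int (p := p) (D.C - 2 * (j : ℤ))
    simpa using this
  · exact pint_prod _ _ (fun i _ => G1_int hj hpC)
  · rw [ps_prod_inv]
    exact pint_prod _ _ (fun i _ => pint_inv (G1_int hj hpC) (G1_const hj hpC))

theorem a1_int {j i : ℕ} (hj : j ≤ D.C) (hpC : D.C < p) : padicNorm p (a D 1 j i) ≤ 1 := by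
  unfold a
  split_ifs
  · exact F1_int hj hpC _
  · rw [padicNorm.zero]; norm_num

theorem inv_pow_norm_le {m s : ℕ} (hm : ¬ p ∣ m) : padicNorm p (1 / (m : ℚ) ^ s) ≤ 1 := by
  rw [padicNorm.div, padicNorm.one]
  have : padicNorm p ((m : ℚ) ^ s) = 1 := by
    rw [← Nat.cast_pow]
    refine norm_of_not_dvd ?_
    intro h
    exact hm (hp.out.dvd_of_dvd_pow h)
  rw [this, div_one]

theorem Hs_int {s M : ℕ} (hM : M < p) : padicNorm p (Hs s M) ≤ 1 := by
  unfold Hs
  refine padicNorm.sum_le' ?_ zero_le_one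
  intro m hm
  rw [Finset.mem_Icc] at hm
  refine inv_pow_norm_le ?_
  intro h
  have := Nat.le_of_dvd (by omega) h
  omega

omit hp in
theorem icc_filter_dvd' (hp0 : 0 < p) (M : ℕ) :
    (Finset.Icc 1 (p * M)).filter (fun m => p ∣ m) = (Finset.Icc 1 M).image (fun m => p * m) := by
  ext m
  simp only [Finset.mem_filter, Finset.mem_Icc, Finset.mem_image]
  constructor
  · rintro ⟨⟨h1, h2⟩, m', rfl⟩
    refine ⟨m', ⟨?_, Nat.le_of_mul_le_mul_left h2 hp0⟩, rfl⟩
    rcases Nat.eq_zero_or_pos m' with rfl | h3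
    · simp at h1
    · exact h3
  · rintro ⟨m', ⟨h1, h2⟩, rfl⟩
    exact ⟨⟨Nat.mul_pos hp0 h1, Nat.mul_le_mul_left _ h2⟩, Dvd.intro _ rfl⟩

theorem norm_p_pow (k : ℕ) : padicNorm p ((p : ℚ) ^ k) = ((p : ℚ) ^ k)⁻¹ := by
  induction k with
  | zero => simp
  | succ k ih => rw [pow_succ, padicNorm.mul, ih, padicNorm_self, mul_inv]

theorem Hs_mul (s M : ℕ) (hs : 1 ≤ s) :
    padicNorm p ((p : ℚ) ^ s * Hs s (p * M) - Hs s M) ≤ (p : ℚ)⁻¹ := by
  have hp0 : 0 < p := hp.out.pos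
  have hpq : (p : ℚ) ≠ 0 := by exact_mod_cast hp0.ne'
  have h1 : Hs s (p * M) = ((p : ℚ) ^ s)⁻¹ * Hs s M +
      ∑ m ∈ (Finset.Icc 1 (p * M)).filter (fun m => ¬ p ∣ m), 1 / (m : ℚ) ^ s := by
    unfold Hs
    rw [← Finset.sum_filter_add_sum_filter_not (Finset.Icc 1 (p * M)) (fun m => p ∣ m),
      icc_filter_dvd' hp0, Finset.sum_image]
    · congr 1
      rw [Finset.mul_sum]
      refine Finset.sum_congr rfl (fun m _ => ?_)
      push_cast
      rw [mul_pow, one_div, mul_inv, one_div]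
    · intro x _ y _ hxy
      exact Nat.eq_of_mul_eq_mul_left hp0 hxy
  rw [h1, mul_add, ← mul_assoc, mul_inv_cancel₀ (pow_ne_zero _ hpq), one_mul, add_sub_cancel_left,
    padicNorm.mul]
  have h2 : padicNorm p (∑ m ∈ (Finset.Icc 1 (p * M)).filter (fun m => ¬ p ∣ m),
      1 / (m : ℚ) ^ s) ≤ 1 := by
    refine padicNorm.sum_le' ?_ zero_le_one
    intro m hm
    exact inv_pow_norm_le (Finset.mem_filter.1 hm).2
  have h3 : padicNorm p ((p : ℚ) ^ s) ≤ (p : ℚ)⁻¹ := by
    obtain ⟨s', rfl⟩ : ∃ s', s = s' + 1 := ⟨s - 1, by omega⟩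
    rw [pow_succ, padicNorm.mul, padicNorm_self]
    refine mul_le_of_le_one_left p_inv_nonneg ?_
    have := padicNorm.of_nat (p := p) (p ^ s')
    push_cast at this
    exact this
  calc _ ≤ (p : ℚ)⁻¹ * 1 := mul_le_mul h3 h2 (padicNorm.nonneg _) p_inv_nonneg
    _ = _ := mul_one _

theorem norm_le_one_of_close {x y : ℚ} (hy : padicNorm p y ≤ 1)
    (h : padicNorm p (x - y) ≤ (p : ℚ)⁻¹) : padicNorm p x ≤ 1 := by
  have e : x = (x - y) + y := by ring
  rw [e]
  exact (padicNorm.nonarchimedean).trans (max_le (h.trans p_inv_lt_one.le) hy)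

theorem close_mul {x x' y y' : ℚ} (hx' : padicNorm p x' ≤ 1) (hy' : padicNorm p y' ≤ 1)
    (h : padicNorm p (x - x') ≤ (p : ℚ)⁻¹) (h' : padicNorm p (y - y') ≤ (p : ℚ)⁻¹) :
    padicNorm p (x * y - x' * y') ≤ (p : ℚ)⁻¹ := by
  have hx := norm_le_one_of_close hx' h
  have e : x * y - x' * y' = x * (y - y') + y' * (x - x') := by ring
  rw [e]
  refine (padicNorm.nonarchimedean).trans (max_le ?_ ?_)
  · rw [padicNorm.mul]
    calc _ ≤ 1 * (p : ℚ)⁻¹ := mul_le_mul hx h' (padicNorm.nonneg _) zero_le_one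
      _ = _ := one_mul _
  · rw [padicNorm.mul]
    calc _ ≤ 1 * (p : ℚ)⁻¹ := mul_le_mul hy' h (padicNorm.nonneg _) zero_le_one
      _ = _ := one_mul _

/-- local contribution at `p j` -/
theorem T_mul (hD : D.OK) {j : ℕ} (hj : D.lo ≤ j) (hj' : j ≤ D.C - D.lo) (hpC : D.C < p) :
    padicNorm p ((p : ℚ) ^ (D.A + D.k - 1) * T D p (p * j) - T D 1 j) ≤ (p : ℚ)⁻¹ := by
  have hp0 : 0 < p := hp.out.pos
  have hpq : (p : ℚ) ≠ 0 := by exact_mod_cast hp0.ne'
  have hk2 := hD.kpos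
  have hA4 := hD.A4
  have hsl := hD.s_le
  have hlo := hD.lo_lt
  have e : (p : ℚ) ^ (D.A + D.k - 1) * T D p (p * j) - T D 1 j = ∑ i ∈ Finset.Icc 1 D.A,
      (a D 1 j i * ((i + D.k - 1).choose D.k : ℚ) * Hs (i + D.k) (j - D.s * 1) -
        (p : ℚ) ^ (D.A + D.k - 1) * (a D p (p * j) i * ((i + D.k - 1).choose D.k : ℚ) *
          Hs (i + D.k) (p * j - D.s * p))) := by
    unfold T
    rw [Finset.sum_sub_distrib, ← Finset.mul_sum]
    ring
  rw [e]
  refine padicNorm.sum_le' ?_ p_inv_nonneg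
  intro i hi
  rw [Finset.mem_Icc] at hi
  by_cases hio : (i : ℤ) ≤ ord D 1 j
  · have h1 := a_mul (p := p) hD j i hio
    have h2 : p * j - D.s * p = p * (j - D.s) := by
      rw [Nat.mul_sub, mul_comm D.s p]
    rw [h2, mul_one, h1]
    set c := PowerSeries.coeff (ord D 1 j - i).toNat (F D 1 j * EF D p j) with hc
    have h3 : (p : ℚ) ^ (D.A + D.k - 1) * ((p : ℚ) ^ ((i : ℤ) + 1 - D.A) * c *
        ((i + D.k - 1).choose D.k : ℚ) * Hs (i + D.k) (p * (j - D.s)))
        = (c * ((i + D.k - 1).choose D.k : ℚ)) *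
          ((p : ℚ) ^ (i + D.k) * Hs (i + D.k) (p * (j - D.s))) := by
      have h4 : (p : ℚ) ^ (D.A + D.k - 1) * (p : ℚ) ^ ((i : ℤ) + 1 - D.A) = (p : ℚ) ^ (i + D.k) := by
        rw [← zpow_natCast, ← zpow_natCast, ← zpow_add₀ hpq]
        congr 1
        push_cast [Nat.cast_sub (show 1 ≤ D.A + D.k by omega)]
        ring
      rw [← h4]; ring
    rw [h3, ← padicNorm.neg, neg_sub]
    have hF := F1_int (p := p) (D := D) (j := j) (by omega) hpC
    have ha : a D 1 j i = PowerSeries.coeff (ord D 1 j - i).toNat (F D 1 j) := by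
      unfold a; rw [if_pos hio]
    have hch : padicNorm p (((i + D.k - 1).choose D.k : ℕ) : ℚ) ≤ 1 := padicNorm.of_nat _
    have hca : padicNorm p (c - a D 1 j i) ≤ (p : ℚ)⁻¹ := by
      rw [hc, ha]
      have e2 : PowerSeries.coeff (ord D 1 j - i).toNat (F D 1 j * EF D p j) -
          PowerSeries.coeff (ord D 1 j - i).toNat (F D 1 j)
          = PowerSeries.coeff (ord D 1 j - i).toNat (F D 1 j * (EF D p j - 1)) := by
        rw [← map_sub]; congr 1; ring
      rw [e2]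
      exact coeff_mul_le hF (EF_cong D j) _
    refine close_mul ?_ (Hs_int (by omega)) ?_ (Hs_mul _ _ (by omega))
    · rw [padicNorm.mul]
      exact mul_le_one₀ (a1_int (by omega) hpC) (padicNorm.nonneg _) hch
    · rw [← sub_mul, padicNorm.mul]
      exact mul_le_of_le_one_right (padicNorm.nonneg _) hch |>.trans hca
  · have h1 : a D 1 j i = 0 := by unfold a; rw [if_neg hio]
    have h2 : a D p (p * j) i = 0 := by
      unfold a; rw [ord_mul hp0, if_neg hio]
    rw [h1, h2]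
    simp only [zero_mul, mul_zero, sub_zero, padicNorm.zero]
    exact p_inv_nonneg

/-- nonvanishing, given the bound at the other `l` -/
theorem rho0_close (hD : D.OK) (hpC : D.C < p)
    (hT : ∀ l ∈ poles D p, ¬ p ∣ l → padicNorm p (T D p l) ≤ (p : ℚ) ^ D.k) :
    padicNorm p ((p : ℚ) ^ (D.A + D.k - 1) * rho0 D p - rho0 D 1) ≤ (p : ℚ)⁻¹ := by
  have hp0 : 0 < p := hp.out.pos
  have hpq : (p : ℚ) ≠ 0 := by exact_mod_cast hp0.ne'
  have hA4 := hD.A4
  have hfil : (poles D p).filter (fun l => p ∣ l) = (poles D 1).image (fun j => p * j) := by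
    ext m
    simp only [Finset.mem_filter, poles, Finset.mem_Icc, Finset.mem_image, mul_one]
    constructor
    · rintro ⟨⟨h1, h2⟩, m', rfl⟩
      rw [mul_comm D.lo] at h1
      rw [mul_comm (D.C - D.lo)] at h2
      exact ⟨m', ⟨Nat.le_of_mul_le_mul_left h1 hp0, Nat.le_of_mul_le_mul_left h2 hp0⟩, rfl⟩
    · rintro ⟨m', ⟨h1, h2⟩, rfl⟩
      rw [mul_comm D.lo, mul_comm (D.C - D.lo)]
      exact ⟨⟨Nat.mul_le_mul_left _ h1, Nat.mul_le_mul_left _ h2⟩, Dvd.intro _ rfl⟩
  have e : (p : ℚ) ^ (D.A + D.k - 1) * rho0 D p - rho0 D 1 =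
      (∑ j ∈ poles D 1, ((p : ℚ) ^ (D.A + D.k - 1) * T D p (p * j) - T D 1 j)) +
      ∑ l ∈ (poles D p).filter (fun l => ¬ p ∣ l), (p : ℚ) ^ (D.A + D.k - 1) * T D p l := by
    unfold rho0
    rw [← Finset.sum_filter_add_sum_filter_not (poles D p) (fun l => p ∣ l), hfil, Finset.sum_image,
      Finset.sum_sub_distrib, mul_add, Finset.mul_sum, Finset.mul_sum]
    · ring
    · intro x _ y _ hxy
      exact Nat.eq_of_mul_eq_mul_left hp0 hxy
  rw [e]
  refine (padicNorm.nonarchimedean).trans (max_le ?_ ?_)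
  · refine padicNorm.sum_le' ?_ p_inv_nonneg
    intro j hj
    unfold poles at hj
    rw [Finset.mem_Icc] at hj
    exact T_mul hD (by omega) (by omega) hpC
  · refine padicNorm.sum_le' ?_ p_inv_nonneg
    intro l hl
    rw [Finset.mem_filter] at hl
    have h1 := hT l hl.1 hl.2
    rw [padicNorm.mul, norm_p_pow]
    have hp1 : (1 : ℚ) ≤ p := by exact_mod_cast hp.out.one_lt.le
    have hsplit : (p : ℚ) ^ (D.A + D.k - 1) = (p : ℚ) ^ (D.A - 1) * (p : ℚ) ^ D.k := by
      rw [← pow_add]; congr 1; omega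
    calc ((p : ℚ) ^ (D.A + D.k - 1))⁻¹ * padicNorm p (T D p l)
        ≤ ((p : ℚ) ^ (D.A + D.k - 1))⁻¹ * (p : ℚ) ^ D.k := by
          exact mul_le_mul_of_nonneg_left h1 (by positivity)
      _ = ((p : ℚ) ^ (D.A - 1))⁻¹ := by
        rw [hsplit]; field_simp
      _ ≤ (p : ℚ)⁻¹ := by
        rw [inv_le_inv₀ (by positivity) (by positivity)]
        calc (p : ℚ) = (p : ℚ) ^ 1 := (pow_one _).symm
          _ ≤ (p : ℚ) ^ (D.A - 1) := pow_le_pow_right₀ hp1 (by omega)

/-- a nonzero rational is a unit at every large prime -/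
theorem norm_eq_one_of_large {x : ℚ} (hx : x ≠ 0) (h1 : x.num.natAbs < p) (h2 : x.den < p) :
    padicNorm p x = 1 := by
  have hn : padicNorm p (x.num : ℚ) = 1 := by
    refine (padicNorm.int_eq_one_iff (p := p) x.num).2 ?_
    intro h
    have h3 : x.num ≠ 0 := Rat.num_ne_zero.2 hx
    have h4 : p ∣ x.num.natAbs := Int.natCast_dvd.1 h
    have := Nat.le_of_dvd (Int.natAbs_pos.2 h3) h4
    omega
  have hd : padicNorm p (x.den : ℚ) = 1 := by
    refine norm_of_not_dvd ?_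
    intro h
    have := Nat.le_of_dvd x.den_pos h
    omega
  conv_lhs => rw [← Rat.num_div_den x]
  rw [padicNorm.div, hn, hd, div_one]

theorem rho0_norm (hD : D.OK) (hpC : D.C < p) (h1 : (rho0 D 1).num.natAbs < p)
    (h2 : (rho0 D 1).den < p) (hne : rho0 D 1 ≠ 0)
    (hT : ∀ l ∈ poles D p, ¬ p ∣ l → padicNorm p (T D p l) ≤ (p : ℚ) ^ D.k) :
    padicNorm p (rho0 D p) = (p : ℚ) ^ (D.A + D.k - 1) := by
  have hpq : (p : ℚ) ≠ 0 := by exact_mod_cast hp.out.ne_zero
  have h3 := norm_eq_one_of_close (norm_eq_one_of_large hne h1 h2) (rho0_close hD hpC hT)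
  rw [padicNorm.mul, norm_p_pow] at h3
  have h5 : (p : ℚ) ^ (D.A + D.k - 1) ≠ 0 := pow_ne_zero _ hpq
  field_simp at h3
  exact h3

end Pool.Agent.OddZetaG
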