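import Pool.Agent.OddZetaG.NvPole

/-!
The exponent `V` at the prime `p = n` (generic construction).
Seat: helper7.
-/

open Finset

namespace Pool.Agent.OddZetaG

variable {D : Dat}

theorem sum_ind (n l : ℕ) (s : Finset ℕ) :
    ∑ i ∈ s, (if l ∈ blk D n (D.h i) then (1 : ℤ) else 0) = (#{i ∈ s | l ∈ blk D n (D.h i)} : ℤ) := by
  rw [Finset.card_filter]
  push_cast
  rfl

theorem Nl_self_div {p : ℕ} (hp : 0 < p) (h : ℕ) : Nl D p h / p = D.C - 2 * h := by
  unfold Nl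
  exact Nat.mul_div_cancel _ hp

theorem cnt_self_not_dvd {p l h : ℕ} (hp : 0 < p) (hl : ¬ p ∣ l) (hh : 2 * h ≤ D.C) :
    ((Nl D p h / p : ℕ) : ℤ) - cnt D p l p h = if l ∈ blk D p h then 1 else 0 := by
  have hpz : (p : ℤ) ≠ 0 := by exact_mod_cast hp.ne'
  have h1 : fA p l p h = (l : ℤ) / p - h := by
    unfold fA
    rw [Int.sub_mul_ediv_right _ _ hpz]
  have h2 : fB D p l p h = (D.C - h : ℤ) + (-(l : ℤ)) / p := by
    unfold fB
    have : (D.C - h : ℤ) * p - l = (-(l : ℤ)) + (D.C - h : ℤ) * p := by ring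
    rw [this, Int.add_mul_ediv_right _ _ hpz, add_comm]
  have h3 : (-(l : ℤ)) / p = - ((l : ℤ) / p) - 1 := by
    have h4 : ¬ (p : ℤ) ∣ (l : ℤ) := by exact_mod_cast hl
    have h5 : 0 < (l : ℤ) % p := by
      rcases (Int.emod_nonneg (l : ℤ) hpz).lt_or_eq with h | h
      · exact h
      · exact absurd (Int.dvd_of_emod_eq_zero h.symm) h4
    have h6 := Int.emod_lt_of_pos (l : ℤ) (b := (p : ℤ)) (by exact_mod_cast hp)
    have h7 := Int.mul_ediv_add_emod (l : ℤ) p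
    have h8 : -(l : ℤ) = ((p : ℤ) - (l : ℤ) % p) + (-((l : ℤ) / p) - 1) * p := by
      linear_combination h7
    rw [h8, Int.add_mul_ediv_right _ _ hpz, Int.ediv_eq_zero_of_lt (by omega) (by omega)]
    ring
  unfold cnt
  rw [h1, h2, h3, Nl_self_div hp]
  push_cast [Nat.cast_sub hh]
  split_ifs <;> ring

theorem cnt_self_dvd {p j h : ℕ} (hp : 0 < p) (hh : 2 * h ≤ D.C) :
    ((Nl D p h / p : ℕ) : ℤ) - cnt D p (p * j) p h = (if p * j ∈ blk D p h then 1 else 0) - 1 := by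
  have hpz : (p : ℤ) ≠ 0 := by exact_mod_cast hp.ne'
  have h1 : fA p (p * j) p h = (j : ℤ) - h := by
    unfold fA
    have : (((p * j : ℕ) : ℤ) - (h : ℤ) * p) = ((j : ℤ) - h) * p := by push_cast; ring
    rw [this, Int.mul_ediv_cancel _ hpz]
  have h2 : fB D p (p * j) p h = (D.C - h : ℤ) - j := by
    unfold fB
    have : (D.C - h : ℤ) * p - ((p * j : ℕ) : ℤ) = ((D.C - h : ℤ) - j) * p := by push_cast; ring
    rw [this, Int.mul_ediv_cancel _ hpz]
  unfold cnt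
  rw [h1, h2, Nl_self_div hp]
  push_cast [Nat.cast_sub hh]
  split_ifs <;> ring

theorem V_self_not_dvd (hD : D.OK) {p l : ℕ} (hp : 0 < p) (hl : ¬ p ∣ l) :
    V D p l p = ord D p l := by
  unfold V ord
  rw [Finset.sum_congr rfl (fun i hi => cnt_self_not_dvd hp hl (hD.hP hi)),
    Finset.sum_congr rfl (fun i hi => cnt_self_not_dvd hp hl (hD.hM hi)), sum_ind, sum_ind]

theorem V_self_dvd (hD : D.OK) {p j : ℕ} (hp : 0 < p) :
    V D p (p * j) p = ord D p (p * j) - D.A := by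
  unfold V ord
  rw [Finset.sum_congr rfl (fun i hi => cnt_self_dvd hp (hD.hP hi)),
    Finset.sum_congr rfl (fun i hi => cnt_self_dvd hp (hD.hM hi)), Finset.sum_sub_distrib,
    Finset.sum_sub_distrib, sum_ind, sum_ind]
  have e1 := hD.cardP
  have e2 : (D.P.card : ℤ) = D.M.card + D.A := by exact_mod_cast e1
  rw [Finset.sum_const, Finset.sum_const, nsmul_eq_mul, nsmul_eq_mul]
  push_cast
  linarith

variable {p : ℕ} [hp : Fact p.Prime]

theorem T_self_le (hD : D.OK) {l : ℕ} (hl : l ∈ poles D p) (hpl : ¬ p ∣ l)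
    (hloc : padicNorm p (T D p l) ≤ (p : ℚ) ^ (ord D p l - V D p l p + D.k)) :
    padicNorm p (T D p l) ≤ (p : ℚ) ^ D.k := by
  have hp0 : 0 < p := hp.out.pos
  rw [V_self_not_dvd hD hp0 hpl, sub_self, zero_add] at hloc
  exact_mod_cast hloc

theorem a_self_le (hD : D.OK) {l i : ℕ}
    (hloc : padicNorm p (a D p l i) ≤ (p : ℚ) ^ (ord D p l - V D p l p - i)) :
    padicNorm p (a D p l i) ≤ (p : ℚ) ^ D.A := by
  have hp0 : 0 < p := hp.out.pos
  have hp1 : (1 : ℚ) ≤ p := by exact_mod_cast hp.out.one_lt.le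
  refine hloc.trans ?_
  have h2 : ord D p l - V D p l p - (i : ℤ) ≤ (D.A : ℤ) := by
    by_cases hpl : p ∣ l
    · obtain ⟨j, rfl⟩ := hpl
      rw [V_self_dvd hD hp0]
      push_cast
      omega
    · rw [V_self_not_dvd hD hp0 hpl]
      push_cast
      omega
  calc (p : ℚ) ^ (ord D p l - V D p l p - (i : ℤ)) ≤ (p : ℚ) ^ (D.A : ℤ) :=
        zpow_le_zpow_right₀ hp1 h2
    _ = (p : ℚ) ^ D.A := zpow_natCast _ _

end Pool.Agent.OddZetaG
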