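import Mathlib
import Pool.Agent.OddZetaG.Defs
import Pool.Agent.OddZetaG.PadicBasic
import Pool.Agent.OddZetaG.PadicC1
import Pool.Agent.OddZetaG.PadicC2

set_option autoImplicit false
set_option linter.unusedSectionVars false
set_option linter.unusedVariables false

/-!
# The pairing and the bounds C1, C2, generic version (Module C, helper75)
-/

open Finset

namespace Pool.Agent.OddZetaG

open PowerSeries

section

variable {D : Dat} {p : ℕ} [hp : Fact p.Prime]

lemma Cneg_pow_even {k : ℕ} (hk : Even k) : (PowerSeries.C (-1 : ℚ) : PowerSeries ℚ) ^ k = 1 := by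
  rw [← map_pow, hk.neg_one_pow, map_one]

/-- total number of nondivisible factors is even -/
lemma even_total (hD : D.OK) {n l l' : ℕ} (P : Pair D n p l l') :
    Even (∑ i ∈ D.M, (Ub D p n (D.h i) l).card + ∑ i ∈ D.P, (Ub D p n (D.h i) l).card) := by
  have key : ∀ i ∈ D.P ∪ D.M, ∃ k : ℤ,
      ((Ub D p n (D.h i) l).card : ℤ) = (D.C * n + cc D n l p) + 2 * k := by
    intro i hi
    refine ⟨- (D.h i : ℤ) * n - fB D n l p (D.h i) - cc D n l p, ?_⟩
    rw [card_Ub (p := p) n l (D.h i) (two_PM hD hi).le]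
    have := P.diff i hi
    linarith
  have gen : ∀ s : Finset ℕ, (∀ i ∈ s, ∃ k : ℤ,
      ((Ub D p n (D.h i) l).card : ℤ) = (D.C * n + cc D n l p) + 2 * k) →
      ∃ k : ℤ, ((∑ i ∈ s, (Ub D p n (D.h i) l).card : ℕ) : ℤ)
        = s.card * (D.C * n + cc D n l p) + 2 * k := by
    intro s
    induction s using Finset.induction_on with
    | empty => intro _; exact ⟨0, by simp⟩
    | insert a s ha ih =>
      intro hs
      obtain ⟨k, hk⟩ := ih (fun h hh => hs h (Finset.mem_insert_of_mem hh))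
      obtain ⟨j, hj⟩ := hs a (Finset.mem_insert_self _ _)
      refine ⟨k + j, ?_⟩
      rw [Finset.sum_insert ha, Finset.card_insert_of_notMem ha]
      push_cast at hk ⊢
      rw [hk, hj]
      ring
  obtain ⟨a, ha⟩ := gen D.M (fun i hi => key i (Finset.mem_union_right _ hi))
  obtain ⟨b, hb⟩ := gen D.P (fun i hi => key i (Finset.mem_union_left _ hi))
  obtain ⟨A', hA'⟩ := hD.Aeven
  have hPc : (D.P.card : ℤ) = D.M.card + 2 * A' := by
    rw [hD.cardP, hA']
    push_cast
    ring
  rw [hPc] at hb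
  rw [← Int.even_coe_nat]
  push_cast at ha hb ⊢
  rw [ha, hb]
  refine ⟨(D.M.card + A') * (D.C * n + cc D n l p) + a + b, by ring⟩

lemma Cg_mid {n l l' : ℕ} (P : Pair D n p l l') :
    Cg p (PowerSeries.C (D.C * (n : ℚ) - 2 * (l' : ℚ)) + 2 * PowerSeries.X)
      (PowerSeries.C (-1) * (PowerSeries.C (D.C * (n : ℚ) - 2 * (l : ℚ)) + 2 * PowerSeries.X)) 1 := by
  have hp0 := pq_pos (p := p)
  have hp1 := one_le_pq (p := p)
  refine ⟨GB_mid n l' hp1, ?_, ?_⟩
  · have := (GB.C (p := p) (-1) (r := p) hp0.le).mul (GB_mid (D := D) n l hp1)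
    rwa [padicNorm.neg, padicNorm.one, one_mul] at this
  · have hc : (l' : ℚ) = D.C * (n : ℚ) + cc D n l p * p - l := by
      have := P.cast
      exact_mod_cast this
    have h3 : (PowerSeries.C (-1 : ℚ) : PowerSeries ℚ) = -1 := by rw [map_neg, map_one]
    have h4 : (PowerSeries.C (4 : ℚ) : PowerSeries ℚ) = 4 := map_ofNat PowerSeries.C 4
    have h2 : (PowerSeries.C (D.C * (n : ℚ) - 2 * (l' : ℚ)) : PowerSeries ℚ)
        = PowerSeries.C (((-2 * cc D n l p * p : ℤ)) : ℚ)
          - PowerSeries.C (D.C * (n : ℚ) - 2 * (l : ℚ)) := by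
      rw [← map_sub]; congr 1; rw [hc]; push_cast; ring
    have h1 : (PowerSeries.C (D.C * (n : ℚ) - 2 * (l' : ℚ)) + 2 * PowerSeries.X)
      - (PowerSeries.C (-1) * (PowerSeries.C (D.C * (n : ℚ) - 2 * (l : ℚ)) + 2 * PowerSeries.X) :
        PowerSeries ℚ) = PowerSeries.C (((-2 * cc D n l p * p : ℤ)) : ℚ) + PowerSeries.C 4 * X := by
      rw [h2, h3, h4]
      ring
    rw [h1]
    apply GB.lin _ _ hp0.le
    · push_cast
      rw [padicNorm.mul, padicNorm.padicNorm_p_of_prime]
      have := padicNorm.of_int (p := p) (-2 * cc D n l p)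
      push_cast at this
      calc padicNorm p (-2 * (cc D n l p : ℚ)) * (p : ℚ)⁻¹ ≤ 1 * (p : ℚ)⁻¹ :=
            mul_le_mul_of_nonneg_right this (by positivity)
        _ = 1 / p := by ring
    · rw [div_mul_cancel₀ _ hp0.ne']
      have := padicNorm.of_int (p := p) 4
      push_cast at this
      exact this

lemma Cg_F (hD : D.OK) {n l l' : ℕ} (P : Pair D n p l l') (hl : l ≤ D.C * n)
    (hpn : D.C * n < p ^ 2) :
    Cg p (F D n l') (PowerSeries.C (-1) * F D n l) ((p : ℚ) ^ (-V D n l p)) := by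
  have hp0 := pq_pos (p := p)
  have e : (p : ℚ) ^ (-V D n l p)
      = (p : ℚ) ^ (-E0 D n p) * 1 * (∏ i ∈ D.M, (p : ℚ) ^ (-cnt D n l p (D.h i)))
      * (∏ i ∈ D.P, (p : ℚ) ^ (cnt D n l p (D.h i))) := by
    rw [prod_zpow_base _ _ _ hp0.ne', prod_zpow_base _ _ _ hp0.ne', mul_one, ← zpow_add₀ hp0.ne',
      ← zpow_add₀ hp0.ne']
    congr 1
    unfold V E0
    rw [Finset.sum_sub_distrib, Finset.sum_sub_distrib, Finset.sum_neg_distrib]
    ring
  rw [e]
  have cK : Cg p (PowerSeries.C (K D n)) (PowerSeries.C (K D n)) ((p : ℚ) ^ (-E0 D n p)) := by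
    apply Cg.refl
    rw [← norm_K n hpn]
    exact GB.C _ hp0.le
  have cM := Cg.prod (p := p) D.M (fun i => B D n (D.h i) l')
    (fun i => PowerSeries.C (-1) ^ (Ub D p n (D.h i) l).card * B D n (D.h i) l)
    (fun i => (p : ℚ) ^ (-cnt D n l p (D.h i)))
    (fun i hi => Cg_B P hl hpn (two_M hD hi).le (P.fAe i (Finset.mem_union_right _ hi))
      (P.fBe i (Finset.mem_union_right _ hi)))
  have cP := Cg.prod (p := p) D.P (fun i => (B D n (D.h i) l')⁻¹)
    (fun i => PowerSeries.C (-1) ^ (Ub D p n (D.h i) l).card * (B D n (D.h i) l)⁻¹)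
    (fun i => (p : ℚ) ^ (cnt D n l p (D.h i)))
    (fun i hi => Cg_Binv P hl hpn (two_P hD hi).le (P.fAe i (Finset.mem_union_left _ hi))
      (P.fBe i (Finset.mem_union_left _ hi)))
  have c := ((cK.mul (Cg_mid P)).mul cM).mul cP
  have e2 : PowerSeries.C (K D n) *
      (PowerSeries.C (-1) * (PowerSeries.C (D.C * (n : ℚ) - 2 * (l : ℚ)) + 2 * PowerSeries.X)) *
      (∏ i ∈ D.M, PowerSeries.C (-1) ^ (Ub D p n (D.h i) l).card * B D n (D.h i) l) *
      (∏ i ∈ D.P, PowerSeries.C (-1) ^ (Ub D p n (D.h i) l).card * (B D n (D.h i) l)⁻¹)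
      = PowerSeries.C (-1) * F D n l := by
    have h1 := Cneg_pow_even (even_total hD P)
    rw [pow_add, ← Finset.prod_pow_eq_pow_sum, ← Finset.prod_pow_eq_pow_sum] at h1
    rw [Finset.prod_mul_distrib, Finset.prod_mul_distrib]
    unfold F
    rw [prod_inv_ps D.P]
    linear_combination (PowerSeries.C (K D n) *
      (PowerSeries.C (-1) * (PowerSeries.C (D.C * (n : ℚ) - 2 * (l : ℚ)) + 2 * PowerSeries.X)) *
      (∏ i ∈ D.M, B D n (D.h i) l) * (∏ i ∈ D.P, (B D n (D.h i) l)⁻¹)) * h1
  rw [e2] at c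
  have e3 : F D n l' = PowerSeries.C (K D n) *
      (PowerSeries.C (D.C * (n : ℚ) - 2 * (l' : ℚ)) + 2 * PowerSeries.X) *
      (∏ i ∈ D.M, B D n (D.h i) l') * (∏ i ∈ D.P, (B D n (D.h i) l')⁻¹) := by
    unfold F
    rw [prod_inv_ps D.P]
  rw [e3]
  exact c

lemma norm_a_pair (hD : D.OK) {n l l' : ℕ} (P : Pair D n p l l') (i : ℕ) (hl : l ≤ D.C * n)
    (hpn : D.C * n < p ^ 2) :
    padicNorm p (a D n l i + a D n l' i) ≤ (p : ℚ) ^ (ord D n l - V D n l p - i - 1) := by
  have hp0 := pq_pos (p := p)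
  unfold a
  rw [P.ord hD]
  split_ifs with h
  · have h1 := (Cg_F hD P hl hpn).2.2 (ord D n l - i).toNat
    have h2 : PowerSeries.coeff (ord D n l - i).toNat (F D n l' - PowerSeries.C (-1) * F D n l)
        = PowerSeries.coeff (ord D n l - i).toNat (F D n l)
          + PowerSeries.coeff (ord D n l - i).toNat (F D n l') := by
      rw [map_sub, coeff_C_mul]; ring
    rw [h2] at h1
    refine h1.trans (le_of_eq ?_)
    rw [← zpow_natCast, div_mul_eq_mul_div, ← zpow_add₀ hp0.ne', div_eq_mul_inv, ← zpow_neg_one,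
      ← zpow_add₀ hp0.ne']
    congr 1
    have : (((ord D n l - i).toNat : ℕ) : ℤ) = ord D n l - i := Int.toNat_of_nonneg (by linarith)
    rw [this]
    ring
  · rw [add_zero, padicNorm.zero]; positivity

lemma sub_div_eq (n l : ℕ) (hl : D.s * n ≤ l) : (((l - D.s * n) / p : ℕ) : ℤ) = fA n l p D.s := by
  unfold fA
  push_cast [Nat.cast_sub hl]
  rfl

lemma norm_T_pair (hD : D.OK) {n l l' : ℕ} (P : Pair D n p l l') (hl : l ≤ D.C * n)
    (hl' : l' ≤ D.C * n) (h25 : D.s * n ≤ l) (h25' : D.s * n ≤ l') (hpn : D.C * n < p ^ 2) :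
    padicNorm p (T D n l + T D n l') ≤ (p : ℚ) ^ (ord D n l - V D n l p + D.k - 1) := by
  have hp0 := pq_pos (p := p)
  have hdiv : (l - D.s * n) / p = (l' - D.s * n) / p := by
    have h1 := sub_div_eq (p := p) n l h25
    have h2 := sub_div_eq (p := p) n l' h25'
    rw [P.fAs, ← h1] at h2
    exact_mod_cast h2.symm
  have e : T D n l + T D n l' = - ∑ i ∈ Finset.Icc 1 D.A,
      ((a D n l i + a D n l' i) * ((i + D.k - 1).choose D.k : ℚ) * Hs (i + D.k) (l - D.s * n)
        + a D n l' i * ((i + D.k - 1).choose D.k : ℚ) *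
          (Hs (i + D.k) (l' - D.s * n) - Hs (i + D.k) (l - D.s * n))) := by
    unfold T
    rw [← neg_add, ← Finset.sum_add_distrib]
    congr 1
    refine Finset.sum_congr rfl (fun i _ => ?_)
    ring
  rw [e, padicNorm.neg]
  apply padicNorm.sum_le'
  · intro i _
    refine padicNorm.nonarchimedean.trans (max_le ?_ ?_)
    · rw [padicNorm.mul, padicNorm.mul]
      calc padicNorm p (a D n l i + a D n l' i) * padicNorm p (((i + D.k - 1).choose D.k : ℕ) : ℚ)
            * padicNorm p (Hs (i + D.k) (l - D.s * n))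
          ≤ (p : ℚ) ^ (ord D n l - V D n l p - i - 1) * 1 * (p : ℚ) ^ (i + D.k) := by
            apply mul_le_mul _ (Hs_le _ _ (by omega)) (padicNorm.nonneg _) (by positivity)
            exact mul_le_mul (norm_a_pair hD P i hl hpn) (padicNorm.of_nat _) (padicNorm.nonneg _)
              (by positivity)
        _ = (p : ℚ) ^ (ord D n l - V D n l p + D.k - 1) := by
            rw [mul_one, ← zpow_natCast, ← zpow_add₀ hp0.ne']
            congr 1
            push_cast
            ring
    · rw [padicNorm.mul, padicNorm.mul]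
      calc padicNorm p (a D n l' i) * padicNorm p (((i + D.k - 1).choose D.k : ℕ) : ℚ)
            * padicNorm p (Hs (i + D.k) (l' - D.s * n) - Hs (i + D.k) (l - D.s * n))
          ≤ (p : ℚ) ^ (ord D n l' - V D n l' p - i) * 1 * 1 := by
            apply mul_le_mul _ (Hs_sub_le' _ _ _ hdiv) (padicNorm.nonneg _) (by positivity)
            exact mul_le_mul (norm_a_le' hD n l' i hl' hpn) (padicNorm.of_nat _) (padicNorm.nonneg _)
              (by positivity)
        _ ≤ (p : ℚ) ^ (ord D n l - V D n l p + D.k - 1) := by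
            rw [mul_one, mul_one, P.ord hD, P.V hD]
            apply zpow_mono_p
            have h1 : (0 : ℤ) ≤ i := Int.natCast_nonneg i
            have h2 : (2 : ℤ) ≤ D.k := by exact_mod_cast hD.kpos
            linarith
  · positivity

/-- outside of the pole range the order is not positive -/
lemma ord_nonpos (hD : D.OK) (n l : ℕ) (h1 : (D.s : ℤ) * n ≤ l) (h2 : (l : ℤ) ≤ (D.C - D.s : ℤ) * n)
    (hl : l ∉ poles D n) : ord D n l ≤ 0 := by
  have hsC := s_lt hD
  have hM : {i ∈ D.M | l ∈ blk D n (D.h i)} = D.M := by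
    rw [Finset.filter_eq_self]
    intro i hi
    have hi2 := hD.M_lt i hi
    rw [mem_blk_iff n (D.h i) l (by omega)]
    have h3 : (D.h i : ℤ) ≤ D.s := by exact_mod_cast hi2.le
    have h4 : (0 : ℤ) ≤ n := Int.natCast_nonneg n
    constructor
    · exact (mul_le_mul_of_nonneg_right h3 h4).trans h1
    · refine h2.trans (mul_le_mul_of_nonneg_right ?_ h4)
      linarith
  have hP : {i ∈ D.P | l ∈ blk D n (D.h i)} ⊆ {i ∈ D.P | D.h i < D.lo} := by
    intro i hi
    rw [Finset.mem_filter] at hi ⊢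
    refine ⟨hi.1, ?_⟩
    by_contra hc
    push Not at hc
    apply hl
    have hb := hi.2
    unfold blk at hb
    unfold poles
    rw [Finset.mem_Icc] at hb ⊢
    have h3 : D.lo * n ≤ D.h i * n := Nat.mul_le_mul_right _ hc
    have h4 : (D.C - D.h i) * n ≤ (D.C - D.lo) * n := Nat.mul_le_mul_right _ (by omega)
    exact ⟨h3.trans hb.1, hb.2.trans h4⟩
  unfold ord
  rw [hM, hD.cardM]
  have h3 := (Finset.card_le_card hP).trans hD.lo_ok
  have : ((#{i ∈ D.P | l ∈ blk D n (D.h i)} : ℕ) : ℤ) ≤ ((D.k + 1 : ℕ) : ℤ) := by exact_mod_cast h3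
  linarith

lemma T_zero (n l : ℕ) (h : ord D n l ≤ 0) : T D n l = 0 := by
  unfold T
  rw [neg_eq_zero]
  apply Finset.sum_eq_zero
  intro i hi
  rw [Finset.mem_Icc] at hi
  have : a D n l i = 0 := by
    unfold a
    rw [if_neg]
    have : (1 : ℤ) ≤ i := by exact_mod_cast hi.1
    linarith
  rw [this]
  ring

/-- membership facts for the partner -/
lemma tau_facts (hD : D.OK) (hs0 : ∃ i ∈ D.P, D.h i = D.s) (n l : ℕ) (hl : l ∈ poles D n)
    (hs : selfP D n l p) (hpl : p ≤ l - D.s * n) (ho : 0 < ord D n l) :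
    tau D n p l ∈ poles D n ∧ p ≤ tau D n p l - D.s * n ∧ selfP D n (tau D n p l) p ∧
      0 < ord D n (tau D n p l) ∧ tau D n p (tau D n p l) = l := by
  have P := pair_tau (p := p) hD hs0 n l hl hs
  have hpz := pz_pos (p := p)
  have ht := tau_cast (p := p) hD n l hl
  have h1 : tau D n p l ∈ poles D n := by
    by_contra hc
    have := ord_nonpos hD n _ ht.2.1 ht.2.2 hc
    rw [P.ord hD] at this
    linarith
  have h25 : D.s * n ≤ tau D n p l := by exact_mod_cast ht.2.1
  have h25l : D.s * n ≤ l := by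
    have := (poles_s hD hl).1
    exact_mod_cast this
  have h2 : p ≤ tau D n p l - D.s * n := by
    have e1 := sub_div_eq (p := p) n l h25l
    have e2 := sub_div_eq (p := p) n (tau D n p l) h25
    rw [P.fAs, ← e1] at e2
    have e3 : (tau D n p l - D.s * n) / p = (l - D.s * n) / p := by exact_mod_cast e2
    have e4 : 1 ≤ (l - D.s * n) / p := (Nat.one_le_div_iff hp.out.pos).2 hpl
    rw [← e3] at e4
    exact (Nat.one_le_div_iff hp.out.pos).1 e4
  have hcc : cc D n (tau D n p l) p = cc D n l p := by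
    unfold cc
    rw [P.fAs, P.fBs]
  have h3 : selfP D n (tau D n p l) p := by
    intro i hi j hj
    rw [P.fAe i hi, P.fBe i hi, P.fAe j hj, P.fBe j hj]
    exact hs i hi j hj
  refine ⟨h1, h2, h3, by rw [P.ord hD]; exact ho, ?_⟩
  have h4 := (tau_cast (p := p) hD n (tau D n p l) h1).1
  rw [hcc, P.cast] at h4
  have : ((tau D n p (tau D n p l) : ℕ) : ℤ) = l := by rw [h4]; ring
  exact_mod_cast this

end

variable (D : Dat)

/-- C1 -/
theorem rho0_le (hD : D.OK) (hs0 : ∃ i ∈ D.P, D.h i = D.s) (n p : ℕ) [Fact p.Prime] (hn : 0 < n)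
    (hp2 : p ≠ 2) (hp : D.C * n < p ^ 2) (d : ℤ)
    (hd : ∀ l ∈ poles D n, bnd D n l p ≤ d) : padicNorm p (rho0 D n) ≤ (p : ℚ) ^ d := by
  have hp0 := pq_pos (p := p)
  unfold rho0
  rw [← Finset.sum_filter_add_sum_filter_not (poles D n)
    (fun l => p ≤ l - D.s * n ∧ selfP D n l p ∧ 0 < ord D n l)]
  refine padicNorm.nonarchimedean.trans (max_le ?_ ?_)
  · set W := (poles D n).filter (fun l => p ≤ l - D.s * n ∧ selfP D n l p ∧ 0 < ord D n l) with hW
    have hinv : ∑ l ∈ W, T D n (tau D n p l) = ∑ l ∈ W, T D n l := by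
      have hmem : ∀ l ∈ W, tau D n p l ∈ W := by
        intro l hl
        rw [hW, Finset.mem_filter] at hl ⊢
        have := tau_facts (p := p) hD hs0 n l hl.1 hl.2.2.1 hl.2.1 hl.2.2.2
        exact ⟨this.1, this.2.1, this.2.2.1, this.2.2.2.1⟩
      have hinvo : ∀ l ∈ W, tau D n p (tau D n p l) = l := by
        intro l hl
        rw [hW, Finset.mem_filter] at hl
        exact (tau_facts (p := p) hD hs0 n l hl.1 hl.2.2.1 hl.2.1 hl.2.2.2).2.2.2.2
      exact Finset.sum_bij' (fun l _ => tau D n p l) (fun l _ => tau D n p l) hmem hmem hinvo hinvo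
        (fun l _ => rfl)
    have h2 : (2 : ℚ) * ∑ l ∈ W, T D n l = ∑ l ∈ W, (T D n l + T D n (tau D n p l)) := by
      rw [Finset.sum_add_distrib, hinv]; ring
    have hnorm2 : padicNorm p (2 : ℚ) = 1 := by
      have := (padicNorm.nat_eq_one_iff (p := p) 2).2 (by
        intro h
        have h1 := (Nat.prime_dvd_prime_iff_eq (Fact.out : p.Prime) Nat.prime_two).1 h
        exact hp2 h1)
      exact_mod_cast this
    have h3 : padicNorm p (∑ l ∈ W, T D n l) = padicNorm p (2 * ∑ l ∈ W, T D n l) := by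
      rw [padicNorm.mul, hnorm2, one_mul]
    rw [h3, h2]
    apply padicNorm.sum_le' _ (by positivity)
    intro l hl
    rw [hW, Finset.mem_filter] at hl
    have hf := tau_facts (p := p) hD hs0 n l hl.1 hl.2.2.1 hl.2.1 hl.2.2.2
    have hb := hd l hl.1
    unfold bnd at hb
    rw [if_pos hl.2.1, if_pos hl.2.2.1] at hb
    have h25 : ∀ k ∈ poles D n, D.s * n ≤ k := by
      intro k hk
      have := (poles_s hD hk).1
      exact_mod_cast this
    refine (norm_T_pair hD (pair_tau (p := p) hD hs0 n l hl.1 hl.2.2.1) (poles_le n l hl.1)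
      (poles_le n _ hf.1) (h25 l hl.1) (h25 _ hf.1) hp).trans ?_
    apply zpow_mono_p
    linarith
  · apply padicNorm.sum_le' _ (by positivity)
    intro l hl
    rw [Finset.mem_filter] at hl
    have hb := hd l hl.1
    have hl83 := poles_le n l hl.1
    unfold bnd at hb
    by_cases ho : 0 < ord D n l
    · by_cases hpl : p ≤ l - D.s * n
      · have hns : ¬ selfP D n l p := fun h => hl.2 ⟨hpl, h, ho⟩
        rw [if_pos hpl, if_neg hns] at hb
        refine (norm_T_le_large' hD n l hl83 hp).trans (zpow_mono_p ?_)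
        linarith
      · rw [if_neg hpl] at hb
        push Not at hpl
        by_cases hno : noP D n l p
        · rw [if_pos hno] at hb
          rcases le_total (ord D n l - V D n l p - 1) (-E0 D n p) with h | h
          · rw [min_eq_left h] at hb
            exact (norm_T_le_small hD n l hl83 hp hpl).trans (zpow_mono_p hb)
          · rw [min_eq_right h] at hb
            exact (norm_T_le_noP hD n l hp hpl hno).trans (zpow_mono_p hb)
        · rw [if_neg hno] at hb
          exact (norm_T_le_small hD n l hl83 hp hpl).trans (zpow_mono_p hb)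
    · rw [T_zero n l (not_lt.1 ho), padicNorm.zero]
      positivity

/-- C2 -/
theorem rho_le (hD : D.OK) (n p j : ℕ) [Fact p.Prime] (hn : 0 < n) (hp2 : p ≠ 2)
    (hp : D.C * n < p ^ 2) (d : ℤ)
    (hj : D.k + 3 ≤ j) (hd : ∀ l ∈ poles D n, bnd D n l p ≤ d) :
    padicNorm p (rho D n j) ≤ (p : ℚ) ^ d := by
  have hp0 := pq_pos (p := p)
  unfold rho
  apply padicNorm.sum_le' _ (by positivity)
  intro l hl
  have hb := hd l hl
  have hl83 := poles_le n l hl
  have hA := norm_a_le' (p := p) hD n l (j - D.k) hl83 hp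
  have hj3 : (3 : ℤ) ≤ ((j - D.k : ℕ) : ℤ) := by omega
  have hk2 : (2 : ℤ) ≤ D.k := by exact_mod_cast hD.kpos
  have hA' : padicNorm p (a D n l (j - D.k)) ≤ (p : ℚ) ^ d := by
    unfold bnd at hb
    by_cases hpl : p ≤ l - D.s * n
    · rw [if_pos hpl] at hb
      refine hA.trans (zpow_mono_p ?_)
      split_ifs at hb <;> linarith
    · rw [if_neg hpl] at hb
      by_cases hno : noP D n l p
      · rw [if_pos hno] at hb
        rcases le_total (ord D n l - V D n l p - 1) (-E0 D n p) with h | h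
        · rw [min_eq_left h] at hb
          refine hA.trans (zpow_mono_p ?_)
          linarith
        · rw [min_eq_right h] at hb
          exact (norm_a_le_noP hD n l _ hp hno).trans (zpow_mono_p hb)
      · rw [if_neg hno] at hb
        refine hA.trans (zpow_mono_p ?_)
        linarith
  rw [padicNorm.mul]
  calc padicNorm p (a D n l (j - D.k)) * padicNorm p (((j - 1).choose D.k : ℕ) : ℚ)
      ≤ (p : ℚ) ^ d * 1 := mul_le_mul hA' (padicNorm.of_nat _) (padicNorm.nonneg _) (by positivity)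
    _ = (p : ℚ) ^ d := mul_one _

/-- local bounds used for the nonvanishing -/
theorem norm_T_le_large (hD : D.OK) (n l p : ℕ) [Fact p.Prime] (hl : l ≤ D.C * n)
    (hpn : D.C * n < p ^ 2) :
    padicNorm p (T D n l) ≤ (p : ℚ) ^ (ord D n l - V D n l p + D.k) :=
  norm_T_le_large' hD n l hl hpn

theorem norm_a_le (hD : D.OK) (n l i p : ℕ) [Fact p.Prime] (hl : l ≤ D.C * n)
    (hpn : D.C * n < p ^ 2) :
    padicNorm p (a D n l i) ≤ (p : ℚ) ^ (ord D n l - V D n l p - i) :=
  norm_a_le' hD n l i hl hpn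

end Pool.Agent.OddZetaG
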