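import Mathlib
import Pool.Agent.OddZetaG.Defs
import Pool.Agent.OddZetaG.PadicBasic
import Pool.Agent.OddZetaG.PadicC1
import Pool.Agent.OddZetaG.PadicC2

set_option autoImplicit false
set_option linter.unusedSectionVars false
set_option linter.unusedVariables false

/-!
# Crude bound (C3) and large primes (C4) (Module C, helper75)
-/

open Finset

namespace Pool.Agent.OddZetaG

open PowerSeries

section

variable {D : Dat} {p : ℕ} [hp : Fact p.Prime]

/-! ### Large primes -/

lemma noP_large (hD : D.OK) (n l : ℕ) (hl : l ≤ D.C * n) (hpn : D.C * n < p) : noP D n l p := by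
  intro i hi
  have h41 := two_P hD hi
  rw [← card_div (p := p) n l (D.h i) h41.le]
  have : ((blk D n (D.h i)).erase l).filter (fun m : ℕ => (p : ℤ) ∣ (m : ℤ) - l) = ∅ := by
    rw [Finset.filter_eq_empty_iff]
    intro m hm
    rw [Finset.mem_erase] at hm
    have hm83 : m ≤ D.C * n := by
      have := hm.2
      unfold blk at this
      rw [Finset.mem_Icc] at this
      have h1 : (D.C - D.h i) * n ≤ D.C * n := Nat.mul_le_mul_right _ (by omega)
      omega
    intro hd
    have h1 : (m : ℤ) - l = 0 := by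
      apply Int.eq_zero_of_abs_lt_dvd hd
      rw [abs_lt]
      constructor <;> omega
    apply hm.1
    have : (m : ℤ) = l := by linarith
    exact_mod_cast this
  rw [this]
  simp

lemma E0_large (n : ℕ) (hpn : D.C * n < p) : E0 D n p = 0 := by
  have h1 : ∀ h, ((Nl D n h / p : ℕ) : ℤ) = 0 := by
    intro h
    have : Nl D n h < p := by
      unfold Nl
      have : (D.C - 2 * h) * n ≤ D.C * n := Nat.mul_le_mul_right _ (by omega)
      omega
    rw [Nat.div_eq_of_lt this]
    rfl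
  unfold E0
  rw [Finset.sum_eq_zero (fun i _ => h1 (D.h i)), Finset.sum_eq_zero (fun i _ => h1 (D.h i)), sub_zero]

/-! ### The crude bound -/

lemma norm_nat_lower (m : ℕ) (hm : 0 < m) : 1 ≤ padicNorm p (m : ℚ) * m := by
  have hp0 := pq_pos (p := p)
  rw [padicNorm.eq_zpow_of_nonzero (by exact_mod_cast hm.ne'), padicValRat.of_nat, zpow_neg,
    zpow_natCast]
  rw [inv_mul_eq_div, one_le_div (by positivity)]
  have := Nat.le_of_dvd hm (pow_padicValNat_dvd (p := p) (n := m))
  exact_mod_cast this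

lemma norm_natAbs (z : ℤ) : padicNorm p (z : ℚ) = padicNorm p ((z.natAbs : ℕ) : ℚ) := by
  rcases Int.natAbs_eq z with h | h
  · conv_lhs => rw [h]
    rw [Int.cast_natCast]
  · conv_lhs => rw [h]
    rw [Int.cast_neg, padicNorm.neg, Int.cast_natCast]

lemma norm_sub_lower (N l m : ℕ) (hl : l ≤ N) (hm : m ≤ N) (hne : m ≠ l) :
    1 ≤ padicNorm p ((m : ℚ) - l) * N := by
  have h1 := norm_natAbs (p := p) ((m : ℤ) - l)
  push_cast at h1
  have h0 : 0 < ((m : ℤ) - l).natAbs := by omega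
  have h2 : ((m : ℤ) - l).natAbs ≤ N := by omega
  have h3 := norm_nat_lower (p := p) _ h0
  have h4 : padicNorm p ((m : ℚ) - l) = padicNorm p ((((m : ℤ) - l).natAbs : ℕ) : ℚ) := by
    have := norm_natAbs (p := p) ((m : ℤ) - l)
    rw [← this]
    push_cast
    rfl
  rw [h4]
  refine h3.trans (mul_le_mul_of_nonneg_left ?_ (padicNorm.nonneg _))
  exact_mod_cast h2

lemma prod_right (l b : ℕ) (h : l ≤ b) :
    ∏ m ∈ Finset.Ioc l b, padicNorm p ((m : ℚ) - l) = padicNorm p (((b - l).factorial : ℕ) : ℚ) := by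
  induction b, h using Nat.le_induction with
  | base => simp
  | succ b hb ih =>
    rw [Finset.prod_Ioc_succ_top hb, ih, show b + 1 - l = (b - l) + 1 by omega, Nat.factorial_succ,
      Nat.cast_mul, padicNorm.mul, mul_comm]
    congr 2
    push_cast [Nat.cast_sub hb]
    ring

lemma prod_left_aux (k a : ℕ) :
    ∏ m ∈ Finset.Ico a (a + k), padicNorm p ((m : ℚ) - ((a + k : ℕ) : ℚ))
      = padicNorm p ((k.factorial : ℕ) : ℚ) := by
  induction k generalizing a with
  | zero => simp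
  | succ k ih =>
    rw [Finset.prod_eq_prod_Ico_succ_bot (by omega)]
    have := ih (a + 1)
    rw [show a + 1 + k = a + (k + 1) by ring] at this
    rw [this, Nat.factorial_succ, Nat.cast_mul, padicNorm.mul]
    congr 1
    rw [← padicNorm.neg]
    congr 1
    push_cast
    ring

lemma prod_left (a l : ℕ) (h : a ≤ l) :
    ∏ m ∈ Finset.Ico a l, padicNorm p ((m : ℚ) - l) = padicNorm p (((l - a).factorial : ℕ) : ℚ) := by
  have := prod_left_aux (p := p) (l - a) a
  rwa [show a + (l - a) = l by omega] at this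

lemma choose_lower (N k : ℕ) (hN : 0 < N) (hk : k ≤ N) :
    1 ≤ padicNorm p ((N.choose k : ℕ) : ℚ) * N := by
  have hp0 := pq_pos (p := p)
  have hc : 0 < N.choose k := Nat.choose_pos hk
  rw [padicNorm.eq_zpow_of_nonzero (by exact_mod_cast hc.ne'), padicValRat.of_nat, zpow_neg,
    zpow_natCast]
  rw [inv_mul_eq_div, one_le_div (by positivity)]
  have h1 := Nat.pow_factorization_choose_le (p := p) (n := N) (k := k) hN
  rw [Nat.factorization_def _ hp.out] at h1
  exact_mod_cast h1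

/-- inside the block -/
lemma prod_in (a b l : ℕ) (h1 : a ≤ l) (h2 : l ≤ b) :
    padicNorm p (((b - a).choose (l - a) : ℕ) : ℚ) *
      ∏ m ∈ (Finset.Icc a b).erase l, padicNorm p ((m : ℚ) - l)
      = padicNorm p (((b - a).factorial : ℕ) : ℚ) := by
  have e : (Finset.Icc a b).erase l = Finset.Ico a l ∪ Finset.Ioc l b := by
    ext x
    simp only [Finset.mem_erase, Finset.mem_Icc, Finset.mem_union, Finset.mem_Ico, Finset.mem_Ioc]
    omega
  have hd : Disjoint (Finset.Ico a l) (Finset.Ioc l b) := by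
    rw [Finset.disjoint_left]
    intro x hx hx'
    rw [Finset.mem_Ico] at hx
    rw [Finset.mem_Ioc] at hx'
    omega
  rw [e, Finset.prod_union hd, prod_left a l h1, prod_right l b h2, ← padicNorm.mul, ← padicNorm.mul]
  congr 1
  have := Nat.choose_mul_factorial_mul_factorial (n := b - a) (k := l - a) (by omega)
  rw [show b - a - (l - a) = b - l by omega] at this
  rw [← this]
  push_cast
  ring

lemma fact_split (x N : ℕ) (hx : 0 < x) :
    ((x + N).factorial : ℚ) = ((x + N).choose (N + 1) : ℕ) * ((N + 1 : ℕ) : ℚ) * (N.factorial : ℕ)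
      * ((x - 1).factorial : ℕ) := by
  have := Nat.choose_mul_factorial_mul_factorial (n := x + N) (k := N + 1) (by omega)
  rw [show x + N - (N + 1) = x - 1 by omega, Nat.factorial_succ] at this
  rw [← this]
  push_cast
  ring

lemma prod_out_left (a b l : ℕ) (hab : a ≤ b) (h1 : l < a) :
    ∏ m ∈ (Finset.Icc a b).erase l, padicNorm p ((m : ℚ) - l)
      = padicNorm p (((b - l).choose (b - a + 1) : ℕ) : ℚ) * padicNorm p ((b - a + 1 : ℕ) : ℚ)
        * padicNorm p (((b - a).factorial : ℕ) : ℚ) := by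
  rw [Finset.erase_eq_of_notMem (by rw [Finset.mem_Icc]; omega)]
  have e : Finset.Ioc l b = Finset.Ioc l (a - 1) ∪ Finset.Icc a b := by
    ext x
    simp only [Finset.mem_Icc, Finset.mem_union, Finset.mem_Ioc]
    omega
  have hd : Disjoint (Finset.Ioc l (a - 1)) (Finset.Icc a b) := by
    rw [Finset.disjoint_left]
    intro x hx hx'
    rw [Finset.mem_Ioc] at hx
    rw [Finset.mem_Icc] at hx'
    omega
  have h2 := prod_right (p := p) l b (by omega)
  rw [e, Finset.prod_union hd, prod_right l (a - 1) (by omega)] at h2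
  have h3 := fact_split (a - l) (b - a) (by omega)
  rw [show a - l + (b - a) = b - l by omega, show a - l - 1 = a - 1 - l by omega] at h3
  have h4 : padicNorm p (((b - l).factorial : ℕ) : ℚ)
      = padicNorm p (((b - l).choose (b - a + 1) : ℕ) : ℚ) * padicNorm p ((b - a + 1 : ℕ) : ℚ)
        * padicNorm p (((b - a).factorial : ℕ) : ℚ) * padicNorm p (((a - 1 - l).factorial : ℕ) : ℚ) := by
    rw [h3, padicNorm.mul, padicNorm.mul, padicNorm.mul]
  rw [h4] at h2
  have h5 : padicNorm p (((a - 1 - l).factorial : ℕ) : ℚ) ≠ 0 :=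
    padicNorm.nonzero (by exact_mod_cast Nat.factorial_ne_zero _)
  rw [mul_comm] at h2
  exact mul_right_cancel₀ h5 h2

lemma prod_out_right (a b l : ℕ) (hab : a ≤ b) (h1 : b < l) :
    ∏ m ∈ (Finset.Icc a b).erase l, padicNorm p ((m : ℚ) - l)
      = padicNorm p (((l - a).choose (b - a + 1) : ℕ) : ℚ) * padicNorm p ((b - a + 1 : ℕ) : ℚ)
        * padicNorm p (((b - a).factorial : ℕ) : ℚ) := by
  rw [Finset.erase_eq_of_notMem (by rw [Finset.mem_Icc]; omega)]
  have e : Finset.Ico a l = Finset.Icc a b ∪ Finset.Ico (b + 1) l := by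
    ext x
    simp only [Finset.mem_Icc, Finset.mem_union, Finset.mem_Ico]
    omega
  have hd : Disjoint (Finset.Icc a b) (Finset.Ico (b + 1) l) := by
    rw [Finset.disjoint_left]
    intro x hx hx'
    rw [Finset.mem_Icc] at hx
    rw [Finset.mem_Ico] at hx'
    omega
  have h2 := prod_left (p := p) a l (by omega)
  rw [e, Finset.prod_union hd, prod_left (b + 1) l (by omega)] at h2
  have h3 := fact_split (l - b) (b - a) (by omega)
  rw [show l - b + (b - a) = l - a by omega, show l - b - 1 = l - (b + 1) by omega] at h3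
  have h4 : padicNorm p (((l - a).factorial : ℕ) : ℚ)
      = padicNorm p (((l - a).choose (b - a + 1) : ℕ) : ℚ) * padicNorm p ((b - a + 1 : ℕ) : ℚ)
        * padicNorm p (((b - a).factorial : ℕ) : ℚ) * padicNorm p (((l - (b + 1)).factorial : ℕ) : ℚ) := by
    rw [h3, padicNorm.mul, padicNorm.mul, padicNorm.mul]
  rw [h4] at h2
  have h5 : padicNorm p (((l - (b + 1)).factorial : ℕ) : ℚ) ≠ 0 :=
    padicNorm.nonzero (by exact_mod_cast Nat.factorial_ne_zero _)
  exact mul_right_cancel₀ h5 h2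

/-- lower bound for the product of norms of a block -/
lemma prod_lower (a b l L : ℕ) (hab : a < b) (hbL : b ≤ L) (hl : l ≤ L) (hNL : b - a + 1 ≤ L) :
    padicNorm p (((b - a).factorial : ℕ) : ℚ) ≤
      (L : ℚ) ^ 2 * ∏ m ∈ (Finset.Icc a b).erase l, padicNorm p ((m : ℚ) - l) := by
  have hf := padicNorm.nonneg (p := p) (((b - a).factorial : ℕ) : ℚ)
  have hL1 : (1 : ℚ) ≤ L := by exact_mod_cast (show 1 ≤ L by omega)
  by_cases hin : a ≤ l ∧ l ≤ b
  · have h1 := prod_in (p := p) a b l hin.1 hin.2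
    rw [← h1]
    apply mul_le_mul_of_nonneg_right _ (Finset.prod_nonneg (fun _ _ => padicNorm.nonneg _))
    have h2 := padicNorm.of_nat (p := p) ((b - a).choose (l - a))
    nlinarith
  · have key : ∀ x : ℕ, b - a + 1 ≤ x → x ≤ L → ∏ m ∈ (Finset.Icc a b).erase l, padicNorm p ((m : ℚ) - l)
      = padicNorm p ((x.choose (b - a + 1) : ℕ) : ℚ) * padicNorm p ((b - a + 1 : ℕ) : ℚ)
        * padicNorm p (((b - a).factorial : ℕ) : ℚ) →
      padicNorm p (((b - a).factorial : ℕ) : ℚ) ≤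
      (L : ℚ) ^ 2 * ∏ m ∈ (Finset.Icc a b).erase l, padicNorm p ((m : ℚ) - l) := by
      intro x hx1 hx2 he
      rw [he]
      have h1 := choose_lower (p := p) x (b - a + 1) (by omega) hx1
      have h2 := norm_nat_lower (p := p) (b - a + 1) (by omega)
      have h3 : padicNorm p ((x.choose (b - a + 1) : ℕ) : ℚ) * x
          ≤ padicNorm p ((x.choose (b - a + 1) : ℕ) : ℚ) * L :=
        mul_le_mul_of_nonneg_left (by exact_mod_cast hx2) (padicNorm.nonneg _)
      have h4 : padicNorm p ((b - a + 1 : ℕ) : ℚ) * ((b - a + 1 : ℕ) : ℚ)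
          ≤ padicNorm p ((b - a + 1 : ℕ) : ℚ) * L :=
        mul_le_mul_of_nonneg_left (by exact_mod_cast hNL) (padicNorm.nonneg _)
      have h5 : (1 : ℚ) ≤ (padicNorm p ((x.choose (b - a + 1) : ℕ) : ℚ) * L) *
          (padicNorm p ((b - a + 1 : ℕ) : ℚ) * L) := by
        have h6 := h1.trans h3
        have h7 := h2.trans h4
        exact one_le_mul_of_one_le_of_one_le h6 h7
      calc padicNorm p (((b - a).factorial : ℕ) : ℚ) = 1 * padicNorm p (((b - a).factorial : ℕ) : ℚ) :=
            (one_mul _).symm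
        _ ≤ ((padicNorm p ((x.choose (b - a + 1) : ℕ) : ℚ) * L) *
          (padicNorm p ((b - a + 1 : ℕ) : ℚ) * L)) * padicNorm p (((b - a).factorial : ℕ) : ℚ) :=
            mul_le_mul_of_nonneg_right h5 hf
        _ = _ := by ring
    rcases lt_or_ge l a with h | h
    · exact key (b - l) (by omega) (by omega) (prod_out_left a b l hab.le h)
    · have h' : b < l := by
        by_contra hc
        exact hin ⟨h, by omega⟩
      exact key (l - a) (by omega) (by omega) (prod_out_right a b l hab.le h')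

lemma prod_upper (a b l L : ℕ) (hab : a < b) (hbL : b ≤ L) (h1 : a ≤ l) (h2 : l ≤ b) :
    ∏ m ∈ (Finset.Icc a b).erase l, padicNorm p ((m : ℚ) - l) ≤
      (L : ℚ) * padicNorm p (((b - a).factorial : ℕ) : ℚ) := by
  rw [← prod_in (p := p) a b l h1 h2]
  have h3 := choose_lower (p := p) (b - a) (l - a) (by omega) (by omega)
  have h4 : padicNorm p (((b - a).choose (l - a) : ℕ) : ℚ) * ((b - a : ℕ) : ℚ)
      ≤ padicNorm p (((b - a).choose (l - a) : ℕ) : ℚ) * L :=
    mul_le_mul_of_nonneg_left (by exact_mod_cast (show b - a ≤ L by omega)) (padicNorm.nonneg _)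
  have h5 : (1 : ℚ) ≤ padicNorm p (((b - a).choose (l - a) : ℕ) : ℚ) * L := h3.trans h4
  have h6 : 0 ≤ ∏ m ∈ (Finset.Icc a b).erase l, padicNorm p ((m : ℚ) - l) :=
    Finset.prod_nonneg (fun _ _ => padicNorm.nonneg _)
  calc ∏ m ∈ (Finset.Icc a b).erase l, padicNorm p ((m : ℚ) - l)
      = 1 * ∏ m ∈ (Finset.Icc a b).erase l, padicNorm p ((m : ℚ) - l) := (one_mul _).symm
    _ ≤ (padicNorm p (((b - a).choose (l - a) : ℕ) : ℚ) * L) *
        ∏ m ∈ (Finset.Icc a b).erase l, padicNorm p ((m : ℚ) - l) := mul_le_mul_of_nonneg_right h5 h6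
    _ = _ := by ring

lemma blk_le (n h m : ℕ) (hm : m ∈ blk D n h) : m ≤ D.C * n := by
  unfold blk at hm
  rw [Finset.mem_Icc] at hm
  have h1 : (D.C - h) * n ≤ D.C * n := Nat.mul_le_mul_right _ (by omega)
  omega

lemma crude_GB_B (n l h : ℕ) (hl : l ≤ D.C * n) :
    GB p (B D n h l) (∏ m ∈ (blk D n h).erase l, padicNorm p ((m : ℚ) - l))
      ((D.C * n : ℕ) : ℚ) := by
  unfold B
  apply GB.prod _ _ _ (by positivity)
  intro m hm
  rw [Finset.mem_erase] at hm
  apply GB.linX _ (by positivity) le_rfl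
  exact norm_sub_lower (D.C * n) l m hl (blk_le n h m hm.2) hm.1

lemma crude_GB_Binv (n l h : ℕ) (hl : l ≤ D.C * n) :
    GB p ((B D n h l)⁻¹) (∏ m ∈ (blk D n h).erase l, padicNorm p ((m : ℚ) - l))⁻¹
      ((D.C * n : ℕ) : ℚ) := by
  unfold B
  rw [prod_inv_ps, ← Finset.prod_inv_distrib]
  apply GB.prod _ _ _ (by positivity)
  intro m hm
  rw [Finset.mem_erase] at hm
  apply GB.linInv
  · intro hc
    apply hm.1
    have : (m : ℚ) = l := by linarith
    exact_mod_cast this
  · exact norm_sub_lower (D.C * n) l m hl (blk_le n h m hm.2) hm.1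

lemma Nl_eq (n h : ℕ) (hh : 2 * h ≤ D.C) : (D.C - h) * n - h * n = Nl D n h := by
  unfold Nl
  rw [← Nat.sub_mul]
  congr 1
  omega

lemma norm_K_split (n : ℕ) : padicNorm p (K D n)
    = (∏ i ∈ D.P, padicNorm p (((Nl D n (D.h i)).factorial : ℕ) : ℚ)) *
      (∏ i ∈ D.M, padicNorm p (((Nl D n (D.h i)).factorial : ℕ) : ℚ))⁻¹ := by
  have hprod : ∀ s : Finset ℕ, padicNorm p (∏ i ∈ s, ((Nl D n (D.h i)).factorial : ℚ))
      = ∏ i ∈ s, padicNorm p (((Nl D n (D.h i)).factorial : ℕ) : ℚ) := by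
    intro s
    classical
    induction s using Finset.induction_on with
    | empty => simp
    | insert a s ha ih =>
      rw [Finset.prod_insert ha, Finset.prod_insert ha, padicNorm.mul, ih]
  unfold K
  rw [padicNorm.div, hprod, hprod, div_eq_mul_inv]

lemma M_blk (hD : D.OK) (n l : ℕ) (hl : l ∈ poles D n) {i : ℕ} (hi : i ∈ D.M) :
    D.h i * n ≤ l ∧ l ≤ (D.C - D.h i) * n := by
  unfold poles at hl
  rw [Finset.mem_Icc] at hl
  have h0 := hD.M_lt i hi
  have h1 := hD.s_le
  have h2 : D.h i * n ≤ D.lo * n := Nat.mul_le_mul_right _ (by omega)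
  have h3 : (D.C - D.lo) * n ≤ (D.C - D.h i) * n := Nat.mul_le_mul_right _ (by omega)
  omega

lemma s_pos (hD : D.OK) : 0 < D.s := by
  have h1 : 0 < D.M.card := by rw [hD.cardM]; omega
  obtain ⟨i, hi⟩ := Finset.card_pos.1 h1
  have := hD.M_lt i hi
  omega

lemma crude_GB_F (hD : D.OK) (n l : ℕ) (hn : 0 < n) (hl : l ∈ poles D n) :
    GB p (F D n l) (((D.C * n : ℕ) : ℚ) ^ (2 * D.P.card + D.M.card)) ((D.C * n : ℕ) : ℚ) := by
  have hl83 := poles_le n l hl
  have hs0 := s_pos hD
  have hsC := s_lt hD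
  have hCn : 1 ≤ D.C * n := Nat.mul_pos (by omega) hn
  have hL1 : (1 : ℚ) ≤ ((D.C * n : ℕ) : ℚ) := by exact_mod_cast hCn
  have hL0 : (0 : ℚ) < ((D.C * n : ℕ) : ℚ) := by linarith
  have hfpos : ∀ h, 0 < padicNorm p (((Nl D n h).factorial : ℕ) : ℚ) := fun h =>
    lt_of_le_of_ne (padicNorm.nonneg _)
      (padicNorm.nonzero (by exact_mod_cast Nat.factorial_ne_zero _)).symm
  have hBpos : ∀ h, 0 < ∏ m ∈ (blk D n h).erase l, padicNorm p ((m : ℚ) - l) := by
    intro h
    apply Finset.prod_pos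
    intro m hm
    rw [Finset.mem_erase] at hm
    refine lt_of_le_of_ne (padicNorm.nonneg _) (padicNorm.nonzero ?_).symm
    intro hc
    apply hm.1
    have : (m : ℚ) = l := by linarith
    exact_mod_cast this
  have hP : ∀ i ∈ D.P, padicNorm p (((Nl D n (D.h i)).factorial : ℕ) : ℚ) *
      (∏ m ∈ (blk D n (D.h i)).erase l, padicNorm p ((m : ℚ) - l))⁻¹ ≤ ((D.C * n : ℕ) : ℚ) ^ 2 := by
    intro i hi
    have h41 := two_P hD hi
    have h25 : 1 ≤ D.h i := by
      have := hD.P_ge i hi; omega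
    rw [← div_eq_mul_inv, div_le_iff₀ (hBpos (D.h i))]
    have := prod_lower (p := p) (D.h i * n) ((D.C - D.h i) * n) l (D.C * n)
      (Nat.mul_lt_mul_of_pos_right (by omega) hn) (Nat.mul_le_mul_right _ (by omega)) hl83
      (by
        rw [Nl_eq n (D.h i) h41.le]
        unfold Nl
        have h1 : (D.C - 2 * D.h i) * n + 1 * n ≤ D.C * n := by
          rw [← Nat.add_mul]
          exact Nat.mul_le_mul_right _ (by omega)
        omega)
    rw [Nl_eq n (D.h i) h41.le] at this
    exact this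
  have hM : ∀ i ∈ D.M, (padicNorm p (((Nl D n (D.h i)).factorial : ℕ) : ℚ))⁻¹ *
      (∏ m ∈ (blk D n (D.h i)).erase l, padicNorm p ((m : ℚ) - l)) ≤ ((D.C * n : ℕ) : ℚ) := by
    intro i hi
    have h41 := two_M hD hi
    rw [mul_comm, ← div_eq_mul_inv, div_le_iff₀ (hfpos (D.h i))]
    have hlm := M_blk hD n l hl hi
    have := prod_upper (p := p) (D.h i * n) ((D.C - D.h i) * n) l (D.C * n)
      (Nat.mul_lt_mul_of_pos_right (by omega) hn) (Nat.mul_le_mul_right _ (by omega)) hlm.1 hlm.2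
    rw [Nl_eq n (D.h i) h41.le] at this
    exact this
  have h0 : GB p (F D n l) (padicNorm p (K D n) * 1 *
      (∏ i ∈ D.M, ∏ m ∈ (blk D n (D.h i)).erase l, padicNorm p ((m : ℚ) - l)) *
      (∏ i ∈ D.P, (∏ m ∈ (blk D n (D.h i)).erase l, padicNorm p ((m : ℚ) - l))⁻¹))
      ((D.C * n : ℕ) : ℚ) := by
    unfold F
    rw [prod_inv_ps D.P]
    apply GB.mul
    · apply GB.mul
      · apply GB.mul
        · exact GB.C _ hL0.le
        · exact GB_mid n l hL1
      · apply GB.prod _ _ _ hL0.le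
        intro i _
        exact crude_GB_B n l (D.h i) hl83
    · apply GB.prod _ _ _ hL0.le
      intro i _
      exact crude_GB_Binv n l (D.h i) hl83
  refine h0.mono hL0.le ?_
  rw [norm_K_split, ← Finset.prod_inv_distrib]
  have e : (∏ i ∈ D.P, padicNorm p (((Nl D n (D.h i)).factorial : ℕ) : ℚ)) *
      (∏ i ∈ D.M, (padicNorm p (((Nl D n (D.h i)).factorial : ℕ) : ℚ))⁻¹) * 1 *
      (∏ i ∈ D.M, ∏ m ∈ (blk D n (D.h i)).erase l, padicNorm p ((m : ℚ) - l)) *
      (∏ i ∈ D.P, (∏ m ∈ (blk D n (D.h i)).erase l, padicNorm p ((m : ℚ) - l))⁻¹)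
      = (∏ i ∈ D.P, (padicNorm p (((Nl D n (D.h i)).factorial : ℕ) : ℚ) *
        (∏ m ∈ (blk D n (D.h i)).erase l, padicNorm p ((m : ℚ) - l))⁻¹)) *
        ∏ i ∈ D.M, ((padicNorm p (((Nl D n (D.h i)).factorial : ℕ) : ℚ))⁻¹ *
        (∏ m ∈ (blk D n (D.h i)).erase l, padicNorm p ((m : ℚ) - l))) := by
    rw [Finset.prod_mul_distrib, Finset.prod_mul_distrib]
    ring
  rw [e]
  calc _ ≤ (∏ _i ∈ D.P, ((D.C * n : ℕ) : ℚ) ^ 2) * ∏ _i ∈ D.M, ((D.C * n : ℕ) : ℚ) := by
        apply mul_le_mul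
        · apply Finset.prod_le_prod
          · intro i _
            exact (mul_pos (hfpos _) (inv_pos.2 (hBpos _))).le
          · exact hP
        · apply Finset.prod_le_prod
          · intro i _
            exact (mul_pos (inv_pos.2 (hfpos _)) (hBpos _)).le
          · exact hM
        · apply Finset.prod_nonneg
          intro i _
          exact (mul_pos (inv_pos.2 (hfpos _)) (hBpos _)).le
        · positivity
    _ = ((D.C * n : ℕ) : ℚ) ^ (2 * D.P.card + D.M.card) := by
        rw [Finset.prod_const, Finset.prod_const, ← pow_mul, ← pow_add]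

lemma ord_le (hD : D.OK) (n l : ℕ) (hl : l ∈ poles D n) : ord D n l ≤ D.A := by
  unfold ord
  have h1 : #{i ∈ D.P | l ∈ blk D n (D.h i)} ≤ D.P.card := Finset.card_filter_le _ _
  have h2 : {i ∈ D.M | l ∈ blk D n (D.h i)} = D.M := by
    rw [Finset.filter_eq_self]
    intro i hi
    unfold blk
    rw [Finset.mem_Icc]
    exact M_blk hD n l hl hi
  rw [h2]
  have h3 : ((#{i ∈ D.P | l ∈ blk D n (D.h i)} : ℕ) : ℤ) ≤ ((D.P.card : ℕ) : ℤ) := by
    exact_mod_cast h1
  rw [hD.cardP] at h3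
  push_cast at h3 ⊢
  linarith

lemma crude_a (hD : D.OK) (n l i : ℕ) (hn : 0 < n) (hl : l ∈ poles D n) :
    padicNorm p (a D n l i) ≤ ((D.C * n : ℕ) : ℚ) ^ (2 * D.P.card + D.M.card + D.A) := by
  have hsC := s_lt hD
  have hCn : 1 ≤ D.C * n := Nat.mul_pos (by omega) hn
  have hL1 : (1 : ℚ) ≤ ((D.C * n : ℕ) : ℚ) := by exact_mod_cast hCn
  unfold a
  split_ifs with h
  · refine (crude_GB_F hD n l hn hl _).trans ?_
    rw [← pow_add]
    apply pow_le_pow_right₀ hL1
    have := ord_le hD n l hl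
    omega
  · rw [padicNorm.zero]; positivity

lemma crude_Hs (n s t M : ℕ) (hn : 1 ≤ D.C * n) (hs : s ≤ t) (hM : M ≤ D.C * n) :
    padicNorm p (Hs s M) ≤ ((D.C * n : ℕ) : ℚ) ^ t := by
  have hL1 : (1 : ℚ) ≤ ((D.C * n : ℕ) : ℚ) := by exact_mod_cast hn
  unfold Hs
  apply padicNorm.sum_le' _ (by positivity)
  intro m hm
  rw [Finset.mem_Icc] at hm
  have h1 := norm_nat_lower (p := p) m (by omega)
  have hm0 : (0 : ℚ) < m := by exact_mod_cast (show 0 < m by omega)
  have hpos : 0 < padicNorm p (m : ℚ) := pos_of_mul_pos_left (lt_of_lt_of_le one_pos h1) hm0.le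
  rw [padicNorm.div, padicNorm.one, norm_pow_q, div_le_iff₀ (by positivity)]
  have hmL : (m : ℚ) ≤ ((D.C * n : ℕ) : ℚ) := by exact_mod_cast (show m ≤ D.C * n by omega)
  have h2 : 1 ≤ padicNorm p (m : ℚ) * ((D.C * n : ℕ) : ℚ) :=
    h1.trans (mul_le_mul_of_nonneg_left hmL hpos.le)
  calc (1 : ℚ) ≤ (padicNorm p (m : ℚ) * ((D.C * n : ℕ) : ℚ)) ^ s := one_le_pow₀ h2
    _ = ((D.C * n : ℕ) : ℚ) ^ s * padicNorm p (m : ℚ) ^ s := by rw [mul_pow, mul_comm]
    _ ≤ ((D.C * n : ℕ) : ℚ) ^ t * padicNorm p (m : ℚ) ^ s := by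
        apply mul_le_mul_of_nonneg_right _ (by positivity)
        exact pow_le_pow_right₀ hL1 hs

end

variable (D : Dat)

/-- C4 -/
theorem large (hD : D.OK) (n p j : ℕ) [Fact p.Prime] (hn : 0 < n) (hp : D.C * n < p)
    (hj : D.k + 3 ≤ j) :
    padicNorm p (rho0 D n) ≤ 1 ∧ padicNorm p (rho D n j) ≤ 1 := by
  have hpn : D.C * n < p ^ 2 := lt_of_lt_of_le hp (Nat.le_self_pow (by norm_num) p)
  have hE := E0_large (D := D) (p := p) n hp
  constructor
  · unfold rho0
    apply padicNorm.sum_le' _ zero_le_one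
    intro l hl
    have hl83 := poles_le n l hl
    have := norm_T_le_noP (p := p) hD n l hpn (by omega) (noP_large hD n l hl83 hp)
    rwa [hE, neg_zero, zpow_zero] at this
  · unfold rho
    apply padicNorm.sum_le' _ zero_le_one
    intro l hl
    have hl83 := poles_le n l hl
    have := norm_a_le_noP (p := p) hD n l (j - D.k) hpn (noP_large hD n l hl83 hp)
    rw [hE, neg_zero, zpow_zero] at this
    rw [padicNorm.mul]
    calc padicNorm p (a D n l (j - D.k)) * padicNorm p (((j - 1).choose D.k : ℕ) : ℚ)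
        ≤ 1 * 1 := mul_le_mul this (padicNorm.of_nat _) (padicNorm.nonneg _) zero_le_one
      _ = 1 := mul_one _

/-- C3, crude bound valid for every prime -/
theorem crude (hD : D.OK) : ∃ E : ℕ, ∀ (n p j : ℕ) [Fact p.Prime], 0 < n → D.k + 3 ≤ j →
    j ≤ D.k + D.A → padicNorm p (rho0 D n) ≤ ((D.C : ℚ) * n) ^ E ∧
      padicNorm p (rho D n j) ≤ ((D.C : ℚ) * n) ^ E := by
  refine ⟨2 * D.P.card + D.M.card + D.A + (D.A + D.k), ?_⟩
  intro n p j _ hn _ _
  have hsC := s_lt hD
  have hCn : 1 ≤ D.C * n := Nat.mul_pos (by omega) hn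
  have hL1 : (1 : ℚ) ≤ ((D.C * n : ℕ) : ℚ) := by exact_mod_cast hCn
  have e : ((D.C : ℚ) * n) = ((D.C * n : ℕ) : ℚ) := by push_cast; ring
  rw [e]
  constructor
  · unfold rho0
    apply padicNorm.sum_le' _ (by positivity)
    intro l hl
    have hl83 := poles_le n l hl
    unfold T
    rw [padicNorm.neg]
    apply padicNorm.sum_le' _ (by positivity)
    intro i hi
    rw [Finset.mem_Icc] at hi
    refine (norm_term_le n l i _ _ (crude_a hD n l i hn hl)
      (crude_Hs (D := D) n (i + D.k) (D.A + D.k) (l - D.s * n) hCn (by omega) (by omega))).trans ?_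
    rw [← pow_add]
  · unfold rho
    apply padicNorm.sum_le' _ (by positivity)
    intro l hl
    rw [padicNorm.mul]
    calc padicNorm p (a D n l (j - D.k)) * padicNorm p (((j - 1).choose D.k : ℕ) : ℚ)
        ≤ ((D.C * n : ℕ) : ℚ) ^ (2 * D.P.card + D.M.card + D.A) * 1 :=
          mul_le_mul (crude_a hD n l _ hn hl) (padicNorm.of_nat _) (padicNorm.nonneg _)
            (by positivity)
      _ ≤ ((D.C * n : ℕ) : ℚ) ^ (2 * D.P.card + D.M.card + D.A + (D.A + D.k)) := by
          rw [mul_one]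
          exact pow_le_pow_right₀ hL1 (by omega)

end Pool.Agent.OddZetaG
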