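import Pool.Agent.OddZetaG.SEq
import Pool.Agent.OddZetaG.PadicC3
import Pool.Agent.OddZetaG.PadicC4
import Pool.Agent.OddZetaG.Crit
import Pool.Agent.OddZetaG.Nonvan
import Pool.Agent.OddZetaG.NvV

/-!
Main theorem of the generic construction.
Seat: helper7.
-/

open Finset

namespace Pool.Agent.OddZetaG

theorem main_of {D : Dat} (hD : D.OK) (hs0 : ∃ i ∈ D.P, D.h i = D.s) {al be : ℝ} (hab : be < al)
    (hS : ∃ N : ℕ, ∀ n ≥ N, Odd n → |S D n| ≤ Real.exp (-al * n))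
    (hsum : ∃ d : ℕ → ℕ → ℕ, ∃ N : ℕ, ∀ n ≥ N, n.Prime →
      (∀ p : ℕ, p.Prime → p ≠ n → D.C * n < p ^ 2 → p ≤ D.C * n →
        ∀ l ∈ poles D n, bnd D n l p ≤ d n p) ∧
      ∑ p ∈ (Finset.Icc 1 (D.C * n)).filter (fun p => p.Prime ∧ D.C * n < p ^ 2 ∧ p ≠ n),
        (d n p : ℝ) * Real.log p ≤ be * n)
    (hne : rho0 D 1 ≠ 0) :
    ∃ j ∈ Js D, Irrational (tail j 0) := by
  have hC : 0 < D.C := by have := hD.lo_lt; omega
  have hk := hD.kpos
  have hA := hD.A4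
  obtain ⟨E, hE⟩ := crude D hD
  have hJ : ∀ j ∈ Js D, D.k + 3 ≤ j ∧ j ≤ D.k + D.A := by
    intro j hj
    unfold Js at hj
    rw [Finset.mem_filter, Finset.mem_Icc] at hj
    exact hj.1
  have hlo := hD.lo_lt
  have hJne : D.k + 3 ≤ D.k + D.A := by omega
  refine crit (Js D) D.C E (D.A + D.k - 2) hC (fun j => tail j 0) (rho0 D) (rho D) (S D)
    (fun n hn => S_eq hD n hn) hab hS ?_ ?_ ?_ ?_ ?_
  · intro n p _ hn
    exact ⟨(hE n p (D.k + 3) hn le_rfl hJne).1, fun j hj => (hE n p j hn (hJ j hj).1 (hJ j hj).2).2⟩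
  · intro n p _ hn hp
    exact ⟨(large D hD n p (D.k + 3) hn hp le_rfl).1,
      fun j hj => (large D hD n p j hn hp (hJ j hj).1).2⟩
  · obtain ⟨d, N, hd⟩ := hsum
    refine ⟨d, N + 4, fun n hn hnp => ⟨?_, (hd n (by omega) hnp).2⟩⟩
    intro p hpf hpn hpp hpl
    have hn0 : 0 < n := hnp.pos
    have hp2 : p ≠ 2 := by
      rintro rfl
      have : n ≤ D.C * n := Nat.le_mul_of_pos_left n hC
      omega
    have hbd : ∀ l ∈ poles D n, bnd D n l p ≤ ((d n p : ℕ) : ℤ) := fun l hl =>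
      (hd n (by omega) hnp).1 p hpf.out hpn hpp hpl l hl
    refine ⟨?_, fun j hj => ?_⟩
    · have := rho0_le D hD hs0 n p hn0 hp2 hpp _ hbd
      rwa [zpow_natCast] at this
    · have := rho_le D hD n p j hn0 hp2 hpp _ (hJ j hj).1 hbd
      rwa [zpow_natCast] at this
  · refine ⟨D.C + 1 + (rho0 D 1).num.natAbs + (rho0 D 1).den, ?_⟩
    intro p hp hpp
    have : Fact p.Prime := ⟨hpp⟩
    have hpC : D.C < p := by omega
    have hden := (rho0 D 1).den_pos
    have hexp : D.A + D.k - 2 + 1 = D.A + D.k - 1 := by omega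
    rw [hexp]
    refine rho0_norm hD hpC (by omega) (by omega) hne (fun l hl hpl => ?_)
    refine T_self_le hD hl hpl (norm_T_le_large D hD p l p ?_ ?_)
    · unfold poles at hl
      rw [Finset.mem_Icc] at hl
      calc l ≤ (D.C - D.lo) * p := hl.2
        _ ≤ D.C * p := Nat.mul_le_mul_right _ (by omega)
    · rw [pow_two]; exact Nat.mul_lt_mul_of_pos_right hpC hpp.pos
  · refine ⟨D.C + 1, ?_⟩
    intro p hp hpp j hj
    have : Fact p.Prime := ⟨hpp⟩
    have hpC : D.C < p := by omega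
    unfold rho
    refine padicNorm.sum_le' ?_ (by positivity)
    intro l hl
    rw [padicNorm.mul]
    have h1 : padicNorm p (((j - 1).choose D.k : ℕ) : ℚ) ≤ 1 := padicNorm.of_nat _
    have h2 : padicNorm p (a D p l (j - D.k)) ≤ (p : ℚ) ^ D.A := by
      refine a_self_le hD (norm_a_le D hD p l (j - D.k) p ?_ ?_)
      · unfold poles at hl
        rw [Finset.mem_Icc] at hl
        calc l ≤ (D.C - D.lo) * p := hl.2
          _ ≤ D.C * p := Nat.mul_le_mul_right _ (by omega)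
      · rw [pow_two]; exact Nat.mul_lt_mul_of_pos_right hpC hpp.pos
    have hp1 : (1 : ℚ) ≤ p := by exact_mod_cast hpp.one_lt.le
    calc _ ≤ (p : ℚ) ^ D.A * 1 := mul_le_mul h2 h1 (padicNorm.nonneg _) (by positivity)
      _ = (p : ℚ) ^ D.A := mul_one _
      _ ≤ (p : ℚ) ^ (D.A + D.k - 2) := pow_le_pow_right₀ hp1 (by omega)

end Pool.Agent.OddZetaG
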