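import Pool.Agent.OddZetaG.Defs
import Pool.Agent.OddZeta.PSCong

/-!
Block products at multiples of the prime `n = p` (generic construction).
Seat: helper7.
-/

open Finset

namespace Pool.Agent.OddZetaG

open Pool.Agent.OddZeta (PInt PCong p_inv_nonneg padicNorm_self padicNorm_inv pint_one pint_add
  pint_mul pint_C pint_X pint_prod pint_inv pcong_refl pcong_symm pcong_trans coeff_mul_le pcong_mul
  pint_of_pcong_one p_inv_lt_one norm_eq_one_of_close constantCoeff_norm_of_pcong_one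
  ne_zero_of_norm_one pcong_one_prod pcong_one_inv ps_prod_inv rescale_inv rescale_C rescale_X')

variable (D : Dat) {p : ℕ} [hp : Fact p.Prime]

/-- the correction factor of one block -/
noncomputable def Ecor (p h j : ℕ) : PowerSeries ℚ :=
  ∏ r ∈ (Finset.Icc 1 (Nl D p h)).filter (fun r => ¬ p ∣ r),
    (PowerSeries.C (1 + ((h : ℚ) - j) * p / r) + PowerSeries.C ((p : ℚ) / r) * PowerSeries.X)

theorem norm_of_not_dvd {r : ℕ} (h : ¬ p ∣ r) : padicNorm p (r : ℚ) = 1 :=
  (padicNorm.nat_eq_one_iff (p := p) r).2 h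

theorem Ecor_cong (h j : ℕ) : PCong p (Ecor D p h j) 1 := by
  refine pcong_one_prod _ _ ?_
  intro r hr
  have hr' : padicNorm p (r : ℚ) = 1 := norm_of_not_dvd (Finset.mem_filter.1 hr).2
  intro k
  have e : (PowerSeries.C (1 + ((h : ℚ) - j) * p / r) +
      PowerSeries.C ((p : ℚ) / r) * PowerSeries.X) - 1
      = PowerSeries.C (((p : ℚ) / r) * ((h : ℚ) - j)) + PowerSeries.C ((p : ℚ) / r) * PowerSeries.X := by
    have : (1 : PowerSeries ℚ) = PowerSeries.C 1 := by simp
    rw [this, add_sub_right_comm, ← map_sub]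
    congr 2
    ring
  rw [e, map_add, PowerSeries.coeff_C, PowerSeries.coeff_C_mul, PowerSeries.coeff_X]
  have hpr : padicNorm p ((p : ℚ) / r) = (p : ℚ)⁻¹ := by
    rw [padicNorm.div, hr', padicNorm_self, div_one]
  have hint : padicNorm p ((h : ℚ) - j) ≤ 1 := by
    have := padicNorm.of_int (p := p) ((h : ℤ) - j)
    simpa using this
  refine (padicNorm.nonarchimedean).trans (max_le ?_ ?_)
  · split_ifs
    · rw [padicNorm.mul, hpr]
      exact mul_le_of_le_one_right p_inv_nonneg hint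
    · rw [padicNorm.zero]; exact p_inv_nonneg
  · split_ifs
    · rw [mul_one, hpr]
    · rw [mul_zero, padicNorm.zero]; exact p_inv_nonneg

/-- exponent of `p` -/
def eh (h j : ℕ) : ℕ := if j ∈ blk D 1 h then 0 else 1

omit hp in
theorem card_blk_erase (h j : ℕ) (hh : 2 * h ≤ D.C) :
    ((blk D 1 h).erase j).card = (D.C - 2 * h) + eh D h j := by
  unfold eh
  have hc : (blk D 1 h).card = D.C + 1 - 2 * h := by
    unfold blk
    rw [Nat.card_Icc]
    omega
  split_ifs with hj
  · rw [Finset.card_erase_of_mem hj, hc]; omega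
  · rw [Finset.erase_eq_of_notMem hj, hc]; omega

omit hp in
/-- the product over a block, split into multiples of `p` and the others -/
theorem blk_filter_dvd (hp0 : 0 < p) (h j : ℕ) :
    ((blk D p h).erase (p * j)).filter (fun m => p ∣ m)
      = ((blk D 1 h).erase j).image (fun m => p * m) := by
  ext m
  simp only [Finset.mem_filter, Finset.mem_erase, blk, Finset.mem_Icc, Finset.mem_image, mul_one]
  constructor
  · rintro ⟨⟨h1, h2, h3⟩, m', rfl⟩
    refine ⟨m', ⟨?_, ?_, ?_⟩, rfl⟩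
    · rintro rfl; exact h1 rfl
    · rw [mul_comm] at h2
      exact Nat.le_of_mul_le_mul_left h2 hp0
    · rw [mul_comm (D.C - h)] at h3
      exact Nat.le_of_mul_le_mul_left h3 hp0
  · rintro ⟨m', ⟨h1, h2, h3⟩, rfl⟩
    refine ⟨⟨?_, ?_, ?_⟩, Dvd.intro _ rfl⟩
    · intro h; exact h1 (Nat.eq_of_mul_eq_mul_left hp0 h)
    · rw [mul_comm]; exact Nat.mul_le_mul_left _ h2
    · rw [mul_comm (D.C - h)]; exact Nat.mul_le_mul_left _ h3

omit hp in
theorem blk_filter_not_dvd (h j : ℕ) (hh : 2 * h ≤ D.C) :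
    ((blk D p h).erase (p * j)).filter (fun m => ¬ p ∣ m)
      = ((Finset.Icc 1 (Nl D p h)).filter (fun r => ¬ p ∣ r)).image (fun r => r + h * p) := by
  ext m
  simp only [Finset.mem_filter, Finset.mem_erase, blk, Finset.mem_Icc, Finset.mem_image, Nl]
  have e1 : (D.C - h) * p = (D.C - 2 * h) * p + h * p := by
    rw [← add_mul]; congr 1; omega
  constructor
  · rintro ⟨⟨h1, h2, h3⟩, h4⟩
    have h5 : h * p ≠ m := by
      rintro rfl; exact h4 (Dvd.intro_left _ rfl)
    refine ⟨m - h * p, ⟨⟨by omega, by omega⟩, ?_⟩, by omega⟩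
    intro h6
    apply h4
    have : m = (m - h * p) + h * p := by omega
    rw [this]
    exact dvd_add h6 (Dvd.intro_left _ rfl)
  · rintro ⟨r, ⟨⟨h1, h2⟩, h3⟩, rfl⟩
    have h4 : ¬ p ∣ r + h * p := by
      intro h5
      exact h3 ((Nat.dvd_add_left (Dvd.intro_left _ rfl)).1 h5)
    refine ⟨⟨?_, by omega, by omega⟩, h4⟩
    rintro h5
    exact h4 (h5 ▸ Dvd.intro _ rfl)

omit hp in
theorem icc_filter_dvd (hp0 : 0 < p) (h : ℕ) :
    (Finset.Icc 1 (Nl D p h)).filter (fun m => p ∣ m)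
      = (Finset.Icc 1 (D.C - 2 * h)).image (fun m => p * m) := by
  ext m
  simp only [Finset.mem_filter, Finset.mem_Icc, Finset.mem_image, Nl]
  constructor
  · rintro ⟨⟨h1, h2⟩, m', rfl⟩
    refine ⟨m', ⟨?_, ?_⟩, rfl⟩
    · rcases Nat.eq_zero_or_pos m' with rfl | h3
      · simp at h1
      · exact h3
    · rw [mul_comm (D.C - 2 * h)] at h2
      exact Nat.le_of_mul_le_mul_left h2 hp0
  · rintro ⟨m', ⟨h1, h2⟩, rfl⟩
    refine ⟨⟨?_, ?_⟩, Dvd.intro _ rfl⟩
    · exact Nat.mul_pos hp0 h1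
    · rw [mul_comm (D.C - 2 * h)]; exact Nat.mul_le_mul_left _ h2

omit hp in
theorem prod_Icc_factorial' (N : ℕ) : ∏ x ∈ Finset.Icc 1 N, x = N.factorial := by
  have : Finset.Icc 1 N = Finset.Ico 1 (N + 1) := by
    ext x; simp only [Finset.mem_Icc, Finset.mem_Ico]; omega
  rw [this, Finset.prod_Ico_id_eq_factorial]

omit hp in
theorem factorial_split (hp0 : 0 < p) (h : ℕ) :
    ((Nl D p h).factorial : ℚ) = (p : ℚ) ^ (D.C - 2 * h) * ((D.C - 2 * h).factorial : ℚ) *
      ∏ r ∈ (Finset.Icc 1 (Nl D p h)).filter (fun r => ¬ p ∣ r), (r : ℚ) := by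
  rw [← prod_Icc_factorial', ← prod_Icc_factorial', Nat.cast_prod,
    Nat.cast_prod,
    ← Finset.prod_filter_mul_prod_filter_not (Finset.Icc 1 (Nl D p h)) (fun m => p ∣ m),
    icc_filter_dvd D hp0 h, Finset.prod_image]
  · congr 1
    have : ∀ m ∈ Finset.Icc 1 (D.C - 2 * h), ((p * m : ℕ) : ℚ) = (p : ℚ) * (m : ℚ) := by
      intro m _; push_cast; ring
    rw [Finset.prod_congr rfl this, Finset.prod_mul_distrib, Finset.prod_const, Nat.card_Icc]
    simp
  · intro x _ y _ hxy
    exact Nat.eq_of_mul_eq_mul_left hp0 hxy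

/-- one block, rescaled -/
theorem rescale_B (h j : ℕ) (hh : 2 * h ≤ D.C) :
    PowerSeries.rescale (p : ℚ) (B D p h (p * j)) * PowerSeries.C (((Nl D p h).factorial : ℚ)⁻¹)
      = PowerSeries.C ((p : ℚ) ^ (eh D h j)) *
        (B D 1 h j * PowerSeries.C (((Nl D 1 h).factorial : ℚ)⁻¹)) * Ecor D p h j := by
  have hp0 : 0 < p := hp.out.pos
  have hpq : (p : ℚ) ≠ 0 := by exact_mod_cast hp0.ne'
  have hW : (∏ r ∈ (Finset.Icc 1 (Nl D p h)).filter (fun r => ¬ p ∣ r), (r : ℚ)) ≠ 0 := by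
    rw [Finset.prod_ne_zero_iff]
    intro r hr
    have := (Finset.mem_Icc.1 (Finset.mem_filter.1 hr).1).1
    positivity
  have h1 : PowerSeries.rescale (p : ℚ) (B D p h (p * j))
      = PowerSeries.C ((p : ℚ) ^ ((blk D 1 h).erase j).card) * B D 1 h j *
        (PowerSeries.C (∏ r ∈ (Finset.Icc 1 (Nl D p h)).filter (fun r => ¬ p ∣ r), (r : ℚ)) *
          Ecor D p h j) := by
    unfold B
    rw [map_prod, ← Finset.prod_filter_mul_prod_filter_not ((blk D p h).erase (p * j)) (fun m => p ∣ m),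
      blk_filter_dvd D hp0, blk_filter_not_dvd D h j hh, Finset.prod_image, Finset.prod_image]
    · congr 1
      · have : ∀ m ∈ (blk D 1 h).erase j, PowerSeries.rescale (p : ℚ)
            (PowerSeries.C (((p * m : ℕ) : ℚ) - ((p * j : ℕ) : ℚ)) + PowerSeries.X)
            = PowerSeries.C (p : ℚ) * (PowerSeries.C ((m : ℚ) - (j : ℚ)) + PowerSeries.X) := by
          intro m _
          rw [map_add, rescale_C, rescale_X', mul_add, ← map_mul]
          congr 3
          push_cast; ring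
        rw [Finset.prod_congr rfl this, Finset.prod_mul_distrib, Finset.prod_const, map_pow]
      · unfold Ecor
        rw [map_prod, ← Finset.prod_mul_distrib]
        refine Finset.prod_congr rfl ?_
        intro r hr
        have hr0 : (r : ℚ) ≠ 0 := by
          have := (Finset.mem_Icc.1 (Finset.mem_filter.1 hr).1).1
          positivity
        rw [map_add, rescale_C, rescale_X', mul_add, ← map_mul, ← mul_assoc, ← map_mul]
        congr 3
        · push_cast; field_simp; ring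
        · field_simp
    · intro x _ y _ hxy
      exact Nat.add_right_cancel hxy
    · intro x _ y _ hxy
      exact Nat.eq_of_mul_eq_mul_left hp0 hxy
  rw [h1, factorial_split D hp0 h, card_blk_erase D h j hh]
  have hN1 : Nl D 1 h = D.C - 2 * h := by unfold Nl; rw [mul_one]
  rw [hN1]
  have hf : ((D.C - 2 * h).factorial : ℚ) ≠ 0 := by positivity
  have key : PowerSeries.C ((p : ℚ) ^ (D.C - 2 * h + eh D h j)) *
      PowerSeries.C (∏ r ∈ (Finset.Icc 1 (Nl D p h)).filter (fun r => ¬ p ∣ r), (r : ℚ)) *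
      PowerSeries.C (((p : ℚ) ^ (D.C - 2 * h) * ((D.C - 2 * h).factorial : ℚ) *
      ∏ r ∈ (Finset.Icc 1 (Nl D p h)).filter (fun r => ¬ p ∣ r), (r : ℚ))⁻¹)
      = PowerSeries.C ((p : ℚ) ^ (eh D h j)) * PowerSeries.C (((D.C - 2 * h).factorial : ℚ)⁻¹) := by
    rw [← map_mul, ← map_mul, ← map_mul]
    congr 1
    rw [pow_add]
    field_simp
  linear_combination (B D 1 h j * Ecor D p h j) * key

end Pool.Agent.OddZetaG
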