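import Pool.Agent.OddZetaG.NvBlock

/-!
The local contributions at multiples of the prime `n = p` (generic construction).
Seat: helper7.
-/

open Finset

namespace Pool.Agent.OddZetaG

open Pool.Agent.OddZeta (PInt PCong p_inv_nonneg padicNorm_self padicNorm_inv pint_one pint_add
  pint_mul pint_C pint_X pint_prod pint_inv pcong_refl pcong_symm pcong_trans coeff_mul_le pcong_mul
  pint_of_pcong_one p_inv_lt_one norm_eq_one_of_close constantCoeff_norm_of_pcong_one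
  ne_zero_of_norm_one pcong_one_prod pcong_one_inv ps_prod_inv rescale_inv rescale_C rescale_X')

variable (D : Dat)

/-- normalised block -/
noncomputable def G (n h l : ℕ) : PowerSeries ℚ :=
  B D n h l * PowerSeries.C (((Nl D n h).factorial : ℚ)⁻¹)

theorem ps_C_inv (x : ℚ) : (PowerSeries.C x)⁻¹ = PowerSeries.C x⁻¹ := PowerSeries.C_inv x

theorem F_eq (n l : ℕ) :
    F D n l = (PowerSeries.C (D.C * (n : ℚ) - 2 * (l : ℚ)) + 2 * PowerSeries.X) *
    (∏ i ∈ D.M, G D n (D.h i) l) * (∏ i ∈ D.P, G D n (D.h i) l)⁻¹ := by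
  unfold F G
  rw [Finset.prod_mul_distrib, Finset.prod_mul_distrib, PowerSeries.mul_inv_rev, ← map_prod,
    ← map_prod, ps_C_inv]
  have hK : PowerSeries.C (K D n) =
      PowerSeries.C (∏ i ∈ D.M, ((Nl D n (D.h i)).factorial : ℚ)⁻¹) *
      PowerSeries.C (∏ i ∈ D.P, ((Nl D n (D.h i)).factorial : ℚ)⁻¹)⁻¹ := by
    rw [← map_mul]
    congr 1
    unfold K
    rw [Finset.prod_inv_distrib, Finset.prod_inv_distrib, inv_inv, div_eq_mul_inv, mul_comm]
  rw [hK]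
  ring

theorem blk_erase_const_ne (n h l : ℕ) :
    PowerSeries.constantCoeff (B D n h l) ≠ 0 := by
  unfold B
  rw [map_prod, Finset.prod_ne_zero_iff]
  intro m hm
  have h1 := (Finset.mem_erase.1 hm).1
  simp only [map_add, PowerSeries.constantCoeff_C, PowerSeries.constantCoeff_X, add_zero]
  rw [sub_ne_zero]
  exact_mod_cast h1

theorem G_const_ne (n h l : ℕ) : PowerSeries.constantCoeff (G D n h l) ≠ 0 := by
  unfold G
  rw [map_mul, PowerSeries.constantCoeff_C]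
  exact mul_ne_zero (blk_erase_const_ne D n h l) (by positivity)

variable {p : ℕ} [hp : Fact p.Prime]

theorem rescale_G (h j : ℕ) (hh : 2 * h ≤ D.C) :
    PowerSeries.rescale (p : ℚ) (G D p h (p * j))
      = PowerSeries.C ((p : ℚ) ^ (eh D h j)) * G D 1 h j * Ecor D p h j := by
  unfold G
  rw [map_mul, rescale_C]
  exact rescale_B D h j hh

/-- the correction factor of `F` -/
noncomputable def EF (p j : ℕ) : PowerSeries ℚ :=
  (∏ i ∈ D.M, Ecor D p (D.h i) j) * (∏ i ∈ D.P, Ecor D p (D.h i) j)⁻¹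

theorem EF_cong (j : ℕ) : PCong p (EF D p j) 1 := by
  unfold EF
  have h1 : PCong p (∏ i ∈ D.M, Ecor D p (D.h i) j) 1 :=
    pcong_one_prod _ _ (fun i _ => Ecor_cong D (D.h i) j)
  have h2 : PCong p (∏ i ∈ D.P, Ecor D p (D.h i) j)⁻¹ 1 :=
    pcong_one_inv (pcong_one_prod _ _ (fun i _ => Ecor_cong D (D.h i) j))
  have := pcong_mul (pint_of_pcong_one h1) pint_one h1 h2
  simpa using this

variable {D}

theorem Dat.OK.hM (hD : D.OK) {i : ℕ} (hi : i ∈ D.M) : 2 * D.h i ≤ D.C := by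
  have h1 := hD.M_lt i hi
  have h2 := hD.s_le
  have h3 := hD.lo_lt
  omega

theorem Dat.OK.hP (hD : D.OK) {i : ℕ} (hi : i ∈ D.P) : 2 * D.h i ≤ D.C := (hD.P_lt i hi).le

theorem rescale_F (hD : D.OK) (j : ℕ) :
    PowerSeries.C ((p : ℚ) ^ (∑ i ∈ D.P, eh D (D.h i) j)) *
      PowerSeries.rescale (p : ℚ) (F D p (p * j))
      = PowerSeries.C ((p : ℚ) ^ (1 + ∑ i ∈ D.M, eh D (D.h i) j)) * (F D 1 j * EF D p j) := by
  have hpq : (p : ℚ) ≠ 0 := by exact_mod_cast hp.out.ne_zero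
  have hM : ∏ i ∈ D.M, PowerSeries.rescale (p : ℚ) (G D p (D.h i) (p * j))
      = PowerSeries.C ((p : ℚ) ^ (∑ i ∈ D.M, eh D (D.h i) j)) * (∏ i ∈ D.M, G D 1 (D.h i) j) *
        ∏ i ∈ D.M, Ecor D p (D.h i) j := by
    rw [Finset.prod_congr rfl (fun i hi => rescale_G D (D.h i) j (hD.hM hi)),
      Finset.prod_mul_distrib, Finset.prod_mul_distrib,
      ← map_prod, Finset.prod_pow_eq_pow_sum]
  have hP : ∏ i ∈ D.P, PowerSeries.rescale (p : ℚ) (G D p (D.h i) (p * j))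
      = PowerSeries.C ((p : ℚ) ^ (∑ i ∈ D.P, eh D (D.h i) j)) * (∏ i ∈ D.P, G D 1 (D.h i) j) *
        ∏ i ∈ D.P, Ecor D p (D.h i) j := by
    rw [Finset.prod_congr rfl (fun i hi => rescale_G D (D.h i) j (hD.hP hi)),
      Finset.prod_mul_distrib, Finset.prod_mul_distrib,
      ← map_prod, Finset.prod_pow_eq_pow_sum]
  have hne : PowerSeries.constantCoeff (∏ i ∈ D.P, G D p (D.h i) (p * j)) ≠ 0 := by
    rw [map_prod, Finset.prod_ne_zero_iff]
    intro i _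
    exact G_const_ne _ _ _ _
  have hlin : PowerSeries.rescale (p : ℚ)
      (PowerSeries.C (D.C * (p : ℚ) - 2 * ((p * j : ℕ) : ℚ)) + 2 * PowerSeries.X)
      = PowerSeries.C (p : ℚ) *
        (PowerSeries.C (D.C * ((1 : ℕ) : ℚ) - 2 * (j : ℚ)) + 2 * PowerSeries.X) := by
    have h2 : (2 : PowerSeries ℚ) = PowerSeries.C 2 := by
      rw [map_ofNat]
    rw [map_add, rescale_C, map_mul, h2, rescale_C, rescale_X', mul_add, ← map_mul]
    congr 1
    · congr 1; push_cast; ring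
    · ring
  rw [F_eq, map_mul, map_mul, rescale_inv _ hne, map_prod, map_prod, hM, hP, hlin, F_eq,
    PowerSeries.mul_inv_rev, PowerSeries.mul_inv_rev, ps_C_inv]
  have key : PowerSeries.C ((p : ℚ) ^ (∑ i ∈ D.P, eh D (D.h i) j)) *
      (PowerSeries.C (p : ℚ) * PowerSeries.C ((p : ℚ) ^ (∑ i ∈ D.M, eh D (D.h i) j)) *
      PowerSeries.C (((p : ℚ) ^ (∑ i ∈ D.P, eh D (D.h i) j))⁻¹))
      = PowerSeries.C ((p : ℚ) ^ (1 + ∑ i ∈ D.M, eh D (D.h i) j)) := by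
    rw [← map_mul, ← map_mul, ← map_mul]
    congr 1
    have : (p : ℚ) ^ (∑ i ∈ D.P, eh D (D.h i) j) ≠ 0 := pow_ne_zero _ hpq
    rw [pow_add, pow_one]
    field_simp
  unfold EF
  linear_combination ((PowerSeries.C (D.C * ((1 : ℕ) : ℚ) - 2 * (j : ℚ)) + 2 * PowerSeries.X) *
    (∏ i ∈ D.M, G D 1 (D.h i) j) * (∏ i ∈ D.M, Ecor D p (D.h i) j) *
    (∏ i ∈ D.P, G D 1 (D.h i) j)⁻¹ * (∏ i ∈ D.P, Ecor D p (D.h i) j)⁻¹) * key

omit hp in
theorem mem_blk_mul (hp0 : 0 < p) (h j : ℕ) : p * j ∈ blk D p h ↔ j ∈ blk D 1 h := by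
  unfold blk
  rw [Finset.mem_Icc, Finset.mem_Icc, mul_one, mul_one, mul_comm h, mul_comm (D.C - h)]
  constructor
  · rintro ⟨h1, h2⟩
    exact ⟨Nat.le_of_mul_le_mul_left h1 hp0, Nat.le_of_mul_le_mul_left h2 hp0⟩
  · rintro ⟨h1, h2⟩
    exact ⟨Nat.mul_le_mul_left _ h1, Nat.mul_le_mul_left _ h2⟩

omit hp in
theorem ord_mul (hp0 : 0 < p) (j : ℕ) : ord D p (p * j) = ord D 1 j := by
  unfold ord
  simp only [mem_blk_mul hp0]

omit hp in
theorem ord_one_eq (hD : D.OK) (j : ℕ) : ord D 1 j =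
    D.A - ∑ i ∈ D.P, (eh D (D.h i) j : ℤ) + ∑ i ∈ D.M, (eh D (D.h i) j : ℤ) := by
  have key : ∀ s : Finset ℕ, (#{i ∈ s | j ∈ blk D 1 (D.h i)} : ℤ)
      = s.card - ∑ i ∈ s, (eh D (D.h i) j : ℤ) := by
    intro s
    have h1 : ∑ i ∈ s, (eh D (D.h i) j : ℤ) = #{i ∈ s | ¬ j ∈ blk D 1 (D.h i)} := by
      unfold eh
      rw [Finset.card_filter]
      push_cast
      refine Finset.sum_congr rfl (fun i _ => ?_)
      split_ifs <;> simp_all
    have h2 := Finset.card_filter_add_card_filter_not (s := s) (fun i => j ∈ blk D 1 (D.h i))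
    rw [h1]
    omega
  unfold ord
  rw [key, key]
  have e1 := hD.cardP
  have e2 : (D.P.card : ℤ) = D.M.card + D.A := by exact_mod_cast e1
  linarith

/-- the coefficient `a p (p j) i`, in terms of `F 1 j` -/
theorem a_mul (hD : D.OK) (j i : ℕ) (hi : (i : ℤ) ≤ ord D 1 j) :
    a D p (p * j) i = (p : ℚ) ^ ((i : ℤ) + 1 - D.A) *
      PowerSeries.coeff (ord D 1 j - i).toNat (F D 1 j * EF D p j) := by
  have hp0 : 0 < p := hp.out.pos
  have hpq : (p : ℚ) ≠ 0 := by exact_mod_cast hp0.ne'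
  unfold a
  rw [ord_mul hp0, if_pos hi]
  set k := (ord D 1 j - i).toNat with hk
  have hk' : (k : ℤ) = ord D 1 j - i := Int.toNat_of_nonneg (by omega)
  have h1 := congrArg (PowerSeries.coeff k) (rescale_F (p := p) hD j)
  rw [PowerSeries.coeff_C_mul, PowerSeries.coeff_C_mul, PowerSeries.coeff_rescale] at h1
  have h2 := ord_one_eq hD j
  have e : PowerSeries.coeff k (F D p (p * j)) =
      ((p : ℚ) ^ (∑ i ∈ D.P, eh D (D.h i) j) * (p : ℚ) ^ k)⁻¹ *
        ((p : ℚ) ^ (1 + ∑ i ∈ D.M, eh D (D.h i) j) * PowerSeries.coeff k (F D 1 j * EF D p j)) := by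
    rw [← h1]
    have h3 : (p : ℚ) ^ (∑ i ∈ D.P, eh D (D.h i) j) ≠ 0 := pow_ne_zero _ hpq
    have h4 : (p : ℚ) ^ k ≠ 0 := pow_ne_zero _ hpq
    field_simp
  rw [e, ← mul_assoc]
  congr 1
  rw [← zpow_natCast, ← zpow_natCast, ← zpow_natCast, ← zpow_add₀ hpq, ← zpow_neg, ← zpow_add₀ hpq]
  congr 1
  push_cast
  rw [hk', h2]
  ring

end Pool.Agent.OddZetaG
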