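import Pool.Agent.OddZetaG.OneNeG
set_option autoImplicit false
open Finset
namespace Pool.Agent.OddZetaG

/-- block starts of the data for `ζ(7), ..., ζ(19)` (poles first, then zeros) -/
def HL94 : List ℕ := [27, 28, 28, 29, 30, 30, 31, 31, 32, 32, 33, 33, 34, 34, 35, 36, 36, 37, 38, 39, 40,
  0, 2, 3, 5, 6]

def D94 : Dat where
  C := 94
  P := Finset.range 21
  M := Finset.Icc 21 25
  h := fun i => HL94.getD i 0
  k := 4
  A := 16
  s := 27
  lo := 30

lemma D94_OK : D94.OK where
  keven := by decide
  kpos := by decide
  cardM := by decide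
  cardP := by decide
  Aeven := by decide
  A4 := by decide
  P_ge := by decide
  P_lt := by decide
  M_lt := by decide
  s_le := by decide
  lo_lt := by decide
  lo_ok := by decide
  deg := by decide

lemma fact37 : Fact (Nat.Prime 37) := ⟨by norm_num⟩

theorem rho0_D94_ne : rho0 D94 1 ≠ 0 := by
  have := fact37
  refine rho0_one_ne_of (p := 37) D94_OK (by decide) 64 (by decide) (by decide) (by decide)
    (by decide) (by decide) ?_
  have hV : V D94 1 64 37 = -3 := by decide +kernel
  rw [hV]
  decide +kernel

end Pool.Agent.OddZetaG
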