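import Mathlib
import Pool.Agent.OddZetaG.Defs
import Pool.Agent.OddZetaG.PadicBasic
import Pool.Agent.OddZetaG.PadicC1
import Pool.Agent.OddZetaG.PadicC2

set_option autoImplicit false
set_option linter.unusedSectionVars false

/-!
# `rho0 D 1 ≠ 0` by one prime (generic version, helper8)
-/

open Finset

namespace Pool.Agent.OddZetaG

open PowerSeries

section gen

variable {D : Dat} {p : ℕ} [hp : Fact p.Prime]

lemma norm_prod_q {ι : Type*} (s : Finset ι) (f : ι → ℚ) :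
    padicNorm p (∏ i ∈ s, f i) = ∏ i ∈ s, padicNorm p (f i) := by
  classical
  induction s using Finset.induction_on with
  | empty => simp
  | insert a s ha ih => rw [Finset.prod_insert ha, Finset.prod_insert ha, padicNorm.mul, ih]

lemma norm_constB (n l h : ℕ) (hh : 2 * h ≤ D.C) (hl : l ≤ D.C * n) (hpn : D.C * n < p ^ 2) :
    padicNorm p (constantCoeff (B D n h l)) = (p : ℚ) ^ (-cnt D n l p h) := by
  rw [← prod_norm_sub n l h hh hl hpn]
  unfold B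
  rw [map_prod, norm_prod_q]
  apply Finset.prod_congr rfl
  intro m _
  simp

lemma norm_constF (hD : D.OK) (n l : ℕ) (hl : l ≤ D.C * n) (hpn : D.C * n < p ^ 2) :
    padicNorm p (constantCoeff (F D n l))
      = (p : ℚ) ^ (-V D n l p) * padicNorm p (D.C * (n : ℚ) - 2 * (l : ℚ)) := by
  have hp0 := pq_pos (p := p)
  have e : (p : ℚ) ^ (-V D n l p) = (p : ℚ) ^ (-E0 D n p) *
      (∏ i ∈ D.M, (p : ℚ) ^ (-cnt D n l p (D.h i))) * (∏ i ∈ D.P, (p : ℚ) ^ (cnt D n l p (D.h i))) := by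
    rw [prod_zpow_base _ _ _ hp0.ne', prod_zpow_base _ _ _ hp0.ne', ← zpow_add₀ hp0.ne',
      ← zpow_add₀ hp0.ne']
    congr 1
    unfold V E0
    rw [Finset.sum_sub_distrib, Finset.sum_sub_distrib, Finset.sum_neg_distrib]
    ring
  rw [e]
  unfold F
  simp only [map_mul, PowerSeries.constantCoeff_inv, map_prod, padicNorm.mul, norm_prod_q]
  have hM : ∏ i ∈ D.M, padicNorm p (constantCoeff (B D n (D.h i) l))
      = ∏ i ∈ D.M, (p : ℚ) ^ (-cnt D n l p (D.h i)) :=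
    Finset.prod_congr rfl (fun i hi => norm_constB n l _ (two_M hD hi).le hl hpn)
  have hP : padicNorm p (∏ i ∈ D.P, constantCoeff (B D n (D.h i) l))⁻¹
      = ∏ i ∈ D.P, (p : ℚ) ^ (cnt D n l p (D.h i)) := by
    rw [← one_div, padicNorm.div, padicNorm.one, norm_prod_q, one_div, ← Finset.prod_inv_distrib]
    apply Finset.prod_congr rfl
    intro i hi
    rw [norm_constB n l _ (two_P hD hi).le hl hpn, zpow_neg, inv_inv]
  rw [hM, hP]
  simp only [constantCoeff_C, map_add, map_mul, constantCoeff_X, mul_zero, add_zero, norm_K n hpn]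
  ring

/-- `p`-adic norm of a harmonic number with exactly one term divisible by `p` -/
lemma Hs_norm_eq (s M : ℕ) (hs : 0 < s) (h1 : p ≤ M) (h2 : M < 2 * p) :
    padicNorm p (Hs s M) = (p : ℚ) ^ s := by
  have hpp := hp.out.pos
  unfold Hs
  rw [← Finset.add_sum_erase _ _ (show p ∈ Finset.Icc 1 M by rw [Finset.mem_Icc]; omega)]
  have e1 : padicNorm p (1 / ((p : ℕ) : ℚ) ^ s) = (p : ℚ) ^ s := by
    rw [padicNorm.div, padicNorm.one, norm_pow_q, padicNorm.padicNorm_p hp.out.one_lt]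
    simp
  have e2 : padicNorm p (∑ x ∈ (Finset.Icc (1 : ℕ) M).erase p, 1 / (x : ℚ) ^ s) ≤ 1 := by
    apply padicNorm.sum_le' _ (by norm_num)
    intro m hm
    rw [norm_inv_pow_eq]
    rw [Finset.mem_erase, Finset.mem_Icc] at hm
    rintro ⟨c, hc⟩
    rcases Nat.lt_or_ge c 2 with hc2 | hc2
    · interval_cases c <;> omega
    · have : p * 2 ≤ p * c := Nat.mul_le_mul_left _ hc2
      omega
  have h1p : (1 : ℚ) < (p : ℚ) ^ s := one_lt_pow₀ (by exact_mod_cast hp.out.one_lt) hs.ne'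
  have e3 : padicNorm p (1 / ((p : ℕ) : ℚ) ^ s) ≠
      padicNorm p (∑ x ∈ (Finset.Icc (1 : ℕ) M).erase p, 1 / (x : ℚ) ^ s) := by
    rw [e1]; intro hc; rw [← hc] at e2; linarith
  rw [padicNorm.add_eq_max_of_ne e3, e1]
  apply max_eq_left
  linarith

/-- exact norm of `T D 1 l₀` at a simple pole `l₀` -/
lemma norm_T_simple (hD : D.OK) (hC : D.C < p ^ 2) (l₀ : ℕ) (hl : l₀ ≤ D.C) (hord : ord D 1 l₀ = 1)
    (hlin : ¬ (p : ℤ) ∣ (D.C : ℤ) - 2 * l₀) (h1 : p ≤ l₀ - D.s) (h2 : l₀ - D.s < 2 * p) :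
    padicNorm p (T D 1 l₀) = (p : ℚ) ^ (D.k + 1 - V D 1 l₀ p : ℤ) := by
  have hp0 := pq_pos (p := p)
  have hA := hD.A4
  have ha : ∀ i ∈ Finset.Icc 1 D.A, i ≠ 1 →
      a D 1 l₀ i * ((i + D.k - 1).choose D.k : ℚ) * Hs (i + D.k) (l₀ - D.s * 1) = 0 := by
    intro i hi h1
    rw [Finset.mem_Icc] at hi
    have : a D 1 l₀ i = 0 := by
      unfold a
      rw [if_neg]
      rw [hord]
      omega
    rw [this]; ring
  have hs : T D 1 l₀ = - (a D 1 l₀ 1 * ((1 + D.k - 1).choose D.k : ℚ) * Hs (1 + D.k) (l₀ - D.s * 1)) := by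
    unfold T
    rw [Finset.sum_eq_single_of_mem 1 (by rw [Finset.mem_Icc]; omega) ha]
  have ha1 : a D 1 l₀ 1 = constantCoeff (F D 1 l₀) := by
    unfold a
    rw [hord]
    simp
  have hch : ((1 + D.k - 1).choose D.k : ℚ) = 1 := by
    rw [show 1 + D.k - 1 = D.k by omega, Nat.choose_self]; norm_num
  have hlin' : padicNorm p (D.C * ((1 : ℕ) : ℚ) - 2 * (l₀ : ℚ)) = 1 := by
    have e : (D.C * ((1 : ℕ) : ℚ) - 2 * (l₀ : ℚ)) = (((D.C : ℤ) - 2 * l₀ : ℤ) : ℚ) := by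
      push_cast; ring
    rw [e]
    exact norm_unit _ hlin
  rw [hs, padicNorm.neg, ha1, hch, mul_one, padicNorm.mul,
    norm_constF hD 1 l₀ (by omega) (by omega), hlin', mul_one, mul_one,
    Hs_norm_eq (1 + D.k) (l₀ - D.s) (by omega) h1 h2, ← zpow_natCast, ← zpow_add₀ hp0.ne']
  congr 1
  push_cast
  ring

/-- `ρ₀(1) ≠ 0` when one simple pole dominates `p`-adically -/
theorem rho0_one_ne_of (hD : D.OK) (hC : D.C < p ^ 2) (l₀ : ℕ) (hl : l₀ ∈ poles D 1)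
    (hord : ord D 1 l₀ = 1) (hlin : ¬ (p : ℤ) ∣ (D.C : ℤ) - 2 * l₀) (h1 : p ≤ l₀ - D.s)
    (h2 : l₀ - D.s < 2 * p)
    (hoth : ∀ l ∈ (poles D 1).erase l₀,
      (l - D.s < p ∧ noP D 1 l p ∧ - E0 D 1 p ≤ D.k - V D 1 l₀ p) ∨
      (l - D.s < p ∧ ord D 1 l - V D 1 l p - 1 ≤ D.k - V D 1 l₀ p) ∨
      ord D 1 l - V D 1 l p + D.k ≤ D.k - V D 1 l₀ p) : rho0 D 1 ≠ 0 := by
  have hp0 := pq_pos (p := p)
  have hp1 : (1 : ℚ) < p := by exact_mod_cast hp.out.one_lt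
  intro h0
  unfold rho0 at h0
  rw [← Finset.add_sum_erase _ _ hl] at h0
  have hlC : l₀ ≤ D.C := by
    have := poles_le 1 l₀ hl
    omega
  have hrest : padicNorm p (∑ l ∈ (poles D 1).erase l₀, T D 1 l) ≤ (p : ℚ) ^ (D.k - V D 1 l₀ p : ℤ) := by
    apply padicNorm.sum_le' _ (by positivity)
    intro l hl'
    have hlp : l ≤ D.C * 1 := poles_le 1 l (Finset.mem_of_mem_erase hl')
    rcases hoth l hl' with ⟨h, h4, h5⟩ | ⟨h, h3⟩ | h3
    · exact (norm_T_le_noP hD 1 l (by omega) (by simpa using h) h4).trans (zpow_mono_p h5)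
    · exact (norm_T_le_small hD 1 l hlp (by omega) (by simpa using h)).trans (zpow_mono_p h3)
    · exact (norm_T_le_large' hD 1 l hlp (by omega)).trans (zpow_mono_p h3)
  have h3 := norm_T_simple hD hC l₀ hlC hord hlin h1 h2
  have h4 : T D 1 l₀ = -∑ l ∈ (poles D 1).erase l₀, T D 1 l := by linarith
  rw [h4, padicNorm.neg] at h3
  rw [h3] at hrest
  have h5 : (p : ℚ) ^ (D.k - V D 1 l₀ p : ℤ) < (p : ℚ) ^ (D.k + 1 - V D 1 l₀ p : ℤ) :=
    zpow_lt_zpow_right₀ hp1 (by linarith)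
  linarith

end gen

end Pool.Agent.OddZetaG
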