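import Mathlib
import Pool.Agent.OddZetaG.Defs

set_option autoImplicit false

/-!
# Module B0 (generic): partial fractions
Seat: helper91.
-/

open Finset

namespace Pool.Agent.OddZetaG

variable {D : Dat}

/-- number of pole blocks containing `m` -/
def ee (D : Dat) (n m : ℕ) : ℕ := #{i ∈ D.P | m ∈ blk D n (D.h i)}

/-- number of zero blocks containing `m` -/
def zz (D : Dat) (n m : ℕ) : ℕ := #{i ∈ D.M | m ∈ blk D n (D.h i)}

/-- positive part of the order -/
def oo (D : Dat) (n m : ℕ) : ℕ := (ord D n m).toNat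

/-- negative part of the order -/
def ww (D : Dat) (n m : ℕ) : ℕ := (-(ord D n m)).toNat

/-- all relevant integers -/
def II (D : Dat) (n : ℕ) : Finset ℕ := Finset.Icc 0 (D.C * n)

lemma ord_eq (n m : ℕ) : ord D n m = (ee D n m : ℤ) - (zz D n m : ℤ) := rfl

lemma oo_add_zz (n m : ℕ) : oo D n m + zz D n m = ww D n m + ee D n m := by
  unfold oo ww
  rw [ord_eq]
  omega

lemma mem_blk {n h m : ℕ} : m ∈ blk D n h ↔ h * n ≤ m ∧ m ≤ (D.C - h) * n := by
  unfold blk
  rw [mem_Icc]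

lemma blk_subset_II (n h : ℕ) : blk D n h ⊆ II D n := by
  intro m hm
  rw [mem_blk] at hm
  unfold II
  rw [mem_Icc]
  refine ⟨Nat.zero_le _, hm.2.trans (Nat.mul_le_mul_right n (Nat.sub_le D.C h))⟩

lemma blk_anti {n h h' : ℕ} (h1 : h ≤ h') : blk D n h' ⊆ blk D n h := by
  intro m hm
  rw [mem_blk] at hm ⊢
  refine ⟨(Nat.mul_le_mul_right n h1).trans hm.1, hm.2.trans (Nat.mul_le_mul_right n ?_)⟩
  omega

lemma zz_eq_card (hD : D.OK) {n m : ℕ} (h : m ∈ blk D n D.s) : zz D n m = D.M.card := by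
  unfold zz
  rw [Finset.filter_true_of_mem]
  intro x hx
  exact blk_anti (hD.M_lt x hx).le h

lemma ee_pos_mem (hD : D.OK) {n m : ℕ} (h : ee D n m ≠ 0) : m ∈ blk D n D.s := by
  unfold ee at h
  rw [Finset.card_ne_zero] at h
  obtain ⟨x, hx⟩ := h
  rw [mem_filter] at hx
  exact blk_anti (hD.P_ge x hx.1) hx.2

lemma ee_pos_mem' (hD : D.OK) {n m : ℕ} (h : ee D n m ≠ 0) :
    m ∈ Finset.Icc (D.s * n) ((D.C - D.s) * n) := ee_pos_mem hD h

lemma ee_le (n m : ℕ) : ee D n m ≤ D.P.card := by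
  unfold ee
  exact Finset.card_filter_le _ _

lemma ord_le_A (hD : D.OK) (n m : ℕ) : ord D n m ≤ D.A := by
  rw [ord_eq]
  by_cases h : ee D n m = 0
  · omega
  · have h1 := zz_eq_card hD (ee_pos_mem hD h)
    have h2 := ee_le (D := D) n m
    have h3 := hD.cardP
    omega

lemma oo_le_A (hD : D.OK) (n m : ℕ) : oo D n m ≤ D.A := by
  unfold oo
  have := ord_le_A hD n m
  omega

lemma mem_poles {n l : ℕ} : l ∈ poles D n ↔ l ∈ blk D n D.lo := by
  rw [mem_blk]
  unfold poles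
  rw [mem_Icc]

lemma ord_nonpos_of_not_mem (hD : D.OK) {n l : ℕ} (h : l ∉ poles D n) : ord D n l ≤ 0 := by
  rw [mem_poles] at h
  rw [ord_eq]
  by_cases h0 : ee D n l = 0
  · omega
  · have h1 := zz_eq_card hD (ee_pos_mem hD h0)
    have h2 : ee D n l ≤ #{i ∈ D.P | D.h i < D.lo} := by
      unfold ee
      refine Finset.card_le_card ?_
      intro x hx
      rw [mem_filter] at hx ⊢
      refine ⟨hx.1, ?_⟩
      by_contra hc
      exact h (blk_anti (by omega) hx.2)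
    have h3 := hD.lo_ok
    have h4 := hD.cardM
    omega

lemma oo_eq_zero (hD : D.OK) {n l : ℕ} (h : l ∉ poles D n) : oo D n l = 0 := by
  unfold oo
  have := ord_nonpos_of_not_mem hD h
  omega

lemma ww_eq_zero_of_pos {n l : ℕ} (h : 0 < oo D n l) : ww D n l = 0 := by
  unfold ww
  unfold oo at h
  omega

lemma oo_cast {n l : ℕ} (h : 0 < oo D n l) : (oo D n l : ℤ) = ord D n l := by
  unfold oo at h ⊢
  omega

lemma poles_subset_II (n : ℕ) : poles D n ⊆ II D n := by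
  intro l hl
  rw [mem_poles] at hl
  exact blk_subset_II n D.lo hl

/-- Rewriting a double product. -/
lemma prod_blocks {A : Type*} [CommMonoid A] (n : ℕ) (H : Finset ℕ) (f : ℕ → A) (s : Finset ℕ)
    (hs : ∀ i ∈ H, blk D n (D.h i) ⊆ s) :
    ∏ i ∈ H, ∏ m ∈ blk D n (D.h i), f m
      = ∏ m ∈ s, f m ^ #{i ∈ H | m ∈ blk D n (D.h i)} := by
  have e1 : ∀ i ∈ H, ∏ m ∈ blk D n (D.h i), f m
      = ∏ m ∈ s, if m ∈ blk D n (D.h i) then f m else 1 := by
    intro i hi
    rw [Finset.prod_ite_mem, Finset.inter_eq_right.mpr (hs i hi)]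
  rw [Finset.prod_congr rfl e1, Finset.prod_comm]
  refine Finset.prod_congr rfl (fun m _ => ?_)
  rw [Finset.prod_ite, Finset.prod_const, Finset.prod_const_one, mul_one]

lemma prod_blocks_erase {A : Type*} [CommMonoid A] (n : ℕ) (H : Finset ℕ) (f : ℕ → A)
    (s : Finset ℕ) (l : ℕ) (hs : ∀ i ∈ H, blk D n (D.h i) ⊆ s) :
    ∏ i ∈ H, ∏ m ∈ (blk D n (D.h i)).erase l, f m
      = ∏ m ∈ s.erase l, f m ^ #{i ∈ H | m ∈ blk D n (D.h i)} := by
  have e1 : ∀ i ∈ H, ∏ m ∈ (blk D n (D.h i)).erase l, f m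
      = ∏ m ∈ s.erase l, if m ∈ blk D n (D.h i) then f m else 1 := by
    intro i hi
    rw [Finset.prod_ite_mem]
    congr 1
    ext m
    simp only [mem_erase, mem_inter]
    constructor
    · rintro ⟨h1, h2⟩
      exact ⟨⟨h1, hs i hi h2⟩, h2⟩
    · rintro ⟨⟨h1, _⟩, h2⟩
      exact ⟨h1, h2⟩
  rw [Finset.prod_congr rfl e1, Finset.prod_comm]
  refine Finset.prod_congr rfl (fun m _ => ?_)
  rw [Finset.prod_ite, Finset.prod_const, Finset.prod_const_one, mul_one]

/-! ### The degree count -/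

lemma card_blk {n h : ℕ} (hh : 2 * h ≤ D.C) : (blk D n h).card = (D.C - 2 * h) * n + 1 := by
  unfold blk
  rw [Nat.card_Icc]
  obtain ⟨k, hk⟩ : ∃ k, D.C - h = h + k := ⟨D.C - 2 * h, by omega⟩
  have hk' : D.C - 2 * h = k := by omega
  rw [hk, hk', Nat.add_mul]
  omega

lemma sum_card_filter (n : ℕ) (H : Finset ℕ) :
    ∑ m ∈ II D n, #{i ∈ H | m ∈ blk D n (D.h i)} = ∑ i ∈ H, (blk D n (D.h i)).card := by
  simp_rw [Finset.card_filter]
  rw [Finset.sum_comm]
  refine Finset.sum_congr rfl (fun i _ => ?_)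
  rw [← Finset.card_filter]
  congr 1
  ext m
  simp only [mem_filter]
  exact ⟨fun h => h.2, fun h' => ⟨blk_subset_II n (D.h i) h', h'⟩⟩

lemma P_le (hD : D.OK) : ∀ i ∈ D.P, 2 * D.h i ≤ D.C := fun i hi => (hD.P_lt i hi).le

lemma M_le (hD : D.OK) : ∀ i ∈ D.M, 2 * D.h i ≤ D.C := fun i hi => by
  have h1 := hD.M_lt i hi
  have h2 := hD.s_le
  have h3 := hD.lo_lt
  omega

lemma sum_card_of_le (n : ℕ) (H : Finset ℕ) (hH : ∀ i ∈ H, 2 * D.h i ≤ D.C) :
    ∑ i ∈ H, (blk D n (D.h i)).card = (∑ i ∈ H, (D.C - 2 * D.h i)) * n + H.card := by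
  rw [Finset.sum_congr rfl (g := fun i => (D.C - 2 * D.h i) * n + 1)
    (fun i hi => card_blk (hH i hi)), Finset.sum_add_distrib, ← Finset.sum_mul,
    Finset.sum_const, smul_eq_mul, mul_one]

lemma sum_ee (hD : D.OK) (n : ℕ) :
    ∑ m ∈ II D n, ee D n m = (∑ i ∈ D.P, (D.C - 2 * D.h i)) * n + D.P.card := by
  unfold ee
  rw [sum_card_filter, sum_card_of_le n D.P (P_le hD)]

lemma sum_zz (hD : D.OK) (n : ℕ) :
    ∑ m ∈ II D n, zz D n m = (∑ i ∈ D.M, (D.C - 2 * D.h i)) * n + D.M.card := by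
  unfold zz
  rw [sum_card_filter, sum_card_of_le n D.M (M_le hD)]

lemma sum_oo_ww (hD : D.OK) (n : ℕ) :
    ∑ m ∈ II D n, ww D n m + D.A ≤ ∑ m ∈ II D n, oo D n m := by
  have h1 : ∑ m ∈ II D n, (oo D n m + zz D n m) = ∑ m ∈ II D n, (ww D n m + ee D n m) :=
    Finset.sum_congr rfl (fun m _ => oo_add_zz n m)
  rw [Finset.sum_add_distrib, Finset.sum_add_distrib, sum_ee hD, sum_zz hD] at h1
  have h2 := Nat.mul_le_mul_right n hD.deg
  have h3 := hD.cardP
  omega

/-! ### The polynomials -/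

open Polynomial in
/-- linear factors -/
noncomputable def gg (m : ℕ) : ℚ[X] := Polynomial.X + Polynomial.C (m : ℚ)

open Polynomial in
/-- the numerator -/
noncomputable def Nu (D : Dat) (n : ℕ) : ℚ[X] :=
  Polynomial.C (K D n) * (2 * Polynomial.X + Polynomial.C (D.C * (n : ℚ))) *
    ∏ m ∈ II D n, gg m ^ ww D n m

lemma gg_monic (m : ℕ) : (gg m).Monic := Polynomial.monic_X_add_C _

lemma natDegree_gg (m : ℕ) : (gg m).natDegree = 1 := Polynomial.natDegree_X_add_C _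

lemma degree_gg (m : ℕ) : (gg m).degree = 1 := Polynomial.degree_X_add_C _

lemma gg_coprime {l m : ℕ} (h : l ≠ m) : IsCoprime (gg l) (gg m) := by
  have h1 : ((m : ℚ) - (l : ℚ)) ≠ 0 := by
    rw [sub_ne_zero]
    exact_mod_cast h.symm
  refine ⟨Polynomial.C (-((m : ℚ) - l)⁻¹), Polynomial.C (((m : ℚ) - l)⁻¹), ?_⟩
  unfold gg
  have : Polynomial.C (-((m : ℚ) - l)⁻¹) * (Polynomial.X + Polynomial.C (l : ℚ)) +
      Polynomial.C (((m : ℚ) - l)⁻¹) * (Polynomial.X + Polynomial.C (m : ℚ))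
      = Polynomial.C (((m : ℚ) - l)⁻¹ * ((m : ℚ) - l)) := by
    simp only [map_mul, map_sub, map_neg]
    ring
  rw [this, inv_mul_cancel₀ h1, map_one]

lemma natDegree_prod_gg (s : Finset ℕ) (e : ℕ → ℕ) :
    (∏ m ∈ s, gg m ^ e m).natDegree = ∑ m ∈ s, e m := by
  rw [Polynomial.natDegree_prod_of_monic _ _ (fun m _ => (gg_monic m).pow _)]
  refine Finset.sum_congr rfl (fun m _ => ?_)
  rw [(gg_monic m).natDegree_pow, natDegree_gg, mul_one]

lemma monic_prod_gg (s : Finset ℕ) (e : ℕ → ℕ) : (∏ m ∈ s, gg m ^ e m).Monic :=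
  Polynomial.monic_prod_of_monic _ _ (fun m _ => (gg_monic m).pow _)

lemma natDegree_Nu_le (n : ℕ) : (Nu D n).natDegree ≤ 1 + ∑ m ∈ II D n, ww D n m := by
  unfold Nu
  refine Polynomial.natDegree_mul_le.trans ?_
  rw [natDegree_prod_gg]
  refine Nat.add_le_add_right ?_ _
  refine Polynomial.natDegree_mul_le.trans ?_
  rw [Polynomial.natDegree_C, zero_add]
  refine Polynomial.natDegree_add_le_of_degree_le ?_ ?_
  · refine Polynomial.natDegree_mul_le.trans ?_
    have : (2 : Polynomial ℚ) = Polynomial.C 2 := rfl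
    rw [this, Polynomial.natDegree_C, Polynomial.natDegree_X]
  · rw [Polynomial.natDegree_C]
    norm_num

/-- Abstract partial fraction identity, in polynomial form. -/
lemma exists_pf (hD : D.OK) (n : ℕ) :
    ∃ c : ℕ → ℕ → ℚ, Nu D n = ∑ l ∈ II D n, ∑ j ∈ Finset.range (oo D n l),
      Polynomial.C (c l j) * gg l ^ j * ∏ k ∈ (II D n).erase l, gg k ^ oo D n k := by
  obtain ⟨q, r, hr, hf⟩ := Polynomial.eq_quo_mul_prod_pow_add_sum_rem_mul_prod_pow (s := II D n)
    (Nu D n) (g := gg) (fun m _ => gg_monic m) (fun i _ j _ hij => gg_coprime hij) (oo D n)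
  have hr' : ∀ l ∈ II D n, ∀ j, r l j = Polynomial.C ((r l j).coeff 0) := by
    intro l hl j
    apply Polynomial.eq_C_of_degree_le_zero
    have := hr l hl j
    rw [degree_gg] at this
    exact Nat.WithBot.lt_one_iff_le_zero.mp this
  have hDs : ∀ l ∈ II D n,
      ∑ k ∈ (II D n).erase l, oo D n k + oo D n l = ∑ k ∈ II D n, oo D n k := by
    intro l hl
    exact Finset.sum_erase_add _ _ hl
  have hdeg1 : ∀ l ∈ II D n, ∀ j : Fin (oo D n l),
      (r l j * gg l ^ (j : ℕ) * ∏ k ∈ (II D n).erase l, gg k ^ oo D n k).natDegree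
        ≤ ∑ k ∈ II D n, oo D n k - 1 := by
    intro l hl j
    refine Polynomial.natDegree_mul_le.trans ?_
    rw [natDegree_prod_gg]
    have h1 : (r l j * gg l ^ (j : ℕ)).natDegree ≤ j := by
      refine Polynomial.natDegree_mul_le.trans ?_
      rw [hr' l hl j, Polynomial.natDegree_C, (gg_monic l).natDegree_pow, natDegree_gg]
      omega
    have h2 := hDs l hl
    have h3 := j.2
    omega
  have hdeg2 : (∑ l ∈ II D n, ∑ j : Fin (oo D n l), r l j * gg l ^ (j : ℕ) *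
      ∏ k ∈ (II D n).erase l, gg k ^ oo D n k).natDegree ≤ ∑ k ∈ II D n, oo D n k - 1 := by
    refine Polynomial.natDegree_sum_le_of_forall_le _ _ (fun l hl => ?_)
    exact Polynomial.natDegree_sum_le_of_forall_le _ _ (fun j _ => hdeg1 l hl j)
  have hq : q = 0 := by
    by_contra hq
    have h1 : (q * ∏ i ∈ II D n, gg i ^ oo D n i).natDegree
        = q.natDegree + ∑ k ∈ II D n, oo D n k := by
      rw [mul_comm, (monic_prod_gg (II D n) (oo D n)).natDegree_mul' hq, natDegree_prod_gg,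
        add_comm]
    have h2 : q * ∏ i ∈ II D n, gg i ^ oo D n i = Nu D n - ∑ l ∈ II D n,
      ∑ j : Fin (oo D n l), r l j * gg l ^ (j : ℕ) *
        ∏ k ∈ (II D n).erase l, gg k ^ oo D n k := by
      rw [eq_sub_iff_add_eq]
      exact hf.symm
    have h3 := Polynomial.natDegree_sub_le (Nu D n) (∑ l ∈ II D n, ∑ j : Fin (oo D n l),
      r l j * gg l ^ (j : ℕ) * ∏ k ∈ (II D n).erase l, gg k ^ oo D n k)
    rw [← h2, h1] at h3
    have h4 := natDegree_Nu_le (D := D) n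
    have h5 := sum_oo_ww hD n
    have h7 := hD.A4
    have h6 : max (Nu D n).natDegree (∑ l ∈ II D n, ∑ j : Fin (oo D n l),
      r l j * gg l ^ (j : ℕ) * ∏ k ∈ (II D n).erase l, gg k ^ oo D n k).natDegree
        ≤ ∑ k ∈ II D n, oo D n k - 1 := max_le (by omega) hdeg2
    omega
  refine ⟨fun l j => if h : j < oo D n l then (r l ⟨j, h⟩).coeff 0 else 0, ?_⟩
  rw [hf, hq, zero_mul, zero_add]
  refine Finset.sum_congr rfl (fun l hl => ?_)
  rw [Finset.sum_range]
  refine Finset.sum_congr rfl (fun j _ => ?_)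
  beta_reduce
  rw [dif_pos j.2, ← hr' l hl j]

/-! ### Power series -/

/-- substitution `X ↦ X - l` into power series -/
noncomputable def sh (l : ℕ) : Polynomial ℚ →ₐ[ℚ] PowerSeries ℚ :=
  Polynomial.aeval (PowerSeries.X - PowerSeries.C (l : ℚ))

lemma sh_X (l : ℕ) : sh l Polynomial.X = PowerSeries.X - PowerSeries.C (l : ℚ) := by
  unfold sh
  rw [Polynomial.aeval_X]

lemma sh_C (l : ℕ) (c : ℚ) : sh l (Polynomial.C c) = PowerSeries.C c := by
  unfold sh
  rw [Polynomial.aeval_C]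
  rfl

lemma sh_gg (l m : ℕ) : sh l (gg m) = PowerSeries.C ((m : ℚ) - l) + PowerSeries.X := by
  unfold gg
  rw [map_add, sh_X, sh_C, map_sub]
  ring

lemma sh_gg_self (l : ℕ) : sh l (gg l) = PowerSeries.X := by
  rw [sh_gg, sub_self, map_zero, zero_add]

lemma sh_prod (l : ℕ) (s : Finset ℕ) (e : ℕ → ℕ) :
    sh l (∏ k ∈ s, gg k ^ e k) = ∏ k ∈ s, (PowerSeries.C ((k : ℚ) - l) + PowerSeries.X) ^ e k := by
  rw [map_prod]
  refine Finset.prod_congr rfl (fun k _ => ?_)
  rw [map_pow, sh_gg]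

lemma constCoeff_prod_ne (l : ℕ) (s : Finset ℕ) (hs : l ∉ s) (e : ℕ → ℕ) :
    PowerSeries.constantCoeff (∏ k ∈ s, (PowerSeries.C ((k : ℚ) - l) + PowerSeries.X) ^ e k)
      ≠ 0 := by
  rw [map_prod, Finset.prod_ne_zero_iff]
  intro k hk
  rw [map_pow, map_add, PowerSeries.constantCoeff_X, add_zero, PowerSeries.constantCoeff_C]
  refine pow_ne_zero _ ?_
  rw [sub_ne_zero]
  have : k ≠ l := fun h => hs (h ▸ hk)
  exact_mod_cast this

lemma prod_B (n l : ℕ) (H : Finset ℕ) : ∏ i ∈ H, B D n (D.h i) l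
    = ∏ m ∈ (II D n).erase l, (PowerSeries.C ((m : ℚ) - l) + PowerSeries.X) ^
        #{i ∈ H | m ∈ blk D n (D.h i)} := by
  unfold B
  exact prod_blocks_erase n H _ (II D n) l (fun i _ => blk_subset_II n (D.h i))

lemma sh_Nu (n l : ℕ) (hl : l ∈ II D n) : sh l (Nu D n) =
    sh l (∏ k ∈ (II D n).erase l, gg k ^ oo D n k) * F D n l * PowerSeries.X ^ ww D n l := by
  unfold Nu F
  rw [map_mul, map_mul, sh_prod, sh_prod, prod_B, prod_B, map_add, map_mul, sh_X, sh_C, sh_C,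
    ← Finset.mul_prod_erase _ _ hl, sub_self, map_zero, zero_add]
  set P := ∏ m ∈ (II D n).erase l, (PowerSeries.C ((m : ℚ) - l) + PowerSeries.X) ^
        #{i ∈ D.P | m ∈ blk D n (D.h i)} with hP
  have hP0 : PowerSeries.constantCoeff P ≠ 0 :=
    constCoeff_prod_ne l _ (Finset.notMem_erase _ _) _
  have hPP : P * P⁻¹ = 1 := PowerSeries.mul_inv_cancel P hP0
  have key : (∏ k ∈ (II D n).erase l,
      (PowerSeries.C ((k : ℚ) - l) + PowerSeries.X) ^ oo D n k) *
      (∏ m ∈ (II D n).erase l, (PowerSeries.C ((m : ℚ) - l) + PowerSeries.X) ^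
        #{i ∈ D.M | m ∈ blk D n (D.h i)}) =
      (∏ k ∈ (II D n).erase l,
        (PowerSeries.C ((k : ℚ) - l) + PowerSeries.X) ^ ww D n k) * P := by
    rw [hP, ← Finset.prod_mul_distrib, ← Finset.prod_mul_distrib]
    refine Finset.prod_congr rfl (fun k _ => ?_)
    rw [← pow_add, ← pow_add]
    congr 1
    exact oo_add_zz n k
  have h2 : (sh l) 2 = 2 := map_ofNat (sh l) 2
  have h3 : 2 * (PowerSeries.X - PowerSeries.C (l : ℚ)) + PowerSeries.C (D.C * (n : ℚ))
      = PowerSeries.C (D.C * (n : ℚ) - 2 * (l : ℚ)) + 2 * PowerSeries.X := by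
    rw [map_sub, map_mul PowerSeries.C 2 (l : ℚ)]
    have : PowerSeries.C (2 : ℚ) = 2 := map_ofNat _ 2
    rw [this]
    ring
  rw [h2, h3]
  linear_combination (-PowerSeries.C (K D n) *
    (PowerSeries.C (D.C * (n : ℚ) - 2 * (l : ℚ)) + 2 * PowerSeries.X) *
    PowerSeries.X ^ ww D n l * P⁻¹) * key - (PowerSeries.C (K D n) *
    (PowerSeries.C (D.C * (n : ℚ) - 2 * (l : ℚ)) + 2 * PowerSeries.X) *
    PowerSeries.X ^ ww D n l *
    (∏ k ∈ (II D n).erase l, (PowerSeries.C ((k : ℚ) - l) + PowerSeries.X) ^ ww D n k)) * hPP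

lemma pf_coeff (n : ℕ) (c : ℕ → ℕ → ℚ) (hc : Nu D n = ∑ l ∈ II D n,
    ∑ j ∈ Finset.range (oo D n l),
    Polynomial.C (c l j) * gg l ^ j * ∏ k ∈ (II D n).erase l, gg k ^ oo D n k)
    (l : ℕ) (hl' : l ∈ II D n) (j : ℕ) (hj : j < oo D n l) :
    c l j = PowerSeries.coeff j (F D n l) := by
  have h1 := sh_Nu n l hl'
  rw [ww_eq_zero_of_pos (by omega), pow_zero, mul_one, hc, map_sum,
    ← Finset.add_sum_erase _ _ hl'] at h1
  set U := sh l (∏ k ∈ (II D n).erase l, gg k ^ oo D n k) with hU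
  have hU0 : PowerSeries.constantCoeff U ≠ 0 := by
    rw [hU, sh_prod]
    exact constCoeff_prod_ne l _ (Finset.notMem_erase _ _) _
  have h2 : PowerSeries.X ^ oo D n l ∣ ∑ x ∈ (II D n).erase l,
      sh l (∑ j ∈ Finset.range (oo D n x),
      Polynomial.C (c x j) * gg x ^ j * ∏ k ∈ (II D n).erase x, gg k ^ oo D n k) := by
    refine Finset.dvd_sum (fun x hx => ?_)
    rw [map_sum]
    refine Finset.dvd_sum (fun j _ => ?_)
    rw [map_mul]
    refine dvd_mul_of_dvd_right ?_ _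
    have hlx : l ∈ (II D n).erase x := by
      rw [mem_erase] at hx ⊢
      exact ⟨hx.1.symm, hl'⟩
    rw [← Finset.mul_prod_erase _ _ hlx, map_mul, map_pow, sh_gg_self]
    exact dvd_mul_right _ _
  obtain ⟨G, hG⟩ := h2
  rw [hG] at h1
  have h3 : sh l (∑ j ∈ Finset.range (oo D n l), Polynomial.C (c l j) * gg l ^ j *
      ∏ k ∈ (II D n).erase l, gg k ^ oo D n k)
      = (∑ j ∈ Finset.range (oo D n l), PowerSeries.C (c l j) * PowerSeries.X ^ j) * U := by
    rw [map_sum, Finset.sum_mul]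
    refine Finset.sum_congr rfl (fun j _ => ?_)
    rw [map_mul, map_mul, map_pow, sh_gg_self, sh_C]
  rw [h3] at h1
  have hUU : U * U⁻¹ = 1 := PowerSeries.mul_inv_cancel U hU0
  have h4 : F D n l = (∑ j ∈ Finset.range (oo D n l), PowerSeries.C (c l j) * PowerSeries.X ^ j)
      + PowerSeries.X ^ oo D n l * (G * U⁻¹) := by
    linear_combination (-F D n l + (∑ j ∈ Finset.range (oo D n l),
      PowerSeries.C (c l j) * PowerSeries.X ^ j)) * hUU - U⁻¹ * h1
  rw [h4, map_add, PowerSeries.coeff_X_pow_mul', if_neg (by omega), add_zero, map_sum,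
    Finset.sum_eq_single j]
  · rw [PowerSeries.coeff_C_mul, PowerSeries.coeff_X_pow, if_pos rfl, mul_one]
  · intro i _ hij
    rw [PowerSeries.coeff_C_mul, PowerSeries.coeff_X_pow, if_neg (Ne.symm hij), mul_zero]
  · intro h
    exact absurd (Finset.mem_range.mpr hj) h

lemma pf_main (hD : D.OK) (n : ℕ) : Nu D n = ∑ l ∈ poles D n, ∑ j ∈ Finset.range (oo D n l),
    Polynomial.C (PowerSeries.coeff j (F D n l)) * gg l ^ j *
      ∏ k ∈ (II D n).erase l, gg k ^ oo D n k := by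
  obtain ⟨c, hc⟩ := exists_pf hD n
  conv_lhs => rw [hc]
  symm
  rw [Finset.sum_subset_zero_on_sdiff (poles_subset_II n)]
  · intro l hl
    rw [mem_sdiff] at hl
    rw [oo_eq_zero hD hl.2, Finset.sum_range_zero]
  · intro l hl
    refine Finset.sum_congr rfl (fun j hj => ?_)
    rw [mem_range] at hj
    rw [pf_coeff n c hc l (poles_subset_II n hl) j hj]

lemma a_eq (n l : ℕ) {i : ℕ} (hi : 1 ≤ i) :
    a D n l i = if i ≤ oo D n l then PowerSeries.coeff (oo D n l - i) (F D n l) else 0 := by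
  unfold a
  by_cases h : i ≤ oo D n l
  · have h0 : 0 < oo D n l := by omega
    rw [if_pos h, if_pos (by rw [← oo_cast h0]; exact_mod_cast h), ← oo_cast h0]
    congr 2
    omega
  · rw [if_neg h, if_neg]
    intro hc
    apply h
    unfold oo
    omega

lemma a_eq_zero {n l i : ℕ} (hi0 : 1 ≤ i) (hi : oo D n l < i) : a D n l i = 0 := by
  rw [a_eq n l hi0, if_neg (by omega)]

lemma sum_a (hD : D.OK) {A : Type*} [AddCommMonoid A] (u : ℚ → ℕ → A) (hu : ∀ i, u 0 i = 0)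
    (n l : ℕ) :
    ∑ i ∈ Finset.Icc 1 D.A, u (a D n l i) i
      = ∑ j ∈ Finset.range (oo D n l), u (PowerSeries.coeff j (F D n l)) (oo D n l - j) := by
  have h8 := oo_le_A hD n l
  have h1 : ∑ i ∈ Finset.Icc 1 (oo D n l), u (a D n l i) i
      = ∑ i ∈ Finset.Icc 1 D.A, u (a D n l i) i := by
    refine Finset.sum_subset (Finset.Icc_subset_Icc_right h8) ?_
    intro i hi hi'
    rw [mem_Icc] at hi hi'
    rw [a_eq_zero hi.1 (by omega), hu]
  rw [← h1]
  refine Finset.sum_nbij' (fun i => oo D n l - i) (fun j => oo D n l - j) ?_ ?_ ?_ ?_ ?_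
  · intro i hi
    rw [mem_Icc] at hi
    rw [mem_range]
    omega
  · intro j hj
    rw [mem_range] at hj
    rw [mem_Icc]
    omega
  · intro i hi
    rw [mem_Icc] at hi
    omega
  · intro j hj
    rw [mem_range] at hj
    omega
  · intro i hi
    rw [mem_Icc] at hi
    rw [a_eq n l hi.1, if_pos hi.2]
    congr 1
    omega

/-- Partial fraction identity, cleared of denominators. -/
lemma pf_a (hD : D.OK) (n : ℕ) : Nu D n = ∑ l ∈ poles D n, ∑ i ∈ Finset.Icc 1 D.A,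
    Polynomial.C (a D n l i) * gg l ^ (oo D n l - i) *
      ∏ k ∈ (II D n).erase l, gg k ^ oo D n k := by
  rw [pf_main hD]
  refine Finset.sum_congr rfl (fun l _ => ?_)
  rw [sum_a hD (fun x i => Polynomial.C x * gg l ^ (oo D n l - i) *
    ∏ k ∈ (II D n).erase l, gg k ^ oo D n k)
    (fun i => by rw [map_zero, zero_mul, zero_mul]) n l]
  refine Finset.sum_congr rfl (fun j hj => ?_)
  rw [mem_range] at hj
  have : oo D n l - (oo D n l - j) = j := by omega
  rw [this]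

/-! ### B0 -/

lemma aeval_gg (t : ℂ) (m : ℕ) : Polynomial.aeval t (gg m) = t + m := by
  unfold gg
  rw [map_add, Polynomial.aeval_X, Polynomial.aeval_C]
  simp

lemma aeval_prod_gg (t : ℂ) (s : Finset ℕ) (e : ℕ → ℕ) :
    Polynomial.aeval t (∏ k ∈ s, gg k ^ e k) = ∏ k ∈ s, (t + k) ^ e k := by
  rw [map_prod]
  refine Finset.prod_congr rfl (fun k _ => ?_)
  rw [map_pow, aeval_gg]

lemma aeval_Nu (n : ℕ) (t : ℂ) : Polynomial.aeval t (Nu D n)
    = (K D n : ℂ) * (2 * t + D.C * n) * ∏ m ∈ II D n, (t + m) ^ ww D n m := by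
  unfold Nu
  rw [map_mul, map_mul, aeval_prod_gg, map_add, map_mul, Polynomial.aeval_C, Polynomial.aeval_X,
    Polynomial.aeval_C, map_ofNat]
  simp

lemma poles_subset_Icc (hD : D.OK) (n : ℕ) :
    poles D n ⊆ Finset.Icc (D.s * n) ((D.C - D.s) * n) := by
  have h1 := hD.s_le
  unfold poles
  exact Finset.Icc_subset_Icc (Nat.mul_le_mul_right n h1) (Nat.mul_le_mul_right n (by omega))

theorem partial_fractions (hD : D.OK) (n : ℕ) (_hn : 0 < n) (t : ℂ)
    (ht : ∀ m ∈ Finset.Icc (D.s * n) ((D.C - D.s) * n), t + (m : ℂ) ≠ 0) :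
    R D n t = ∑ l ∈ poles D n, ∑ i ∈ Finset.Icc 1 D.A, ((a D n l i : ℚ) : ℂ) / (t + l) ^ i := by
  have hDD : ∏ k ∈ II D n, (t + k) ^ oo D n k ≠ 0 := by
    rw [Finset.prod_ne_zero_iff]
    intro k _
    by_cases hk : k ∈ poles D n
    · exact pow_ne_zero _ (ht k (poles_subset_Icc hD n hk))
    · rw [oo_eq_zero hD hk, pow_zero]
      exact one_ne_zero
  have hE : ∏ k ∈ II D n, (t + k) ^ ee D n k ≠ 0 := by
    rw [Finset.prod_ne_zero_iff]
    intro k _
    by_cases hk : ee D n k = 0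
    · rw [hk, pow_zero]
      exact one_ne_zero
    · exact pow_ne_zero _ (ht k (ee_pos_mem' hD hk))
  have h1 : R D n t * ∏ k ∈ II D n, (t + k) ^ oo D n k = Polynomial.aeval t (Nu D n) := by
    unfold R
    rw [prod_blocks n D.M (fun m => t + (m : ℂ)) (II D n)
        (fun i _ => blk_subset_II n (D.h i)),
      prod_blocks n D.P (fun m => t + (m : ℂ)) (II D n)
        (fun i _ => blk_subset_II n (D.h i)), aeval_Nu]
    have hE' : ∏ k ∈ II D n, (t + k) ^ #{i ∈ D.P | k ∈ blk D n (D.h i)} ≠ 0 := hE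
    rw [div_mul_eq_mul_div, div_eq_iff hE', mul_assoc, mul_assoc _ _ (∏ k ∈ II D n,
      (t + (k : ℂ)) ^ #{i ∈ D.P | k ∈ blk D n (D.h i)}), ← Finset.prod_mul_distrib,
      ← Finset.prod_mul_distrib]
    congr 1
    refine Finset.prod_congr rfl (fun k _ => ?_)
    rw [← pow_add, ← pow_add]
    congr 1
    have := oo_add_zz (D := D) n k
    unfold ee zz at this
    omega
  rw [← mul_left_inj' hDD, h1, pf_a hD, map_sum, Finset.sum_mul]
  refine Finset.sum_congr rfl (fun l hl => ?_)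
  rw [map_sum, Finset.sum_mul]
  refine Finset.sum_congr rfl (fun i hi => ?_)
  rw [mem_Icc] at hi
  rw [map_mul, map_mul, map_pow, aeval_prod_gg, aeval_gg, Polynomial.aeval_C,
    ← Finset.mul_prod_erase _ _ (poles_subset_II n hl)]
  have hl0 : t + (l : ℂ) ≠ 0 := ht l (poles_subset_Icc hD n hl)
  by_cases hio : i ≤ oo D n l
  · have : (t + (l : ℂ)) ^ oo D n l = (t + l) ^ i * (t + l) ^ (oo D n l - i) := by
      rw [← pow_add]
      congr 1
      omega
    rw [this, div_mul_eq_mul_div, eq_div_iff (pow_ne_zero _ hl0)]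
    simp only [eq_ratCast]
    ring
  · rw [a_eq_zero hi.1 (by omega)]
    simp

end Pool.Agent.OddZetaG
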