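import Pool.Agent.OddZetaG.Defs

/-!
Exponent function on the real axis: `|R D n (τ n)|` has size `exp (n * FR D τ)` for real
`τ ≥ - m0`, `m0` the largest parameter of a zero block.  Seat: helper57.
-/

open Finset

namespace Pool.Agent.OddZetaG

/-- `x log |x|` -/
noncomputable def phi (x : ℝ) : ℝ := x * Real.log x

/-- exponent of the block `h` -/
noncomputable def gR (C h : ℕ) (τ : ℝ) : ℝ :=
  ((C : ℝ) - 2 * h) * Real.log ((C : ℝ) - 2 * h) - phi ((C : ℝ) - h + τ) + phi ((h : ℝ) + τ)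

/-- the exponent function on the real axis -/
noncomputable def FR (D : Dat) (τ : ℝ) : ℝ :=
  ∑ i ∈ D.P, gR D.C (D.h i) τ - ∑ i ∈ D.M, gR D.C (D.h i) τ

end Pool.Agent.OddZetaG
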