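import Pool.Agent.OddZetaG.RealDefs
import Pool.Agent.OddZetaG.Fam

/-!
The one variable inequality on the real axis, from integer certificates: on an interval without
breakpoints the exponent is bounded by a convex function (pole blocks and zero blocks to the left of
their breakpoint, and tangents of the other zero blocks), so it is enough to check both ends.
Seat: helper57.
-/

open Finset

namespace Pool.Agent.OddZetaG

open Real

/-- the exponent function of two lists -/
noncomputable def FRL (C : ℕ) (PL ML : List ℕ) (τ : ℝ) : ℝ :=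
  (PL.map fun h => gR C h τ).sum - (ML.map fun h => gR C h τ).sum

theorem FR_fam {F : Fam} (hF : F.OK) (j : ℕ) (τ : ℝ) :
    FR (F.D j) τ = FRL F.C F.P0 F.M0 τ + j * FRL F.C F.P1 F.M1 τ := by
  unfold FR FRL
  have hC : (F.D j).C = F.C := rfl
  rw [hC, Fam.sumPj hF j (fun h => gR F.C h τ), Fam.sumMj hF j (fun h => gR F.C h τ)]
  simp only [nsmul_eq_mul]
  ring

theorem phi_mul {v x : ℝ} (hv : 0 < v) : phi (v * x) = v * phi x + v * x * log v := by
  unfold phi
  rcases eq_or_ne x 0 with rfl | hx
  · simp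
  · rw [log_mul hv.ne' hx]
    ring

theorem phi_neg (x : ℝ) : phi (-x) = - phi x := by
  unfold phi
  rw [log_neg_eq_log]
  ring

/-- `v * gR C h (-m0 + y / v)` -/
noncomputable def tt (C m0 v h : ℕ) (y : ℝ) : ℝ :=
  phi ((v : ℝ) * ((C : ℝ) - 2 * h)) - phi (((C : ℝ) - h - m0) * v + y) +
    phi (((h : ℝ) - m0) * v + y)

theorem gR_scale (C m0 v h : ℕ) (hv : 0 < v) (y : ℝ) :
    (v : ℝ) * gR C h (-(m0 : ℝ) + y / v) = tt C m0 v h y := by
  have hv' : (0 : ℝ) < v := by exact_mod_cast hv
  have e1 : ((C : ℝ) - h - m0) * v + y = v * ((C : ℝ) - h + (-(m0 : ℝ) + y / v)) := by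
    field_simp
    ring
  have e2 : ((h : ℝ) - m0) * v + y = v * ((h : ℝ) + (-(m0 : ℝ) + y / v)) := by
    field_simp
    ring
  unfold tt
  rw [e1, e2, phi_mul hv', phi_mul hv', phi_mul hv']
  unfold gR
  have : phi ((C : ℝ) - 2 * h) = ((C : ℝ) - 2 * h) * log ((C : ℝ) - 2 * h) := rfl
  rw [this]
  ring

theorem continuous_phi : Continuous phi := Real.continuous_mul_log

theorem hasDerivAt_phi {x : ℝ} (hx : x ≠ 0) : HasDerivAt phi (log x + 1) x :=
  Real.hasDerivAt_mul_log hx

theorem hasDerivAt_phi_add {a y : ℝ} (h : a + y ≠ 0) :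
    HasDerivAt (fun y => phi (a + y)) (log (a + y) + 1) y := by
  have h1 : HasDerivAt (fun y => a + y) 1 y := (hasDerivAt_id y).const_add a
  have h2 := (hasDerivAt_phi h).comp y h1
  rw [mul_one] at h2
  exact h2

/-- convexity of `phi (L + y) - phi (H + y)` -/
theorem convexOn_diff {L H c : ℝ} (hL : 0 ≤ L) (hLH : L ≤ H) :
    ConvexOn ℝ (Set.Ici 0) (fun y => c - phi (H + y) + phi (L + y)) := by
  have hd : ∀ y : ℝ, 0 < y → HasDerivAt (fun y => c - phi (H + y) + phi (L + y))
      (-(log (H + y) + 1) + (log (L + y) + 1)) y := by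
    intro y hy
    have h1 := hasDerivAt_phi_add (a := H) (y := y) (by linarith)
    have h2 := hasDerivAt_phi_add (a := L) (y := y) (by linarith)
    have h3 := (h1.const_sub c).add h2
    exact h3
  apply MonotoneOn.convexOn_of_deriv (convex_Ici _)
  · apply Continuous.continuousOn
    have := continuous_phi
    fun_prop
  · rw [interior_Ici]
    intro y hy
    exact (hd y hy).differentiableAt.differentiableWithinAt
  · rw [interior_Ici]
    intro x hx y hy hxy
    rw [(hd x hx).deriv, (hd y hy).deriv]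
    have hx' : 0 < x := hx
    have hy' : 0 < y := hy
    have h1 : log (L + x) + log (H + y) ≤ log (L + y) + log (H + x) := by
      have p1 : 0 < L + x := by linarith
      have p2 : 0 < H + y := by linarith
      have p3 : 0 < L + y := by linarith
      have p4 : 0 < H + x := by linarith
      rw [← log_mul p1.ne' p2.ne', ← log_mul p3.ne' p4.ne']
      apply log_le_log (mul_pos p1 p2)
      nlinarith
    linarith

/-- convexity of `phi (H + y) - phi (L + y)` where `L + y ≤ 0` -/
theorem convexOn_diff_left {L H c a b : ℝ} (hH : 0 ≤ H + a) (hb : L + b ≤ 0) :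
    ConvexOn ℝ (Set.Icc a b) (fun y => c + phi (H + y) - phi (L + y)) := by
  have hd : ∀ y : ℝ, a < y → y < b → HasDerivAt (fun y => c + phi (H + y) - phi (L + y))
      ((log (H + y) + 1) - (log (L + y) + 1)) y := by
    intro y hy1 hy2
    have h1 := hasDerivAt_phi_add (a := H) (y := y) (by linarith)
    have h2 := hasDerivAt_phi_add (a := L) (y := y) (by linarith)
    exact (h1.const_add c).sub h2
  apply MonotoneOn.convexOn_of_deriv (convex_Icc _ _)
  · apply Continuous.continuousOn
    have := continuous_phi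
    fun_prop
  · rw [interior_Icc]
    intro y hy
    exact (hd y hy.1 hy.2).differentiableAt.differentiableWithinAt
  · rw [interior_Icc]
    intro x hx y hy hxy
    rw [(hd x hx.1 hx.2).deriv, (hd y hy.1 hy.2).deriv]
    obtain ⟨hx1, hx2⟩ := hx
    obtain ⟨hy1, hy2⟩ := hy
    have h1 : log (H + x) ≤ log (H + y) := log_le_log (by linarith) (by linarith)
    have h2 : log (L + y) ≤ log (L + x) := by
      rw [← log_neg_eq_log (L + y), ← log_neg_eq_log (L + x)]
      exact log_le_log (by linarith) (by linarith)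
    linarith

/-- tangent inequality -/
theorem phi_tangent {a b N : ℝ} (ha : 0 ≤ a) (hb : 0 < b) (hN : 0 < N) :
    phi (a + N) - phi a ≤ (a + N) * log (b + N) - a * log b := by
  unfold phi
  rcases eq_or_lt_of_le ha with rfl | ha
  · have h1 : log (0 + N) ≤ log (b + N) := log_le_log (by linarith) (by linarith)
    have := mul_le_mul_of_nonneg_left h1 hN.le
    simp only [zero_add, zero_mul, sub_zero] at *
    exact this
  · have hw : 0 < (a + N) / (b + N) := by positivity
    have hu : 0 < (a + N) / (b + N) * (b / a) := by positivity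
    have h1 := mul_le_mul_of_nonneg_left (log_le_sub_one_of_pos hu) ha.le
    have h2 := mul_le_mul_of_nonneg_left (log_le_sub_one_of_pos hw) hN.le
    rw [log_mul hw.ne' (by positivity), log_div (by positivity) (by positivity),
      log_div (by positivity) (by positivity)] at h1
    rw [log_div (by positivity) (by positivity)] at h2
    have e : a * ((a + N) / (b + N) * (b / a) - 1) + N * ((a + N) / (b + N) - 1) = 0 := by
      field_simp
      ring
    linarith

theorem convexOn_list_sum {S : Set ℝ} (hS : Convex ℝ S) (f : ℕ → ℝ → ℝ) :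
    ∀ l : List ℕ, (∀ h ∈ l, ConvexOn ℝ S (f h)) →
      ConvexOn ℝ S (fun y => (l.map fun h => f h y).sum) := by
  intro l
  induction l with
  | nil =>
    intro _
    exact convexOn_const (0 : ℝ) hS
  | cons x l ih =>
    intro h
    have h1 := h x (by simp)
    have h2 := ih fun y hy => h y (by simp [hy])
    have h3 := h1.add h2
    simp only [List.map_cons, List.sum_cons]
    exact h3

theorem list_sum_map_sub (f g : ℕ → ℝ) (l : List ℕ) :
    (l.map fun h => f h - g h).sum = (l.map f).sum - (l.map g).sum := by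
  induction l with
  | nil => simp
  | cons x l ih =>
    simp only [List.map_cons, List.sum_cons]
    rw [ih]
    ring

/-! ### certificates -/

def xh (C m0 v h w : ℕ) : ℕ := (C - h - m0) * v + w
def xp (m0 v h w : ℕ) : ℕ := (h - m0) * v + w
def bp (m0 v h : ℕ) : ℕ := (m0 - h) * v

def numL (C m0 v : ℕ) (PL ML : List ℕ) (wa wc w : ℕ) : ℕ :=
  (PL.map fun h => (v * (C - 2 * h)) ^ (v * (C - 2 * h)) * (xp m0 v h w) ^ (xp m0 v h w)).prod *
    (ML.map fun h => if bp m0 v h ≤ wa then (xh C m0 v h wc) ^ (xh C m0 v h w) else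
      (xh C m0 v h w) ^ (xh C m0 v h w) * (bp m0 v h - w) ^ (bp m0 v h - w)).prod

def denL (C m0 v : ℕ) (PL ML : List ℕ) (wa wc w : ℕ) : ℕ :=
  (PL.map fun h => (xh C m0 v h w) ^ (xh C m0 v h w)).prod *
    (ML.map fun h => if bp m0 v h ≤ wa then
      (v * (C - 2 * h)) ^ (v * (C - 2 * h)) * (wc - bp m0 v h) ^ (w - bp m0 v h) else
      (v * (C - 2 * h)) ^ (v * (C - 2 * h))).prod

/-- certificate at one end -/
def endL (C m0 v : ℕ) (PL ML : List ℕ) (wa wc w Q : ℕ) : Bool :=
  Nat.ble (numL C m0 v PL ML wa wc w * 27182818286 ^ Q) (denL C m0 v PL ML wa wc w * 10000000000 ^ Q)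

/-- certificate of one interval `[wa, wb]`, tangent point `wc` -/
def certL (C m0 v : ℕ) (PL ML : List ℕ) (Q wa wb wc : ℕ) : Bool :=
  Nat.blt wa wb && ((ML.all fun h => (Nat.ble (bp m0 v h) wa && Nat.blt (bp m0 v h) wc) ||
    Nat.ble wb (bp m0 v h)) && (endL C m0 v PL ML wa wc wa Q && endL C m0 v PL ML wa wc wb Q))

/-- the convex majorant of `- tt` for a zero block -/
noncomputable def ss (C m0 v wa wc h : ℕ) (y : ℝ) : ℝ :=
  if bp m0 v h ≤ wa then
    - phi ((v : ℝ) * ((C : ℝ) - 2 * h)) + (((C : ℝ) - h - m0) * v + y) * log (xh C m0 v h wc : ℝ) -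
      (((h : ℝ) - m0) * v + y) * log ((wc - bp m0 v h : ℕ) : ℝ)
  else - tt C m0 v h y

theorem log_prod_list {l : List ℕ} {f : ℕ → ℕ} (hf : ∀ h ∈ l, f h ≠ 0) :
    log (((l.map f).prod : ℕ) : ℝ) = (l.map fun h => log (f h : ℝ)).sum ∧ (l.map f).prod ≠ 0 := by
  induction l with
  | nil => simp
  | cons x l ih =>
    obtain ⟨h1, h2⟩ := ih fun y hy => hf y (by simp [hy])
    have h3 := hf x (by simp)
    simp only [List.map_cons, List.prod_cons, List.sum_cons]
    refine ⟨?_, mul_ne_zero h3 h2⟩
    rw [Nat.cast_mul, log_mul (Nat.cast_ne_zero.mpr h3) (Nat.cast_ne_zero.mpr h2), h1]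

theorem pow_self_ne (x : ℕ) : x ^ x ≠ 0 := by
  rcases Nat.eq_zero_or_pos x with rfl | h
  · simp
  · positivity

theorem log_pow_self (x : ℕ) : log (((x ^ x : ℕ)) : ℝ) = phi x := by
  unfold phi
  push_cast
  rw [log_pow]

/-- standing assumptions for the certificates -/
structure CertOK (C m0 v : ℕ) (PL ML : List ℕ) : Prop where
  v0 : 0 < v
  P1 : ∀ h ∈ PL, m0 ≤ h ∧ 2 * h < C
  M1 : ∀ h ∈ ML, h ≤ m0
  mC : 2 * m0 < C

variable {C m0 v : ℕ} {PL ML : List ℕ}

theorem end_spec (hc : CertOK C m0 v PL ML) {wa wc w Q : ℕ} (hw : wa ≤ w)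
    (hM : ∀ h ∈ ML, (bp m0 v h ≤ wa ∧ bp m0 v h < wc) ∨ w ≤ bp m0 v h)
    (h : endL C m0 v PL ML wa wc w Q = true) :
    (PL.map fun h => tt C m0 v h w).sum + (ML.map fun h => ss C m0 v wa wc h w).sum ≤ -(Q : ℝ) := by
  have hv' : (0 : ℝ) < v := by exact_mod_cast hc.v0
  have hmC := hc.mC
  -- pole blocks
  have fP : ∀ h ∈ PL, (v * (C - 2 * h)) ^ (v * (C - 2 * h)) * (xp m0 v h w) ^ (xp m0 v h w) ≠ 0 :=
    fun h _ => mul_ne_zero (pow_self_ne _) (pow_self_ne _)
  have gP : ∀ h ∈ PL, (xh C m0 v h w) ^ (xh C m0 v h w) ≠ 0 := fun h _ => pow_self_ne _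
  have fM : ∀ h ∈ ML, (if bp m0 v h ≤ wa then (xh C m0 v h wc) ^ (xh C m0 v h w) else
      (xh C m0 v h w) ^ (xh C m0 v h w) * (bp m0 v h - w) ^ (bp m0 v h - w)) ≠ 0 := by
    intro h hh
    have h1 := hc.M1 h hh
    split_ifs with hcs
    · apply pow_ne_zero
      unfold xh
      have : 0 < (C - h - m0) * v := Nat.mul_pos (by omega) hc.v0
      omega
    · exact mul_ne_zero (pow_self_ne _) (pow_self_ne _)
  have gM : ∀ h ∈ ML, (if bp m0 v h ≤ wa then
      (v * (C - 2 * h)) ^ (v * (C - 2 * h)) * (wc - bp m0 v h) ^ (w - bp m0 v h) else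
      (v * (C - 2 * h)) ^ (v * (C - 2 * h))) ≠ 0 := by
    intro h hh
    have h1 := hM h hh
    split_ifs with hcs
    · apply mul_ne_zero (pow_self_ne _)
      rcases h1 with h1 | h1
      · apply pow_ne_zero
        omega
      · have : w - bp m0 v h = 0 := by omega
        rw [this]
        simp
    · exact pow_self_ne _
  obtain ⟨lfP, nfP⟩ := log_prod_list fP
  obtain ⟨lgP, ngP⟩ := log_prod_list gP
  obtain ⟨lfM, nfM⟩ := log_prod_list fM
  obtain ⟨lgM, ngM⟩ := log_prod_list gM
  have hle := Nat.le_of_ble_eq_true h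
  have hnum : (numL C m0 v PL ML wa wc w : ℝ) ≠ 0 := by
    have : numL C m0 v PL ML wa wc w ≠ 0 := mul_ne_zero nfP nfM
    exact_mod_cast this
  have hden : (denL C m0 v PL ML wa wc w : ℝ) ≠ 0 := by
    have : denL C m0 v PL ML wa wc w ≠ 0 := mul_ne_zero ngP ngM
    exact_mod_cast this
  have hle' : (numL C m0 v PL ML wa wc w : ℝ) * 27182818286 ^ Q ≤
      (denL C m0 v PL ML wa wc w : ℝ) * 10000000000 ^ Q := by exact_mod_cast hle
  have hnpos : (0 : ℝ) < numL C m0 v PL ML wa wc w := lt_of_le_of_ne (Nat.cast_nonneg _) hnum.symm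
  have hl := log_le_log (by positivity) hle'
  rw [log_mul hnum (by positivity), log_mul hden (by positivity), log_pow, log_pow] at hl
  have he : (1 : ℝ) ≤ log 27182818286 - log 10000000000 := by
    rw [← log_div (by norm_num) (by norm_num), le_log_iff_exp_le (by norm_num)]
    have := exp_one_lt_d9
    linarith
  have hQ : (0 : ℝ) ≤ Q := Nat.cast_nonneg Q
  have hl' : log (numL C m0 v PL ML wa wc w : ℝ) + Q ≤ log (denL C m0 v PL ML wa wc w : ℝ) := by
    nlinarith
  have en : log (numL C m0 v PL ML wa wc w : ℝ) = log ((((PL.map fun h => (v * (C - 2 * h)) ^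
      (v * (C - 2 * h)) * (xp m0 v h w) ^ (xp m0 v h w)).prod : ℕ)) : ℝ) +
      log ((((ML.map fun h => if bp m0 v h ≤ wa then (xh C m0 v h wc) ^ (xh C m0 v h w) else
      (xh C m0 v h w) ^ (xh C m0 v h w) * (bp m0 v h - w) ^ (bp m0 v h - w)).prod : ℕ)) : ℝ) := by
    unfold numL
    rw [Nat.cast_mul, log_mul (by exact_mod_cast nfP) (by exact_mod_cast nfM)]
  have ed : log (denL C m0 v PL ML wa wc w : ℝ) = log ((((PL.map fun h => (xh C m0 v h w) ^
      (xh C m0 v h w)).prod : ℕ)) : ℝ) +
      log ((((ML.map fun h => if bp m0 v h ≤ wa then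
      (v * (C - 2 * h)) ^ (v * (C - 2 * h)) * (wc - bp m0 v h) ^ (w - bp m0 v h) else
      (v * (C - 2 * h)) ^ (v * (C - 2 * h))).prod : ℕ)) : ℝ) := by
    unfold denL
    rw [Nat.cast_mul, log_mul (by exact_mod_cast ngP) (by exact_mod_cast ngM)]
  have sP : (PL.map fun h => tt C m0 v h w).sum =
      (PL.map fun h => log ((((v * (C - 2 * h)) ^ (v * (C - 2 * h)) *
        (xp m0 v h w) ^ (xp m0 v h w) : ℕ)) : ℝ)).sum -
      (PL.map fun h => log ((((xh C m0 v h w) ^ (xh C m0 v h w) : ℕ)) : ℝ)).sum := by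
    rw [← list_sum_map_sub]
    congr 1
    apply List.map_congr_left
    intro h hh
    obtain ⟨p1, p2⟩ := hc.P1 h hh
    rw [Nat.cast_mul, log_mul (by exact_mod_cast pow_self_ne _) (by exact_mod_cast pow_self_ne _),
      log_pow_self, log_pow_self, log_pow_self]
    unfold tt
    have c1 : ((v * (C - 2 * h) : ℕ) : ℝ) = v * ((C : ℝ) - 2 * h) := by
      rw [Nat.cast_mul, Nat.cast_sub (by omega)]
      push_cast
      ring
    have c2 : ((xh C m0 v h w : ℕ) : ℝ) = ((C : ℝ) - h - m0) * v + w := by
      unfold xh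
      rw [Nat.cast_add, Nat.cast_mul, Nat.cast_sub (by omega), Nat.cast_sub (by omega)]
    have c3 : ((xp m0 v h w : ℕ) : ℝ) = ((h : ℝ) - m0) * v + w := by
      unfold xp
      rw [Nat.cast_add, Nat.cast_mul, Nat.cast_sub (by omega)]
    rw [c1, c2, c3]
    ring
  have sM : (ML.map fun h => ss C m0 v wa wc h w).sum =
      (ML.map fun h => log (((if bp m0 v h ≤ wa then (xh C m0 v h wc) ^ (xh C m0 v h w) else
      (xh C m0 v h w) ^ (xh C m0 v h w) * (bp m0 v h - w) ^ (bp m0 v h - w) : ℕ)) : ℝ)).sum -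
      (ML.map fun h => log (((if bp m0 v h ≤ wa then
      (v * (C - 2 * h)) ^ (v * (C - 2 * h)) * (wc - bp m0 v h) ^ (w - bp m0 v h) else
      (v * (C - 2 * h)) ^ (v * (C - 2 * h)) : ℕ)) : ℝ)).sum := by
    rw [← list_sum_map_sub]
    congr 1
    apply List.map_congr_left
    intro h hh
    have m1 := hc.M1 h hh
    have m2 := hM h hh
    have c1 : ((v * (C - 2 * h) : ℕ) : ℝ) = v * ((C : ℝ) - 2 * h) := by
      rw [Nat.cast_mul, Nat.cast_sub (by omega)]
      push_cast
      ring
    have c2 : ((xh C m0 v h w : ℕ) : ℝ) = ((C : ℝ) - h - m0) * v + w := by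
      unfold xh
      rw [Nat.cast_add, Nat.cast_mul, Nat.cast_sub (by omega), Nat.cast_sub (by omega)]
    have c4 : ((bp m0 v h : ℕ) : ℝ) = ((m0 : ℝ) - h) * v := by
      unfold bp
      rw [Nat.cast_mul, Nat.cast_sub m1]
    unfold ss
    split_ifs with hcs
    · have hww : bp m0 v h ≤ w := hcs.trans hw
      have c5 : ((w - bp m0 v h : ℕ) : ℝ) = ((h : ℝ) - m0) * v + w := by
        rw [Nat.cast_sub hww, c4]
        ring
      have n1 : (((v * (C - 2 * h)) ^ (v * (C - 2 * h)) : ℕ) : ℝ) ≠ 0 := by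
        exact_mod_cast pow_self_ne _
      have n2 : (((wc - bp m0 v h) ^ (w - bp m0 v h) : ℕ) : ℝ) ≠ 0 := by
        have := gM h hh
        rw [if_pos hcs] at this
        have := right_ne_zero_of_mul this
        exact_mod_cast this
      rw [Nat.cast_mul (α := ℝ) ((v * (C - 2 * h)) ^ (v * (C - 2 * h))), log_mul n1 n2, log_pow_self,
        Nat.cast_pow, Nat.cast_pow, log_pow, log_pow, c1, c2, c5]
      ring
    · have hww : w ≤ bp m0 v h := by omega
      have c5 : ((bp m0 v h - w : ℕ) : ℝ) = -(((h : ℝ) - m0) * v + w) := by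
        rw [Nat.cast_sub hww, c4]
        ring
      rw [Nat.cast_mul (α := ℝ) ((xh C m0 v h w) ^ (xh C m0 v h w)),
        log_mul (by exact_mod_cast pow_self_ne _) (by exact_mod_cast pow_self_ne _), log_pow_self,
        log_pow_self, log_pow_self, c1, c2, c5, phi_neg]
      unfold tt
      ring
  rw [sP, sM, ← lfP, ← lgP, ← lfM, ← lgM]
  rw [en, ed] at hl'
  linarith

/-- the bound on one interval -/
theorem FRL_le_of_cert (hc : CertOK C m0 v PL ML) {Q wa wb wc : ℕ}
    (h : certL C m0 v PL ML Q wa wb wc = true) {τ : ℝ} (h1 : (wa : ℝ) ≤ (τ + m0) * v)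
    (h2 : (τ + m0) * v ≤ wb) : FRL C PL ML τ ≤ -((Q : ℝ) / v) := by
  have hv' : (0 : ℝ) < v := by exact_mod_cast hc.v0
  have hmC := hc.mC
  unfold certL at h
  rw [Bool.and_eq_true, Bool.and_eq_true, Bool.and_eq_true, List.all_eq_true] at h
  obtain ⟨hab, hM, ha, hb⟩ := h
  have hlt : wa < wb := by simpa [Nat.blt_eq] using hab
  have hab := hlt.le
  have hM' : ∀ h ∈ ML, (bp m0 v h ≤ wa ∧ bp m0 v h < wc) ∨ wb ≤ bp m0 v h := by
    intro h hh
    have := hM h hh
    rw [Bool.or_eq_true, Bool.and_eq_true, Nat.blt_eq] at this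
    rcases this with ⟨k1, k2⟩ | k1
    · exact Or.inl ⟨Nat.le_of_ble_eq_true k1, k2⟩
    · exact Or.inr (Nat.le_of_ble_eq_true k1)
  have ea := end_spec hc le_rfl (fun h hh => (hM' h hh).imp id fun k => hab.trans k) ha
  have eb := end_spec hc hab hM' hb
  set y : ℝ := (τ + m0) * v with hy
  have hτ : τ = -(m0 : ℝ) + y / v := by
    rw [hy]
    field_simp
    ring
  have hmem : y ∈ Set.Icc (wa : ℝ) wb := ⟨h1, h2⟩
  set G : ℝ → ℝ := fun y => (PL.map fun h => tt C m0 v h y).sum + (ML.map fun h => ss C m0 v wa wc h y).sum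
    with hG
  have hwa0 : (0 : ℝ) ≤ wa := Nat.cast_nonneg _
  have hconv : ConvexOn ℝ (Set.Icc (wa : ℝ) wb) G := by
    apply ConvexOn.add
    · apply convexOn_list_sum (convex_Icc _ _)
      intro h hh
      obtain ⟨p1, p2⟩ := hc.P1 h hh
      have p1' : (m0 : ℝ) ≤ h := by exact_mod_cast p1
      have p2' : 2 * (h : ℝ) < C := by exact_mod_cast p2
      have := convexOn_diff (L := ((h : ℝ) - m0) * v) (H := ((C : ℝ) - h - m0) * v)
        (c := phi ((v : ℝ) * ((C : ℝ) - 2 * h))) (by nlinarith) (by nlinarith)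
      exact this.subset (fun x hx => hwa0.trans hx.1) (convex_Icc _ _)
    · apply convexOn_list_sum (convex_Icc _ _)
      intro h hh
      have m1 := hc.M1 h hh
      have m1' : (h : ℝ) ≤ m0 := by exact_mod_cast m1
      have hmC' : 2 * (m0 : ℝ) < C := by exact_mod_cast hmC
      by_cases hcs : bp m0 v h ≤ wa
      · have e : ss C m0 v wa wc h = fun y => (log (xh C m0 v h wc : ℝ) -
            log ((wc - bp m0 v h : ℕ) : ℝ)) * y + (- phi ((v : ℝ) * ((C : ℝ) - 2 * h)) +
            (((C : ℝ) - h - m0) * v) * log (xh C m0 v h wc : ℝ) -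
            (((h : ℝ) - m0) * v) * log ((wc - bp m0 v h : ℕ) : ℝ)) := by
          funext y
          unfold ss
          rw [if_pos hcs]
          ring
        rw [e]
        refine ⟨convex_Icc _ _, fun x _ z _ a b _ _ hab => ?_⟩
        have hb' : b = 1 - a := by linarith
        subst hb'
        simp only [smul_eq_mul]
        apply le_of_eq
        ring
      · have e : ss C m0 v wa wc h = fun y => - phi ((v : ℝ) * ((C : ℝ) - 2 * h)) +
            phi (((C : ℝ) - h - m0) * v + y) - phi (((h : ℝ) - m0) * v + y) := by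
          funext y
          unfold ss
          rw [if_neg hcs]
          unfold tt
          ring
        rw [e]
        have hb2 : wb ≤ bp m0 v h := by
          rcases hM' h hh with k | k
          · exact absurd k.1 hcs
          · exact k
        have hb3 : (wb : ℝ) ≤ ((m0 : ℝ) - h) * v := by
          have : ((bp m0 v h : ℕ) : ℝ) = ((m0 : ℝ) - h) * v := by
            unfold bp
            rw [Nat.cast_mul, Nat.cast_sub m1]
          rw [← this]
          exact_mod_cast hb2
        apply convexOn_diff_left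
        · have : 0 ≤ ((C : ℝ) - h - m0) * v := mul_nonneg (by linarith) hv'.le
          linarith
        · linarith
  have hmax := hconv.le_max_of_mem_Icc (x := (wa : ℝ)) (y := (wb : ℝ)) (z := y)
    ⟨le_rfl, by exact_mod_cast hab⟩ ⟨by exact_mod_cast hab, le_rfl⟩ hmem
  have hGy : G y ≤ -(Q : ℝ) := hmax.trans (max_le ea eb)
  -- the exponent is at most `G / v`
  have hFG : (v : ℝ) * FRL C PL ML τ ≤ G y := by
    unfold FRL
    rw [hτ, mul_sub, ← List.sum_map_mul_left, ← List.sum_map_mul_left]
    simp only [gR_scale C m0 v _ hc.v0]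
    have hle : ∀ l : List ℕ, (∀ h ∈ l, h ∈ ML) → - (l.map fun h => tt C m0 v h y).sum ≤
        (l.map fun h => ss C m0 v wa wc h y).sum := by
      intro l
      induction l with
      | nil => intro _; simp
      | cons x l ih =>
        intro hl
        have h3 := ih fun z hz => hl z (by simp [hz])
        have hx := hl x (by simp)
        have h4 : - tt C m0 v x y ≤ ss C m0 v wa wc x y := by
          have m1 := hc.M1 x hx
          have m1' : (x : ℝ) ≤ m0 := by exact_mod_cast m1
          have hmC' : 2 * (m0 : ℝ) < C := by exact_mod_cast hmC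
          unfold ss
          split_ifs with hcs
          · have c4 : ((bp m0 v x : ℕ) : ℝ) = ((m0 : ℝ) - x) * v := by
              unfold bp
              rw [Nat.cast_mul, Nat.cast_sub m1]
            have c2 : ((xh C m0 v x wc : ℕ) : ℝ) = ((C : ℝ) - x - m0) * v + wc := by
              unfold xh
              rw [Nat.cast_add, Nat.cast_mul, Nat.cast_sub (by omega), Nat.cast_sub (by omega)]
            have hbw : bp m0 v x < wc := by
              rcases hM' x hx with k | k
              · exact k.2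
              · omega
            have c5 : ((wc - bp m0 v x : ℕ) : ℝ) = ((x : ℝ) - m0) * v + wc := by
              rw [Nat.cast_sub hbw.le, c4]
              ring
            have hcs' : ((m0 : ℝ) - x) * v ≤ wa := by
              rw [← c4]
              exact_mod_cast hcs
            have hbw' : ((m0 : ℝ) - x) * v < wc := by
              rw [← c4]
              exact_mod_cast hbw
            have := phi_tangent (a := ((x : ℝ) - m0) * v + y) (b := ((x : ℝ) - m0) * v + wc)
              (N := (v : ℝ) * ((C : ℝ) - 2 * x)) (by linarith) (by linarith)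
              (mul_pos hv' (by linarith))
            rw [c2, c5]
            unfold tt
            have e1 : ((C : ℝ) - x - m0) * v + y = ((x : ℝ) - m0) * v + y + v * ((C : ℝ) - 2 * x) := by
              ring
            have e2 : ((C : ℝ) - x - m0) * v + (wc : ℝ) =
                ((x : ℝ) - m0) * v + wc + v * ((C : ℝ) - 2 * x) := by
              ring
            rw [e1, e2]
            linarith
          · exact le_rfl
        simp only [List.map_cons, List.sum_cons]
        linarith
    have := hle ML fun _ h => h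
    rw [hG]
    simp only
    linarith
  have := hFG.trans hGy
  rw [← neg_div, le_div_iff₀ hv']
  linarith

end Pool.Agent.OddZetaG
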