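import Pool.Agent.OddZetaG.Defs
import Pool.Agent.OddZeta.SizeR

set_option autoImplicit false

/-!
# Size of `R D n` on the line `Re t = -(2 c + 1) n / 2`, generic data

Seat: helper30.
-/

namespace Pool.Agent.OddZetaG

open Real Set
open Pool.Agent.OddZeta (w fl Ph sum_fl_ge sum_fl_le log_fact_le log_fact_ge w_scale)

variable (D : Dat)

/-- the point of the line -/
noncomputable def tpc (c n : ℕ) (y : ℝ) : ℂ := ((-((2 * c + 1) * n / 2) : ℝ) : ℂ) + (y : ℂ) * Complex.I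

theorem norm_ptG (c n : ℕ) {y : ℝ} (hy : 0 < y) (m : ℕ) :
    ‖tpc c n y + m‖ = exp (fl y ((m : ℝ) - (2 * c + 1) * n / 2)) := by
  have h1 : tpc c n y + m = (((m : ℝ) - (2 * c + 1) * n / 2 : ℝ) : ℂ) + (y : ℂ) * Complex.I := by
    unfold tpc
    push_cast
    ring
  have hpos : 0 < ((m : ℝ) - (2 * c + 1) * n / 2) ^ 2 + y ^ 2 := by positivity
  rw [h1, Complex.norm_add_mul_I, fl, sqrt_eq_rpow, rpow_def_of_pos hpos]
  congr 1
  ring

theorem norm_prod_blkG (c n h : ℕ) {y : ℝ} (hy : 0 < y) :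
    ‖∏ m ∈ blk D n h, (tpc c n y + m)‖ = exp (∑ m ∈ blk D n h, fl y ((m : ℝ) - (2 * c + 1) * n / 2)) := by
  rw [norm_prod, exp_sum]
  exact Finset.prod_congr rfl fun m _ => norm_ptG c n hy m

theorem blk_sumG (c n h : ℕ) (hh : 2 * h ≤ D.C) (g : ℝ → ℝ) :
    ∑ m ∈ blk D n h, g ((m : ℝ) - (2 * c + 1) * n / 2) =
      ∑ i ∈ Finset.range (Nl D n h + 1), g (((h : ℝ) - (2 * c + 1) / 2) * n + i) := by
  unfold blk
  rw [← Finset.Ico_succ_right_eq_Icc, Finset.sum_Ico_eq_sum_range]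
  have h1 : Order.succ ((D.C - h) * n) - h * n = Nl D n h + 1 := by
    rw [Nat.succ_eq_succ, Nl]
    have : (D.C - h) * n = h * n + (D.C - 2 * h) * n := by
      rw [← add_mul]
      congr 1
      omega
    omega
  rw [h1]
  refine Finset.sum_congr rfl fun i _ => ?_
  congr 1
  push_cast
  ring

theorem Nl_castG (n h : ℕ) (hh : 2 * h ≤ D.C) : (Nl D n h : ℝ) = ((D.C : ℝ) - 2 * (h : ℝ)) * n := by
  unfold Nl
  rw [Nat.cast_mul, Nat.cast_sub (by omega)]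
  push_cast
  ring

/-- exponent of a pole block -/
noncomputable def gPG (c h : ℕ) (η : ℝ) : ℝ :=
  ((D.C : ℝ) - 2 * (h : ℝ)) * log ((D.C : ℝ) - 2 * (h : ℝ)) + w ((h : ℝ) - (2 * c + 1) / 2) η -
    w ((D.C : ℝ) - (h : ℝ) - (2 * c + 1) / 2) η

/-- exponent of a zero block -/
noncomputable def gMG (c h : ℕ) (η : ℝ) : ℝ :=
  ((D.C : ℝ) - 2 * (h : ℝ)) * log ((D.C : ℝ) - 2 * (h : ℝ)) - w ((2 * c + 1) / 2 - (h : ℝ)) η -
    w ((D.C : ℝ) - (h : ℝ) - (2 * c + 1) / 2) η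

/-- the exponent function -/
noncomputable def GGG (c : ℕ) (η : ℝ) : ℝ := ∑ i ∈ D.P, gPG D c (D.h i) η - ∑ i ∈ D.M, gMG D c (D.h i) η

theorem blockPG (c n h : ℕ) (hn : 2 ≤ n) (h1 : 2 * c + 1 < 2 * h) (h2 : 2 * h < D.C) {y : ℝ} (hy : 0 < y) :
    (Nl D n h).factorial / ‖∏ m ∈ blk D n h, (tpc c n y + m)‖ ≤
      exp (n * gPG D c h (y / n) + (log (D.C * (n + y + 1)) + 1)) := by
  have hn' : 0 < n := by omega
  have hn0 : (0 : ℝ) < n := by exact_mod_cast hn'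
  have hn1 : (2 : ℝ) ≤ n := by exact_mod_cast hn
  have hh1 : (2 * (c : ℝ) + 1) + 1 ≤ 2 * h := by exact_mod_cast h1
  have hh2 : 2 * (h : ℝ) < D.C := by exact_mod_cast h2
  have hNl : 1 ≤ Nl D n h := Nat.mul_pos (by omega) hn'
  have hfac : (0 : ℝ) < (Nl D n h).factorial := by exact_mod_cast Nat.factorial_pos _
  rw [norm_prod_blkG D c n h hy, blk_sumG D c n h (by omega) (fl y), ← exp_log hfac, ← exp_sub]
  apply exp_le_exp.2
  have e1 := log_fact_le (Nl D n h) hNl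
  have e2 := sum_fl_ge hy (a := ((h : ℝ) - (2 * c + 1) / 2) * n) (by nlinarith) (Nl D n h)
  have e3 : ((h : ℝ) - (2 * c + 1) / 2) * n + (Nl D n h : ℝ) = ((D.C : ℝ) - (h : ℝ) - (2 * c + 1) / 2) * n := by
    rw [Nl_castG D n h (by omega)]; ring
  rw [e3] at e2
  have hη : 0 < y / n := by positivity
  have hyn : y = y / n * n := by field_simp
  have e4 : Ph y (((D.C : ℝ) - (h : ℝ) - (2 * c + 1) / 2) * n) =
      n * w ((D.C : ℝ) - (h : ℝ) - (2 * c + 1) / 2) (y / n) +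
      n * ((D.C : ℝ) - (h : ℝ) - (2 * c + 1) / 2) * log n - ((D.C : ℝ) - (h : ℝ) - (2 * c + 1) / 2) * n := by
    rw [Ph]
    nth_rw 1 [hyn]
    rw [w_scale hn0 _ hη]
  have e5 : Ph y (((h : ℝ) - (2 * c + 1) / 2) * n) = n * w ((h : ℝ) - (2 * c + 1) / 2) (y / n) +
      n * ((h : ℝ) - (2 * c + 1) / 2) * log n - ((h : ℝ) - (2 * c + 1) / 2) * n := by
    rw [Ph]
    nth_rw 1 [hyn]
    rw [w_scale hn0 _ hη]
  rw [e4, e5] at e2
  have hpos : (0 : ℝ) < (D.C : ℝ) - 2 * (h : ℝ) := by linarith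
  have e6 : log (Nl D n h : ℝ) = log ((D.C : ℝ) - 2 * (h : ℝ)) + log n := by
    rw [Nl_castG D n h (by omega), log_mul hpos.ne' hn0.ne']
  have e7 : log ((D.C : ℝ) - 2 * (h : ℝ)) + log n ≤ log (D.C * (n + y + 1)) := by
    rw [← log_mul hpos.ne' hn0.ne']
    apply log_le_log (by positivity)
    have : (0 : ℝ) ≤ D.C := Nat.cast_nonneg _
    have hh0 : (0 : ℝ) ≤ h := Nat.cast_nonneg _
    nlinarith
  rw [e6, Nl_castG D n h (by omega)] at e1
  unfold gPG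
  linarith

theorem fl_le_logG {y : ℝ} (hy : 0 < y) {n C : ℝ} (hn : 1 ≤ n) (hC : 1 ≤ C) {u : ℝ} (hu : 0 ≤ u) (hu' : u ≤ C * n) :
    fl y u ≤ log (C * (n + y + 1)) := by
  unfold fl
  have h1 : u ^ 2 + y ^ 2 ≤ (C * (n + y + 1)) ^ 2 := by
    have h2 : y ≤ C * y := by nlinarith
    have h3 : u + y ≤ C * (n + y + 1) := by nlinarith
    nlinarith
  have h2 := log_le_log (show 0 < u ^ 2 + y ^ 2 by positivity) h1
  rw [log_pow] at h2
  push_cast at h2
  linarith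

theorem blockMG (c n h : ℕ) (hn : Odd n) (h1 : 2 * h < 2 * c + 1) (h2 : 2 * c + 1 < D.C) {y : ℝ} (hy : 0 < y) :
    ‖∏ m ∈ blk D n h, (tpc c n y + m)‖ / (Nl D n h).factorial ≤
      exp (-(n * gMG D c h (y / n)) + (2 * log (D.C * (n + y + 1)) + 2)) := by
  obtain ⟨r, hr⟩ := hn
  have hnpos : 0 < n := by omega
  have hn0 : (0 : ℝ) < n := by exact_mod_cast hnpos
  have hh1 : 2 * (h : ℝ) < 2 * c + 1 := by exact_mod_cast h1
  have hh2 : 2 * (c : ℝ) + 1 < D.C := by exact_mod_cast h2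
  have hh0 : (0 : ℝ) ≤ h := Nat.cast_nonneg h
  have hc0 : (0 : ℝ) ≤ c := Nat.cast_nonneg c
  have hn1 : (1 : ℝ) ≤ n := by exact_mod_cast hnpos
  have hC1 : (1 : ℝ) ≤ D.C := by linarith
  have hNl : 1 ≤ Nl D n h := Nat.mul_pos (by omega) hnpos
  have hfac : (0 : ℝ) < (Nl D n h).factorial := by exact_mod_cast Nat.factorial_pos _
  obtain ⟨k, hk⟩ : ∃ k : ℕ, 2 * k + 1 = (2 * c + 1 - 2 * h) * n := by
    have : Odd ((2 * c + 1 - 2 * h) * n) := by
      refine Odd.mul ?_ ⟨r, hr⟩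
      refine ⟨c - h, by omega⟩
    obtain ⟨k, hk⟩ := this
    exact ⟨k, hk.symm⟩
  obtain ⟨j, hj⟩ : ∃ j : ℕ, 2 * j + 1 = (2 * D.C - 2 * h - (2 * c + 1)) * n := by
    have : Odd ((2 * D.C - 2 * h - (2 * c + 1)) * n) := by
      refine Odd.mul ?_ ⟨r, hr⟩
      refine ⟨D.C - h - c - 1, by omega⟩
    obtain ⟨k, hk⟩ := this
    exact ⟨k, hk.symm⟩
  have hkr : (1 / 2 + (k : ℝ)) = ((2 * c + 1) / 2 - (h : ℝ)) * n := by
    have : ((2 * k + 1 : ℕ) : ℝ) = (((2 * c + 1 - 2 * h) * n : ℕ) : ℝ) := by rw [hk]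
    rw [Nat.cast_mul, Nat.cast_sub (by omega)] at this
    push_cast at this
    linarith
  have hjr : (1 / 2 + (j : ℝ)) = ((D.C : ℝ) - (h : ℝ) - (2 * c + 1) / 2) * n := by
    have : ((2 * j + 1 : ℕ) : ℝ) = (((2 * D.C - 2 * h - (2 * c + 1)) * n : ℕ) : ℝ) := by rw [hj]
    rw [Nat.cast_mul, Nat.cast_sub (by omega), Nat.cast_sub (by omega)] at this
    push_cast at this
    linarith
  have hcount : Nl D n h + 1 = (k + 1) + (j + 1) := by
    have h3 : (Nl D n h : ℝ) = (k : ℝ) + j + 1 := by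
      rw [Nl_castG D n h (by omega)]
      linarith
    have h4 : Nl D n h = k + j + 1 := by exact_mod_cast h3
    omega
  rw [norm_prod_blkG D c n h hy, blk_sumG D c n h (by omega) (fl y), ← exp_log hfac, ← exp_sub]
  apply exp_le_exp.2
  have e1 := log_fact_ge (Nl D n h) hNl
  have e2 := sum_fl_le hy k j
  rw [hcount]
  have e0 : ((h : ℝ) - (2 * c + 1) / 2) * n = -(1 / 2 + (k : ℝ)) := by rw [hkr]; ring
  rw [e0]
  rw [hkr, hjr] at e2
  rw [hkr]
  have hη : 0 < y / n := by positivity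
  have hyn : y = y / n * n := by field_simp
  have e4 : Ph y (((D.C : ℝ) - (h : ℝ) - (2 * c + 1) / 2) * n) =
      n * w ((D.C : ℝ) - (h : ℝ) - (2 * c + 1) / 2) (y / n) +
      n * ((D.C : ℝ) - (h : ℝ) - (2 * c + 1) / 2) * log n - ((D.C : ℝ) - (h : ℝ) - (2 * c + 1) / 2) * n := by
    rw [Ph]
    nth_rw 1 [hyn]
    rw [w_scale hn0 _ hη]
  have e5 : Ph y (((2 * c + 1) / 2 - (h : ℝ)) * n) = n * w ((2 * c + 1) / 2 - (h : ℝ)) (y / n) +
      n * ((2 * c + 1) / 2 - (h : ℝ)) * log n - ((2 * c + 1) / 2 - (h : ℝ)) * n := by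
    rw [Ph]
    nth_rw 1 [hyn]
    rw [w_scale hn0 _ hη]
  have e6 : log (Nl D n h : ℝ) = log ((D.C : ℝ) - 2 * (h : ℝ)) + log n := by
    rw [Nl_castG D n h (by omega), log_mul (by linarith) hn0.ne']
  have e7 := fl_le_logG hy hn1 hC1 (u := ((2 * c + 1) / 2 - (h : ℝ)) * n) (by
    have : 0 ≤ (2 * (c : ℝ) + 1) / 2 - h := by linarith
    positivity) (by
    have : (2 * (c : ℝ) + 1) / 2 - h ≤ D.C := by linarith
    exact mul_le_mul_of_nonneg_right this hn0.le)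
  have e8 := fl_le_logG hy hn1 hC1 (u := ((D.C : ℝ) - (h : ℝ) - (2 * c + 1) / 2) * n) (by
    have : 0 ≤ (D.C : ℝ) - h - (2 * (c : ℝ) + 1) / 2 := by linarith
    positivity) (by
    have : (D.C : ℝ) - h - (2 * (c : ℝ) + 1) / 2 ≤ D.C := by linarith
    exact mul_le_mul_of_nonneg_right this hn0.le)
  rw [e4, e5] at e2
  rw [e6, Nl_castG D n h (by omega)] at e1
  unfold gMG
  linarith

theorem norm_RG (n : ℕ) (t : ℂ) : ‖R D n t‖ = ‖2 * t + D.C * n‖ *
    (∏ i ∈ D.P, ((Nl D n (D.h i)).factorial / ‖∏ m ∈ blk D n (D.h i), (t + m)‖ : ℝ)) *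
    ∏ i ∈ D.M, (‖∏ m ∈ blk D n (D.h i), (t + m)‖ / (Nl D n (D.h i)).factorial : ℝ) := by
  unfold R K
  rw [norm_div, norm_mul, norm_mul, norm_prod, norm_prod, Finset.prod_div_distrib, Finset.prod_div_distrib]
  have h1 : ‖(((∏ i ∈ D.P, ((Nl D n (D.h i)).factorial : ℚ)) / ∏ i ∈ D.M, ((Nl D n (D.h i)).factorial : ℚ) : ℚ) : ℂ)‖ =
      (∏ i ∈ D.P, ((Nl D n (D.h i)).factorial : ℝ)) / ∏ i ∈ D.M, ((Nl D n (D.h i)).factorial : ℝ) := by
    rw [Complex.norm_ratCast, abs_of_nonneg]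
    · push_cast
      rfl
    · apply Rat.cast_nonneg.2
      positivity
  rw [h1]
  ring

/-- constant -/
noncomputable def CRG : ℝ := 3 * D.C * (D.C * exp 1) ^ (D.P.card + 2 * D.M.card)

/-- exponent -/
def ARG : ℕ := 1 + (D.P.card + 2 * D.M.card)

theorem norm_linG (c n : ℕ) (h2 : 2 * c + 1 < D.C) {y : ℝ} (hy : 0 < y) :
    ‖2 * tpc c n y + D.C * n‖ ≤ 3 * (D.C * (n + y + 1)) := by
  have hh2 : 2 * (c : ℝ) + 1 < D.C := by exact_mod_cast h2
  have hc0 : (0 : ℝ) ≤ c := Nat.cast_nonneg c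
  have hn0 : (0 : ℝ) ≤ n := Nat.cast_nonneg n
  have h1 : 2 * tpc c n y + D.C * n = (((D.C - (2 * c + 1)) * n : ℝ) : ℂ) + ((2 * y : ℝ) : ℂ) * Complex.I := by
    unfold tpc
    push_cast
    ring
  rw [h1]
  refine (norm_add_le _ _).trans ?_
  have h3 : 0 ≤ ((D.C : ℝ) - (2 * c + 1)) * n := mul_nonneg (by linarith) hn0
  rw [norm_mul, Complex.norm_I, Complex.norm_real, Complex.norm_real, mul_one, norm_of_nonneg h3,
    norm_of_nonneg (by positivity)]
  nlinarith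

theorem R_le_GGG (c n : ℕ) (hn : Odd n) (hn2 : 2 ≤ n) (hP1 : ∀ i ∈ D.P, 2 * c + 1 < 2 * D.h i)
    (hP2 : ∀ i ∈ D.P, 2 * D.h i < D.C) (hM : ∀ i ∈ D.M, 2 * D.h i < 2 * c + 1) (hC : 2 * c + 1 < D.C)
    {y : ℝ} (hy : 0 < y) :
    ‖R D n (tpc c n y)‖ ≤ CRG D * (n + y + 1) ^ ARG D * exp (n * GGG D c (y / n)) := by
  have hnpos : 0 < n := hn.pos
  have hn0 : (0 : ℝ) < n := by exact_mod_cast hnpos
  have hC1 : (1 : ℝ) ≤ D.C := by exact_mod_cast (by omega : 1 ≤ D.C)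
  rw [norm_RG]
  set X : ℝ := D.C * (n + y + 1) with hX
  have hX1 : 1 ≤ X := by rw [hX]; nlinarith
  have hX0 : 0 < X := by linarith
  have hPb : ∏ i ∈ D.P, ((Nl D n (D.h i)).factorial / ‖∏ m ∈ blk D n (D.h i), (tpc c n y + m)‖ : ℝ) ≤
      ∏ i ∈ D.P, exp (n * gPG D c (D.h i) (y / n) + (log X + 1)) := by
    refine Finset.prod_le_prod (fun h _ => by positivity) fun i hi => ?_
    exact blockPG D c n (D.h i) hn2 (hP1 i hi) (hP2 i hi) hy
  have hMb : ∏ i ∈ D.M, (‖∏ m ∈ blk D n (D.h i), (tpc c n y + m)‖ / (Nl D n (D.h i)).factorial : ℝ) ≤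
      ∏ i ∈ D.M, exp (-(n * gMG D c (D.h i) (y / n)) + (2 * log X + 2)) := by
    refine Finset.prod_le_prod (fun h _ => by positivity) fun i hi => ?_
    exact blockMG D c n (D.h i) hn (hM i hi) hC hy
  rw [← exp_sum, Finset.sum_add_distrib, Finset.sum_const, ← Finset.mul_sum] at hPb
  rw [← exp_sum, Finset.sum_add_distrib, Finset.sum_const, Finset.sum_neg_distrib, ← Finset.mul_sum] at hMb
  have hlin := norm_linG D c n hC hy
  rw [← hX] at hlin
  have hP0 : 0 ≤ ∏ i ∈ D.P, ((Nl D n (D.h i)).factorial / ‖∏ m ∈ blk D n (D.h i), (tpc c n y + m)‖ : ℝ) :=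
    Finset.prod_nonneg fun h _ => by positivity
  have hM0 : 0 ≤ ∏ i ∈ D.M, (‖∏ m ∈ blk D n (D.h i), (tpc c n y + m)‖ / (Nl D n (D.h i)).factorial : ℝ) :=
    Finset.prod_nonneg fun h _ => by positivity
  calc _ ≤ (3 * X) * exp (n * ∑ i ∈ D.P, gPG D c (D.h i) (y / n) + D.P.card • (log X + 1)) *
        exp (-(n * ∑ i ∈ D.M, gMG D c (D.h i) (y / n)) + D.M.card • (2 * log X + 2)) := by
        gcongr
    _ = (3 * X) * exp (((D.P.card + 2 * D.M.card : ℕ) : ℝ) * (log X + 1)) * exp (n * GGG D c (y / n)) := by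
        rw [mul_assoc (3 * X), mul_assoc (3 * X), ← exp_add, ← exp_add, GGG]
        congr 2
        simp only [nsmul_eq_mul]
        push_cast
        ring
    _ = (3 * X) * (X * exp 1) ^ (D.P.card + 2 * D.M.card) * exp (n * GGG D c (y / n)) := by
        rw [exp_nat_mul, exp_add, exp_log hX0]
    _ = CRG D * (n + y + 1) ^ ARG D * exp (n * GGG D c (y / n)) := by
        rw [hX]
        unfold CRG ARG
        rw [pow_add ((n : ℝ) + y + 1) 1, pow_one]
        have : (D.C * (n + y + 1) * exp 1) ^ (D.P.card + 2 * D.M.card) =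
            (D.C * exp 1) ^ (D.P.card + 2 * D.M.card) * (n + y + 1) ^ (D.P.card + 2 * D.M.card) := by
          rw [← mul_pow]
          ring
        rw [this]
        ring

theorem R_denom_neG (c n : ℕ) (hn : 0 < n) (hP1 : ∀ i ∈ D.P, 2 * c + 1 < 2 * D.h i) (y : ℝ) :
    (∏ i ∈ D.P, ∏ m ∈ blk D n (D.h i), (tpc c n y + m)) ≠ 0 := by
  refine Finset.prod_ne_zero_iff.2 fun i hi => Finset.prod_ne_zero_iff.2 fun m hm h0 => ?_
  have h1 := hP1 i hi
  have h2 := Finset.mem_Icc.1 hm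
  have h3 : (tpc c n y + m).re = (m : ℝ) - (2 * c + 1) * n / 2 := by
    unfold tpc
    simp
    ring
  rw [h0, Complex.zero_re] at h3
  have h5 : (D.h i : ℝ) * n ≤ m := by exact_mod_cast h2.1
  have h6 : (0 : ℝ) < n := by exact_mod_cast hn
  have h7 : 2 * (c : ℝ) + 1 < 2 * D.h i := by exact_mod_cast h1
  nlinarith

theorem continuous_tpc (c n : ℕ) : Continuous (tpc c n) := by
  unfold tpc
  fun_prop

theorem continuous_RG (c n : ℕ) (hn : 0 < n) (hP1 : ∀ i ∈ D.P, 2 * c + 1 < 2 * D.h i) :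
    Continuous fun y => R D n (tpc c n y) := by
  have htp := continuous_tpc c n
  unfold R
  refine Continuous.div ?_ ?_ (R_denom_neG D c n hn hP1)
  · refine Continuous.mul (by fun_prop) ?_
    exact continuous_finsetProd _ fun h _ => continuous_finsetProd _ fun m _ => by fun_prop
  · exact continuous_finsetProd _ fun h _ => continuous_finsetProd _ fun m _ => by fun_prop

theorem R_conjG (c n : ℕ) (y : ℝ) : R D n (tpc c n (-y)) = (starRingEnd ℂ) (R D n (tpc c n y)) := by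
  have h1 : tpc c n (-y) = (starRingEnd ℂ) (tpc c n y) := by
    unfold tpc
    rw [map_add, map_mul, Complex.conj_ofReal, Complex.conj_ofReal, Complex.conj_I]
    push_cast
    ring
  rw [h1]
  unfold R
  simp only [map_div₀, map_mul, map_prod, map_add, map_natCast, map_ofNat]
  congr 3
  rw [← Complex.ofReal_ratCast, Complex.conj_ofReal]

/-- Size of `R D n` on the line `Re t = -(2c+1) n / 2`, from the one variable inequality. -/
theorem R_boundG (c : ℕ) (hP1 : ∀ i ∈ D.P, 2 * c + 1 < 2 * D.h i)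
    (hP2 : ∀ i ∈ D.P, 2 * D.h i < D.C) (hM : ∀ i ∈ D.M, 2 * D.h i < 2 * c + 1) (hC : 2 * c + 1 < D.C)
    {al d : ℝ} (hineq : ∀ η : ℝ, 0 < η → GGG D c η - 2 * π * η ≤ -al - d * η)
    (n : ℕ) (hn : Odd n) (hn2 : 2 ≤ n) (y : ℝ) :
    ‖R D n (-((2 * c + 1) * (n : ℂ) / 2) + y * Complex.I)‖ ≤
      CRG D * (n + |y| + 1) ^ ARG D * exp (-al * n + 2 * π * |y| - d * |y|) := by
  have hnpos : 0 < n := hn.pos
  have hn0 : (0 : ℝ) < n := by exact_mod_cast hnpos
  have hCpos : 0 ≤ CRG D := by unfold CRG; positivity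
  have e : (-((2 * c + 1) * (n : ℂ) / 2) + y * Complex.I : ℂ) = tpc c n y := by
    unfold tpc
    push_cast
    ring
  rw [e]
  have hpos : ∀ y : ℝ, 0 < y → ‖R D n (tpc c n y)‖ ≤
      CRG D * (n + y + 1) ^ ARG D * exp (-al * n + 2 * π * y - d * y) := by
    intro y hy
    refine (R_le_GGG D c n hn hn2 hP1 hP2 hM hC hy).trans ?_
    have h1 := hineq (y / n) (by positivity)
    have h2 := mul_le_mul_of_nonneg_left h1 hn0.le
    have h3 : n * (GGG D c (y / n) - 2 * π * (y / n)) = n * GGG D c (y / n) - 2 * π * y := by field_simp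
    have h4 : n * (-al - d * (y / n)) = -al * n - d * y := by field_simp
    rw [h3, h4] at h2
    gcongr
    linarith
  rcases lt_trichotomy y 0 with h | h | h
  · have h1 := hpos (-y) (by linarith)
    rw [R_conjG, RCLike.norm_conj] at h1
    rwa [abs_of_neg h]
  · subst h
    have hc : Continuous fun y : ℝ => ‖R D n (tpc c n y)‖ := (continuous_RG D c n hnpos hP1).norm
    have hc2 : Continuous fun y : ℝ => CRG D * (n + y + 1) ^ ARG D * exp (-al * n + 2 * π * y - d * y) := by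
      fun_prop
    have h1 := ContinuousWithinAt.closure_le (s := Ioi (0 : ℝ)) (x := 0) (by rw [closure_Ioi]; simp)
      hc.continuousWithinAt hc2.continuousWithinAt (fun y hy => hpos y hy)
    simpa using h1
  · rw [abs_of_pos h]
    exact hpos y h

end Pool.Agent.OddZetaG
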