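import Pool.Agent.OddZetaG.RealDefs
import Pool.Agent.OddZetaG.SizeRG

/-!
# Size of `R D n` on circles of radius `1/2` around integers `t > - m0 n`   (module RS1a)

Seat: helper55.
-/

set_option autoImplicit false

open Finset

namespace Pool.Agent.OddZetaG

open Pool.Agent.OddZeta (log_fact_le log_fact_ge)

/-- lower factorial bound -/
theorem fact_geR (m : ℕ) : Real.exp (m * Real.log m - m) ≤ m.factorial := by
  rcases Nat.eq_zero_or_pos m with h | h
  · subst h; simp
  · have h1 := log_fact_ge m h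
    have h2 : (0 : ℝ) < m.factorial := by exact_mod_cast Nat.factorial_pos m
    calc _ ≤ Real.exp (Real.log (m.factorial : ℝ)) := Real.exp_le_exp.2 h1
      _ = _ := Real.exp_log h2

/-- upper factorial bound -/
theorem fact_leR (m : ℕ) {Y : ℝ} (hY : (m : ℝ) + 1 ≤ Y) :
    (m.factorial : ℝ) ≤ Real.exp (m * Real.log m - m + (Real.log Y + 1)) := by
  have hY1 : 1 ≤ Y := by have : (0 : ℝ) ≤ m := Nat.cast_nonneg m; linarith
  rcases Nat.eq_zero_or_pos m with h | h
  · subst h
    simp only [Nat.factorial_zero, Nat.cast_one, Nat.cast_zero, zero_mul, sub_zero, zero_add]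
    have : 0 ≤ Real.log Y + 1 := by have := Real.log_nonneg hY1; linarith
    simpa using Real.one_le_exp this
  · have h1 := log_fact_le m h
    have hm : (0 : ℝ) < m := by exact_mod_cast h
    have h2 : (0 : ℝ) < m.factorial := by exact_mod_cast Nat.factorial_pos m
    have h3 : Real.log m ≤ Real.log Y := Real.log_le_log hm (by linarith)
    rw [← Real.log_le_iff_le_exp h2]
    linarith

/-- `n gR` in terms of factorial exponents -/
theorem n_gR (C h : ℕ) (hh : 2 * h < C) (n : ℕ) (hn : 0 < n) (t : ℝ) :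
    (n : ℝ) * gR C h (t / n) = ((C - 2 * h : ℕ) * n : ℝ) * Real.log ((C - 2 * h : ℕ) * n : ℝ) -
      phi (((C : ℝ) - h) * n + t) + phi (h * n + t) := by
  have hn0 : (0 : ℝ) < n := by exact_mod_cast hn
  have key : ∀ x : ℝ, (n : ℝ) * phi (x + t / n) = phi (x * n + t) - (x * n + t) * Real.log n := by
    intro x
    unfold phi
    have e : x + t / n = (x * n + t) / n := by field_simp
    rw [e]
    rcases eq_or_ne (x * n + t) 0 with h0 | h0
    · rw [h0]; simp
    · rw [Real.log_div h0 hn0.ne']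
      field_simp
  have hc : ((C - 2 * h : ℕ) : ℝ) = (C : ℝ) - 2 * h := by
    rw [Nat.cast_sub hh.le]; push_cast; ring
  have hc0 : (0 : ℝ) < (C : ℝ) - 2 * h := by
    have : ((2 * h : ℕ) : ℝ) < C := by exact_mod_cast hh
    push_cast at this; linarith
  unfold gR
  rw [hc, Real.log_mul hc0.ne' hn0.ne']
  have e1 := key ((C : ℝ) - h)
  have e2 := key (h : ℝ)
  rw [mul_add, mul_sub, e1, e2]
  ring

variable (D : Dat)

theorem prod_blkR (n h : ℕ) (hh : 2 * h ≤ D.C) (f : ℕ → ℝ) :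
    ∏ m ∈ blk D n h, f m = ∏ i ∈ range (Nl D n h + 1), f (h * n + i) := by
  have h1 : blk D n h = Finset.Ico (h * n) ((D.C - h) * n + 1) := by
    ext m
    simp only [blk, Finset.mem_Icc, Finset.mem_Ico]
    omega
  have h2 : (D.C - h) * n + 1 - h * n = Nl D n h + 1 := by
    have : (D.C - h) * n = h * n + (D.C - 2 * h) * n := by
      rw [← Nat.add_mul]
      congr 1
      omega
    unfold Nl
    omega
  rw [h1, Finset.prod_Ico_eq_prod_range, h2]

theorem asc_cast (a k : ℕ) : ∏ i ∈ range k, ((a : ℝ) + 1 + i) =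
    ((a + k).factorial : ℝ) / a.factorial := by
  have h1 := Nat.factorial_mul_ascFactorial a k
  have h2 := Nat.ascFactorial_eq_prod_range (a + 1) k
  have h3 : (a.factorial : ℝ) ≠ 0 := by exact_mod_cast (Nat.factorial_pos a).ne'
  rw [eq_div_iff h3, ← h1, h2]
  push_cast
  ring

/-- pole blocks -/
theorem blockP_real (n h : ℕ) (t : ℤ) (z : ℂ) (hn : 0 < n) (hh : 2 * h < D.C)
    (hz : ‖z - t‖ = 1 / 2) (ht : 2 ≤ (h * n : ℤ) + t) {Y : ℝ}
    (hY1 : (Nl D n h : ℝ) + 1 ≤ Y) (hY2 : ((D.C : ℝ) - h) * n + t + 1 ≤ Y) :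
    ((Nl D n h).factorial : ℝ) / ‖∏ m ∈ blk D n h, (z + (m : ℂ))‖ ≤
      Real.exp (n * gR D.C h ((t : ℝ) / n) + 3 * (Real.log Y + 1)) := by
  obtain ⟨a0, ha0⟩ : ∃ a0 : ℕ, (h * n : ℤ) + t = a0 + 2 := ⟨((h * n : ℤ) + t - 2).toNat, by omega⟩
  have ha0R : (h : ℝ) * n + t = a0 + 2 := by exact_mod_cast ha0
  set N := Nl D n h with hN
  have hNc : (N : ℝ) = ((D.C - 2 * h : ℕ) : ℝ) * n := by rw [hN]; unfold Nl; push_cast; ring
  have hsub : ((D.C - 2 * h : ℕ) : ℝ) = (D.C : ℝ) - 2 * h := by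
    rw [Nat.cast_sub hh.le]; push_cast; ring
  have hb : ((D.C : ℝ) - h) * n + t = a0 + 2 + N := by
    rw [hNc, hsub]
    linear_combination ha0R
  -- product
  have hprod : ((a0 + (N + 1)).factorial : ℝ) / a0.factorial ≤ ‖∏ m ∈ blk D n h, (z + (m : ℂ))‖ := by
    rw [norm_prod, prod_blkR D n h hh.le (fun m => ‖z + (m : ℂ)‖), ← asc_cast]
    refine Finset.prod_le_prod (fun i _ => by positivity) fun i _ => ?_
    have h1 : ‖(t : ℂ) + ((h * n + i : ℕ) : ℂ)‖ - ‖z - t‖ ≤ ‖z + ((h * n + i : ℕ) : ℂ)‖ := by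
      have := norm_sub_norm_le ((t : ℂ) + ((h * n + i : ℕ) : ℂ)) (-(z - t))
      rw [norm_neg] at this
      refine this.trans (le_of_eq ?_)
      congr 1
      ring
    have h2 : ‖(t : ℂ) + ((h * n + i : ℕ) : ℂ)‖ = a0 + 2 + i := by
      have e : (t : ℂ) + ((h * n + i : ℕ) : ℂ) = ((a0 + 2 + i : ℕ) : ℂ) := by
        push_cast
        have : ((h : ℂ) * n + t) = a0 + 2 := by exact_mod_cast ha0
        linear_combination this
      rw [e, Complex.norm_natCast]
      push_cast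
      ring
    rw [h2, hz] at h1
    linarith
  have hfac : (0 : ℝ) < ((a0 + (N + 1)).factorial : ℝ) / a0.factorial := by positivity
  have hlog : 0 ≤ Real.log Y + 1 := by
    have : (0 : ℝ) ≤ N := Nat.cast_nonneg N
    have := Real.log_nonneg (show (1 : ℝ) ≤ Y by linarith)
    linarith
  have ha0' : (0 : ℝ) ≤ a0 := Nat.cast_nonneg a0
  have hN0 : (0 : ℝ) ≤ N := Nat.cast_nonneg N
  rw [hb] at hY2
  have hY0 : 0 < Y := by linarith
  -- factorial bounds
  have b1 := fact_leR N hY1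
  have b2 := fact_leR (a0 + 2) (Y := Y) (by push_cast; linarith)
  have b3 := fact_geR (a0 + 2 + N)
  have b4 : (a0.factorial : ℝ) ≤ (a0 + 2).factorial := by
    exact_mod_cast Nat.factorial_le (by omega)
  have b5 : ((a0 + 2 + N).factorial : ℝ) = (a0 + 2 + N) * (a0 + (N + 1)).factorial := by
    rw [show a0 + 2 + N = (a0 + (N + 1)) + 1 by ring, Nat.factorial_succ]
    push_cast
    ring
  have b6 : (a0 : ℝ) + 2 + N ≤ Real.exp (Real.log Y + 1) := by
    rw [Real.exp_add, Real.exp_log hY0]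
    have := Real.add_one_le_exp (1 : ℝ)
    nlinarith
  calc (N.factorial : ℝ) / ‖∏ m ∈ blk D n h, (z + (m : ℂ))‖
      ≤ N.factorial / (((a0 + (N + 1)).factorial : ℝ) / a0.factorial) :=
        div_le_div_of_nonneg_left (by positivity) hfac hprod
    _ = N.factorial * a0.factorial * (a0 + 2 + N) / (a0 + 2 + N).factorial := by
        rw [b5]
        have h1 : ((a0 + (N + 1)).factorial : ℝ) ≠ 0 := by positivity
        have h2 : (a0.factorial : ℝ) ≠ 0 := by positivity
        have h3 : (a0 : ℝ) + 2 + N ≠ 0 := by positivity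
        field_simp
    _ ≤ Real.exp (N * Real.log N - N + (Real.log Y + 1)) *
        Real.exp (((a0 + 2 : ℕ) : ℝ) * Real.log ((a0 + 2 : ℕ) : ℝ) - ((a0 + 2 : ℕ) : ℝ) + (Real.log Y + 1)) *
        Real.exp (Real.log Y + 1) /
        Real.exp (((a0 + 2 + N : ℕ) : ℝ) * Real.log ((a0 + 2 + N : ℕ) : ℝ) - ((a0 + 2 + N : ℕ) : ℝ)) := by
        have := b4.trans b2
        gcongr
    _ = Real.exp (n * gR D.C h ((t : ℝ) / n) + 3 * (Real.log Y + 1)) := by
        rw [← Real.exp_add, ← Real.exp_add, ← Real.exp_sub, n_gR D.C h hh n hn, hb, ha0R, ← hNc]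
        unfold phi
        congr 1
        push_cast
        ring

/-- zero blocks -/
theorem blockM_real (n h : ℕ) (t : ℤ) (z : ℂ) (hn : 0 < n) (hh : 2 * h < D.C)
    (hz : ‖z - t‖ = 1 / 2) (ht : 0 ≤ ((D.C : ℤ) - h) * n + t) {Y : ℝ}
    (hY1 : (Nl D n h : ℝ) + 1 ≤ Y) (hY2 : ((D.C : ℝ) - h) * n + |(t : ℝ)| + 1 ≤ Y) :
    ‖∏ m ∈ blk D n h, (z + (m : ℂ))‖ / ((Nl D n h).factorial : ℝ) ≤
      Real.exp (-(n * gR D.C h ((t : ℝ) / n)) + 4 * (Real.log Y + 1)) := by
  set N := Nl D n h with hN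
  have hNc : (N : ℝ) = ((D.C - 2 * h : ℕ) : ℝ) * n := by rw [hN]; unfold Nl; push_cast; ring
  have hsub : ((D.C - 2 * h : ℕ) : ℝ) = (D.C : ℝ) - 2 * h := by
    rw [Nat.cast_sub hh.le]; push_cast; ring
  have hsubZ : ((D.C - 2 * h : ℕ) : ℤ) = (D.C : ℤ) - 2 * h := by
    rw [Nat.cast_sub hh.le]; push_cast; ring
  have hNZ : (N : ℤ) = ((D.C : ℤ) - 2 * h) * n := by
    rw [hN]; unfold Nl; push_cast [hsubZ]; ring
  have hN0 : (0 : ℝ) ≤ N := Nat.cast_nonneg N
  have hY0 : 0 < Y := by linarith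
  have hY1' : 1 ≤ Y := by linarith
  have hlog : 0 ≤ Real.log Y := Real.log_nonneg hY1'
  have habs1 := le_abs_self (t : ℝ)
  have habs2 := neg_le_abs (t : ℝ)
  have hhR : (0 : ℝ) ≤ (h : ℝ) * n := by positivity
  have hChR : 0 ≤ ((D.C : ℝ) - h) * n := by
    have : ((2 * h : ℕ) : ℝ) < D.C := by exact_mod_cast hh
    push_cast at this
    have h0 : (0 : ℝ) ≤ h := Nat.cast_nonneg h
    have h1 : (0 : ℝ) ≤ n := Nat.cast_nonneg n
    nlinarith
  have hterm : ∀ i : ℕ, ‖z + ((h * n + i : ℕ) : ℂ)‖ ≤ |(h : ℝ) * n + t + i| + 1 := by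
    intro i
    have h1 : z + ((h * n + i : ℕ) : ℂ) = (z - t) + (((h : ℝ) * n + t + i : ℝ) : ℂ) := by
      push_cast
      ring
    rw [h1]
    refine (norm_add_le _ _).trans ?_
    rw [hz, Complex.norm_real, Real.norm_eq_abs]
    linarith
  have hprod1 : ‖∏ m ∈ blk D n h, (z + (m : ℂ))‖ ≤ ∏ i ∈ range (N + 1), (|(h : ℝ) * n + t + i| + 1) := by
    rw [norm_prod, prod_blkR D n h hh.le (fun m => ‖z + (m : ℂ)‖)]
    exact Finset.prod_le_prod (fun i _ => norm_nonneg _) fun i _ => hterm i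
  have hfg := fact_geR N
  have b6 : ∀ x : ℝ, x ≤ Y → x ≤ Real.exp (Real.log Y + 1) := by
    intro x hx
    rw [Real.exp_add, Real.exp_log hY0]
    have := Real.add_one_le_exp (1 : ℝ)
    nlinarith
  rcases le_or_gt 0 ((h * n : ℤ) + t) with hpos | hneg
  · obtain ⟨a, ha⟩ : ∃ a : ℕ, (h * n : ℤ) + t = a := ⟨((h * n : ℤ) + t).toNat, by omega⟩
    have haR : (h : ℝ) * n + t = a := by exact_mod_cast ha
    have hb : ((D.C : ℝ) - h) * n + t = ((a + N : ℕ) : ℝ) := by
      push_cast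
      rw [hNc, hsub]
      linear_combination haR
    have haN : ((a + N : ℕ) : ℝ) + 1 ≤ Y := by rw [← hb]; linarith
    have e1 : ∏ i ∈ range (N + 1), (|(h : ℝ) * n + t + i| + 1) =
        ((a + (N + 1)).factorial : ℝ) / a.factorial := by
      rw [← asc_cast]
      refine Finset.prod_congr rfl fun i _ => ?_
      rw [haR, abs_of_nonneg (by positivity)]
      ring
    have e2 : ((a + (N + 1)).factorial : ℝ) = (((a + N : ℕ) : ℝ) + 1) * (a + N).factorial := by
      rw [← Nat.add_assoc, Nat.factorial_succ]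
      push_cast
      ring
    have b1 := fact_leR (a + N) haN
    have b2 := fact_geR a
    have b3 := b6 _ haN
    have hNf : (0 : ℝ) < N.factorial := by positivity
    calc ‖∏ m ∈ blk D n h, (z + (m : ℂ))‖ / (N.factorial : ℝ)
        ≤ ((((a + N : ℕ) : ℝ) + 1) * (a + N).factorial / a.factorial) / N.factorial := by
          rw [← e2, ← e1]
          gcongr
      _ ≤ (Real.exp (Real.log Y + 1) * Real.exp (((a + N : ℕ) : ℝ) * Real.log ((a + N : ℕ) : ℝ) -
            ((a + N : ℕ) : ℝ) + (Real.log Y + 1)) / Real.exp ((a : ℝ) * Real.log a - a)) /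
            Real.exp ((N : ℝ) * Real.log N - N) := by
          gcongr
      _ = Real.exp (-(n * gR D.C h ((t : ℝ) / n)) + 2 * (Real.log Y + 1)) := by
          rw [← Real.exp_add, ← Real.exp_sub, ← Real.exp_sub, n_gR D.C h hh n hn, hb, haR, ← hNc]
          unfold phi
          congr 1
          push_cast
          ring
      _ ≤ _ := Real.exp_le_exp.2 (by linarith)
  · obtain ⟨q, hq⟩ : ∃ q : ℕ, (h * n : ℤ) + t = -(q : ℤ) := ⟨(-((h * n : ℤ) + t)).toNat, by omega⟩
    obtain ⟨b, hbZ⟩ : ∃ b : ℕ, ((D.C : ℤ) - h) * n + t = b := ⟨(((D.C : ℤ) - h) * n + t).toNat, by omega⟩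
    have hqR : (h : ℝ) * n + t = -q := by exact_mod_cast hq
    have hbR : ((D.C : ℝ) - h) * n + t = b := by exact_mod_cast hbZ
    have hNqb : N = q + b := by
      have : (N : ℤ) = q + b := by rw [hNZ]; linear_combination hbZ - hq
      exact_mod_cast this
    have hqY : (q : ℝ) + 1 ≤ Y := by
      have : (q : ℝ) = -t - h * n := by linear_combination hqR
      linarith
    have hbY : (b : ℝ) + 1 ≤ Y := by rw [← hbR]; linarith
    have e1 : ∏ i ∈ range (N + 1), (|(h : ℝ) * n + t + i| + 1) =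
        ((q + 1).factorial : ℝ) * (b + 1).factorial := by
      rw [hNqb, Nat.add_assoc, Finset.prod_range_add]
      congr 1
      · rw [← Finset.prod_range_reflect]
        have h1 := asc_cast 1 q
        rw [Nat.factorial_one, Nat.cast_one, div_one, Nat.add_comm 1 q] at h1
        rw [← h1]
        refine Finset.prod_congr rfl fun i hi => ?_
        rw [Finset.mem_range] at hi
        have hc : ((q - 1 - i : ℕ) : ℝ) = (q : ℝ) - 1 - i := by
          rw [Nat.cast_sub (by omega), Nat.cast_sub (by omega)]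
          norm_num
        rw [hc, hqR]
        have h3 : -(q : ℝ) + ((q : ℝ) - 1 - i) = -(1 + i) := by ring
        rw [h3, abs_neg, abs_of_nonneg (by positivity)]
        ring
      · have h1 := asc_cast 0 (b + 1)
        rw [Nat.factorial_zero, Nat.cast_one, div_one, Nat.zero_add] at h1
        rw [← h1]
        refine Finset.prod_congr rfl fun i _ => ?_
        rw [hqR]
        push_cast
        have h3 : -(q : ℝ) + ((q : ℝ) + i) = i := by ring
        rw [h3, abs_of_nonneg (Nat.cast_nonneg i)]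
        ring
    have e2 : ((q + 1).factorial : ℝ) = ((q : ℝ) + 1) * q.factorial := by
      rw [Nat.factorial_succ]; push_cast; ring
    have e3 : ((b + 1).factorial : ℝ) = ((b : ℝ) + 1) * b.factorial := by
      rw [Nat.factorial_succ]; push_cast; ring
    have b1 := fact_leR q hqY
    have b2 := fact_leR b hbY
    have b3 := b6 _ hqY
    have b4 := b6 _ hbY
    calc ‖∏ m ∈ blk D n h, (z + (m : ℂ))‖ / (N.factorial : ℝ)
        ≤ (((q : ℝ) + 1) * q.factorial * (((b : ℝ) + 1) * b.factorial)) / N.factorial := by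
          rw [← e2, ← e3, ← e1]
          gcongr
      _ ≤ (Real.exp (Real.log Y + 1) * Real.exp ((q : ℝ) * Real.log q - q + (Real.log Y + 1)) *
            (Real.exp (Real.log Y + 1) * Real.exp ((b : ℝ) * Real.log b - b + (Real.log Y + 1)))) /
            Real.exp ((N : ℝ) * Real.log N - N) := by
          gcongr
      _ = Real.exp (-(n * gR D.C h ((t : ℝ) / n)) + 4 * (Real.log Y + 1)) := by
          rw [← Real.exp_add, ← Real.exp_add, ← Real.exp_add, ← Real.exp_sub,
            n_gR D.C h hh n hn, hbR, hqR, ← hNc]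
          unfold phi
          rw [Real.log_neg_eq_log]
          congr 1
          have : (N : ℝ) = q + b := by exact_mod_cast hNqb
          linear_combination this

theorem R_le_real (hD : D.OK) (m0 : ℕ) (hm0 : ∀ i ∈ D.M, D.h i ≤ m0) (hm0' : m0 < D.s) :
    ∃ Cst : ℝ, ∃ A : ℕ, 0 ≤ Cst ∧ ∀ n : ℕ, 2 ≤ n → ∀ t : ℤ, -(m0 * n : ℤ) < t → ∀ z : ℂ, ‖z - t‖ = 1 / 2 →
      ‖R D n z‖ ≤ Cst * ((n : ℝ) + |(t : ℝ)| + 1) ^ A * Real.exp (n * FR D ((t : ℝ) / n)) := by
  -- `2 s < C`
  have hsC : 2 * D.s < D.C := by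
    have h1 : 0 < D.P.card := by
      have := hD.cardP; have := hD.A4; omega
    obtain ⟨i, hi⟩ := Finset.card_pos.1 h1
    have h2 := hD.P_ge i hi
    have h3 := hD.P_lt i hi
    omega
  set e : ℕ := 3 * D.P.card + 4 * D.M.card with he
  refine ⟨((D.C : ℝ) + 2) * (((D.C : ℝ) + 2) * Real.exp 1) ^ e, 1 + e, by positivity, ?_⟩
  intro n hn t ht z hz
  have hn0 : (0 : ℝ) < n := by exact_mod_cast (by omega : 0 < n)
  set X : ℝ := (n : ℝ) + |(t : ℝ)| + 1 with hX
  have habs : 0 ≤ |(t : ℝ)| := abs_nonneg _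
  have hX1 : 1 ≤ X := by rw [hX]; linarith
  have hC0 : (0 : ℝ) ≤ D.C := Nat.cast_nonneg _
  set Y : ℝ := ((D.C : ℝ) + 2) * X with hY
  have hY0 : 0 < Y := by rw [hY]; positivity
  have hnX : (n : ℝ) ≤ X := by rw [hX]; linarith
  have hYge : (D.C : ℝ) * n + |(t : ℝ)| + 1 ≤ Y := by
    have h1 : (D.C : ℝ) * n ≤ D.C * X := mul_le_mul_of_nonneg_left hnX hC0
    rw [hY, add_mul]
    rw [hX] at h1 ⊢
    linarith
  rw [norm_RG]
  have hlin : ‖2 * z + D.C * n‖ ≤ Y := by
    have h1 : 2 * z + D.C * n = 2 * (z - t) + (((2 * t + D.C * n : ℝ)) : ℂ) := by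
      push_cast
      ring
    rw [h1]
    refine (norm_add_le _ _).trans ?_
    rw [norm_mul, hz, Complex.norm_real, Real.norm_eq_abs]
    have h2 : |2 * (t : ℝ) + D.C * n| ≤ 2 * |(t : ℝ)| + D.C * n := by
      refine (abs_add_le _ _).trans ?_
      rw [abs_mul, abs_of_nonneg (show (0 : ℝ) ≤ D.C * n by positivity)]
      norm_num
    have h3 : ‖(2 : ℂ)‖ = 2 := by norm_num
    rw [h3]
    have h4 : (D.C : ℝ) * n ≤ D.C * X := mul_le_mul_of_nonneg_left hnX hC0
    rw [hY, add_mul]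
    rw [hX] at h4 ⊢
    linarith
  have hPb : ∏ i ∈ D.P, ((Nl D n (D.h i)).factorial / ‖∏ m ∈ blk D n (D.h i), (z + m)‖ : ℝ) ≤
      ∏ i ∈ D.P, Real.exp (n * gR D.C (D.h i) ((t : ℝ) / n) + 3 * (Real.log Y + 1)) := by
    refine Finset.prod_le_prod (fun h _ => by positivity) fun i hi => ?_
    have h1 := hD.P_lt i hi
    have h2 := hD.P_ge i hi
    have h3 : (0 : ℝ) ≤ D.h i := Nat.cast_nonneg _
    have h4 : (Nl D n (D.h i) : ℝ) ≤ D.C * n := by
      have : Nl D n (D.h i) ≤ D.C * n := Nat.mul_le_mul_right n (by omega)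
      exact_mod_cast this
    refine blockP_real D n (D.h i) t z (by omega) h1 hz ?_ (by linarith) ?_
    · have h5 : ((m0 : ℤ) + 1) * n ≤ D.h i * n := by
        have : ((m0 : ℤ) + 1) ≤ D.h i := by exact_mod_cast (by omega : m0 + 1 ≤ D.h i)
        exact mul_le_mul_of_nonneg_right this (by positivity)
      have h6 : (2 : ℤ) ≤ n := by exact_mod_cast hn
      nlinarith
    · have := le_abs_self (t : ℝ)
      nlinarith
  have hMb : ∏ i ∈ D.M, (‖∏ m ∈ blk D n (D.h i), (z + m)‖ / (Nl D n (D.h i)).factorial : ℝ) ≤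
      ∏ i ∈ D.M, Real.exp (-(n * gR D.C (D.h i) ((t : ℝ) / n)) + 4 * (Real.log Y + 1)) := by
    refine Finset.prod_le_prod (fun h _ => by positivity) fun i hi => ?_
    have h2 := hm0 i hi
    have h1 : 2 * D.h i < D.C := by omega
    have h3 : (0 : ℝ) ≤ D.h i := Nat.cast_nonneg _
    have h4 : (Nl D n (D.h i) : ℝ) ≤ D.C * n := by
      have : Nl D n (D.h i) ≤ D.C * n := Nat.mul_le_mul_right n (by omega)
      exact_mod_cast this
    refine blockM_real D n (D.h i) t z (by omega) h1 hz ?_ (by linarith) ?_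
    · have h5 : (m0 : ℤ) * n ≤ ((D.C : ℤ) - D.h i) * n := by
        have : (m0 : ℤ) ≤ (D.C : ℤ) - D.h i := by omega
        exact mul_le_mul_of_nonneg_right this (by positivity)
      linarith
    · nlinarith
  rw [← Real.exp_sum, Finset.sum_add_distrib, Finset.sum_const, ← Finset.mul_sum] at hPb
  rw [← Real.exp_sum, Finset.sum_add_distrib, Finset.sum_const, Finset.sum_neg_distrib,
    ← Finset.mul_sum] at hMb
  have hP0 : 0 ≤ ∏ i ∈ D.P, ((Nl D n (D.h i)).factorial / ‖∏ m ∈ blk D n (D.h i), (z + m)‖ : ℝ) :=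
    Finset.prod_nonneg fun h _ => by positivity
  have hM0 : 0 ≤ ∏ i ∈ D.M, (‖∏ m ∈ blk D n (D.h i), (z + m)‖ / (Nl D n (D.h i)).factorial : ℝ) :=
    Finset.prod_nonneg fun h _ => by positivity
  calc _ ≤ Y * Real.exp (n * ∑ i ∈ D.P, gR D.C (D.h i) ((t : ℝ) / n) +
          D.P.card • (3 * (Real.log Y + 1))) *
        Real.exp (-(n * ∑ i ∈ D.M, gR D.C (D.h i) ((t : ℝ) / n)) +
          D.M.card • (4 * (Real.log Y + 1))) := by
        gcongr
    _ = Y * Real.exp ((e : ℝ) * (Real.log Y + 1)) * Real.exp (n * FR D ((t : ℝ) / n)) := by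
        rw [mul_assoc Y, mul_assoc Y, ← Real.exp_add, ← Real.exp_add, FR, he]
        congr 2
        simp only [nsmul_eq_mul]
        push_cast
        ring
    _ = Y * (Y * Real.exp 1) ^ e * Real.exp (n * FR D ((t : ℝ) / n)) := by
        rw [Real.exp_nat_mul, Real.exp_add, Real.exp_log hY0]
    _ = _ := by
        rw [hY]
        have : (((D.C : ℝ) + 2) * X * Real.exp 1) ^ e =
            (((D.C : ℝ) + 2) * Real.exp 1) ^ e * X ^ e := by
          rw [← mul_pow]
          congr 1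
          ring
        rw [this, pow_add X 1, pow_one]
        ring

end Pool.Agent.OddZetaG
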