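import Mathlib
import Pool.Agent.OddZetaG.Defs
import Pool.Agent.OddZetaG.PartFrac

set_option autoImplicit false

/-!
# Modules B1, B2 (generic): parity, the linear form, and the shift
Seat: helper91.
-/

open Finset

namespace Pool.Agent.OddZetaG

variable {D : Dat}

/-! ### The residue sum -/

theorem sum_a_one (hD : D.OK) (n : ℕ) : ∑ l ∈ poles D n, a D n l 1 = 0 := by
  have h1 : (Nu D n).coeff (∑ k ∈ II D n, oo D n k - 1) = 0 := by
    apply Polynomial.coeff_eq_zero_of_natDegree_lt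
    have h2 := natDegree_Nu_le (D := D) n
    have h3 := sum_oo_ww hD n
    have h4 := hD.A4
    omega
  rw [pf_a hD, Polynomial.finsetSum_coeff] at h1
  rw [← h1]
  refine Finset.sum_congr rfl (fun l hl => ?_)
  have hDs : ∑ k ∈ (II D n).erase l, oo D n k + oo D n l = ∑ k ∈ II D n, oo D n k :=
    Finset.sum_erase_add _ _ (poles_subset_II n hl)
  have hA4 := hD.A4
  have hA := hD.A4
  rw [Polynomial.finsetSum_coeff, Finset.sum_eq_single 1]
  · by_cases hpos : 1 ≤ oo D n l
    · rw [mul_assoc, Polynomial.coeff_C_mul]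
      have hm : (gg l ^ (oo D n l - 1) * ∏ k ∈ (II D n).erase l, gg k ^ oo D n k).Monic :=
        ((gg_monic l).pow _).mul (monic_prod_gg _ _)
      have hd : (gg l ^ (oo D n l - 1) * ∏ k ∈ (II D n).erase l, gg k ^ oo D n k).natDegree
          = ∑ k ∈ II D n, oo D n k - 1 := by
        rw [((gg_monic l).pow _).natDegree_mul (monic_prod_gg _ _), natDegree_prod_gg,
          (gg_monic l).natDegree_pow, natDegree_gg]
        omega
      have := hm.coeff_natDegree
      rw [hd] at this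
      rw [this, mul_one]
    · rw [a_eq_zero le_rfl (by omega), map_zero, zero_mul, zero_mul, Polynomial.coeff_zero]
  · intro i hi hi1
    rw [mem_Icc] at hi
    by_cases hio : i ≤ oo D n l
    · apply Polynomial.coeff_eq_zero_of_natDegree_lt
      rw [mul_assoc]
      refine lt_of_le_of_lt (Polynomial.natDegree_C_mul_le _ _) ?_
      rw [((gg_monic l).pow _).natDegree_mul (monic_prod_gg _ _), natDegree_prod_gg,
        (gg_monic l).natDegree_pow, natDegree_gg]
      omega
    · rw [a_eq_zero hi.1 (by omega), map_zero, zero_mul, zero_mul, Polynomial.coeff_zero]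
  · intro h
    exact absurd (mem_Icc.mpr ⟨le_rfl, by omega⟩) h

/-! ### Symmetry -/

lemma mem_blk_refl {n h m : ℕ} (hh : h ≤ D.C) (hm : m ∈ blk D n h) :
    D.C * n - m ∈ blk D n h := by
  rw [mem_blk] at hm ⊢
  obtain ⟨k, hk⟩ : ∃ k, D.C = h + k := ⟨D.C - h, by omega⟩
  have hk' : D.C - h = k := by omega
  rw [hk'] at hm ⊢
  have h1 : D.C * n = h * n + k * n := by rw [hk, Nat.add_mul]
  omega

lemma mem_blk_refl_iff {n h m : ℕ} (hh : h ≤ D.C) (hm : m ≤ D.C * n) :
    D.C * n - m ∈ blk D n h ↔ m ∈ blk D n h := by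
  constructor
  · intro h1
    have := mem_blk_refl hh h1
    rwa [Nat.sub_sub_self hm] at this
  · exact mem_blk_refl hh

lemma le_of_mem_blk {n h m : ℕ} (hm : m ∈ blk D n h) : m ≤ D.C * n := by
  have := blk_subset_II n h hm
  unfold II at this
  rw [mem_Icc] at this
  exact this.2

lemma B_refl (n h l : ℕ) (hh : h ≤ D.C) (hl : l ≤ D.C * n) :
    B D n h (D.C * n - l)
      = (-1) ^ ((blk D n h).erase l).card * PowerSeries.rescale (-1 : ℚ) (B D n h l) := by
  unfold B
  rw [map_prod, ← Finset.prod_const, ← Finset.prod_mul_distrib]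
  refine Finset.prod_nbij' (fun m => D.C * n - m) (fun m => D.C * n - m) ?_ ?_ ?_ ?_ ?_
  · intro m hm
    rw [mem_erase] at hm ⊢
    have h1 := le_of_mem_blk hm.2
    refine ⟨?_, mem_blk_refl hh hm.2⟩
    omega
  · intro m hm
    rw [mem_erase] at hm ⊢
    have h1 := le_of_mem_blk hm.2
    refine ⟨?_, mem_blk_refl hh hm.2⟩
    omega
  · intro m hm
    rw [mem_erase] at hm
    have h1 := le_of_mem_blk hm.2
    omega
  · intro m hm
    rw [mem_erase] at hm
    have h1 := le_of_mem_blk hm.2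
    omega
  · intro m hm
    rw [mem_erase] at hm
    have h1 := le_of_mem_blk hm.2
    rw [Nat.cast_sub hl, Nat.cast_sub h1, map_add, PowerSeries.rescale_X]
    have h2 : PowerSeries.rescale (-1 : ℚ) (PowerSeries.C (((D.C * n : ℕ) : ℚ) - m - l))
        = PowerSeries.C (((D.C * n : ℕ) : ℚ) - m - l) := by
      ext i
      rw [PowerSeries.coeff_rescale, PowerSeries.coeff_C]
      by_cases hi : i = 0
      · rw [if_pos hi, hi, pow_zero, one_mul]
      · rw [if_neg hi, mul_zero]
    rw [h2]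
    simp only [map_sub, map_neg, map_one]
    ring

lemma P_leC (hD : D.OK) : ∀ i ∈ D.P, D.h i ≤ D.C := fun i hi => by
  have := P_le hD i hi
  omega

lemma M_leC (hD : D.OK) : ∀ i ∈ D.M, D.h i ≤ D.C := fun i hi => by
  have := M_le hD i hi
  omega

lemma ord_refl (hD : D.OK) (n l : ℕ) (hl : l ≤ D.C * n) : ord D n (D.C * n - l) = ord D n l := by
  unfold ord
  have h1 : {i ∈ D.P | D.C * n - l ∈ blk D n (D.h i)} = {i ∈ D.P | l ∈ blk D n (D.h i)} :=
    Finset.filter_congr (fun i hi => mem_blk_refl_iff (P_leC hD i hi) hl)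
  have h2 : {i ∈ D.M | D.C * n - l ∈ blk D n (D.h i)} = {i ∈ D.M | l ∈ blk D n (D.h i)} :=
    Finset.filter_congr (fun i hi => mem_blk_refl_iff (M_leC hD i hi) hl)
  rw [h1, h2]

lemma mem_poles_refl (hD : D.OK) {n l : ℕ} (hl : l ∈ poles D n) : D.C * n - l ∈ poles D n := by
  rw [mem_poles] at hl ⊢
  have := hD.lo_lt
  exact mem_blk_refl (by omega) hl

lemma le_of_mem_poles {n l : ℕ} (hl : l ∈ poles D n) : l ≤ D.C * n := by
  rw [mem_poles] at hl
  exact le_of_mem_blk hl

lemma prod_B_refl (n l : ℕ) (hl : l ≤ D.C * n) (H : Finset ℕ) (hH : ∀ i ∈ H, D.h i ≤ D.C) :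
    ∏ i ∈ H, B D n (D.h i) (D.C * n - l) = (-1) ^ (∑ i ∈ H, ((blk D n (D.h i)).erase l).card) *
      PowerSeries.rescale (-1 : ℚ) (∏ i ∈ H, B D n (D.h i) l) := by
  rw [map_prod, ← Finset.prod_pow_eq_pow_sum, ← Finset.prod_mul_distrib]
  exact Finset.prod_congr rfl (fun i hi => B_refl n (D.h i) l (hH i hi) hl)

lemma sum_card_erase (n l : ℕ) (H : Finset ℕ) :
    ∑ i ∈ H, ((blk D n (D.h i)).erase l).card + #{i ∈ H | l ∈ blk D n (D.h i)}
      = ∑ i ∈ H, (blk D n (D.h i)).card := by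
  rw [Finset.card_filter, ← Finset.sum_add_distrib]
  refine Finset.sum_congr rfl (fun i _ => ?_)
  by_cases hl : l ∈ blk D n (D.h i)
  · rw [if_pos hl]
    exact Finset.card_erase_add_one hl
  · rw [if_neg hl, Finset.erase_eq_of_notMem hl, add_zero]

/-- the parity of the total number of factors of a family of blocks -/
lemma sum_card_parity (n : ℕ) (H : Finset ℕ) (hH : ∀ i ∈ H, 2 * D.h i ≤ D.C) :
    (∑ i ∈ H, (blk D n (D.h i)).card) % 2 = (H.card * (D.C * n + 1)) % 2 := by
  have h1 : ∑ i ∈ H, (blk D n (D.h i)).card + 2 * ∑ i ∈ H, D.h i * n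
      = H.card * (D.C * n + 1) := by
    rw [Finset.mul_sum, ← Finset.sum_add_distrib, Finset.card_eq_sum_ones, Finset.sum_mul]
    refine Finset.sum_congr rfl (fun i hi => ?_)
    rw [card_blk (hH i hi), one_mul]
    obtain ⟨k, hk⟩ : ∃ k, D.C = 2 * D.h i + k := ⟨D.C - 2 * D.h i, by have := hH i hi; omega⟩
    have hk' : D.C - 2 * D.h i = k := by omega
    rw [hk', hk]
    ring
  omega

lemma sum_card_even (hD : D.OK) (n : ℕ) :
    (∑ i ∈ D.P, (blk D n (D.h i)).card + ∑ i ∈ D.M, (blk D n (D.h i)).card) % 2 = 0 := by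
  have h1 := sum_card_parity n D.P (P_le hD)
  have h2 := sum_card_parity n D.M (M_le hD)
  obtain ⟨b, hb⟩ := hD.Aeven
  have h3 : D.P.card * (D.C * n + 1) + D.M.card * (D.C * n + 1)
      = 2 * ((D.M.card + b) * (D.C * n + 1)) := by
    rw [hD.cardP, hb]
    ring
  omega

lemma constCoeff_prod_B (n l : ℕ) (H : Finset ℕ) :
    PowerSeries.constantCoeff (∏ i ∈ H, B D n (D.h i) l) ≠ 0 := by
  rw [prod_B]
  exact constCoeff_prod_ne l _ (Finset.notMem_erase _ _) _

lemma F_mul (n l : ℕ) : F D n l * ∏ i ∈ D.P, B D n (D.h i) l = PowerSeries.C (K D n) *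
    (PowerSeries.C (D.C * (n : ℚ) - 2 * (l : ℚ)) + 2 * PowerSeries.X) *
      ∏ i ∈ D.M, B D n (D.h i) l := by
  unfold F
  rw [mul_assoc, mul_comm (∏ i ∈ D.P, B D n (D.h i) l)⁻¹ _,
    PowerSeries.mul_inv_cancel _ (constCoeff_prod_B n l D.P), mul_one]

lemma rescale_C' (c : ℚ) : PowerSeries.rescale (-1 : ℚ) (PowerSeries.C c) = PowerSeries.C c := by
  ext i
  rw [PowerSeries.coeff_rescale, PowerSeries.coeff_C]
  by_cases hi : i = 0
  · rw [if_pos hi, hi, pow_zero, one_mul]
  · rw [if_neg hi, mul_zero]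

lemma F_refl (hD : D.OK) (n l : ℕ) (hl : l ≤ D.C * n) :
    F D n (D.C * n - l)
      = -(-1) ^ (ee D n l + zz D n l) * PowerSeries.rescale (-1 : ℚ) (F D n l) := by
  have hne : ∏ i ∈ D.P, B D n (D.h i) (D.C * n - l) ≠ 0 := by
    intro h0
    have := constCoeff_prod_B (D := D) n (D.C * n - l) D.P
    rw [h0, map_zero] at this
    exact this rfl
  have h1 := F_mul (D := D) n (D.C * n - l)
  have h2 := congrArg (PowerSeries.rescale (-1 : ℚ)) (F_mul (D := D) n l)
  rw [map_mul, map_mul, map_mul, map_add, map_mul, rescale_C', rescale_C',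
    PowerSeries.rescale_X, map_ofNat] at h2
  apply mul_right_cancel₀ hne
  rw [h1, prod_B_refl n l hl D.M (M_leC hD), prod_B_refl n l hl D.P (P_leC hD)]
  have h3 : (-1 : PowerSeries ℚ) ^ (∑ i ∈ D.M, ((blk D n (D.h i)).erase l).card)
      = (-1) ^ (ee D n l + zz D n l) *
        (-1) ^ (∑ i ∈ D.P, ((blk D n (D.h i)).erase l).card) := by
    have e1 := sum_card_erase (D := D) n l D.M
    have e2 := sum_card_erase (D := D) n l D.P
    have e3 := sum_card_even hD n
    change _ + zz D n l = _ at e1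
    change _ + ee D n l = _ at e2
    rw [← pow_add]
    apply neg_one_pow_congr
    rw [Nat.even_iff, Nat.even_iff]
    omega
  rw [h3, Nat.cast_sub hl]
  have h4 : PowerSeries.C (D.C * (n : ℚ) - 2 * (((D.C * n : ℕ) : ℚ) - l)) + 2 * PowerSeries.X =
      -(PowerSeries.C (D.C * (n : ℚ) - 2 * (l : ℚ)) +
        2 * (PowerSeries.C (-1) * PowerSeries.X)) := by
    have : D.C * (n : ℚ) - 2 * (((D.C * n : ℕ) : ℚ) - l) = -(D.C * (n : ℚ) - 2 * (l : ℚ)) := by
      push_cast
      ring
    rw [this, map_neg, map_neg, map_one]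
    ring
  rw [h4]
  linear_combination ((-1 : PowerSeries ℚ) ^ (ee D n l + zz D n l) *
    (-1) ^ (∑ i ∈ D.P, ((blk D n (D.h i)).erase l).card)) * h2

theorem a_refl (hD : D.OK) (n l i : ℕ) (hi1 : 1 ≤ i) (hl' : l ≤ D.C * n) :
    a D n (D.C * n - l) i = (-1) ^ (i + 1) * a D n l i := by
  rw [a_eq n l hi1, a_eq n (D.C * n - l) hi1]
  have hoo : oo D n (D.C * n - l) = oo D n l := by
    unfold oo
    rw [ord_refl hD n l hl']
  rw [hoo]
  by_cases hi : i ≤ oo D n l
  · rw [if_pos hi, if_pos hi, F_refl hD n l hl']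
    have h1 : -(-1 : PowerSeries ℚ) ^ (ee D n l + zz D n l)
        = PowerSeries.C (-(-1 : ℚ) ^ (ee D n l + zz D n l)) := by
      rw [map_neg, map_pow, map_neg, map_one]
    rw [h1, PowerSeries.coeff_C_mul, PowerSeries.coeff_rescale, ← mul_assoc]
    congr 1
    rw [neg_mul, ← pow_add, pow_succ, mul_neg_one, neg_inj]
    apply neg_one_pow_congr
    rw [Nat.even_iff, Nat.even_iff]
    have h2 := oo_add_zz (D := D) n l
    rw [ww_eq_zero_of_pos (by omega)] at h2
    omega
  · rw [if_neg hi, if_neg hi, mul_zero]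

theorem sum_a_even (hD : D.OK) (n i : ℕ) (hi1 : 1 ≤ i) (hi : Even i) :
    ∑ l ∈ poles D n, a D n l i = 0 := by
  have h1 : ∑ l ∈ poles D n, a D n l i = ∑ l ∈ poles D n, a D n (D.C * n - l) i := by
    refine Finset.sum_nbij' (fun m => D.C * n - m) (fun m => D.C * n - m) ?_ ?_ ?_ ?_ ?_
    · intro m hm
      exact mem_poles_refl hD hm
    · intro m hm
      exact mem_poles_refl hD hm
    · intro m hm
      have := le_of_mem_poles hm
      omega
    · intro m hm
      have := le_of_mem_poles hm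
      omega
    · intro m hm
      have := le_of_mem_poles hm
      rw [Nat.sub_sub_self this]
  have h2 : ∑ l ∈ poles D n, a D n (D.C * n - l) i = - ∑ l ∈ poles D n, a D n l i := by
    rw [← Finset.sum_neg_distrib]
    refine Finset.sum_congr rfl (fun l hl => ?_)
    rw [a_refl hD n l i hi1 (le_of_mem_poles hl), pow_succ, hi.neg_one_pow]
    ring
  linarith

/-! ### B1 -/

lemma summable_tail' {s : ℕ} (hs : 2 ≤ s) (M : ℕ) :
    Summable (fun m : ℕ => 1 / ((m : ℝ) + M + 1) ^ s) := by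
  have h1 : Summable (fun m : ℕ => 1 / (m : ℝ) ^ s) :=
    Real.summable_one_div_nat_pow.mpr (by omega)
  have h2 := (summable_nat_add_iff (M + 1)).mpr h1
  refine h2.congr (fun m => ?_)
  push_cast
  rw [add_assoc]

lemma tail_eq {s : ℕ} (hs : 2 ≤ s) (M : ℕ) : tail s M = tail s 0 - (Hs s M : ℝ) := by
  have h1 := (summable_tail' hs 0).sum_add_tsum_nat_add M
  have h2 : ∑ i ∈ Finset.range M, 1 / (((i : ℕ) : ℝ) + (0 : ℕ) + 1) ^ s = (Hs s M : ℝ) := by
    unfold Hs
    rw [Rat.cast_sum]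
    symm
    refine Finset.sum_nbij' (fun m => m - 1) (fun m => m + 1) ?_ ?_ ?_ ?_ ?_
    · intro m hm
      rw [mem_Icc] at hm
      rw [mem_range]
      omega
    · intro m hm
      rw [mem_range] at hm
      rw [mem_Icc]
      omega
    · intro m hm
      rw [mem_Icc] at hm
      omega
    · intro m _
      omega
    · intro m hm
      rw [mem_Icc] at hm
      rw [Nat.cast_sub hm.1]
      push_cast
      rw [add_zero, sub_add_cancel]
  have h3 : ∑' i : ℕ, 1 / (((i + M : ℕ) : ℝ) + (0 : ℕ) + 1) ^ s = tail s M := by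
    unfold tail
    refine tsum_congr (fun i => ?_)
    push_cast
    rw [add_zero]
  rw [h2, h3] at h1
  have h4 : tail s 0 = ∑' m : ℕ, 1 / ((m : ℝ) + (0 : ℕ) + 1) ^ s := rfl
  rw [h4]
  linarith

theorem S_eq (hD : D.OK) (n : ℕ) (_hn : 0 < n) :
    S D n = (rho0 D n : ℝ) + ∑ j ∈ Js D, (rho D n j : ℝ) * tail j 0 := by
  have hk := hD.kpos
  have h1 : S D n = ∑ l ∈ poles D n, (∑ i ∈ Finset.Icc 1 D.A,
      ((a D n l i * ((i + D.k - 1).choose D.k : ℚ) : ℚ) : ℝ) * tail (i + D.k) 0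
        + (T D n l : ℝ)) := by
    unfold S T
    refine Finset.sum_congr rfl (fun l _ => ?_)
    rw [Rat.cast_neg, Rat.cast_sum, ← sub_eq_add_neg, ← Finset.sum_sub_distrib]
    refine Finset.sum_congr rfl (fun i hi => ?_)
    rw [mem_Icc] at hi
    rw [tail_eq (by omega)]
    push_cast
    ring
  rw [h1, Finset.sum_add_distrib, Finset.sum_comm]
  have h0 : (rho0 D n : ℝ) = ∑ l ∈ poles D n, (T D n l : ℝ) := by
    unfold rho0
    rw [Rat.cast_sum]
  rw [h0, add_comm]
  congr 1
  have h2 : ∀ i ∈ Finset.Icc 1 D.A, ∑ l ∈ poles D n,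
      ((a D n l i * ((i + D.k - 1).choose D.k : ℚ) : ℚ) : ℝ) * tail (i + D.k) 0
      = (rho D n (i + D.k) : ℝ) * tail (i + D.k) 0 := by
    intro i _
    unfold rho
    rw [Rat.cast_sum, Finset.sum_mul, Nat.add_sub_cancel]
  rw [Finset.sum_congr rfl h2]
  have h3 : ∑ i ∈ Finset.Icc 1 D.A, (rho D n (i + D.k) : ℝ) * tail (i + D.k) 0
      = ∑ i ∈ (Finset.Icc 3 D.A).filter (fun i => Odd (i + D.k)),
        (rho D n (i + D.k) : ℝ) * tail (i + D.k) 0 := by
    symm
    refine Finset.sum_subset ?_ ?_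
    · intro i hi
      rw [mem_filter, mem_Icc] at hi
      rw [mem_Icc]
      omega
    · intro i hi hi'
      rw [mem_Icc] at hi
      have hz : ∑ l ∈ poles D n, a D n l i = 0 := by
        by_cases hie : Even i
        · exact sum_a_even hD n i hi.1 hie
        · have hi1 : i = 1 := by
            by_contra hc
            apply hi'
            rw [mem_filter, mem_Icc]
            rw [Nat.not_even_iff_odd] at hie
            refine ⟨⟨?_, hi.2⟩, hie.add_even hD.keven⟩
            obtain ⟨r, hr⟩ := hie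
            omega
          rw [hi1]
          exact sum_a_one hD n
      have : rho D n (i + D.k) = 0 := by
        unfold rho
        rw [Nat.add_sub_cancel, ← Finset.sum_mul, hz, zero_mul]
      rw [this, Rat.cast_zero, zero_mul]
  rw [h3]
  unfold Js
  refine Finset.sum_nbij' (fun i => i + D.k) (fun j => j - D.k) ?_ ?_ ?_ ?_ ?_
  · intro i hi
    rw [mem_filter, mem_Icc] at hi ⊢
    refine ⟨?_, hi.2⟩
    omega
  · intro j hj
    rw [mem_filter, mem_Icc] at hj ⊢
    refine ⟨by omega, ?_⟩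
    rw [Nat.sub_add_cancel (by omega)]
    exact hj.2
  · intro i _
    exact Nat.add_sub_cancel i D.k
  · intro j hj
    rw [mem_filter, mem_Icc] at hj
    exact Nat.sub_add_cancel (by omega)
  · intro i _
    rfl

/-! ### B2 -/

lemma coeff_inv_pow (c : ℚ) (hc : c ≠ 0) (i m : ℕ) :
    PowerSeries.coeff m (((PowerSeries.C c + PowerSeries.X)⁻¹) ^ i)
      = (-1) ^ m * ((i + m - 1).choose m : ℚ) * (c⁻¹) ^ (i + m) := by
  have hcc : PowerSeries.constantCoeff (PowerSeries.C c + PowerSeries.X) ≠ 0 := by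
    rw [map_add, PowerSeries.constantCoeff_X, add_zero, PowerSeries.constantCoeff_C]
    exact hc
  have hinv : (PowerSeries.C c + PowerSeries.X)⁻¹ * (PowerSeries.C c + PowerSeries.X) = 1 :=
    PowerSeries.inv_mul_cancel _ hcc
  induction i generalizing m with
  | zero =>
    rw [pow_zero, PowerSeries.coeff_one]
    by_cases hm : m = 0
    · rw [if_pos hm, hm]
      simp
    · rw [if_neg hm, Nat.choose_eq_zero_of_lt (by omega)]
      simp
  | succ i ih =>
    set w := (PowerSeries.C c + PowerSeries.X)⁻¹ with hw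
    have key : w ^ i = PowerSeries.C c * w ^ (i + 1) + PowerSeries.X * w ^ (i + 1) := by
      rw [← add_mul, pow_succ, mul_comm, mul_assoc, hinv, mul_one]
    induction m with
    | zero =>
      have e0 : PowerSeries.coeff 0 (w ^ i) = c * PowerSeries.coeff 0 (w ^ (i + 1)) := by
        conv_lhs => rw [key]
        rw [map_add, PowerSeries.coeff_C_mul, PowerSeries.coeff_zero_X_mul, add_zero]
      rw [ih 0] at e0
      have : PowerSeries.coeff 0 (w ^ (i + 1))
          = ((-1) ^ 0 * ((i + 0 - 1).choose 0 : ℚ) * c⁻¹ ^ (i + 0)) * c⁻¹ := by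
        rw [e0]
        field_simp
      rw [this]
      simp only [pow_zero, Nat.choose_zero_right, Nat.cast_one, one_mul, add_zero]
      rw [← pow_succ]
    | succ m ihm =>
      have e1 : PowerSeries.coeff (m + 1) (w ^ i) = c * PowerSeries.coeff (m + 1) (w ^ (i + 1))
          + PowerSeries.coeff m (w ^ (i + 1)) := by
        conv_lhs => rw [key]
        rw [map_add, PowerSeries.coeff_C_mul, PowerSeries.coeff_succ_X_mul]
      rw [ih (m + 1), ihm] at e1
      have : PowerSeries.coeff (m + 1) (w ^ (i + 1))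
          = ((-1) ^ (m + 1) * ((i + (m + 1) - 1).choose (m + 1) : ℚ) * c⁻¹ ^ (i + (m + 1))
            - (-1) ^ m * ((i + 1 + m - 1).choose m : ℚ) * c⁻¹ ^ (i + 1 + m)) * c⁻¹ := by
        rw [e1]
        field_simp
        ring
      rw [this]
      have h1 : i + (m + 1) - 1 = i + m := by omega
      have h2 : i + 1 + m - 1 = i + m := by omega
      have h3 : i + 1 + (m + 1) - 1 = i + m + 1 := by omega
      rw [h1, h2, h3, Nat.choose_succ_succ' (i + m) m]
      push_cast
      ring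

lemma ww_k {m0 : ℕ} (hD : D.OK) (hm0 : ∀ i ∈ D.M, D.h i ≤ m0) {n M : ℕ}
    (hM : m0 * n ≤ M) (hM' : M < D.s * n) : ww D n M = D.k + 1 ∧ oo D n M = 0 := by
  have hs1 := hD.s_le
  have hs2 := hD.lo_lt
  have h2 : zz D n M = D.k + 1 := by
    rw [← hD.cardM]
    unfold zz
    rw [Finset.filter_true_of_mem]
    intro x hx
    rw [mem_blk]
    have h3 := Nat.mul_le_mul_right n (hm0 x hx)
    have h4 := hD.M_lt x hx
    have h5 : D.s * n ≤ (D.C - D.h x) * n := Nat.mul_le_mul_right n (by omega)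
    omega
  have h3 : ee D n M = 0 := by
    by_contra h
    have := ee_pos_mem' hD h
    rw [mem_Icc] at this
    omega
  unfold ww oo
  rw [ord_eq, h2, h3]
  omega

lemma kth_deriv {m0 : ℕ} (hD : D.OK) (hm0 : ∀ i ∈ D.M, D.h i ≤ m0) (n M : ℕ)
    (hM : m0 * n ≤ M) (hM' : M < D.s * n) :
    ∑ l ∈ poles D n, ∑ i ∈ Finset.Icc 1 D.A,
      a D n l i * (((i + D.k - 1).choose D.k : ℚ) * (((l : ℚ) - M)⁻¹) ^ (i + D.k)) = 0 := by
  obtain ⟨hw3, ho0⟩ := ww_k hD hm0 hM hM'
  have hs1 := hD.s_le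
  have hs2 := hD.lo_lt
  have hMII : M ∈ II D n := by
    unfold II
    rw [mem_Icc]
    have : D.s * n ≤ D.C * n := Nat.mul_le_mul_right n (by omega)
    omega
  have h1 := sh_Nu n M hMII
  rw [hw3, pf_a hD, map_sum] at h1
  set U := sh M (∏ k ∈ (II D n).erase M, gg k ^ oo D n k) with hU
  have hU0 : PowerSeries.constantCoeff U ≠ 0 := by
    rw [hU, sh_prod]
    exact constCoeff_prod_ne M _ (Finset.notMem_erase _ _) _
  have hlne : ∀ l ∈ poles D n, (l : ℚ) - M ≠ 0 := by
    intro l hl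
    unfold poles at hl
    rw [mem_Icc] at hl
    rw [sub_ne_zero]
    have h3 : D.s * n ≤ D.lo * n := Nat.mul_le_mul_right n hs1
    have : l ≠ M := by omega
    exact_mod_cast this
  have hinv : ∀ l ∈ poles D n, (PowerSeries.C ((l : ℚ) - M) + PowerSeries.X)⁻¹ *
      (PowerSeries.C ((l : ℚ) - M) + PowerSeries.X) = 1 := by
    intro l hl
    apply PowerSeries.inv_mul_cancel
    rw [map_add, PowerSeries.constantCoeff_X, add_zero, PowerSeries.constantCoeff_C]
    exact hlne l hl
  have hUU : U = sh M (∏ k ∈ II D n, gg k ^ oo D n k) := by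
    rw [← Finset.mul_prod_erase _ _ hMII, ho0, pow_zero, one_mul]
  have h2 : ∀ l ∈ poles D n, sh M (∑ i ∈ Finset.Icc 1 D.A, Polynomial.C (a D n l i) *
      gg l ^ (oo D n l - i) * ∏ k ∈ (II D n).erase l, gg k ^ oo D n k)
      = U * ∑ i ∈ Finset.Icc 1 D.A, PowerSeries.C (a D n l i) *
        ((PowerSeries.C ((l : ℚ) - M) + PowerSeries.X)⁻¹) ^ i := by
    intro l hl
    rw [map_sum, Finset.mul_sum]
    refine Finset.sum_congr rfl (fun i hi1 => ?_)
    rw [mem_Icc] at hi1
    by_cases hi : i ≤ oo D n l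
    · rw [map_mul, map_mul, map_pow, sh_C, sh_gg, hUU,
        ← Finset.mul_prod_erase _ _ (poles_subset_II n hl), map_mul, map_pow, sh_gg]
      have e1 : (PowerSeries.C ((l : ℚ) - M) + PowerSeries.X) ^ oo D n l =
          (PowerSeries.C ((l : ℚ) - M) + PowerSeries.X) ^ (oo D n l - i) *
          (PowerSeries.C ((l : ℚ) - M) + PowerSeries.X) ^ i := by
        rw [← pow_add]
        congr 1
        omega
      have e2 : (PowerSeries.C ((l : ℚ) - M) + PowerSeries.X)⁻¹ ^ i *
          (PowerSeries.C ((l : ℚ) - M) + PowerSeries.X) ^ i = 1 := by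
        rw [← mul_pow, hinv l hl, one_pow]
      rw [e1]
      linear_combination (-(PowerSeries.C (a D n l i)) *
        (PowerSeries.C ((l : ℚ) - M) + PowerSeries.X) ^ (oo D n l - i) *
        sh M (∏ k ∈ (II D n).erase l, gg k ^ oo D n k)) * e2
    · rw [a_eq_zero hi1.1 (by omega), map_zero, zero_mul, zero_mul, map_zero, map_zero,
        zero_mul, mul_zero]
  rw [Finset.sum_congr rfl h2, ← Finset.mul_sum, mul_assoc] at h1
  have hUne : U ≠ 0 := by
    intro h0
    rw [h0, map_zero] at hU0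
    exact hU0 rfl
  have h3 := mul_left_cancel₀ hUne h1
  have h4 := congrArg (PowerSeries.coeff D.k) h3
  rw [PowerSeries.coeff_mul_X_pow', if_neg (by omega), map_sum] at h4
  rw [← h4]
  refine Finset.sum_congr rfl (fun l hl => ?_)
  rw [map_sum]
  refine Finset.sum_congr rfl (fun i _ => ?_)
  rw [PowerSeries.coeff_C_mul, coeff_inv_pow _ (hlne l hl) i D.k, hD.keven.neg_one_pow, one_mul]

lemma tail_succ {s : ℕ} (hs : 2 ≤ s) (M : ℕ) :
    tail s M = 1 / ((M : ℝ) + 1) ^ s + tail s (M + 1) := by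
  unfold tail
  rw [(summable_tail' hs M).tsum_eq_zero_add]
  congr 1
  · push_cast
    rw [zero_add]
  · refine tsum_congr (fun m => ?_)
    push_cast
    ring_nf

lemma shift_step {m0 : ℕ} (hD : D.OK) (hm0 : ∀ i ∈ D.M, D.h i ≤ m0) (n M : ℕ)
    (hM : m0 * n ≤ M) (hM' : M < D.s * n) :
    ∑ l ∈ poles D n, ∑ i ∈ Finset.Icc 1 D.A,
      ((a D n l i * ((i + D.k - 1).choose D.k : ℚ) : ℚ) : ℝ) * tail (i + D.k) (l - (M + 1)) =
    ∑ l ∈ poles D n, ∑ i ∈ Finset.Icc 1 D.A,
      ((a D n l i * ((i + D.k - 1).choose D.k : ℚ) : ℚ) : ℝ) * tail (i + D.k) (l - M) := by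
  have hk := hD.kpos
  have hs1 := hD.s_le
  have h1 := congrArg (fun q : ℚ => (q : ℝ)) (kth_deriv hD hm0 n M hM hM')
  simp only [Rat.cast_sum, Rat.cast_zero] at h1
  rw [← sub_eq_zero, ← h1, ← Finset.sum_sub_distrib]
  refine Finset.sum_congr rfl (fun l hl => ?_)
  rw [← Finset.sum_sub_distrib]
  refine Finset.sum_congr rfl (fun i hi => ?_)
  rw [mem_Icc] at hi
  have hl' : M < l := by
    unfold poles at hl
    rw [mem_Icc] at hl
    have h3 : D.s * n ≤ D.lo * n := Nat.mul_le_mul_right n hs1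
    omega
  rw [tail_succ (s := i + D.k) (by omega) (l - (M + 1))]
  have h2 : l - (M + 1) + 1 = l - M := by omega
  rw [h2]
  have h3 : ((l - (M + 1) : ℕ) : ℝ) + 1 = (l : ℝ) - M := by
    rw [Nat.cast_sub (by omega)]
    push_cast
    ring
  rw [h3]
  push_cast
  rw [one_div, inv_pow]
  ring

theorem S_shift (hD : D.OK) (m0 : ℕ) (hm0 : ∀ i ∈ D.M, D.h i ≤ m0) (n : ℕ) (_hn : 0 < n)
    (M : ℕ) (hM : m0 * n ≤ M) (hM' : M ≤ D.s * n) :
    S D n = ∑ l ∈ poles D n, ∑ i ∈ Finset.Icc 1 D.A,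
      ((a D n l i * ((i + D.k - 1).choose D.k : ℚ) : ℚ) : ℝ) * tail (i + D.k) (l - M) := by
  induction hd : D.s * n - M generalizing M with
  | zero =>
    have : M = D.s * n := by omega
    rw [this]
    rfl
  | succ d ih =>
    rw [ih (M + 1) (by omega) (by omega) (by omega)]
    exact shift_step hD hm0 n M hM (by omega)

end Pool.Agent.OddZetaG
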