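import Pool.Agent.OddZetaG.RealDefs
import Pool.Agent.OddZetaG.SEq

set_option autoImplicit false

/-!
# Termwise bound for `S` on the real axis, generic data (module RS1b)

`S = ∑_{t > - m0 n} R^(k)(t) / k!`, Cauchy's estimate on circles of radius `1/2`, and summation.
Seat: helper96.
-/

open Finset

namespace Pool.Agent.OddZetaG

variable (D : Dat)

/-- the partial fraction expansion as a function -/
noncomputable def PFr (n : ℕ) (z : ℂ) : ℂ :=
  ∑ l ∈ poles D n, ∑ i ∈ Finset.Icc 1 D.A, ((a D n l i : ℚ) : ℂ) / (z + l) ^ i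

/-- `R^(k)(x) / k!` -/
noncomputable def Gr (n : ℕ) (x : ℝ) : ℝ :=
  ∑ l ∈ poles D n, ∑ i ∈ Finset.Icc 1 D.A,
    ((a D n l i * ((i + D.k - 1).choose D.k : ℚ) : ℚ) : ℝ) * (1 / (x + l) ^ (i + D.k))

theorem prod_neg_sub (i k : ℕ) :
    ∏ j ∈ Finset.range k, (((-(i : ℤ) : ℤ) : ℂ) - j) = (-1) ^ k * ((i.ascFactorial k : ℕ) : ℂ) := by
  induction k with
  | zero => simp
  | succ k ih =>
    rw [Finset.prod_range_succ, ih, Nat.ascFactorial_succ]
    push_cast
    ring

theorem iteratedDeriv_inv_pow (i k : ℕ) (x : ℂ) :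
    iteratedDeriv k (fun z : ℂ => z ^ (-(i : ℤ))) x =
      (-1) ^ k * ((i.ascFactorial k : ℕ) : ℂ) * x ^ (-(i : ℤ) - k) := by
  rw [iteratedDeriv_eq_iterate, iter_deriv_zpow, prod_neg_sub]

theorem iteratedDeriv_PFr (n k : ℕ) (t : ℂ) (ht : ∀ l ∈ poles D n, t + (l : ℂ) ≠ 0) :
    iteratedDeriv k (PFr D n) t = (-1) ^ k * ∑ l ∈ poles D n, ∑ i ∈ Finset.Icc 1 D.A,
      ((a D n l i : ℚ) : ℂ) * ((i.ascFactorial k : ℕ) : ℂ) / (t + l) ^ (i + k) := by
  have hcd : ∀ l ∈ poles D n, ∀ i : ℕ, ContDiffAt ℂ k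
      (fun z : ℂ => ((a D n l i : ℚ) : ℂ) / (z + l) ^ i) t := by
    intro l hl i
    refine contDiffAt_const.div ?_ (pow_ne_zero _ (ht l hl))
    fun_prop
  have h1 : iteratedDeriv k (PFr D n) t = ∑ l ∈ poles D n, ∑ i ∈ Finset.Icc 1 D.A,
      iteratedDeriv k (fun z : ℂ => ((a D n l i : ℚ) : ℂ) / (z + l) ^ i) t := by
    unfold PFr
    rw [iteratedDeriv_fun_sum (fun l hl => ContDiffAt.sum fun i _ => hcd l hl i)]
    refine Finset.sum_congr rfl fun l hl => ?_
    rw [iteratedDeriv_fun_sum (fun i _ => hcd l hl i)]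
  rw [h1, Finset.mul_sum]
  refine Finset.sum_congr rfl fun l hl => ?_
  rw [Finset.mul_sum]
  refine Finset.sum_congr rfl fun i _ => ?_
  have h2 : (fun z : ℂ => ((a D n l i : ℚ) : ℂ) / (z + l) ^ i) =
      fun z => ((a D n l i : ℚ) : ℂ) * (fun w : ℂ => w ^ (-(i : ℤ))) (z + l) := by
    funext z
    rw [div_eq_mul_inv]
    simp only [zpow_neg, zpow_natCast]
  rw [h2, iteratedDeriv_const_mul_field, iteratedDeriv_comp_add_const k (fun w : ℂ => w ^ (-(i : ℤ))) (l : ℂ)]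
  simp only
  rw [iteratedDeriv_inv_pow]
  have h3 : (t + (l : ℂ)) ^ (-(i : ℤ) - k) = ((t + (l : ℂ)) ^ (i + k))⁻¹ := by
    rw [← zpow_natCast, ← zpow_neg]
    congr 1
    push_cast
    ring
  rw [h3]
  ring


theorem diffContOnCl_PFr (n : ℕ) (t : ℤ) (ht : ∀ l ∈ poles D n, (1 : ℤ) ≤ t + l) :
    DiffContOnCl ℂ (PFr D n) (Metric.ball (t : ℂ) (1 / 2)) := by
  have hne : ∀ z ∈ Metric.closedBall (t : ℂ) (1 / 2), ∀ l ∈ poles D n, z + (l : ℂ) ≠ 0 := by
    intro z hz l hl h0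
    rw [Metric.mem_closedBall, dist_eq_norm] at hz
    have h1 : z - t = -((t + l : ℤ) : ℂ) := by
      push_cast
      linear_combination h0
    rw [h1, norm_neg, Complex.norm_intCast] at hz
    have h2 : (1 : ℝ) ≤ ((t + l : ℤ) : ℝ) := by exact_mod_cast ht l hl
    have h3 := le_abs_self (((t + l : ℤ) : ℝ))
    linarith
  have hd : DifferentiableOn ℂ (PFr D n) (Metric.closedBall (t : ℂ) (1 / 2)) := by
    unfold PFr
    refine DifferentiableOn.fun_sum fun l hl => DifferentiableOn.fun_sum fun i _ => ?_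
    refine DifferentiableOn.div (differentiableOn_const _) (by fun_prop) ?_
    intro z hz
    exact pow_ne_zero _ (hne z hz l hl)
  refine ⟨hd.mono Metric.ball_subset_closedBall, ?_⟩
  refine hd.continuousOn.mono ?_
  exact Metric.closure_ball_subset_closedBall

/-- Cauchy's estimate -/
theorem abs_Gr_le (hD : D.OK) (n : ℕ) (hn : 0 < n) (t : ℤ) (ht : ∀ m ∈ Finset.Icc (D.s * n) ((D.C - D.s) * n),
    (1 : ℤ) ≤ t + m) {B : ℝ} (hB : ∀ z : ℂ, ‖z - t‖ = 1 / 2 → ‖R D n z‖ ≤ B) :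
    |Gr D n t| ≤ 2 ^ D.k * B := by
  have hsub : ∀ l ∈ poles D n, l ∈ Finset.Icc (D.s * n) ((D.C - D.s) * n) := by
    intro l hl
    unfold poles at hl
    rw [Finset.mem_Icc] at hl ⊢
    have h1 := hD.s_le
    have h2 := hD.lo_lt
    refine ⟨(Nat.mul_le_mul_right n h1).trans hl.1, hl.2.trans (Nat.mul_le_mul_right n ?_)⟩
    omega
  have h1 := Complex.norm_iteratedDeriv_le_of_forall_mem_sphere_norm_le (c := (t : ℂ)) (R := 1 / 2)
    (C := B) (f := PFr D n) D.k (by norm_num) (diffContOnCl_PFr D n t fun l hl => ht l (hsub l hl)) (by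
      intro z hz
      rw [mem_sphere_iff_norm] at hz
      have h2 := hB z hz
      rwa [partial_fractions hD n hn z] at h2
      intro m hm h0
      have h1 : z - t = -((t + m : ℤ) : ℂ) := by
        push_cast
        linear_combination h0
      rw [h1, norm_neg, Complex.norm_intCast] at hz
      have h2 : (1 : ℝ) ≤ ((t + m : ℤ) : ℝ) := by exact_mod_cast ht m hm
      have h3 := le_abs_self (((t + m : ℤ) : ℝ))
      linarith)
  rw [iteratedDeriv_PFr] at h1
  swap
  · intro l hl h0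
    have h2 : ((t + l : ℤ) : ℂ) = 0 := by
      push_cast
      exact h0
    have h3 : t + (l : ℤ) = 0 := by exact_mod_cast h2
    have h4 := ht l (hsub l hl)
    omega
  have h2 : (-1 : ℂ) ^ D.k * ∑ l ∈ poles D n, ∑ i ∈ Finset.Icc 1 D.A,
      ((a D n l i : ℚ) : ℂ) * ((i.ascFactorial D.k : ℕ) : ℂ) / ((t : ℂ) + l) ^ (i + D.k) =
      (-1 : ℂ) ^ D.k * ((D.k.factorial * Gr D n t : ℝ) : ℂ) := by
    congr 1
    unfold Gr
    push_cast
    rw [Finset.mul_sum]
    refine Finset.sum_congr rfl fun l _ => ?_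
    rw [Finset.mul_sum]
    refine Finset.sum_congr rfl fun i _ => ?_
    rw [Nat.ascFactorial_eq_factorial_mul_choose']
    push_cast
    ring
  rw [h2, norm_mul, norm_pow, norm_neg, norm_one, one_pow, one_mul, Complex.norm_real,
    Real.norm_eq_abs, abs_mul, Nat.abs_cast] at h1
  have h3 : (0 : ℝ) < D.k.factorial := by exact_mod_cast D.k.factorial_pos
  have h4 : (D.k.factorial : ℝ) * B / (1 / 2) ^ D.k = D.k.factorial * (2 ^ D.k * B) := by
    rw [one_div, inv_pow, div_inv_eq_mul]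
    ring
  rw [h4] at h1
  exact le_of_mul_le_mul_left h1 h3

/-- `S` as a sum over `t` -/
theorem S_eq_tsum_Gr (hD : D.OK) (m0 : ℕ) (hm0 : ∀ i ∈ D.M, D.h i ≤ m0) (hm0' : m0 < D.s) (n : ℕ)
    (hn : 0 < n) : S D n = ∑' m : ℕ, Gr D n (((m : ℤ) + 1 - (m0 * n : ℤ) : ℤ) : ℝ) := by
  rw [S_shift hD m0 hm0 n hn (m0 * n) le_rfl (Nat.mul_le_mul_right n hm0'.le)]
  have hk := hD.kpos
  have hle : ∀ l ∈ poles D n, m0 * n ≤ l := by
    intro l hl
    unfold poles at hl
    rw [Finset.mem_Icc] at hl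
    refine le_trans ?_ hl.1
    exact Nat.mul_le_mul_right n (hm0'.le.trans hD.s_le)
  have hsum : ∀ l ∈ poles D n, ∀ i ∈ Finset.Icc 1 D.A,
      Summable (fun m : ℕ => 1 / ((m : ℝ) + ((l - m0 * n : ℕ) : ℝ) + 1) ^ (i + D.k)) := by
    intro l _ i hi
    exact summable_tail' (s := i + D.k) (by omega) _
  have hterm : ∀ (m : ℕ), Gr D n (((m : ℤ) + 1 - (m0 * n : ℤ) : ℤ) : ℝ) =
      ∑ l ∈ poles D n, ∑ i ∈ Finset.Icc 1 D.A,
        ((a D n l i * ((i + D.k - 1).choose D.k : ℚ) : ℚ) : ℝ) *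
          (1 / ((m : ℝ) + ((l - m0 * n : ℕ) : ℝ) + 1) ^ (i + D.k)) := by
    intro m
    unfold Gr
    refine Finset.sum_congr rfl fun l hl => Finset.sum_congr rfl fun i _ => ?_
    rw [Nat.cast_sub (hle l hl)]
    push_cast
    congr 3
    ring
  simp_rw [hterm]
  rw [Summable.tsum_finsetSum (fun l hl => summable_sum fun i hi => (hsum l hl i hi).mul_left _)]
  refine Finset.sum_congr rfl fun l hl => ?_
  rw [Summable.tsum_finsetSum (fun i hi => (hsum l hl i hi).mul_left _)]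
  refine Finset.sum_congr rfl fun i hi => ?_
  rw [tsum_mul_left]
  rfl


/-- RS1b: termwise bound for `S` from a bound for `R` on circles around integers. -/
theorem S_bound_real (hD : D.OK) (m0 : ℕ) (hm0 : ∀ i ∈ D.M, D.h i ≤ m0) (hm0' : m0 < D.s)
    {al be δ : ℝ} (hδ : 0 < δ) (hal : be < al)
    (hR : ∃ Cst : ℝ, ∃ A : ℕ, 0 ≤ Cst ∧ ∀ n : ℕ, 2 ≤ n → ∀ t : ℤ, -(m0 * n : ℤ) < t → ∀ z : ℂ, ‖z - t‖ = 1 / 2 →
      ‖R D n z‖ ≤ Cst * ((n : ℝ) + |(t : ℝ)| + 1) ^ A * Real.exp (n * FR D ((t : ℝ) / n)))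
    (hF : ∀ τ : ℝ, -(m0 : ℝ) ≤ τ → FR D τ ≤ -al - δ * Real.log (τ + m0 + 1)) :
    ∃ N : ℕ, ∀ n ≥ N, |S D n| ≤ Real.exp (-be * n) := by
  obtain ⟨Cst, A, hC0, hR⟩ := hR
  -- the sum of the inverse squares
  have hZ : Summable (fun m : ℕ => 1 / ((m : ℝ) + 1) ^ 2) := by
    have := summable_tail' (s := 2) le_rfl 0
    simpa using this
  set Z : ℝ := ∑' m : ℕ, 1 / ((m : ℝ) + 1) ^ 2 with hZdef
  set KK : ℝ := 2 ^ D.k * Cst * ((m0 : ℝ) + 2) ^ A with hKK
  have hKK0 : 0 ≤ KK := by positivity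
  -- the main bound for a single `n`
  have key : ∀ n : ℕ, 2 ≤ n → (A : ℝ) + 2 ≤ δ * n →
      |S D n| ≤ KK * Z * (n : ℝ) ^ (A + 2) * Real.exp (-al * n) := by
    intro n hn hnδ
    have hn0 : (0 : ℝ) < n := by
      have : 0 < n := by omega
      exact_mod_cast this
    have hterm : ∀ m : ℕ, |Gr D n (((m : ℤ) + 1 - (m0 * n : ℤ) : ℤ) : ℝ)| ≤
        KK * (n : ℝ) ^ (A + 2) * Real.exp (-al * n) * (1 / ((m : ℝ) + 1) ^ 2) := by
      intro m
      set t : ℤ := (m : ℤ) + 1 - (m0 * n : ℤ) with ht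
      have ht1 : -(m0 * n : ℤ) < t := by omega
      have htr : (t : ℝ) = (m : ℝ) + 1 - m0 * n := by
        rw [ht]
        push_cast
        ring
      have hpos : ∀ j ∈ Finset.Icc (D.s * n) ((D.C - D.s) * n), (1 : ℤ) ≤ t + j := by
        intro j hj
        rw [Finset.mem_Icc] at hj
        have h1 : m0 * n ≤ D.s * n := Nat.mul_le_mul_right n hm0'.le
        have h2 : ((m0 * n : ℕ) : ℤ) ≤ j := by exact_mod_cast h1.trans hj.1
        push_cast at h2
        omega
      have h1 := abs_Gr_le D hD n (by omega) t hpos (fun z hz => hR n hn t ht1 z hz)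
      refine h1.trans ?_
      -- the variable `x`
      set x : ℝ := ((m : ℝ) + 1 + n) / n with hx
      have hm0r : (0 : ℝ) ≤ m := Nat.cast_nonneg m
      have hm00 : (0 : ℝ) ≤ m0 := Nat.cast_nonneg m0
      have hx1 : 1 ≤ x := by
        rw [hx, le_div_iff₀ hn0]
        linarith
      have hx0 : 0 < x := by linarith
      have hnx : n * x = (m : ℝ) + 1 + n := by
        rw [hx]
        field_simp
      have hτ : (t : ℝ) / n + m0 + 1 = x := by
        rw [htr, hx]
        field_simp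
        ring
      have hF1 := hF ((t : ℝ) / n) (by
        rw [le_div_iff₀ hn0, htr]
        nlinarith)
      rw [hτ] at hF1
      have hlogx : 0 ≤ Real.log x := Real.log_nonneg hx1
      have hexp : Real.exp (n * FR D ((t : ℝ) / n)) ≤ Real.exp (-al * n) * (1 / x ^ (A + 2)) := by
        have h2 : (n : ℝ) * FR D ((t : ℝ) / n) ≤ -al * n + -((A + 2 : ℕ) * Real.log x) := by
          have h3 : (n : ℝ) * FR D ((t : ℝ) / n) ≤ n * (-al - δ * Real.log x) :=
            mul_le_mul_of_nonneg_left hF1 hn0.le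
          have h4 : ((A : ℝ) + 2) * Real.log x ≤ (δ * n) * Real.log x :=
            mul_le_mul_of_nonneg_right hnδ hlogx
          push_cast
          nlinarith
        refine (Real.exp_le_exp.2 h2).trans (le_of_eq ?_)
        rw [Real.exp_add, Real.exp_neg, ← Real.log_pow, Real.exp_log (by positivity), one_div]
      have hpoly : ((n : ℝ) + |(t : ℝ)| + 1) ^ A ≤ (((m0 : ℝ) + 2) * (n * x)) ^ A := by
        apply pow_le_pow_left₀ (by positivity)
        rw [hnx]
        have h5 : |(t : ℝ)| ≤ (m : ℝ) + 1 + m0 * n := by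
          rw [htr, abs_le]
          constructor
          · nlinarith [mul_nonneg hm00 hn0.le]
          · nlinarith [mul_nonneg hm00 hn0.le]
        nlinarith [mul_nonneg hm00 hn0.le, mul_nonneg hm00 hm0r]
      have hfin : (n : ℝ) ^ A * x ^ A * (1 / x ^ (A + 2)) ≤ (n : ℝ) ^ (A + 2) * (1 / ((m : ℝ) + 1) ^ 2) := by
        have h6 : (n : ℝ) ^ A * x ^ A * (1 / x ^ (A + 2)) = (n : ℝ) ^ (A + 2) * (1 / (n * x) ^ 2) := by
          field_simp
          ring
        rw [h6, hnx]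
        refine mul_le_mul_of_nonneg_left ?_ (by positivity)
        refine one_div_le_one_div_of_le (by positivity) (pow_le_pow_left₀ (by positivity) ?_ 2)
        linarith
      calc 2 ^ D.k * (Cst * ((n : ℝ) + |(t : ℝ)| + 1) ^ A * Real.exp (n * FR D ((t : ℝ) / n)))
          ≤ 2 ^ D.k * (Cst * (((m0 : ℝ) + 2) * (n * x)) ^ A * (Real.exp (-al * n) * (1 / x ^ (A + 2)))) := by
            gcongr
        _ = KK * Real.exp (-al * n) * ((n : ℝ) ^ A * x ^ A * (1 / x ^ (A + 2))) := by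
            rw [hKK, mul_pow, mul_pow]
            ring
        _ ≤ KK * Real.exp (-al * n) * ((n : ℝ) ^ (A + 2) * (1 / ((m : ℝ) + 1) ^ 2)) := by
            gcongr
        _ = KK * (n : ℝ) ^ (A + 2) * Real.exp (-al * n) * (1 / ((m : ℝ) + 1) ^ 2) := by ring
    rw [S_eq_tsum_Gr D hD m0 hm0 hm0' n (by omega)]
    have hs1 : Summable (fun m : ℕ => KK * (n : ℝ) ^ (A + 2) * Real.exp (-al * n) * (1 / ((m : ℝ) + 1) ^ 2)) :=
      hZ.mul_left _
    have h7 := tsum_of_norm_bounded hs1.hasSum (fun m => by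
      rw [Real.norm_eq_abs]
      exact hterm m)
    rw [Real.norm_eq_abs, tsum_mul_left] at h7
    refine h7.trans (le_of_eq ?_)
    rw [← hZdef]
    ring
  -- asymptotics
  have hlim := isLittleO_pow_exp_pos_mul_atTop (A + 2) (b := al - be) (by linarith)
  have hev := (hlim.comp_tendsto tendsto_natCast_atTop_atTop).bound
    (c := 1 / (KK * Z + 1)) (by
      have : 0 ≤ Z := by
        rw [hZdef]
        exact tsum_nonneg fun m => by positivity
      positivity)
  have hδn : ∀ᶠ n : ℕ in Filter.atTop, (A : ℝ) + 2 ≤ δ * n := by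
    have := (tendsto_natCast_atTop_atTop (R := ℝ)).const_mul_atTop hδ
    exact this.eventually_ge_atTop _
  obtain ⟨N, hN⟩ := Filter.eventually_atTop.1 (hev.and (hδn.and (Filter.eventually_ge_atTop 2)))
  refine ⟨N, fun n hn => ?_⟩
  obtain ⟨h1, h2, h3⟩ := hN n hn
  have hZ0 : 0 ≤ Z := by
    rw [hZdef]
    exact tsum_nonneg fun m => by positivity
  refine (key n h3 h2).trans ?_
  simp only [Function.comp, norm_pow, Real.norm_eq_abs, Nat.abs_cast, Real.abs_exp] at h1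
  have h4 : KK * Z * (n : ℝ) ^ (A + 2) ≤ Real.exp ((al - be) * n) := by
    have h5 : KK * Z * (n : ℝ) ^ (A + 2) ≤ KK * Z * (1 / (KK * Z + 1) * Real.exp ((al - be) * n)) := by
      gcongr
    refine h5.trans ?_
    have h6 : KK * Z * (1 / (KK * Z + 1)) ≤ 1 := by
      rw [mul_one_div, div_le_one (by positivity)]
      linarith
    calc KK * Z * (1 / (KK * Z + 1) * Real.exp ((al - be) * n)) =
        (KK * Z * (1 / (KK * Z + 1))) * Real.exp ((al - be) * n) := by ring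
      _ ≤ 1 * Real.exp ((al - be) * n) := by gcongr
      _ = _ := one_mul _
  calc KK * Z * (n : ℝ) ^ (A + 2) * Real.exp (-al * n)
      ≤ Real.exp ((al - be) * n) * Real.exp (-al * n) := by gcongr
    _ = Real.exp (-be * n) := by
      rw [← Real.exp_add]
      congr 1
      ring

end Pool.Agent.OddZetaG
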