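import Pool.Agent.OddZetaG.RealIneq

/-!
The one variable inequality on the real axis, continued: chains of intervals, and the tail.
Seat: helper57.
-/

open Finset

namespace Pool.Agent.OddZetaG

open Real

variable {C m0 v : ℕ} {PL ML : List ℕ}

/-- a chain of certified intervals starting at `wa` and reaching beyond `wz` -/
def chainL (C m0 v : ℕ) (PL ML : List ℕ) (Q : ℕ) : ℕ → List (ℕ × ℕ) → ℕ → Bool
  | wa, [], wz => Nat.ble wz wa
  | wa, x :: l, wz => certL C m0 v PL ML Q wa x.1 x.2 && chainL C m0 v PL ML Q x.1 l wz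

theorem FRL_le_of_chain (hc : CertOK C m0 v PL ML) {Q : ℕ} {τ : ℝ} :
    ∀ (l : List (ℕ × ℕ)) (wa wz : ℕ), chainL C m0 v PL ML Q wa l wz = true →
      (wa : ℝ) ≤ (τ + m0) * v → (τ + m0) * v < wz → FRL C PL ML τ ≤ -((Q : ℝ) / v) := by
  intro l
  induction l with
  | nil =>
    intro wa wz h h1 h2
    have h3 : wz ≤ wa := Nat.le_of_ble_eq_true h
    have h4 : (wz : ℝ) ≤ wa := by exact_mod_cast h3
    linarith
  | cons x l ih =>
    intro wa wz h h1 h2
    unfold chainL at h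
    rw [Bool.and_eq_true] at h
    rcases le_or_gt ((τ + m0) * v) x.1 with h3 | h3
    · exact FRL_le_of_cert hc h.1 h1 h3
    · exact ih x.1 wz h.2 h3.le h2

/-! ### the tail -/

/-- derivative of the exponent of a block -/
noncomputable def gR' (C h : ℕ) (τ : ℝ) : ℝ :=
  -(log ((C : ℝ) - h + τ) + 1) + (log ((h : ℝ) + τ) + 1)

theorem hasDerivAt_gR {C h : ℕ} (hh : 2 * h < C) {τ : ℝ} (hτ : 0 < τ) :
    HasDerivAt (gR C h) (gR' C h τ) τ := by
  have h0 : (0 : ℝ) ≤ h := Nat.cast_nonneg _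
  have h1 : 2 * (h : ℝ) < C := by exact_mod_cast hh
  have h2 := hasDerivAt_phi_add (a := (C : ℝ) - h) (y := τ) (by linarith)
  have h3 := hasDerivAt_phi_add (a := (h : ℝ)) (y := τ) (by linarith)
  have h4 := (h2.const_sub (((C : ℝ) - 2 * h) * Real.log ((C : ℝ) - 2 * h))).add h3
  exact h4

theorem hasDerivAt_list {C : ℕ} {τ : ℝ} (hτ : 0 < τ) :
    ∀ l : List ℕ, (∀ h ∈ l, 2 * h < C) →
      HasDerivAt (fun τ => (l.map fun h => gR C h τ).sum) ((l.map fun h => gR' C h τ).sum) τ := by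
  intro l
  induction l with
  | nil =>
    intro _
    exact hasDerivAt_const τ (0 : ℝ)
  | cons x l ih =>
    intro h
    have h1 := hasDerivAt_gR (h x (by simp)) hτ
    have h2 := ih fun y hy => h y (by simp [hy])
    simp only [List.map_cons, List.sum_cons]
    exact h1.add h2

theorem gR'_le {C h : ℕ} (hh : 2 * h < C) {τ : ℝ} (hτ : 0 < τ) :
    gR' C h τ ≤ -(((C - 2 * h : ℕ) : ℝ) / (τ + C)) := by
  have h0 : (0 : ℝ) ≤ h := Nat.cast_nonneg _
  have h1 : 2 * (h : ℝ) < C := by exact_mod_cast hh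
  have e : ((C - 2 * h : ℕ) : ℝ) = (C : ℝ) - 2 * h := by
    rw [Nat.cast_sub hh.le]
    push_cast
    ring
  have px : (0 : ℝ) < h + τ := by linarith
  have py : (0 : ℝ) < (C : ℝ) - h + τ := by linarith
  have h2 := log_le_sub_one_of_pos (div_pos px py)
  rw [log_div px.ne' py.ne'] at h2
  have h3 : ((h : ℝ) + τ) / ((C : ℝ) - h + τ) - 1 = -(((C : ℝ) - 2 * h) / ((C : ℝ) - h + τ)) := by
    field_simp
    ring
  have h4 : ((C : ℝ) - 2 * h) / (τ + C) ≤ ((C : ℝ) - 2 * h) / ((C : ℝ) - h + τ) :=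
    div_le_div_of_nonneg_left (by linarith) py (by linarith)
  rw [e]
  unfold gR'
  linarith

theorem neg_gR'_le {C h : ℕ} (hh : 2 * h < C) {τ : ℝ} (hτ : 0 < τ) :
    -gR' C h τ ≤ ((C - 2 * h : ℕ) : ℝ) / τ := by
  have h0 : (0 : ℝ) ≤ h := Nat.cast_nonneg _
  have h1 : 2 * (h : ℝ) < C := by exact_mod_cast hh
  have e : ((C - 2 * h : ℕ) : ℝ) = (C : ℝ) - 2 * h := by
    rw [Nat.cast_sub hh.le]
    push_cast
    ring
  have px : (0 : ℝ) < h + τ := by linarith
  have py : (0 : ℝ) < (C : ℝ) - h + τ := by linarith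
  have h2 := log_le_sub_one_of_pos (div_pos py px)
  rw [log_div py.ne' px.ne'] at h2
  have h3 : ((C : ℝ) - h + τ) / ((h : ℝ) + τ) - 1 = ((C : ℝ) - 2 * h) / ((h : ℝ) + τ) := by
    field_simp
    ring
  have h4 : ((C : ℝ) - 2 * h) / ((h : ℝ) + τ) ≤ ((C : ℝ) - 2 * h) / τ :=
    div_le_div_of_nonneg_left (by linarith) hτ (by linarith)
  rw [e]
  unfold gR'
  linarith

theorem list_gR'_le {C : ℕ} {τ : ℝ} (hτ : 0 < τ) :
    ∀ l : List ℕ, (∀ h ∈ l, 2 * h < C) →
      (l.map fun h => gR' C h τ).sum ≤ -(((l.map fun h => C - 2 * h).sum : ℕ) / (τ + C)) := by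
  intro l
  induction l with
  | nil =>
    intro _
    simp
  | cons x l ih =>
    intro h
    have h1 := gR'_le (h x (by simp)) hτ
    have h2 := ih fun y hy => h y (by simp [hy])
    simp only [List.map_cons, List.sum_cons]
    rw [Nat.cast_add, add_div]
    linarith

theorem neg_list_gR'_le {C : ℕ} {τ : ℝ} (hτ : 0 < τ) :
    ∀ l : List ℕ, (∀ h ∈ l, 2 * h < C) →
      -(l.map fun h => gR' C h τ).sum ≤ ((l.map fun h => C - 2 * h).sum : ℕ) / τ := by
  intro l
  induction l with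
  | nil =>
    intro _
    simp
  | cons x l ih =>
    intro h
    have h1 := neg_gR'_le (h x (by simp)) hτ
    have h2 := ih fun y hy => h y (by simp [hy])
    simp only [List.map_cons, List.sum_cons]
    rw [Nat.cast_add, add_div]
    linarith

/-- beyond `T` the exponent, with the correction, decreases -/
theorem FRL_tail {T : ℕ} (hT : 0 < T) (hP : ∀ h ∈ PL, 2 * h < C) (hM : ∀ h ∈ ML, 2 * h < C)
    (hNT : ((ML.map fun h => C - 2 * h).sum + 1) * (T + C) ≤ (PL.map fun h => C - 2 * h).sum * T)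
    {δ a : ℝ} (hδ : δ ≤ 1) (ha : 0 ≤ a) {τ : ℝ} (hτ : (T : ℝ) ≤ τ) :
    FRL C PL ML τ + δ * log (τ + a) ≤ FRL C PL ML T + δ * log (T + a) := by
  have hT0 : (0 : ℝ) < T := by exact_mod_cast hT
  have hd : ∀ x : ℝ, 0 < x → HasDerivAt (fun τ => FRL C PL ML τ + δ * log (τ + a))
      (((PL.map fun h => gR' C h x).sum - (ML.map fun h => gR' C h x).sum) +
        δ * (1 / (x + a))) x := by
    intro x hx
    have h1 := hasDerivAt_list hx PL hP
    have h2 := hasDerivAt_list hx ML hM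
    have h3 : HasDerivAt (fun τ => log (τ + a)) (1 / (x + a)) x :=
      HasDerivAt.log ((hasDerivAt_id x).add_const a) (by linarith)
    have h4 := (h1.sub h2).add (h3.const_mul δ)
    exact h4
  have hanti : AntitoneOn (fun τ => FRL C PL ML τ + δ * log (τ + a)) (Set.Ici (T : ℝ)) := by
    apply antitoneOn_of_deriv_nonpos (convex_Ici _)
    · intro x hx
      have hx' : (T : ℝ) ≤ x := hx
      exact (hd x (by linarith)).continuousAt.continuousWithinAt
    · intro x hx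
      rw [interior_Ici] at hx
      have hx' : (T : ℝ) < x := hx
      exact (hd x (by linarith)).differentiableAt.differentiableWithinAt
    · intro x hx
      rw [interior_Ici] at hx
      have hx' : (T : ℝ) < x := hx
      have hx0 : 0 < x := by linarith
      rw [(hd x hx0).deriv]
      have k1 := list_gR'_le hx0 PL hP
      have k2 := neg_list_gR'_le hx0 ML hM
      set NP : ℕ := (PL.map fun h => C - 2 * h).sum with hNP
      set NM : ℕ := (ML.map fun h => C - 2 * h).sum with hNM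
      have k3 : δ * (1 / (x + a)) ≤ 1 / x := by
        have : 1 / (x + a) ≤ 1 / x := one_div_le_one_div_of_le hx0 (by linarith)
        have p0 : 0 ≤ 1 / (x + a) := by positivity
        nlinarith
      have hNT' : ((NM : ℝ) + 1) * (T + C) ≤ NP * T := by exact_mod_cast hNT
      have hC0 : (0 : ℝ) ≤ C := Nat.cast_nonneg _
      have k4 : ((NM : ℝ) + 1) * (x + C) ≤ NP * x := by
        have k5 : (NM : ℝ) + 1 ≤ NP := by
          by_contra hcon
          push Not at hcon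
          have q1 : (NP : ℝ) * T < (NM + 1) * T := mul_lt_mul_of_pos_right hcon hT0
          have q2 : (0 : ℝ) ≤ ((NM : ℝ) + 1) * C := by positivity
          nlinarith
        nlinarith
      have k6 : ((NM : ℝ) + 1) / x ≤ NP / (x + C) := by
        rw [div_le_div_iff₀ hx0 (by linarith)]
        exact k4
      rw [add_div] at k6
      linarith
  exact hanti (Set.mem_Ici.mpr le_rfl) (Set.mem_Ici.mpr hτ) hτ

/-- the final inequality for a family -/
theorem FR_fam_le {F : Fam} (hF : F.OK) {m0 v T Q0 Q1 : ℕ} (hT : 0 < T)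
    (hT2 : T + m0 + 1 ≤ 400)
    (c0 : CertOK F.C m0 v F.P0 F.M0) (c1 : CertOK F.C m0 v F.P1 F.M1)
    {l0 l1 : List (ℕ × ℕ)} {z0 z1 : ℕ} (h0 : chainL F.C m0 v F.P0 F.M0 Q0 0 l0 z0 = true)
    (h1 : chainL F.C m0 v F.P1 F.M1 Q1 0 l1 z1 = true) (hz0 : (T + m0) * v < z0)
    (hz1 : (T + m0) * v < z1)
    (t0 : ((F.M0.map fun h => F.C - 2 * h).sum + 1) * (T + F.C) ≤
      (F.P0.map fun h => F.C - 2 * h).sum * T)
    (t1 : ((F.M1.map fun h => F.C - 2 * h).sum + 1) * (T + F.C) ≤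
      (F.P1.map fun h => F.C - 2 * h).sum * T) (j : ℕ) (τ : ℝ) (hτ : -(m0 : ℝ) ≤ τ) :
    FR (F.D j) τ ≤ -((Q0 : ℝ) / v - 3 / 5 + j * ((Q1 : ℝ) / v)) -
      1 / 10 * Real.log (τ + m0 + 1) := by
  have hm : (0 : ℝ) ≤ m0 := Nat.cast_nonneg _
  have hv' : (0 : ℝ) < v := by exact_mod_cast c0.v0
  have hT0 : (0 : ℝ) < T := by exact_mod_cast hT
  have hlogT : Real.log ((T : ℝ) + m0 + 1) ≤ 6 := by
    have e1 : ((T : ℝ) + m0 + 1) ≤ 400 := by exact_mod_cast hT2
    have e2 : (400 : ℝ) ≤ Real.exp 6 := by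
      have e3 := exp_one_gt_d9
      have e4 : Real.exp 6 = Real.exp 1 ^ 6 := by
        rw [← Real.exp_nat_mul]
        norm_num
      rw [e4]
      calc (400 : ℝ) ≤ 2.7182818283 ^ 6 := by norm_num
        _ ≤ Real.exp 1 ^ 6 := by gcongr
    rw [log_le_iff_le_exp (by linarith)]
    linarith
  have hz0' : ((T : ℝ) + m0) * v < z0 := by exact_mod_cast hz0
  have hz1' : ((T : ℝ) + m0) * v < z1 := by exact_mod_cast hz1
  have P0 : ∀ h ∈ F.P0, 2 * h < F.C := fun h hh => (c0.P1 h hh).2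
  have P1 : ∀ h ∈ F.P1, 2 * h < F.C := fun h hh => (c1.P1 h hh).2
  have M0 : ∀ h ∈ F.M0, 2 * h < F.C := fun h hh => by
    have := c0.M1 h hh; have := c0.mC; omega
  have M1 : ∀ h ∈ F.M1, 2 * h < F.C := fun h hh => by
    have := c1.M1 h hh; have := c1.mC; omega
  -- the range `τ ≤ T`
  have hA : ∀ τ : ℝ, -(m0 : ℝ) ≤ τ → τ ≤ T →
      FRL F.C F.P0 F.M0 τ ≤ -((Q0 : ℝ) / v) ∧ FRL F.C F.P1 F.M1 τ ≤ -((Q1 : ℝ) / v) := by
    intro τ h2 h3
    have h4 : ((0 : ℕ) : ℝ) ≤ (τ + m0) * v := by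
      rw [Nat.cast_zero]
      exact mul_nonneg (by linarith) hv'.le
    have h5 : (τ + m0) * v ≤ ((T : ℝ) + m0) * v :=
      mul_le_mul_of_nonneg_right (by linarith) hv'.le
    exact ⟨FRL_le_of_chain c0 l0 0 z0 h0 h4 (by linarith),
      FRL_le_of_chain c1 l1 0 z1 h1 h4 (by linarith)⟩
  have hj : (0 : ℝ) ≤ j := Nat.cast_nonneg _
  rw [FR_fam hF]
  rcases le_or_gt τ T with h2 | h2
  · obtain ⟨a1, a2⟩ := hA τ hτ h2
    have a3 : Real.log (τ + m0 + 1) ≤ 6 := by
      refine le_trans (log_le_log (by linarith) (by linarith)) hlogT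
    have a4 := mul_le_mul_of_nonneg_left a2 hj
    linarith
  · obtain ⟨a1, a2⟩ := hA T (by linarith) le_rfl
    have b1 := FRL_tail (C := F.C) hT P0 M0 t0 (δ := 1 / 10) (a := (m0 : ℝ) + 1) (by norm_num)
      (by linarith) h2.le
    have b2 := FRL_tail (C := F.C) hT P1 M1 t1 (δ := 0) (a := (m0 : ℝ) + 1)
      (by norm_num) (by linarith) h2.le
    rw [zero_mul, zero_mul, add_zero, add_zero] at b2
    rw [← add_assoc, ← add_assoc] at b1
    have a4 := mul_le_mul_of_nonneg_left (b2.trans a2) hj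
    linarith

end Pool.Agent.OddZetaG
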