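import Pool.Agent.OddZetaG.SBoundOf
import Pool.Agent.OddZetaG.SEq

/-!
# `S_bound_of`, final generic form (seats helper88, helper91)
-/

namespace Pool.Agent.OddZetaG

/-- from a bound for `R` on the line `Re t = - (2 c + 1) n / 2`, `n` odd, between the zero blocks and
the pole blocks, to a bound for `S` -/
theorem S_bound_of (D : Dat) (hD : D.OK) (m0 : ℕ) (hm0 : ∀ i ∈ D.M, D.h i ≤ m0) (c : ℕ)
    (hc : 2 * m0 < 2 * c + 1) (hc' : 2 * c + 1 < 2 * D.s) {Cst d al be : ℝ} {A N0 : ℕ}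
    (hd : 0 < d) (hal : be < al)
    (hsize : ∀ n ≥ N0, Odd n → ∀ y : ℝ, ‖R D n (-((2 * c + 1) * (n : ℂ) / 2) + y * Complex.I)‖
      ≤ Cst * ((n : ℝ) + |y| + 1) ^ A * Real.exp (-al * n + 2 * Real.pi * |y| - d * |y|)) :
    ∃ N : ℕ, ∀ n ≥ N, Odd n → |S D n| ≤ Real.exp (-be * n) :=
  S_bound_of_aux D hD (partial_fractions hD) m0 (fun n hn M h h' => S_shift hD m0 hm0 n hn M h h')
    c hc hc' hd hal hsize

end Pool.Agent.OddZetaG
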