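import Pool.Agent.OddZetaG.Defs
import Pool.Agent.Zeta579.ContourK

/-!
# Size of `S D n` from the size of `R D n` on a line `Re t = - (2 c + 1) n / 2`, `n` odd
(generic module B3, seat helper88)
-/

namespace Pool.Agent.OddZetaG

open Filter Topology Complex MeasureTheory Pool.Agent.Zeta579

/-- `S_bound_of` of the interface, with partial fractions and shift as hypotheses -/
theorem S_bound_of_aux (D : Dat) (hD : D.OK)
    (hPF : ∀ n : ℕ, 0 < n → ∀ t : ℂ,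
      (∀ m ∈ Finset.Icc (D.s * n) ((D.C - D.s) * n), t + (m : ℂ) ≠ 0) →
      R D n t = ∑ l ∈ poles D n, ∑ i ∈ Finset.Icc 1 D.A, ((a D n l i : ℚ) : ℂ) / (t + l) ^ i)
    (m0 : ℕ)
    (hshift : ∀ n : ℕ, 0 < n → ∀ M : ℕ, m0 * n ≤ M → M ≤ D.s * n →
      S D n = ∑ l ∈ poles D n, ∑ i ∈ Finset.Icc 1 D.A,
        ((a D n l i * ((i + D.k - 1).choose D.k : ℚ) : ℚ) : ℝ) * tail (i + D.k) (l - M))
    (c : ℕ) (hc : 2 * m0 < 2 * c + 1) (hc' : 2 * c + 1 < 2 * D.s) {Cst d al be : ℝ} {A N0 : ℕ}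
    (hd : 0 < d) (hal : be < al)
    (hsize : ∀ n ≥ N0, Odd n → ∀ y : ℝ, ‖R D n (-((2 * c + 1) * (n : ℂ) / 2) + y * Complex.I)‖
      ≤ Cst * ((n : ℝ) + |y| + 1) ^ A * Real.exp (-al * n + 2 * Real.pi * |y| - d * |y|)) :
    ∃ N : ℕ, ∀ n ≥ N, Odd n → |S D n| ≤ Real.exp (-be * n) := by
  obtain ⟨k0, hk0⟩ : ∃ k0, D.k = k0 + 1 := ⟨D.k - 1, by have := hD.kpos; omega⟩
  set Mn : ℕ → ℕ := fun n => ((2 * c + 1) * n + 1) / 2 with hMn
  have hM2 : ∀ n : ℕ, Odd n → 2 * Mn n = (2 * c + 1) * n + 1 := by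
    intro n hn
    rw [hMn]
    simp only
    have h1 : Odd ((2 * c + 1) * n) := Odd.mul ⟨c, rfl⟩ hn
    obtain ⟨r, hr⟩ := h1
    omega
  have hMr : ∀ n : ℕ, Odd n → (2 * (Mn n : ℂ)) = (2 * c + 1) * n + 1 := by
    intro n hn
    exact_mod_cast hM2 n hn
  have hMlt : ∀ n : ℕ, Odd n → 3 ≤ n → Mn n + 1 ≤ D.s * n := by
    intro n hn h3
    have h1 := hM2 n hn
    have h2 : (2 * c + 2) * n ≤ (2 * D.s) * n := Nat.mul_le_mul_right n (by omega)
    have h3 : (2 * c + 2) * n = (2 * c + 1) * n + n := by ring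
    have h4 : (2 * D.s) * n = 2 * (D.s * n) := by ring
    omega
  have hMge : ∀ n : ℕ, Odd n → m0 * n ≤ Mn n := by
    intro n hn
    have h1 := hM2 n hn
    have h2 : (2 * m0) * n ≤ (2 * c + 1) * n := Nat.mul_le_mul_right n (by omega)
    have h3 : (2 * m0) * n = 2 * (m0 * n) := by ring
    omega
  have hLl : ∀ n : ℕ, ∀ l ∈ poles D n, D.s * n ≤ l := by
    intro n l hl
    unfold poles at hl
    exact (Nat.mul_le_mul_right n hD.s_le).trans (Finset.mem_Icc.1 hl).1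
  set Q : ℕ → Prop := fun n => Odd n ∧ 3 ≤ n ∧ N0 ≤ n with hQ
  have g1 : ∀ n, Q n → ∀ l ∈ poles D n, Mn n + 1 ≤ l := by
    rintro n ⟨hodd, h3, -⟩ l hl
    exact (hMlt n hodd h3).trans (hLl n l hl)
  have g2 : ∀ n, Q n → ((S D n : ℝ) : ℂ) = ∑ l ∈ poles D n, ∑ i ∈ Finset.Icc 1 D.A,
      ((a D n l i : ℚ) : ℂ) * (((i + k0).choose (k0 + 1) : ℕ) : ℂ) *
        ((tl (i + (k0 + 1)) (l - Mn n) : ℝ) : ℂ) := by
    rintro n ⟨hodd, h3, -⟩
    rw [hshift n (by omega) (Mn n) (hMge n hodd) (by have := hMlt n hodd h3; omega)]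
    push_cast
    refine Finset.sum_congr rfl fun l _ => Finset.sum_congr rfl fun i hi => ?_
    have e1 : i + D.k - 1 = i + k0 := by omega
    rw [e1, hk0]
    rfl
  have g3 : ∀ n, Q n → ∀ t : ℂ, t.re = -(Mn n : ℝ) + 1 / 2 →
      R D n t = pfs (poles D n) D.A (fun l i => ((a D n l i : ℚ) : ℂ)) t := by
    rintro n ⟨hodd, h3, -⟩ t ht
    unfold pfs
    refine hPF n (by omega) t fun m hm => ne_of_re_pos' ?_
    have h1 : D.s * n ≤ m := (Finset.mem_Icc.1 hm).1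
    have h2 : ((Mn n + 1 : ℕ) : ℝ) ≤ m := by exact_mod_cast (hMlt n hodd h3).trans h1
    push_cast at h2
    simp only [add_re, natCast_re, ht]
    linarith
  have g4 : ∀ n, Q n → ∀ y : ℝ, ‖R D n (-(Mn n : ℂ) + 1 / 2 + y * I)‖ ≤
      Cst * ((n : ℝ) + |y| + 1) ^ A * Real.exp (-al * n + 2 * Real.pi * |y| - d * |y|) := by
    rintro n ⟨hodd, h3, h0⟩ y
    have e1 : -((Mn n : ℕ) : ℂ) + 1 / 2 + y * I = -((2 * c + 1) * (n : ℂ) / 2) + y * I := by
      have := hMr n hodd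
      linear_combination (-1 / 2) * this
    rw [e1]
    exact hsize n h0 hodd y
  obtain ⟨N, hN⟩ := exp_bound_linearForm k0 (S := fun n => ((S D n : ℝ) : ℂ)) (L := poles D)
    (c := fun n l i => ((a D n l i : ℚ) : ℂ)) (M := Mn) (R := R D) (Q := Q) hd hal g1 g2 g3 g4
  refine ⟨max N (max 3 N0), fun n hn hodd => ?_⟩
  have h1 := hN n (le_trans (le_max_left _ _) hn) ⟨hodd,
    le_trans ((le_max_left _ _).trans (le_max_right _ _)) hn,
    le_trans ((le_max_right _ _).trans (le_max_right _ _)) hn⟩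
  rwa [Complex.norm_real, Real.norm_eq_abs] at h1

end Pool.Agent.OddZetaG
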