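import Pool.Agent.OddZetaG.SizeRG

set_option autoImplicit false

/-!
# The one variable inequality, generic data, from kernel checkable certificates

Seat: helper30.
-/

namespace Pool.Agent.OddZetaG

open Real Set
open Pool.Agent.OddZeta (w hasDerivAt_w w_tangent wdiff_tangent tangent)

/-! ### rational bounds for arctan -/

/-- partial sums of the arctan series -/
def tay (J : ℕ) (x : ℚ) : ℚ := ∑ j ∈ Finset.range J, (-1) ^ j * x ^ (2 * j + 1) / (2 * j + 1)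

theorem hasDerivAt_tay (J : ℕ) (y : ℝ) :
    HasDerivAt (fun y : ℝ => arctan y - ∑ j ∈ Finset.range J, (-1) ^ j * y ^ (2 * j + 1) / (2 * j + 1))
      ((-y ^ 2) ^ J / (1 + y ^ 2)) y := by
  have h1 : HasDerivAt (fun y : ℝ => ∑ j ∈ Finset.range J, (-1) ^ j * y ^ (2 * j + 1) / (2 * j + 1))
      (∑ j ∈ Finset.range J, (-y ^ 2) ^ j) y := by
    refine HasDerivAt.fun_sum fun j _ => ?_
    have h2 := (((hasDerivAt_id y).pow (2 * j + 1)).const_mul ((-1 : ℝ) ^ j)).div_const (2 * (j : ℝ) + 1)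
    refine h2.congr_deriv ?_
    have h3 : (2 * (j : ℝ) + 1) ≠ 0 := by positivity
    simp only [id]
    push_cast
    have h4 : (-y ^ 2) ^ j = (-1) ^ j * y ^ (2 * j) := by
      rw [neg_pow, ← pow_mul]
    rw [h4]
    field_simp
  have h2 : (1 : ℝ) / (1 + y ^ 2) - ∑ j ∈ Finset.range J, (-y ^ 2) ^ j = (-y ^ 2) ^ J / (1 + y ^ 2) := by
    have h3 : (1 + y ^ 2) ≠ 0 := by positivity
    have h4 : (∑ j ∈ Finset.range J, (-y ^ 2) ^ j) * (1 + y ^ 2) = 1 - (-y ^ 2) ^ J := by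
      have := geom_sum_mul (-y ^ 2) J
      linarith
    rw [div_sub' h3, div_left_inj' h3]
    linarith
  rw [← h2]
  exact (hasDerivAt_arctan y).sub h1

theorem tay_cast (J : ℕ) (x : ℚ) :
    ((tay J x : ℚ) : ℝ) = ∑ j ∈ Finset.range J, (-1) ^ j * (x : ℝ) ^ (2 * j + 1) / (2 * j + 1) := by
  unfold tay
  push_cast
  rfl

theorem arctan_le_tay {J : ℕ} (hJ : Odd J) {x : ℚ} (hx : 0 ≤ x) : arctan (x : ℝ) ≤ (tay J x : ℚ) := by
  have hanti : Antitone (fun y : ℝ => arctan y - ∑ j ∈ Finset.range J, (-1) ^ j * y ^ (2 * j + 1) / (2 * j + 1)) := by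
    apply antitone_of_deriv_nonpos (fun y => (hasDerivAt_tay J y).differentiableAt)
    intro y
    rw [(hasDerivAt_tay J y).deriv, hJ.neg_pow, neg_div]
    have : 0 ≤ (y ^ 2) ^ J / (1 + y ^ 2) := by positivity
    linarith
  have h := hanti (show (0 : ℝ) ≤ x by exact_mod_cast hx)
  simp only [arctan_zero] at h
  rw [tay_cast]
  have h0 : ∑ j ∈ Finset.range J, (-1 : ℝ) ^ j * (0 : ℝ) ^ (2 * j + 1) / (2 * j + 1) = 0 :=
    Finset.sum_eq_zero fun j _ => by simp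
  rw [h0] at h
  linarith

theorem tay_le_arctan {J : ℕ} (hJ : Even J) {x : ℚ} (hx : 0 ≤ x) : ((tay J x : ℚ) : ℝ) ≤ arctan (x : ℝ) := by
  have hmono : Monotone (fun y : ℝ => arctan y - ∑ j ∈ Finset.range J, (-1) ^ j * y ^ (2 * j + 1) / (2 * j + 1)) := by
    apply monotone_of_deriv_nonneg (fun y => (hasDerivAt_tay J y).differentiableAt)
    intro y
    rw [(hasDerivAt_tay J y).deriv, hJ.neg_pow]
    positivity
  have h := hmono (show (0 : ℝ) ≤ x by exact_mod_cast hx)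
  simp only [arctan_zero] at h
  rw [tay_cast]
  have h0 : ∑ j ∈ Finset.range J, (-1 : ℝ) ^ j * (0 : ℝ) ^ (2 * j + 1) / (2 * j + 1) = 0 :=
    Finset.sum_eq_zero fun j _ => by simp
  rw [h0] at h
  linarith

/-- upper bound for arctan -/
def upA (x : ℚ) : ℚ := if x ≤ 1 then tay 13 x else 15708 / 10000 - tay 14 (1 / x)

/-- lower bound for arctan -/
def loA (x : ℚ) : ℚ := if x ≤ 1 then tay 14 x else 15707 / 10000 - tay 13 (1 / x)

theorem arctan_le_upA {x : ℚ} (hx : 0 ≤ x) : arctan (x : ℝ) ≤ (upA x : ℚ) := by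
  unfold upA
  split_ifs with h
  · exact arctan_le_tay (by decide) hx
  · push Not at h
    have h1 := tay_le_arctan (J := 14) (by decide) (x := 1 / x) (by positivity)
    have hx' : (0 : ℝ) < x := by exact_mod_cast (by linarith : (0 : ℚ) < x)
    have h2 := arctan_inv_of_pos hx'
    have h3 := pi_lt_d4
    have hc : ((1 / x : ℚ) : ℝ) = (x : ℝ)⁻¹ := by rw [Rat.cast_div, Rat.cast_one, one_div]
    have h4 : ((15708 / 10000 - tay 14 (1 / x) : ℚ) : ℝ) = 15708 / 10000 - ((tay 14 (1 / x) : ℚ) : ℝ) := by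
      rw [Rat.cast_sub]
      congr 1
      norm_num
    rw [hc, h2] at h1
    rw [h4]
    linarith

theorem loA_le_arctan {x : ℚ} (hx : 0 ≤ x) : ((loA x : ℚ) : ℝ) ≤ arctan (x : ℝ) := by
  unfold loA
  split_ifs with h
  · exact tay_le_arctan (by decide) hx
  · push Not at h
    have h1 := arctan_le_tay (J := 13) (by decide) (x := 1 / x) (by positivity)
    have hx' : (0 : ℝ) < x := by exact_mod_cast (by linarith : (0 : ℚ) < x)
    have h2 := arctan_inv_of_pos hx'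
    have h3 := pi_gt_d4
    have hc : ((1 / x : ℚ) : ℝ) = (x : ℝ)⁻¹ := by rw [Rat.cast_div, Rat.cast_one, one_div]
    have h4 : ((15707 / 10000 - tay 13 (1 / x) : ℚ) : ℝ) = 15707 / 10000 - ((tay 13 (1 / x) : ℚ) : ℝ) := by
      rw [Rat.cast_sub]
      congr 1
      norm_num
    rw [hc, h2] at h1
    rw [h4]
    linarith

/-! ### certificates -/

variable (D : Dat)

/-- `2 lo` for pole blocks -/
def aP (c i : ℕ) : ℕ := 2 * D.h i - (2 * c + 1)

/-- `-2 lo` for zero blocks -/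
def aM (c i : ℕ) : ℕ := (2 * c + 1) - 2 * D.h i

/-- `2 hi` -/
def bb (c i : ℕ) : ℕ := 2 * D.C - 2 * D.h i - (2 * c + 1)

/-- numerator of the logarithmic certificate -/
def numG (c u v : ℕ) : ℕ :=
  (∏ i ∈ D.P, (v * (bb D c i - aP D c i)) ^ (2 * (bb D c i - aP D c i)) *
    (v ^ 2 * aP D c i ^ 2 + 4 * u ^ 2) ^ aP D c i) *
  ∏ i ∈ D.M, ((v ^ 2 * bb D c i ^ 2 + 4 * u ^ 2) ^ bb D c i * (v ^ 2 * aM D c i ^ 2 + 4 * u ^ 2) ^ aM D c i)

/-- denominator of the logarithmic certificate -/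
def denG (c u v : ℕ) : ℕ :=
  (∏ i ∈ D.P, (v ^ 2 * bb D c i ^ 2 + 4 * u ^ 2) ^ bb D c i) *
  ∏ i ∈ D.M, (v * (bb D c i + aM D c i)) ^ (2 * (bb D c i + aM D c i))

/-- rational upper bound for the slope at `u/v` -/
def slopeG (c u v : ℕ) : ℚ :=
  ∑ i ∈ D.P, (upA ((aP D c i : ℚ) * v / (2 * u)) - loA ((bb D c i : ℚ) * v / (2 * u))) +
    ∑ i ∈ D.M, (upA ((aM D c i : ℚ) * v / (2 * u)) + upA ((bb D c i : ℚ) * v / (2 * u)))

/-- `2 E (b - a) / (4 E^2 + a b)` -/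
def rr (c E i : ℕ) : ℚ := 2 * (E : ℚ) * ((bb D c i : ℚ) - aP D c i) / (4 * (E : ℚ) ^ 2 + (aP D c i : ℚ) * bb D c i)

/-- rational upper bound for the slope on `[E, E2]` -/
def slopeE (c E E2 : ℕ) : ℚ :=
  ∑ i ∈ D.M, (upA ((aM D c i : ℚ) / (2 * E)) + upA ((bb D c i : ℚ) / (2 * E))) -
    ∑ i ∈ D.P, loA (min (rr D c E i) (rr D c E2 i))

/-- rational upper bound for the slope on `[E2, ∞)` -/
def slopeE2 (c E2 : ℕ) : ℚ :=
  ∑ i ∈ D.M, (upA ((aM D c i : ℚ) / (2 * E2)) + upA ((bb D c i : ℚ) / (2 * E2)))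

/-- the logarithmic part at `e` -/
noncomputable def LLG (c : ℕ) (e : ℝ) : ℝ :=
  ∑ i ∈ D.P, (((bb D c i : ℝ) / 2 - (aP D c i : ℝ) / 2) * log ((bb D c i : ℝ) / 2 - (aP D c i : ℝ) / 2) +
    (aP D c i : ℝ) / 2 / 2 * log (((aP D c i : ℝ) / 2) ^ 2 + e ^ 2) -
    (bb D c i : ℝ) / 2 / 2 * log (((bb D c i : ℝ) / 2) ^ 2 + e ^ 2)) -
  ∑ i ∈ D.M, (((bb D c i : ℝ) / 2 + (aM D c i : ℝ) / 2) * log ((bb D c i : ℝ) / 2 + (aM D c i : ℝ) / 2) -
    (aM D c i : ℝ) / 2 / 2 * log (((aM D c i : ℝ) / 2) ^ 2 + e ^ 2) -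
    (bb D c i : ℝ) / 2 / 2 * log (((bb D c i : ℝ) / 2) ^ 2 + e ^ 2))

/-- the arctan part at `e` -/
noncomputable def AAG (c : ℕ) (e : ℝ) : ℝ :=
  ∑ i ∈ D.P, (arctan ((aP D c i : ℝ) / 2 / e) - arctan ((bb D c i : ℝ) / 2 / e)) +
    ∑ i ∈ D.M, (arctan ((aM D c i : ℝ) / 2 / e) + arctan ((bb D c i : ℝ) / 2 / e))

theorem log_shiftG (a u v : ℕ) (hu : 0 < u) (hv : 0 < v) :
    log (((a : ℝ) / 2) ^ 2 + ((u : ℝ) / v) ^ 2) = log (((v ^ 2 * a ^ 2 + 4 * u ^ 2 : ℕ) : ℝ)) - 2 * log (2 * v) := by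
  have hu' : (0 : ℝ) < u := by exact_mod_cast hu
  have hv' : (0 : ℝ) < v := by exact_mod_cast hv
  have h : ((a : ℝ) / 2) ^ 2 + ((u : ℝ) / v) ^ 2 = ((v ^ 2 * a ^ 2 + 4 * u ^ 2 : ℕ) : ℝ) / (2 * v) ^ 2 := by
    push_cast
    field_simp
    ring
  rw [h, log_div (by positivity) (by positivity), log_pow]
  push_cast
  ring

theorem LLG_le {c u v Q : ℕ} (hu : 0 < u) (hv : 0 < v)
    (hP : ∀ i ∈ D.P, aP D c i < bb D c i) (hM : ∀ i ∈ D.M, 0 < aM D c i)
    (hcert : numG D c u v * 27182818286 ^ Q ≤ denG D c u v * 10000000000 ^ Q) :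
    LLG D c ((u : ℝ) / v) ≤ -((Q : ℝ) / 4) := by
  have hu' : (0 : ℝ) < u := by exact_mod_cast hu
  have hv' : (0 : ℝ) < v := by exact_mod_cast hv
  have hnum : (0 : ℝ) < numG D c u v := by
    have : 0 < numG D c u v := by
      unfold numG
      refine Nat.mul_pos (Finset.prod_pos fun i hi => ?_) (Finset.prod_pos fun i hi => ?_)
      · have h1 := hP i hi
        have h2 : 0 < bb D c i - aP D c i := by omega
        positivity
      · positivity
    exact_mod_cast this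
  have hden : (0 : ℝ) < denG D c u v := by
    have : 0 < denG D c u v := by
      unfold denG
      refine Nat.mul_pos (Finset.prod_pos fun i hi => ?_) (Finset.prod_pos fun i hi => ?_)
      · positivity
      · have h1 := hM i hi
        positivity
    exact_mod_cast this
  have hcert' : (numG D c u v : ℝ) * 27182818286 ^ Q ≤ denG D c u v * 10000000000 ^ Q := by exact_mod_cast hcert
  have hl := log_le_log (by positivity) hcert'
  rw [log_mul hnum.ne' (by positivity), log_mul hden.ne' (by positivity), log_pow, log_pow] at hl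
  have he : (1 : ℝ) ≤ log 27182818286 - log 10000000000 := by
    rw [← log_div (by norm_num) (by norm_num), le_log_iff_exp_le (by norm_num)]
    have := exp_one_lt_d9
    linarith
  have hQ : (0 : ℝ) ≤ Q := Nat.cast_nonneg Q
  have hl' : log (numG D c u v : ℝ) + Q ≤ log (denG D c u v : ℝ) := by nlinarith
  -- logs of the products
  have hlognum : log (numG D c u v : ℝ) =
      ∑ i ∈ D.P, ((2 * ((bb D c i - aP D c i : ℕ) : ℝ)) * log ((v * (bb D c i - aP D c i) : ℕ) : ℝ) +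
        (aP D c i : ℝ) * log ((v ^ 2 * aP D c i ^ 2 + 4 * u ^ 2 : ℕ) : ℝ)) +
      ∑ i ∈ D.M, ((bb D c i : ℝ) * log ((v ^ 2 * bb D c i ^ 2 + 4 * u ^ 2 : ℕ) : ℝ) +
        (aM D c i : ℝ) * log ((v ^ 2 * aM D c i ^ 2 + 4 * u ^ 2 : ℕ) : ℝ)) := by
    have e1 : (numG D c u v : ℝ) =
        (∏ i ∈ D.P, ((v * (bb D c i - aP D c i) : ℕ) : ℝ) ^ (2 * (bb D c i - aP D c i)) *
          ((v ^ 2 * aP D c i ^ 2 + 4 * u ^ 2 : ℕ) : ℝ) ^ aP D c i) *
        ∏ i ∈ D.M, (((v ^ 2 * bb D c i ^ 2 + 4 * u ^ 2 : ℕ) : ℝ) ^ bb D c i *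
          ((v ^ 2 * aM D c i ^ 2 + 4 * u ^ 2 : ℕ) : ℝ) ^ aM D c i) := by
      unfold numG
      push_cast
      rfl
    have n1 : ∀ i ∈ D.P, ((v * (bb D c i - aP D c i) : ℕ) : ℝ) ≠ 0 := by
      intro i hi
      have h1 := hP i hi
      have : 0 < v * (bb D c i - aP D c i) := Nat.mul_pos hv (by omega)
      exact_mod_cast this.ne'
    have n2 : ∀ a : ℕ, ((v ^ 2 * a ^ 2 + 4 * u ^ 2 : ℕ) : ℝ) ≠ 0 := by
      intro a
      have : 0 < v ^ 2 * a ^ 2 + 4 * u ^ 2 := by positivity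
      exact_mod_cast this.ne'
    rw [e1, log_mul, log_prod, log_prod]
    · congr 1
      · refine Finset.sum_congr rfl fun i hi => ?_
        rw [log_mul (pow_ne_zero _ (n1 i hi)) (pow_ne_zero _ (n2 _)), log_pow, log_pow]
        push_cast
        ring
      · refine Finset.sum_congr rfl fun i hi => ?_
        rw [log_mul (pow_ne_zero _ (n2 _)) (pow_ne_zero _ (n2 _)), log_pow, log_pow]
    · exact fun i hi => mul_ne_zero (pow_ne_zero _ (n2 _)) (pow_ne_zero _ (n2 _))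
    · exact fun i hi => mul_ne_zero (pow_ne_zero _ (n1 i hi)) (pow_ne_zero _ (n2 _))
    · exact Finset.prod_ne_zero_iff.2 fun i hi => mul_ne_zero (pow_ne_zero _ (n1 i hi)) (pow_ne_zero _ (n2 _))
    · exact Finset.prod_ne_zero_iff.2 fun i hi => mul_ne_zero (pow_ne_zero _ (n2 _)) (pow_ne_zero _ (n2 _))
  have hlogden : log (denG D c u v : ℝ) =
      ∑ i ∈ D.P, (bb D c i : ℝ) * log ((v ^ 2 * bb D c i ^ 2 + 4 * u ^ 2 : ℕ) : ℝ) +
      ∑ i ∈ D.M, (2 * ((bb D c i + aM D c i : ℕ) : ℝ)) * log ((v * (bb D c i + aM D c i) : ℕ) : ℝ) := by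
    have e1 : (denG D c u v : ℝ) =
        (∏ i ∈ D.P, ((v ^ 2 * bb D c i ^ 2 + 4 * u ^ 2 : ℕ) : ℝ) ^ bb D c i) *
        ∏ i ∈ D.M, ((v * (bb D c i + aM D c i) : ℕ) : ℝ) ^ (2 * (bb D c i + aM D c i)) := by
      unfold denG
      push_cast
      rfl
    have n1 : ∀ i ∈ D.M, ((v * (bb D c i + aM D c i) : ℕ) : ℝ) ≠ 0 := by
      intro i hi
      have h1 := hM i hi
      have : 0 < v * (bb D c i + aM D c i) := Nat.mul_pos hv (by omega)
      exact_mod_cast this.ne'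
    have n2 : ∀ a : ℕ, ((v ^ 2 * a ^ 2 + 4 * u ^ 2 : ℕ) : ℝ) ≠ 0 := by
      intro a
      have : 0 < v ^ 2 * a ^ 2 + 4 * u ^ 2 := by positivity
      exact_mod_cast this.ne'
    rw [e1, log_mul, log_prod, log_prod]
    · congr 1
      · refine Finset.sum_congr rfl fun i hi => ?_
        rw [log_pow]
      · refine Finset.sum_congr rfl fun i hi => ?_
        rw [log_pow]
        push_cast
        ring
    · exact fun i hi => pow_ne_zero _ (n1 i hi)
    · exact fun i hi => pow_ne_zero _ (n2 _)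
    · exact Finset.prod_ne_zero_iff.2 fun i hi => pow_ne_zero _ (n2 _)
    · exact Finset.prod_ne_zero_iff.2 fun i hi => pow_ne_zero _ (n1 i hi)
  have hkey : 4 * LLG D c ((u : ℝ) / v) = log (numG D c u v : ℝ) - log (denG D c u v : ℝ) := by
    rw [hlognum, hlogden, LLG, mul_sub, Finset.mul_sum, Finset.mul_sum]
    have eP : ∑ i ∈ D.P, 4 * (((bb D c i : ℝ) / 2 - (aP D c i : ℝ) / 2) *
          log ((bb D c i : ℝ) / 2 - (aP D c i : ℝ) / 2) +
        (aP D c i : ℝ) / 2 / 2 * log (((aP D c i : ℝ) / 2) ^ 2 + ((u : ℝ) / v) ^ 2) -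
        (bb D c i : ℝ) / 2 / 2 * log (((bb D c i : ℝ) / 2) ^ 2 + ((u : ℝ) / v) ^ 2)) =
        ∑ i ∈ D.P, ((2 * ((bb D c i - aP D c i : ℕ) : ℝ)) * log ((v * (bb D c i - aP D c i) : ℕ) : ℝ) +
        (aP D c i : ℝ) * log ((v ^ 2 * aP D c i ^ 2 + 4 * u ^ 2 : ℕ) : ℝ)) -
        ∑ i ∈ D.P, (bb D c i : ℝ) * log ((v ^ 2 * bb D c i ^ 2 + 4 * u ^ 2 : ℕ) : ℝ) := by
      rw [← Finset.sum_sub_distrib]
      refine Finset.sum_congr rfl fun i hi => ?_
      have h1 := hP i hi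
      have h2 : ((bb D c i - aP D c i : ℕ) : ℝ) = (bb D c i : ℝ) - aP D c i := by rw [Nat.cast_sub h1.le]
      have h3 : (0 : ℝ) < (bb D c i : ℝ) / 2 - (aP D c i : ℝ) / 2 := by
        have : (aP D c i : ℝ) < bb D c i := by exact_mod_cast h1
        linarith
      have h4 : ((v * (bb D c i - aP D c i) : ℕ) : ℝ) = (2 * v) * ((bb D c i : ℝ) / 2 - (aP D c i : ℝ) / 2) := by
        rw [Nat.cast_mul, h2]; ring
      rw [log_shiftG _ u v hu hv, log_shiftG _ u v hu hv, h4, h2, log_mul (by positivity) h3.ne']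
      ring
    have eM : ∑ i ∈ D.M, 4 * (((bb D c i : ℝ) / 2 + (aM D c i : ℝ) / 2) *
          log ((bb D c i : ℝ) / 2 + (aM D c i : ℝ) / 2) -
        (aM D c i : ℝ) / 2 / 2 * log (((aM D c i : ℝ) / 2) ^ 2 + ((u : ℝ) / v) ^ 2) -
        (bb D c i : ℝ) / 2 / 2 * log (((bb D c i : ℝ) / 2) ^ 2 + ((u : ℝ) / v) ^ 2)) =
        ∑ i ∈ D.M, (2 * ((bb D c i + aM D c i : ℕ) : ℝ)) * log ((v * (bb D c i + aM D c i) : ℕ) : ℝ) -
        ∑ i ∈ D.M, ((bb D c i : ℝ) * log ((v ^ 2 * bb D c i ^ 2 + 4 * u ^ 2 : ℕ) : ℝ) +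
        (aM D c i : ℝ) * log ((v ^ 2 * aM D c i ^ 2 + 4 * u ^ 2 : ℕ) : ℝ)) := by
      rw [← Finset.sum_sub_distrib]
      refine Finset.sum_congr rfl fun i hi => ?_
      have h1 := hM i hi
      have h3 : (0 : ℝ) < (bb D c i : ℝ) / 2 + (aM D c i : ℝ) / 2 := by
        have : (0 : ℝ) < aM D c i := by exact_mod_cast h1
        positivity
      have h4 : ((v * (bb D c i + aM D c i) : ℕ) : ℝ) = (2 * v) * ((bb D c i : ℝ) / 2 + (aM D c i : ℝ) / 2) := by
        push_cast; ring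
      rw [log_shiftG _ u v hu hv, log_shiftG _ u v hu hv, h4, log_mul (by positivity) h3.ne']
      push_cast
      ring
    rw [eP, eM]
    ring
  linarith


theorem gPG_eq {c i : ℕ} (h1 : 2 * c + 1 < 2 * D.h i) (h2 : 2 * D.h i < D.C) (η : ℝ) :
    gPG D c (D.h i) η = ((bb D c i : ℝ) / 2 - (aP D c i : ℝ) / 2) * log ((bb D c i : ℝ) / 2 - (aP D c i : ℝ) / 2) +
      w ((aP D c i : ℝ) / 2) η - w ((bb D c i : ℝ) / 2) η := by
  have e1 : (aP D c i : ℝ) / 2 = (D.h i : ℝ) - (2 * c + 1) / 2 := by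
    unfold aP
    rw [Nat.cast_sub h1.le]
    push_cast
    ring
  have e2 : (bb D c i : ℝ) / 2 = (D.C : ℝ) - (D.h i : ℝ) - (2 * c + 1) / 2 := by
    unfold bb
    rw [Nat.cast_sub (by omega), Nat.cast_sub (by omega)]
    push_cast
    ring
  have e3 : (D.C : ℝ) - (D.h i : ℝ) - (2 * c + 1) / 2 - ((D.h i : ℝ) - (2 * c + 1) / 2) = (D.C : ℝ) - 2 * D.h i := by
    ring
  rw [e1, e2, gPG, e3]

theorem gMG_eq {c i : ℕ} (h1 : 2 * D.h i < 2 * c + 1) (h2 : 2 * c + 1 < D.C) (η : ℝ) :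
    gMG D c (D.h i) η = ((bb D c i : ℝ) / 2 + (aM D c i : ℝ) / 2) * log ((bb D c i : ℝ) / 2 + (aM D c i : ℝ) / 2) -
      w ((aM D c i : ℝ) / 2) η - w ((bb D c i : ℝ) / 2) η := by
  have e1 : (aM D c i : ℝ) / 2 = (2 * c + 1) / 2 - (D.h i : ℝ) := by
    unfold aM
    rw [Nat.cast_sub h1.le]
    push_cast
    ring
  have e2 : (bb D c i : ℝ) / 2 = (D.C : ℝ) - (D.h i : ℝ) - (2 * c + 1) / 2 := by
    unfold bb
    rw [Nat.cast_sub (by omega), Nat.cast_sub (by omega)]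
    push_cast
    ring
  have e3 : (D.C : ℝ) - (D.h i : ℝ) - (2 * c + 1) / 2 + ((2 * c + 1) / 2 - (D.h i : ℝ)) = (D.C : ℝ) - 2 * D.h i := by
    ring
  rw [e1, e2, gMG, e3]

theorem GGG_small {c : ℕ} (hP1 : ∀ i ∈ D.P, 2 * c + 1 < 2 * D.h i)
    (hP2 : ∀ i ∈ D.P, 2 * D.h i < D.C) (hM : ∀ i ∈ D.M, 2 * D.h i < 2 * c + 1) (hC : 2 * c + 1 < D.C)
    {E : ℕ} (hE : ∀ i ∈ D.P, 4 * E ^ 2 ≤ aP D c i * bb D c i) {e η : ℝ} (he : 0 < e) (heE : e ≤ E)
    (h0 : 0 < η) (h1 : η ≤ E) : GGG D c η ≤ LLG D c e + η * AAG D c e := by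
  have sP : ∑ i ∈ D.P, gPG D c (D.h i) η ≤
      ∑ i ∈ D.P, ((((bb D c i : ℝ) / 2 - (aP D c i : ℝ) / 2) * log ((bb D c i : ℝ) / 2 - (aP D c i : ℝ) / 2) +
        (aP D c i : ℝ) / 2 / 2 * log (((aP D c i : ℝ) / 2) ^ 2 + e ^ 2) -
        (bb D c i : ℝ) / 2 / 2 * log (((bb D c i : ℝ) / 2) ^ 2 + e ^ 2)) +
      η * (arctan ((aP D c i : ℝ) / 2 / e) - arctan ((bb D c i : ℝ) / 2 / e))) := by
    refine Finset.sum_le_sum fun i hi => ?_
    rw [gPG_eq D (hP1 i hi) (hP2 i hi)]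
    have g1 : 0 < aP D c i := by have := hP1 i hi; unfold aP; omega
    have g2 : aP D c i ≤ bb D c i := by have := hP1 i hi; have := hP2 i hi; unfold aP bb; omega
    have g1' : (0 : ℝ) < aP D c i := by exact_mod_cast g1
    have g2' : (aP D c i : ℝ) ≤ bb D c i := by exact_mod_cast g2
    have g3' : 4 * (E : ℝ) ^ 2 ≤ (aP D c i : ℝ) * bb D c i := by exact_mod_cast hE i hi
    have := wdiff_tangent (a := (aP D c i : ℝ) / 2) (b := (bb D c i : ℝ) / 2) (A := E) (x₀ := e) (x := η)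
      (by positivity) (by linarith) (by linarith) he heE h0 h1
    linarith
  have sM : ∑ i ∈ D.M, ((((bb D c i : ℝ) / 2 + (aM D c i : ℝ) / 2) * log ((bb D c i : ℝ) / 2 + (aM D c i : ℝ) / 2) -
        (aM D c i : ℝ) / 2 / 2 * log (((aM D c i : ℝ) / 2) ^ 2 + e ^ 2) -
        (bb D c i : ℝ) / 2 / 2 * log (((bb D c i : ℝ) / 2) ^ 2 + e ^ 2)) -
      η * (arctan ((aM D c i : ℝ) / 2 / e) + arctan ((bb D c i : ℝ) / 2 / e))) ≤
      ∑ i ∈ D.M, gMG D c (D.h i) η := by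
    refine Finset.sum_le_sum fun i hi => ?_
    rw [gMG_eq D (hM i hi) hC]
    have g1 : 0 < aM D c i := by have := hM i hi; unfold aM; omega
    have g2 : 0 < bb D c i := by have := hM i hi; unfold bb; omega
    have g1' : (0 : ℝ) < aM D c i := by exact_mod_cast g1
    have g2' : (0 : ℝ) < bb D c i := by exact_mod_cast g2
    have e1 := w_tangent (c := (aM D c i : ℝ) / 2) (x₀ := e) (x := η) (by positivity) he h0
    have e2 := w_tangent (c := (bb D c i : ℝ) / 2) (x₀ := e) (x := η) (by positivity) he h0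
    linarith
  rw [Finset.sum_add_distrib, ← Finset.mul_sum] at sP
  rw [Finset.sum_sub_distrib, ← Finset.mul_sum] at sM
  rw [GGG, LLG, AAG]
  linarith

theorem hasDerivAt_GGG {c : ℕ} (hP1 : ∀ i ∈ D.P, 2 * c + 1 < 2 * D.h i)
    (hP2 : ∀ i ∈ D.P, 2 * D.h i < D.C) (hM : ∀ i ∈ D.M, 2 * D.h i < 2 * c + 1) (hC : 2 * c + 1 < D.C)
    {η : ℝ} (h0 : 0 < η) : HasDerivAt (GGG D c) (AAG D c η) η := by
  have h1 : HasDerivAt (fun η => ∑ i ∈ D.P, gPG D c (D.h i) η)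
      (∑ i ∈ D.P, (arctan ((aP D c i : ℝ) / 2 / η) - arctan ((bb D c i : ℝ) / 2 / η))) η := by
    refine HasDerivAt.fun_sum fun i hi => ?_
    have e : gPG D c (D.h i) = fun η => ((bb D c i : ℝ) / 2 - (aP D c i : ℝ) / 2) *
        log ((bb D c i : ℝ) / 2 - (aP D c i : ℝ) / 2) + w ((aP D c i : ℝ) / 2) η - w ((bb D c i : ℝ) / 2) η :=
      funext fun η => gPG_eq D (hP1 i hi) (hP2 i hi) η
    rw [e]
    exact ((hasDerivAt_w h0).const_add _).sub (hasDerivAt_w h0)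
  have h2 : HasDerivAt (fun η => ∑ i ∈ D.M, gMG D c (D.h i) η)
      (∑ i ∈ D.M, -(arctan ((aM D c i : ℝ) / 2 / η) + arctan ((bb D c i : ℝ) / 2 / η))) η := by
    refine HasDerivAt.fun_sum fun i hi => ?_
    have e : gMG D c (D.h i) = fun η => ((bb D c i : ℝ) / 2 + (aM D c i : ℝ) / 2) *
        log ((bb D c i : ℝ) / 2 + (aM D c i : ℝ) / 2) - w ((aM D c i : ℝ) / 2) η - w ((bb D c i : ℝ) / 2) η :=
      funext fun η => gMG_eq D (hM i hi) hC η
    rw [e]
    refine (((hasDerivAt_w h0).const_sub _).sub (hasDerivAt_w h0)).congr_deriv ?_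
    ring
  refine (h1.sub h2).congr_deriv ?_
  rw [AAG, Finset.sum_neg_distrib]
  ring

/-- the difference of the two arctans through one arctan -/
theorem arctan_diff {a b η : ℝ} (ha : 0 < a) (hb : 0 < b) (hη : 0 < η) :
    arctan (a / η) - arctan (b / η) = -arctan (η * (b - a) / (η ^ 2 + a * b)) := by
  have h := arctan_add (x := b / η) (y := -(a / η)) (by
    have : 0 < b / η * (a / η) := by positivity
    linarith)
  rw [arctan_neg] at h
  have e : (b / η + -(a / η)) / (1 - b / η * -(a / η)) = η * (b - a) / (η ^ 2 + a * b) := by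
    have h1 : 1 - b / η * -(a / η) = (η ^ 2 + a * b) / η ^ 2 := by
      field_simp
      ring
    have h2 : b / η + -(a / η) = (η * (b - a)) / η ^ 2 := by
      field_simp
      ring
    have h3 : η ^ 2 ≠ 0 := by positivity
    rw [h1, h2, div_div_div_cancel_right₀ h3]
  rw [e] at h
  linarith

theorem AAG_le_of_mem {c : ℕ} (hP1 : ∀ i ∈ D.P, 2 * c + 1 < 2 * D.h i)
    (hP2 : ∀ i ∈ D.P, 2 * D.h i < D.C)
    {E E2 : ℕ} (hE0 : 0 < E) {η : ℝ} (h1 : (E : ℝ) ≤ η) (h2 : η ≤ E2) :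
    AAG D c η ≤ (slopeE D c E E2 : ℚ) := by
  have hE0' : (0 : ℝ) < E := by exact_mod_cast hE0
  have hη : 0 < η := hE0'.trans_le h1
  have sM : ∑ i ∈ D.M, (arctan ((aM D c i : ℝ) / 2 / η) + arctan ((bb D c i : ℝ) / 2 / η)) ≤
      ∑ i ∈ D.M, (((upA ((aM D c i : ℚ) / (2 * E)) : ℚ) : ℝ) + ((upA ((bb D c i : ℚ) / (2 * E)) : ℚ) : ℝ)) := by
    refine Finset.sum_le_sum fun i _ => ?_
    have key : ∀ a : ℕ, arctan ((a : ℝ) / 2 / η) ≤ ((upA ((a : ℚ) / (2 * E)) : ℚ) : ℝ) := by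
      intro a
      have e1 := arctan_le_upA (x := (a : ℚ) / (2 * E)) (by positivity)
      refine le_trans (arctan_mono ?_) e1
      push_cast
      rw [div_div]
      gcongr
    exact add_le_add (key _) (key _)
  have sP : ∑ i ∈ D.P, (arctan ((aP D c i : ℝ) / 2 / η) - arctan ((bb D c i : ℝ) / 2 / η)) ≤
      -∑ i ∈ D.P, ((loA (min (rr D c E i) (rr D c E2 i)) : ℚ) : ℝ) := by
    rw [← Finset.sum_neg_distrib]
    refine Finset.sum_le_sum fun i hi => ?_
    have g1 : 0 < aP D c i := by have := hP1 i hi; unfold aP; omega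
    have g2 : aP D c i < bb D c i := by have := hP1 i hi; have := hP2 i hi; unfold aP bb; omega
    have g1' : (0 : ℝ) < aP D c i := by exact_mod_cast g1
    have g2' : (aP D c i : ℝ) < bb D c i := by exact_mod_cast g2
    have g1q : (0 : ℚ) < aP D c i := by exact_mod_cast g1
    have g2q : (aP D c i : ℚ) < bb D c i := by exact_mod_cast g2
    rw [arctan_diff (by positivity) (by linarith) hη, neg_le_neg_iff]
    have hE2 : (0 : ℝ) < E2 := hη.trans_le h2
    have hE2q : (0 : ℚ) < E2 := by exact_mod_cast hE2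
    have hEq : (0 : ℚ) < E := by exact_mod_cast hE0
    have hr : ∀ F : ℕ, (0 : ℚ) < F → 0 ≤ rr D c F i := by
      intro F hF
      unfold rr
      have : 0 < (bb D c i : ℚ) - aP D c i := by linarith
      have hb : (0 : ℚ) < bb D c i := by linarith
      positivity
    have e1 := loA_le_arctan (x := min (rr D c E i) (rr D c E2 i)) (le_min (hr E hEq) (hr E2 hE2q))
    refine e1.trans (arctan_mono ?_)
    set r0 : ℝ := ((min (rr D c E i) (rr D c E2 i) : ℚ) : ℝ) with hr0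
    set a : ℝ := (aP D c i : ℝ) with ha
    set b : ℝ := (bb D c i : ℝ) with hb
    have hb0 : 0 < b := by linarith
    have hrE : r0 ≤ 2 * E * (b - a) / (4 * E ^ 2 + a * b) := by
      have : ((min (rr D c E i) (rr D c E2 i) : ℚ) : ℝ) ≤ ((rr D c E i : ℚ) : ℝ) := by
        exact_mod_cast min_le_left _ _
      refine this.trans (le_of_eq ?_)
      unfold rr
      push_cast
      rfl
    have hrE2 : r0 ≤ 2 * E2 * (b - a) / (4 * E2 ^ 2 + a * b) := by
      have : ((min (rr D c E i) (rr D c E2 i) : ℚ) : ℝ) ≤ ((rr D c E2 i : ℚ) : ℝ) := by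
        exact_mod_cast min_le_right _ _
      refine this.trans (le_of_eq ?_)
      unfold rr
      push_cast
      rfl
    have hr00 : 0 ≤ r0 := by
      rw [hr0]
      exact_mod_cast le_min (hr E hEq) (hr E2 hE2q)
    rw [le_div_iff₀ (by positivity)] at hrE hrE2 ⊢
    -- convexity of r0 (4 x^2 + a b) - 2 x (b - a) in x
    rcases eq_or_lt_of_le (h1.trans h2) with h3 | h3
    · have : η = E := le_antisymm (h2.trans h3.symm.le) h1
      rw [this]
      linarith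
    · -- η = s E + (1-s) E2
      set s : ℝ := ((E2 : ℝ) - η) / (E2 - E) with hs
      have hs0 : 0 ≤ s := div_nonneg (by linarith) (by linarith)
      have hs1 : s ≤ 1 := by rw [hs, div_le_one (by linarith)]; linarith
      have hη' : η = s * E + (1 - s) * E2 := by
        have : (E2 : ℝ) - E ≠ 0 := by linarith
        rw [hs]
        field_simp
        ring
      have hconv : η ^ 2 ≤ s * (E : ℝ) ^ 2 + (1 - s) * (E2 : ℝ) ^ 2 := by
        have : 0 ≤ s * (1 - s) * ((E : ℝ) - E2) ^ 2 := by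
          have : 0 ≤ 1 - s := by linarith
          positivity
        rw [hη']
        nlinarith
      have k1 := mul_le_mul_of_nonneg_left hrE hs0
      have k2 := mul_le_mul_of_nonneg_left hrE2 (show 0 ≤ 1 - s by linarith)
      have k3 : r0 * (4 * η ^ 2 + a * b) ≤ 2 * η * (b - a) := by
        have k4 : r0 * (4 * η ^ 2) ≤ r0 * (4 * (s * (E : ℝ) ^ 2 + (1 - s) * (E2 : ℝ) ^ 2)) := by gcongr
        have k5 : 2 * η * (b - a) = s * (2 * E * (b - a)) + (1 - s) * (2 * E2 * (b - a)) := by rw [hη']; ring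
        rw [k5]
        nlinarith
      nlinarith
  have e : ((slopeE D c E E2 : ℚ) : ℝ) =
      ∑ i ∈ D.M, (((upA ((aM D c i : ℚ) / (2 * E)) : ℚ) : ℝ) + ((upA ((bb D c i : ℚ) / (2 * E)) : ℚ) : ℝ)) -
      ∑ i ∈ D.P, ((loA (min (rr D c E i) (rr D c E2 i)) : ℚ) : ℝ) := by
    unfold slopeE
    rw [Rat.cast_sub, Rat.cast_sum, Rat.cast_sum]
    congr 1
    exact Finset.sum_congr rfl fun i _ => by rw [Rat.cast_add]
  rw [e, AAG]
  linarith

theorem AAG_le_of_ge {c : ℕ} (hP1 : ∀ i ∈ D.P, 2 * c + 1 < 2 * D.h i)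
    (hP2 : ∀ i ∈ D.P, 2 * D.h i < D.C)
    {E2 : ℕ} (hE0 : 0 < E2) {η : ℝ} (h1 : (E2 : ℝ) ≤ η) :
    AAG D c η ≤ (slopeE2 D c E2 : ℚ) := by
  have hE0' : (0 : ℝ) < E2 := by exact_mod_cast hE0
  have hη : 0 < η := hE0'.trans_le h1
  have sM : ∑ i ∈ D.M, (arctan ((aM D c i : ℝ) / 2 / η) + arctan ((bb D c i : ℝ) / 2 / η)) ≤
      ∑ i ∈ D.M, (((upA ((aM D c i : ℚ) / (2 * E2)) : ℚ) : ℝ) + ((upA ((bb D c i : ℚ) / (2 * E2)) : ℚ) : ℝ)) := by
    refine Finset.sum_le_sum fun i _ => ?_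
    have key : ∀ a : ℕ, arctan ((a : ℝ) / 2 / η) ≤ ((upA ((a : ℚ) / (2 * E2)) : ℚ) : ℝ) := by
      intro a
      have e1 := arctan_le_upA (x := (a : ℚ) / (2 * E2)) (by positivity)
      refine le_trans (arctan_mono ?_) e1
      push_cast
      rw [div_div]
      gcongr
    exact add_le_add (key _) (key _)
  have sP : ∑ i ∈ D.P, (arctan ((aP D c i : ℝ) / 2 / η) - arctan ((bb D c i : ℝ) / 2 / η)) ≤ 0 := by
    refine Finset.sum_nonpos fun i hi => ?_
    have g2 : aP D c i ≤ bb D c i := by have := hP1 i hi; have := hP2 i hi; unfold aP bb; omega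
    have g2' : (aP D c i : ℝ) ≤ bb D c i := by exact_mod_cast g2
    rw [sub_nonpos]
    exact arctan_mono (by gcongr)
  have e : ((slopeE2 D c E2 : ℚ) : ℝ) =
      ∑ i ∈ D.M, (((upA ((aM D c i : ℚ) / (2 * E2)) : ℚ) : ℝ) + ((upA ((bb D c i : ℚ) / (2 * E2)) : ℚ) : ℝ)) := by
    unfold slopeE2
    rw [Rat.cast_sum]
    exact Finset.sum_congr rfl fun i _ => by rw [Rat.cast_add]
  rw [e, AAG]
  linarith

theorem AAG_le_slope {c u v : ℕ} (hu : 0 < u) (hv : 0 < v) : AAG D c ((u : ℝ) / v) ≤ (slopeG D c u v : ℚ) := by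
  have hu' : (0 : ℝ) < u := by exact_mod_cast hu
  have hv' : (0 : ℝ) < v := by exact_mod_cast hv
  have harg : ∀ a : ℕ, (a : ℝ) / 2 / ((u : ℝ) / v) = (((a : ℚ) * v / (2 * u) : ℚ) : ℝ) := by
    intro a
    push_cast
    field_simp
  have hup : ∀ a : ℕ, arctan ((a : ℝ) / 2 / ((u : ℝ) / v)) ≤ ((upA ((a : ℚ) * v / (2 * u)) : ℚ) : ℝ) := by
    intro a
    rw [harg]
    exact arctan_le_upA (by positivity)
  have hlo : ∀ a : ℕ, ((loA ((a : ℚ) * v / (2 * u)) : ℚ) : ℝ) ≤ arctan ((a : ℝ) / 2 / ((u : ℝ) / v)) := by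
    intro a
    rw [harg]
    exact loA_le_arctan (by positivity)
  unfold AAG slopeG
  rw [Rat.cast_add, Rat.cast_sum, Rat.cast_sum]
  refine add_le_add (Finset.sum_le_sum fun i _ => ?_) (Finset.sum_le_sum fun i _ => ?_)
  · rw [Rat.cast_sub]
    exact sub_le_sub (hup _) (hlo _)
  · rw [Rat.cast_add]
    exact add_le_add (hup _) (hup _)

/-- The one variable inequality from certificates. -/
theorem ineqG {c u v Q E E2 : ℕ} {d : ℚ} (hu : 0 < u) (hv : 0 < v) (huE : u ≤ v * E) (hEE : E ≤ E2)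
    (hP1 : ∀ i ∈ D.P, 2 * c + 1 < 2 * D.h i)
    (hP2 : ∀ i ∈ D.P, 2 * D.h i < D.C) (hM : ∀ i ∈ D.M, 2 * D.h i < 2 * c + 1) (hC : 2 * c + 1 < D.C)
    (hE : ∀ i ∈ D.P, 4 * E ^ 2 ≤ aP D c i * bb D c i)
    (hcert : numG D c u v * 27182818286 ^ Q ≤ denG D c u v * 10000000000 ^ Q)
    (hs1 : slopeG D c u v ≤ 62830 / 10000 - d) (hs2 : slopeE D c E E2 ≤ 62830 / 10000 - d)
    (hs3 : slopeE2 D c E2 ≤ 62830 / 10000 - d) :
    ∀ η : ℝ, 0 < η → GGG D c η - 2 * π * η ≤ -((Q : ℝ) / 4) - (d : ℝ) * η := by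
  have hu' : (0 : ℝ) < u := by exact_mod_cast hu
  have hv' : (0 : ℝ) < v := by exact_mod_cast hv
  have hE0 : 0 < E := by
    rcases Nat.eq_zero_or_pos E with h | h
    · subst h; omega
    · exact h
  have hE0' : (0 : ℝ) < E := by exact_mod_cast hE0
  have hpi := pi_gt_d4
  have hds : ∀ q : ℚ, q ≤ 62830 / 10000 - d → (q : ℝ) ≤ 2 * π - d := by
    intro q hq
    have h1 : (q : ℝ) ≤ ((62830 / 10000 - d : ℚ) : ℝ) := by exact_mod_cast hq
    push_cast at h1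
    linarith
  have hPlt : ∀ i ∈ D.P, aP D c i < bb D c i := fun i hi => by
    have := hP1 i hi; have := hP2 i hi; unfold aP bb; omega
  have hMpos : ∀ i ∈ D.M, 0 < aM D c i := fun i hi => by
    have := hM i hi; unfold aM; omega
  have small : ∀ η : ℝ, 0 < η → η ≤ E → GGG D c η - 2 * π * η ≤ -((Q : ℝ) / 4) - (d : ℝ) * η := by
    intro η h0 h1
    have heE : (u : ℝ) / v ≤ E := by
      rw [div_le_iff₀ hv', mul_comm]
      exact_mod_cast huE
    have e1 := GGG_small D hP1 hP2 hM hC hE (e := (u : ℝ) / v) (by positivity) heE h0 h1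
    have e2 := LLG_le D hu hv hPlt hMpos hcert
    have e3 := mul_le_mul_of_nonneg_left ((AAG_le_slope D hu hv (c := c)).trans (hds _ hs1)) h0.le
    linarith
  intro η h0
  rcases le_or_gt η E with h1 | h1
  · exact small η h0 h1
  · have hanti : AntitoneOn (fun x => GGG D c x - 2 * π * x + d * x) (Ici (E : ℝ)) := by
      have hd : ∀ y : ℝ, (E : ℝ) ≤ y → HasDerivAt (fun x => GGG D c x - 2 * π * x + d * x)
          (AAG D c y - 2 * π * 1 + d * 1) y :=
        fun y hy => ((hasDerivAt_GGG D hP1 hP2 hM hC (hE0'.trans_le hy)).sub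
          ((hasDerivAt_id y).const_mul (2 * π))).add ((hasDerivAt_id y).const_mul (d : ℝ))
      apply antitoneOn_of_deriv_nonpos (convex_Ici _)
      · exact fun y hy => (hd y hy).continuousAt.continuousWithinAt
      · intro y hy
        rw [interior_Ici] at hy
        exact (hd y (le_of_lt hy)).differentiableAt.differentiableWithinAt
      · intro y hy
        rw [interior_Ici] at hy
        rw [(hd y (le_of_lt hy)).deriv]
        have hy' : (E : ℝ) < y := hy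
        have : AAG D c y ≤ 2 * π - d := by
          rcases le_or_gt y E2 with h2 | h2
          · exact (AAG_le_of_mem D hP1 hP2 hE0 hy'.le h2).trans (hds _ hs2)
          · exact (AAG_le_of_ge D hP1 hP2 (by omega) h2.le).trans (hds _ hs3)
        linarith
    have e1 := hanti (show (E : ℝ) ∈ Ici (E : ℝ) by simp) (show η ∈ Ici (E : ℝ) from h1.le) h1.le
    have e2 := small E hE0' le_rfl
    simp only at e1
    linarith

end Pool.Agent.OddZetaG
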