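import Mathlib

/-!
Packed counting: all values `cnt D t - cnt U t`, `t < b`, as base-256 digits of one number.
Seat: helper57.
-/

open Finset

namespace Pool.Agent.OddZetaG.Tab

/-- number of elements `≤ t` -/
def cn (l : List ℕ) (t : ℕ) : ℤ := (l.map fun u => if u ≤ t then (1 : ℤ) else 0).sum

def spw (l : List ℕ) : ℕ := l.foldr (fun u s => 256 ^ u + s) 0

/-- packed number -/
def Xb (b cu cd : ℕ) (u dd : List ℕ) : ℕ :=
  ((128 + cd) * (256 ^ b - 1) + dd.length * 256 ^ b + spw u -
    (cu * (256 ^ b - 1) + u.length * 256 ^ b + spw dd)) / 255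

theorem cn_nonneg (l : List ℕ) (t : ℕ) : 0 ≤ cn l t := by
  unfold cn
  induction l with
  | nil => simp
  | cons u l ih =>
    simp only [List.map_cons, List.sum_cons]
    split_ifs <;> omega

theorem cn_le (l : List ℕ) (t : ℕ) : cn l t ≤ l.length := by
  unfold cn
  induction l with
  | nil => simp
  | cons u l ih =>
    simp only [List.map_cons, List.sum_cons, List.length_cons]
    push_cast
    split_ifs <;> omega

theorem sum_J (u : ℕ) : ∀ b : ℕ, u ≤ b →
    ∑ t ∈ Finset.range b, (if u ≤ t then (1 : ℤ) else 0) * (255 * 256 ^ t) = 256 ^ b - 256 ^ u := by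
  intro b hb
  induction b, hb using Nat.le_induction with
  | base =>
    rw [sub_self]
    apply Finset.sum_eq_zero
    intro t ht
    rw [Finset.mem_range] at ht
    rw [if_neg (by omega), zero_mul]
  | succ b hb ih =>
    rw [Finset.sum_range_succ, ih, if_pos hb]
    ring

theorem sum_cn (l : List ℕ) (b : ℕ) (hl : ∀ u ∈ l, u ≤ b) :
    ∑ t ∈ Finset.range b, cn l t * (255 * 256 ^ t) = l.length * 256 ^ b - (spw l : ℤ) := by
  induction l with
  | nil => simp [cn, spw]
  | cons u l ih =>
    have h1 : ∀ t, cn (u :: l) t = (if u ≤ t then (1 : ℤ) else 0) + cn l t := by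
      intro t
      simp [cn]
    have h2 : spw (u :: l) = 256 ^ u + spw l := rfl
    simp only [h1, add_mul]
    rw [Finset.sum_add_distrib, sum_J u b (hl u (by simp)), ih (fun x hx => hl x (by simp [hx])), h2,
      List.length_cons]
    push_cast
    ring

theorem sum_one (b : ℕ) : ∑ t ∈ Finset.range b, (255 * 256 ^ t : ℤ) = 256 ^ b - 1 := by
  have := sum_J 0 b (Nat.zero_le b)
  simpa using this

theorem low_lt (g : ℕ → ℕ) (hg : ∀ t, g t < 256) (s : ℕ) :
    ∑ t ∈ Finset.range s, g t * 256 ^ t < 256 ^ s := by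
  induction s with
  | zero => simp
  | succ s ih =>
    rw [Finset.sum_range_succ, pow_succ]
    have := hg s
    have h2 : g s * 256 ^ s ≤ 255 * 256 ^ s := Nat.mul_le_mul_right _ (by omega)
    omega

theorem digit (g : ℕ → ℕ) (hg : ∀ t, g t < 256) (b s : ℕ) (hs : s < b) :
    (∑ t ∈ Finset.range b, g t * 256 ^ t) / 256 ^ s % 256 = g s := by
  have h1 : ∃ q, ∑ t ∈ Finset.range b, g t * 256 ^ t =
      ∑ t ∈ Finset.range (s + 1), g t * 256 ^ t + 256 ^ (s + 1) * q := by
    clear hg
    induction b, hs using Nat.le_induction with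
    | base => exact ⟨0, by simp⟩
    | succ b hb ih =>
      obtain ⟨q, hq⟩ := ih
      refine ⟨q + g b * 256 ^ (b - (s + 1)), ?_⟩
      rw [Finset.sum_range_succ, hq]
      have : (256 : ℕ) ^ b = 256 ^ (s + 1) * 256 ^ (b - (s + 1)) := by
        rw [← pow_add, Nat.add_sub_cancel' hb]
      rw [this]
      ring
  obtain ⟨q, hq⟩ := h1
  rw [hq, Finset.sum_range_succ]
  have h2 := low_lt g hg s
  generalize ∑ t ∈ Finset.range s, g t * 256 ^ t = A at *
  have h3 : A + g s * 256 ^ s + 256 ^ (s + 1) * q = A + 256 ^ s * (g s + 256 * q) := by ring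
  rw [h3, Nat.add_mul_div_left _ _ (by positivity), Nat.div_eq_of_lt h2, zero_add,
    Nat.add_mul_mod_self_left, Nat.mod_eq_of_lt (hg s)]

theorem Xb_digit {b cu cd : ℕ} {u dd : List ℕ} (hu : ∀ x ∈ u, x ≤ b) (hd : ∀ x ∈ dd, x ≤ b)
    (h1 : cu + u.length ≤ 128) (h2 : cd + dd.length < 128) {t : ℕ} (ht : t < b) :
    ((Xb b cu cd u dd / 256 ^ t % 256 : ℕ) : ℤ) = 128 + cd + cn dd t - cu - cn u t := by
  set g : ℕ → ℕ := fun t => (128 + cd + cn dd t - cu - cn u t).toNat with hg
  have hg0 : ∀ t, ((g t : ℕ) : ℤ) = 128 + cd + cn dd t - cu - cn u t := by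
    intro t
    rw [hg]
    simp only
    apply Int.toNat_of_nonneg
    have := cn_nonneg dd t
    have := cn_le u t
    omega
  have hg1 : ∀ t, g t < 256 := by
    intro t
    have := hg0 t
    have := cn_le dd t
    have := cn_nonneg u t
    omega
  have hX : Xb b cu cd u dd = ∑ t ∈ Finset.range b, g t * 256 ^ t := by
    unfold Xb
    apply Nat.div_eq_of_eq_mul_left (by norm_num)
    have hpow : 1 ≤ 256 ^ b := Nat.one_le_pow _ _ (by norm_num)
    have key : ((∑ t ∈ Finset.range b, g t * 256 ^ t : ℕ) : ℤ) * 255 =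
        (128 + cd) * (256 ^ b - 1) + dd.length * 256 ^ b + spw u -
          (cu * (256 ^ b - 1) + u.length * 256 ^ b + spw dd) := by
      push_cast
      simp only [hg0]
      rw [Finset.sum_mul]
      have e : ∀ t ∈ Finset.range b, (128 + (cd : ℤ) + cn dd t - cu - cn u t) * 256 ^ t * 255 =
          (128 + cd - cu) * (255 * 256 ^ t) + cn dd t * (255 * 256 ^ t) - cn u t * (255 * 256 ^ t) := by
        intro t _
        ring
      rw [Finset.sum_congr rfl e, Finset.sum_sub_distrib, Finset.sum_add_distrib, ← Finset.mul_sum,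
        sum_one, sum_cn _ _ hu, sum_cn _ _ hd]
      ring
    have key2 : (((128 + cd) * (256 ^ b - 1) + dd.length * 256 ^ b + spw u : ℕ) : ℤ) =
        ((cu * (256 ^ b - 1) + u.length * 256 ^ b + spw dd : ℕ) : ℤ) +
          ((∑ t ∈ Finset.range b, g t * 256 ^ t : ℕ) : ℤ) * 255 := by
      rw [key]
      push_cast [Nat.cast_sub hpow]
      ring
    have key3 : (128 + cd) * (256 ^ b - 1) + dd.length * 256 ^ b + spw u =
        (cu * (256 ^ b - 1) + u.length * 256 ^ b + spw dd) +
          (∑ t ∈ Finset.range b, g t * 256 ^ t) * 255 := by exact_mod_cast key2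
    rw [key3, Nat.add_sub_cancel_left]
  rw [hX, digit g hg1 b t ht, hg0]

end Pool.Agent.OddZetaG.Tab
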