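import Pool.Agent.OddZetaG.TabSound

/-!
Generic finite table: the explicit range (small `n / p`).  Seat: helper57.
-/

open Finset

namespace Pool.Agent.OddZetaG.Tab

def stb (a b t h : ℕ) : ℕ := cond (Nat.ble ((h * a) % b) t) 1 0
def enb (C a b t h : ℕ) : ℕ := cond (Nat.ble (((C - h) * a) % b) t) 1 0
def noPb (C a b Y t h : ℕ) : Bool :=
  Nat.ble (((C - h) * a) / b + stb a b t h) ((h * a) / b + enb C a b t h) ||
    (Nat.ble ((h * a) / b + 1) (Y + stb a b t h) && (Nat.ble (Y + enb C a b t h) (((C - h) * a) / b)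
      && Nat.ble (((C - h) * a) / b + stb a b t h) ((h * a) / b + 1 + enb C a b t h)))
def sFl (a b : ℕ) (l : List ℕ) : ℕ := l.foldr (fun h s => (h * a) / b + s) 0
def sFl' (C a b : ℕ) (l : List ℕ) : ℕ := l.foldr (fun h s => ((C - h) * a) / b + s) 0
def okF (C k s lo : ℕ) (PL ML : List ℕ) (a b d X Y t : ℕ) : Bool :=
  !(Nat.ble ((lo * a) / b + 1) (Y + stb a b t lo) &&
    Nat.ble (Y + enb C a b t lo) (((C - lo) * a) / b)) ||
  (okt C PL ML a b X t ||
  (Nat.ble (Y + stb a b t s) ((s * a) / b + 1) &&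
    (Nat.ble 127 (X / 256 ^ t % 256 + k) ||
      (Nat.ble (sFl' C a b ML + sFl a b PL + kabS C a b PL)
          (d + sFl' C a b PL + sFl a b ML + kabS C a b ML)
        && PL.all (noPb C a b Y t)))))
def okFull (C k s lo : ℕ) (PL ML : List ℕ) (Ym a b d : ℕ) : Bool :=
  (List.range (Ym + 1)).all fun Y => (Ol C PL ML).all fun o =>
    okF C k s lo PL ML a b d (XX C k PL ML a b d) Y ((o * a) % b)

theorem stb_eq (a b t h : ℕ) : (stb a b t h : ℤ) = St a b t h := by
  unfold stb St al
  rw [cond_ble]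
  push_cast
  rfl

theorem enb_eq (C a b t h : ℕ) : (enb C a b t h : ℤ) = En C a b t h := by
  unfold enb En al
  rw [cond_ble]
  push_cast
  rfl

theorem sFl_eq (a b : ℕ) (l : List ℕ) : (sFl a b l : ℤ) = (l.map fun h => (fl a b h : ℤ)).sum := by
  induction l with
  | nil => rfl
  | cons u l ih =>
    have : sFl a b (u :: l) = (u * a) / b + sFl a b l := rfl
    rw [this, List.map_cons, List.sum_cons, ← ih]
    unfold fl
    push_cast
    ring

theorem sFl'_eq (C a b : ℕ) (l : List ℕ) :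
    (sFl' C a b l : ℤ) = (l.map fun h => (fl a b (C - h) : ℤ)).sum := by
  induction l with
  | nil => rfl
  | cons u l ih =>
    have : sFl' C a b (u :: l) = ((C - u) * a) / b + sFl' C a b l := rfl
    rw [this, List.map_cons, List.sum_cons, ← ih]
    unfold fl
    push_cast
    ring

variable {D : Dat} {PL ML : List ℕ}

theorem mem_blk_iff {n l p h : ℕ} (hp : 0 < p) (hh : 2 * h < D.C) :
    l ∈ blk D n h ↔ 0 ≤ fA n l p h ∧ 0 ≤ fB D n l p h := by
  have hp' : (0 : ℤ) < p := by exact_mod_cast hp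
  unfold blk fA fB
  rw [Finset.mem_Icc, Int.ediv_nonneg_iff_of_pos hp', Int.ediv_nonneg_iff_of_pos hp']
  have h1 : (((D.C - h) * n : ℕ) : ℤ) = (D.C - h : ℤ) * n := by
    rw [Nat.cast_mul, Nat.cast_sub (by omega)]
  rw [← h1]
  have h2 : ((h * n : ℕ) : ℤ) = (h : ℤ) * n := by push_cast; ring
  rw [← h2]
  omega

theorem bnd_full (hL : Lists D PL ML) (hs : D.s ∈ PL) (hlo : D.lo ∈ PL) {n p a b : ℕ} (l : ℕ)
    (hp : 0 < p) (hb : 0 < b) (hnp : n < p)
    (hS : Same D.C (n % p) p a b) (hl : l ∈ poles D n) {Ym : ℕ} (hY : l / p ≤ Ym) (d : ℕ)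
    (hr : room D.k PL ML d = true)
    (hd : okFull D.C D.k D.s D.lo PL ML Ym a b d = true) : bnd D n l p ≤ d := by
  have hp' : (0 : ℤ) < p := by exact_mod_cast hp
  obtain ⟨o, ho, H⟩ := key hL l hp hb hS
  have h1 := ord_sub_V_eq hL H
  have h2 : selfA D.C PL ML a b (al a b o) → selfP D n l p := selfP_of hL H
  have hN : n / p = 0 := Nat.div_eq_of_lt hnp
  unfold Match at H
  rw [hN] at H
  simp only [Nat.cast_zero, mul_zero, sub_zero, add_zero] at H
  have hslo : D.s ∈ PL ++ ML := List.mem_append_left _ hs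
  have hllo : D.lo ∈ PL ++ ML := List.mem_append_left _ hlo
  have hloC := hL.lt _ hllo
  have hsC := hL.lt _ hslo
  -- the check at this `Y`, `o`
  have hok : okF D.C D.k D.s D.lo PL ML a b d (XX D.C D.k PL ML a b d) (l / p) (al a b o) = true := by
    unfold okFull at hd
    rw [List.all_eq_true] at hd
    have h3 := hd (l / p) (List.mem_range.2 (by omega))
    rw [List.all_eq_true] at h3
    exact h3 o ho
  obtain ⟨A28, B28, -⟩ := H D.lo hllo
  obtain ⟨A25, B25, -⟩ := H D.s hslo
  have hl28 : l ∈ blk D n D.lo := hl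
  rw [mem_blk_iff hp hloC] at hl28
  have hdig := XX_digit (C := D.C) (PL := PL) (ML := ML) (a := a) hr
    (show al a b o < b from Nat.mod_lt _ hb)
  unfold okF at hok
  rw [Bool.or_eq_true, Bool.or_eq_true, Bool.and_eq_true, Bool.or_eq_true, Bool.and_eq_true,
    Bool.not_eq_true', Bool.and_eq_false_iff, List.all_eq_true] at hok
  rcases hok with hok | hok | ⟨hok1, hok2⟩
  · exfalso
    have e1 := stb_eq a b (al a b o) D.lo
    have e2 := enb_eq D.C a b (al a b o) D.lo
    rw [A28, B28, ← e1, ← e2] at hl28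
    unfold fl at hl28
    rcases hok with hok | hok
    · have : ¬ ((D.lo * a) / b + 1 ≤ l / p + stb a b (al a b o) D.lo) := by
        intro h3
        rw [Nat.ble_eq_true_of_le h3] at hok
        exact Bool.noConfusion hok
      omega
    · have : ¬ (l / p + enb D.C a b (al a b o) D.lo ≤ ((D.C - D.lo) * a) / b) := by
        intro h3
        rw [Nat.ble_eq_true_of_le h3] at hok
        exact Bool.noConfusion hok
      omega
  · have h3 := okt_spec hL hr (show al a b o < b from Nat.mod_lt _ hb) hok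
    unfold bnd
    rcases h3 with h3 | ⟨h3, h4⟩
    · split_ifs <;> omega
    · have := h2 h3
      split_ifs <;> omega
  · have e1 := stb_eq a b (al a b o) D.s
    have h3 := Nat.le_of_ble_eq_true hok1
    have h4 : fA n l p D.s < 1 := by
      rw [A25, ← e1]
      unfold fl
      omega
    have h5 : ¬ p ≤ l - D.s * n := by
      intro h5
      unfold fA at h4
      have h6 : ((l : ℤ) - (D.s : ℕ) * n) / p ≥ 1 := by
        apply Int.le_ediv_of_mul_le hp'
        have h7 : ((p : ℕ) : ℤ) ≤ ((l - D.s * n : ℕ) : ℤ) := by exact_mod_cast h5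
        have h8 : D.s * n ≤ l := by omega
        rw [Nat.cast_sub h8] at h7
        push_cast at h7
        linarith
      omega
    unfold bnd
    rw [if_neg h5]
    rcases hok2 with h6 | ⟨h6, h7⟩
    · have h8 := Nat.le_of_ble_eq_true h6
      split_ifs <;> omega
    · have hno : noP D n l p := by
        intro i hi
        have hh' : D.h i ∈ PL := h_mem_P hL hi
        have hh : D.h i ∈ PL ++ ML := List.mem_append_left _ hh'
        obtain ⟨Ah, Bh, -⟩ := H _ hh
        have h10 := h7 _ hh'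
        have hblk := mem_blk_iff (D := D) (n := n) (l := l) hp (hL.lt _ hh)
        have e1 := stb_eq a b (al a b o) (D.h i)
        have e2 := enb_eq D.C a b (al a b o) (D.h i)
        unfold noPb at h10
        rw [Bool.or_eq_true, Bool.and_eq_true, Bool.and_eq_true] at h10
        unfold cnt
        rw [Ah, Bh] at hblk ⊢
        unfold fl at hblk ⊢
        rcases h10 with h10 | ⟨h10, h11, h12⟩
        · have h13 := Nat.le_of_ble_eq_true h10
          split_ifs with hc
          · rw [hblk] at hc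
            omega
          · omega
        · have h10 := Nat.le_of_ble_eq_true h10
          have h11 := Nat.le_of_ble_eq_true h11
          have h12 := Nat.le_of_ble_eq_true h12
          rw [if_pos (hblk.2 (by omega))]
          omega
      rw [if_pos hno]
      apply le_trans (min_le_right _ _)
      have h8 := Nat.le_of_ble_eq_true h6
      have hE : E0 D n p = (kabS D.C a b ML : ℤ) + sFl' D.C a b PL + sFl a b ML - kabS D.C a b PL
          - sFl' D.C a b ML - sFl a b PL := by
        unfold E0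
        have g : ∀ s : Finset ℕ, s ⊆ D.P ∪ D.M → ∑ i ∈ s, ((Nl D n (D.h i) / p : ℕ) : ℤ) =
            ∑ i ∈ s, ((fl a b (D.C - D.h i) : ℤ) - fl a b (D.h i) - ka D.C a b (D.h i)) := by
          intro s hs
          apply Finset.sum_congr rfl
          intro i hi
          exact (H _ (h_mem hL (hs hi))).2.2
        rw [g _ Finset.subset_union_left, g _ Finset.subset_union_right]
        rw [sumP hL (fun h => (fl a b (D.C - h) : ℤ) - fl a b h - ka D.C a b h),
          sumM hL (fun h => (fl a b (D.C - h) : ℤ) - fl a b h - ka D.C a b h)]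
        have hP : ∀ l : List ℕ, (l.map fun h => (fl a b (D.C - h) : ℤ) - fl a b h - ka D.C a b h).sum =
            (sFl' D.C a b l : ℤ) - sFl a b l - kabS D.C a b l := by
          intro l
          rw [sFl'_eq, sFl_eq, kabS_eq]
          induction l with
          | nil => rfl
          | cons x l ih =>
            simp only [List.map_cons, List.sum_cons]
            rw [ih]
            ring
        rw [hP, hP]
        ring
      rw [hE]
      omega

/-! ### cells, chains, the table -/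

/-- check of one cell, periodic range -/
def okCell (C k : ℕ) (PL ML : List ℕ) (e : ℕ × ℕ × ℕ × ℕ × ℕ) : Bool :=
  sameb C e.1 e.2.1 e.2.2.1 e.2.2.2.1 && (room k PL ML e.2.2.2.2 &&
    okPer C k PL ML (e.1 + e.2.2.1) (e.2.1 + e.2.2.2.1) e.2.2.2.2)

/-- check of one cell, explicit range -/
def okCellF (C k s lo : ℕ) (PL ML : List ℕ) (Ym : ℕ) (e : ℕ × ℕ × ℕ × ℕ × ℕ) : Bool :=
  sameb C e.1 e.2.1 e.2.2.1 e.2.2.2.1 && (room k PL ML e.2.2.2.2 &&
    okFull C k s lo PL ML Ym (e.1 + e.2.2.1) (e.2.1 + e.2.2.2.1) e.2.2.2.2)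

/-- the cells of a list are consecutive, from `s1 / s2` to `t1 / t2` -/
def chain : ℕ → ℕ → List (ℕ × ℕ × ℕ × ℕ × ℕ) → ℕ → ℕ → Bool
  | s1, s2, [], t1, t2 => Nat.beq s1 t1 && Nat.beq s2 t2
  | s1, s2, e :: l, t1, t2 => Nat.beq e.1 s1 && (Nat.beq e.2.1 s2 && chain e.2.2.1 e.2.2.2.1 l t1 t2)

theorem cover (l : List (ℕ × ℕ × ℕ × ℕ × ℕ)) : ∀ (s1 s2 t1 t2 : ℕ), chain s1 s2 l t1 t2 = true →
    ∀ q p : ℕ, s1 * p ≤ q * s2 → q * t2 < t1 * p →
      ∃ e ∈ l, e.1 * p ≤ q * e.2.1 ∧ q * e.2.2.2.1 < e.2.2.1 * p := by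
  induction l with
  | nil =>
    intro s1 s2 t1 t2 h q p h1 h2
    unfold chain at h
    rw [Bool.and_eq_true] at h
    have e1 := Nat.eq_of_beq_eq_true h.1
    have e2 := Nat.eq_of_beq_eq_true h.2
    subst e1 e2
    omega
  | cons e l ih =>
    intro s1 s2 t1 t2 h q p h1 h2
    unfold chain at h
    rw [Bool.and_eq_true, Bool.and_eq_true] at h
    have e1 := Nat.eq_of_beq_eq_true h.1
    have e2 := Nat.eq_of_beq_eq_true h.2.1
    by_cases hc : q * e.2.2.2.1 < e.2.2.1 * p
    · exact ⟨e, by simp, by rw [e1, e2]; exact h1, hc⟩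
    · obtain ⟨e', he', h3⟩ := ih _ _ _ _ h.2.2 q p (not_lt.1 hc) h2
      exact ⟨e', by simp [he'], h3⟩

/-- scaled upper bound of `d * (1 / x0 - 1 / x1)` -/
def ub (N : ℕ) (e : ℕ × ℕ × ℕ × ℕ × ℕ) : ℕ :=
  e.2.2.2.2 * (1000000000 * e.2.1 / (N * e.2.1 + e.1) + 1 -
    1000000000 * e.2.2.2.1 / (N * e.2.2.2.1 + e.2.2.1))

def sumUb (N : ℕ) (l : List (ℕ × ℕ × ℕ × ℕ × ℕ)) : ℕ := l.foldr (fun e s => ub N e + s) 0

end Pool.Agent.OddZetaG.Tab
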