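import Pool.Agent.OddZetaG.TabFull
import Pool.Agent.OddZeta.PrimeSum

/-! Generic finite table: assembly and sum over primes.  Seat: helper57. -/

open Finset

namespace Pool.Agent.OddZetaG.Tab

open Pool.Agent.OddZeta (tabVal tabInt sum_primes_le)

/-- a cell, shifted by `N`, as an entry of the table -/
def toQ (N : ℕ) (e : ℕ × ℕ × ℕ × ℕ × ℕ) : ℚ × ℚ × ℕ :=
  ((N : ℚ) + (e.1 : ℚ) / e.2.1, (N : ℚ) + (e.2.2.1 : ℚ) / e.2.2.2.1, e.2.2.2.2)

/-- the table on `[1 / C, c + 1)` -/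
def tab (T0 T1a T1b : List (ℕ × ℕ × ℕ × ℕ × ℕ)) (c : ℕ) : List (ℚ × ℚ × ℕ) :=
  T0.map (toQ 0) ++ (T1b.map (toQ 0) ++ (List.range c).flatMap fun i => (T1a ++ T1b).map (toQ (i + 1)))

theorem tabVal_ge {t : List (ℚ × ℚ × ℕ)} {e : ℚ × ℚ × ℕ} (he : e ∈ t) {n p : ℕ}
    (h0 : e.1 * (p : ℚ) ≤ (n : ℚ)) (h1 : (n : ℚ) < e.2.1 * (p : ℚ)) : e.2.2 ≤ tabVal t n p := by
  unfold tabVal
  apply List.le_sum_of_mem
  rw [List.mem_map]
  exact ⟨e, he, by rw [if_pos ⟨h0, h1⟩]⟩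

theorem toQ_cond {e : ℕ × ℕ × ℕ × ℕ × ℕ} (hb1 : 0 < e.2.1) (hb2 : 0 < e.2.2.2.1) {n p N : ℕ}
    (hN : n / p = N) (h1 : e.1 * p ≤ (n % p) * e.2.1) (h2 : (n % p) * e.2.2.2.1 < e.2.2.1 * p) :
    (toQ N e).1 * (p : ℚ) ≤ (n : ℚ) ∧ (n : ℚ) < (toQ N e).2.1 * (p : ℚ) := by
  have h0 : (n : ℚ) = p * N + ((n % p : ℕ) : ℚ) := by
    have := (Nat.div_add_mod n p).symm
    rw [hN] at this
    exact_mod_cast this
  have hb1' : (0 : ℚ) < e.2.1 := by exact_mod_cast hb1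
  have hb2' : (0 : ℚ) < e.2.2.2.1 := by exact_mod_cast hb2
  have h1' : (e.1 : ℚ) * p ≤ ((n % p : ℕ) : ℚ) * e.2.1 := by exact_mod_cast h1
  have h2' : ((n % p : ℕ) : ℚ) * e.2.2.2.1 < (e.2.2.1 : ℚ) * p := by exact_mod_cast h2
  unfold toQ
  simp only
  rw [h0]
  constructor
  · have : (e.1 : ℚ) / e.2.1 * p ≤ ((n % p : ℕ) : ℚ) := by
      rw [div_mul_eq_mul_div, div_le_iff₀ hb1']
      exact h1'
    linarith
  · have : ((n % p : ℕ) : ℚ) < (e.2.2.1 : ℚ) / e.2.2.2.1 * p := by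
      rw [div_mul_eq_mul_div, lt_div_iff₀ hb2']
      exact h2'
    linarith

variable {D : Dat} {PL ML : List ℕ} {T0 T1a T1b : List (ℕ × ℕ × ℕ × ℕ × ℕ)}

theorem bnd_tab (hL : Lists D PL ML) (hs : D.s ∈ PL) (hlo : D.lo ∈ PL) {u v Ym c : ℕ}
    (_huv : u ≤ v) (_hv : 0 < v) (hY : (D.C - D.lo) * u ≤ (Ym + 1) * v)
    (h0 : ∀ e ∈ T0, okCellF D.C D.k D.s D.lo PL ML Ym e = true)
    (h1 : ∀ e ∈ T1a ++ T1b, okCell D.C D.k PL ML e = true)
    (c0 : chain 1 D.C T0 u v = true) (c1b : chain u v T1b 1 1 = true)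
    (c1 : chain 0 1 (T1a ++ T1b) 1 1 = true)
    {n p l : ℕ} (hn : n.Prime) (hp : p.Prime) (hne : p ≠ n) (hnC : D.C < n)
    (hp1 : D.C * n < p ^ 2) (hp2 : p ≤ D.C * n) (hl : l ∈ poles D n) :
    bnd D n l p ≤ ((tabVal (tab T0 T1a T1b c) n p +
      (if (c + 1) * p ≤ n then PL.length + D.k else 0) : ℕ) : ℤ) := by
  have hp0 : 0 < p := hp.pos
  have hpC : D.C < p := by
    by_contra hcon
    rw [not_lt] at hcon
    have : p ^ 2 ≤ D.C * n := by
      rw [pow_two]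
      exact Nat.mul_le_mul hcon (hcon.trans hnC.le)
    omega
  have hnm : ∀ k, 0 < k → k ≤ D.C → (k * (n % p)) % p ≠ 0 := by
    intro k hk0 hk h0
    have hd : p ∣ k * (n % p) := Nat.dvd_of_mod_eq_zero h0
    rcases (Nat.Prime.dvd_mul hp).1 hd with h3 | h3
    · have := Nat.le_of_dvd hk0 h3
      omega
    · have h4 : p ∣ n := by
        rw [Nat.dvd_mod_iff dvd_rfl] at h3
        exact h3
      exact hne ((Nat.prime_dvd_prime_iff_eq hp hn).1 h4)
  by_cases h10 : (c + 1) * p ≤ n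
  · rw [if_pos h10]
    have := bnd_le_max hL (n := n) l hp0 hnm
    push_cast at this ⊢
    omega
  rw [if_neg h10, add_zero]
  have hN9 : n / p < c + 1 := by
    rw [Nat.div_lt_iff_lt_mul hp0]
    omega
  have hmod : n % p < p := Nat.mod_lt _ hp0
  have hcell : ∀ e ∈ T1a ++ T1b, e.1 * p ≤ (n % p) * e.2.1 →
      (n % p) * e.2.2.2.1 < e.2.2.1 * p → toQ (n / p) e ∈ tab T0 T1a T1b c →
      bnd D n l p ≤ ((tabVal (tab T0 T1a T1b c) n p : ℕ) : ℤ) := by
    intro e he d1 d2 hmem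
    have hok := h1 e he
    unfold okCell at hok
    rw [Bool.and_eq_true, Bool.and_eq_true] at hok
    obtain ⟨p1, p2, -⟩ := sameb_iff hok.1
    obtain ⟨hS, hb⟩ := same_of hok.1 d1 d2 hnm
    have h5 := bnd_per hL l hp0 hb hS (e.2.2.2.2 : ℤ) (okPer_spec hL hb hok.2.1 hok.2.2)
    obtain ⟨q1, q2⟩ := toQ_cond p1 p2 rfl d1 d2
    have h6 : e.2.2.2.2 ≤ tabVal (tab T0 T1a T1b c) n p := tabVal_ge hmem q1 q2
    have h6' : (e.2.2.2.2 : ℤ) ≤ (tabVal (tab T0 T1a T1b c) n p : ℤ) := by exact_mod_cast h6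
    exact h5.trans h6'
  by_cases hN : n / p = 0
  · have hnp : n < p := by
      rwa [Nat.div_eq_zero_iff_lt hp0] at hN
    have hmn : n % p = n := Nat.mod_eq_of_lt hnp
    by_cases h24 : n * v < u * p
    · obtain ⟨e, he, d1, d2⟩ := cover T0 1 D.C u v c0 n p (by linarith) h24
      have hok := h0 e he
      unfold okCellF at hok
      rw [Bool.and_eq_true, Bool.and_eq_true] at hok
      obtain ⟨p1, p2, -⟩ := sameb_iff hok.1
      rw [← hmn] at d1 d2
      obtain ⟨hS, hb⟩ := same_of hok.1 d1 d2 hnm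
      have hYm : l / p ≤ Ym := by
        have hl1 : l ≤ (D.C - D.lo) * n := (Finset.mem_Icc.1 hl).2
        have : l / p < Ym + 1 := by
          rw [Nat.div_lt_iff_lt_mul hp0]
          have hCl : 0 < D.C - D.lo := by
            have := hL.lt D.lo (List.mem_append_left _ hlo)
            omega
          have f1 : l * v ≤ (D.C - D.lo) * n * v := Nat.mul_le_mul_right _ hl1
          have f2 : (D.C - D.lo) * (n * v) < (D.C - D.lo) * (u * p) :=
            Nat.mul_lt_mul_of_pos_left h24 hCl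
          have f3 : (D.C - D.lo) * u * p ≤ (Ym + 1) * v * p := Nat.mul_le_mul_right _ hY
          have f4 : l * v < (Ym + 1) * p * v := by
            calc l * v ≤ (D.C - D.lo) * n * v := f1
              _ = (D.C - D.lo) * (n * v) := by ring
              _ < (D.C - D.lo) * (u * p) := f2
              _ = (D.C - D.lo) * u * p := by ring
              _ ≤ (Ym + 1) * v * p := f3
              _ = (Ym + 1) * p * v := by ring
          exact Nat.lt_of_mul_lt_mul_right f4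
        omega
      have h5 := bnd_full hL hs hlo l hp0 hb hnp hS hl hYm _ hok.2.1 hok.2.2
      obtain ⟨q1, q2⟩ := toQ_cond p1 p2 hN d1 d2
      have hmem : toQ 0 e ∈ tab T0 T1a T1b c := by
        unfold tab
        exact List.mem_append_left _ (List.mem_map_of_mem he)
      have h6 : e.2.2.2.2 ≤ tabVal (tab T0 T1a T1b c) n p := tabVal_ge hmem q1 q2
      have h6' : (e.2.2.2.2 : ℤ) ≤ (tabVal (tab T0 T1a T1b c) n p : ℤ) := by exact_mod_cast h6
      exact h5.trans h6'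
    · obtain ⟨e, he, d1, d2⟩ := cover T1b u v 1 1 c1b n p (not_lt.1 h24) (by omega)
      rw [← hmn] at d1 d2
      refine hcell e (List.mem_append_right _ he) d1 d2 ?_
      rw [hN]
      unfold tab
      exact List.mem_append_right _ (List.mem_append_left _ (List.mem_map_of_mem he))
  · obtain ⟨e, he, d1, d2⟩ := cover (T1a ++ T1b) 0 1 1 1 c1 (n % p) p (by omega) (by omega)
    refine hcell e he d1 d2 ?_
    unfold tab
    refine List.mem_append_right _ (List.mem_append_right _ ?_)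
    rw [List.mem_flatMap]
    refine ⟨n / p - 1, List.mem_range.2 (Nat.sub_one_lt_of_le (Nat.pos_of_ne_zero hN)
      (Nat.lt_succ_iff.1 hN9)), ?_⟩
    rw [Nat.sub_add_cancel (Nat.one_le_iff_ne_zero.2 hN)]
    exact List.mem_map_of_mem he

/-! ### the integral -/

theorem ub_spec {N : ℕ} {e : ℕ × ℕ × ℕ × ℕ × ℕ} (hb1 : 0 < e.2.1) (hb2 : 0 < e.2.2.2.1)
    (hlt : e.1 * e.2.2.2.1 < e.2.2.1 * e.2.1) (hpos : 0 < N * e.2.1 + e.1) :
    0 < (toQ N e).1 ∧ (toQ N e).1 < (toQ N e).2.1 ∧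
    ((toQ N e).2.2 : ℚ) * (1 / (toQ N e).1 - 1 / (toQ N e).2.1) ≤ (ub N e : ℚ) / 1000000000 := by
  obtain ⟨a1, b1, a2, b2, d⟩ := e
  simp only at hb1 hb2 hlt hpos
  have hb1' : (0 : ℚ) < b1 := by exact_mod_cast hb1
  have hb2' : (0 : ℚ) < b2 := by exact_mod_cast hb2
  have hlt' : (a1 : ℚ) * b2 < a2 * b1 := by exact_mod_cast hlt
  have hpos' : (0 : ℚ) < N * b1 + a1 := by exact_mod_cast hpos
  have ha2 : 0 < a2 := by
    rcases Nat.eq_zero_or_pos a2 with rfl | h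
    · simp at hlt
    · exact h
  have hpos2 : (0 : ℚ) < N * b2 + a2 := by
    have : (0 : ℚ) < a2 := by exact_mod_cast ha2
    positivity
  have hx1 : (N : ℚ) + a1 / b1 = (N * b1 + a1) / b1 := by field_simp
  have hx2 : (N : ℚ) + a2 / b2 = (N * b2 + a2) / b2 := by field_simp
  have hxx : (a1 : ℚ) / b1 < a2 / b2 := by
    rw [div_lt_div_iff₀ hb1' hb2']
    exact hlt'
  refine ⟨?_, ?_, ?_⟩
  · simp only [toQ]
    rw [hx1]
    positivity
  · simp only [toQ]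
    linarith
  · simp only [toQ, ub]
    rw [hx1, hx2, one_div_div, one_div_div, Nat.cast_mul, mul_div_assoc]
    apply mul_le_mul_of_nonneg_left _ (Nat.cast_nonneg d)
    rw [le_div_iff₀ (by norm_num)]
    have g1 : (b1 : ℚ) / (N * b1 + a1) * 1000000000 ≤
        ((1000000000 * b1 / (N * b1 + a1) : ℕ) : ℚ) + 1 := by
      rw [div_mul_eq_mul_div, div_le_iff₀ hpos']
      have := Nat.lt_mul_div_succ (1000000000 * b1) hpos
      have h' : ((1000000000 * b1 : ℕ) : ℚ) <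
          ((N * b1 + a1) * (1000000000 * b1 / (N * b1 + a1) + 1) : ℕ) := by exact_mod_cast this
      push_cast at h' ⊢
      linarith
    have g2 : ((1000000000 * b2 / (N * b2 + a2) : ℕ) : ℚ) ≤ (b2 : ℚ) / (N * b2 + a2) * 1000000000 := by
      have := Nat.cast_div_le (α := ℚ) (m := 1000000000 * b2) (n := N * b2 + a2)
      rw [div_mul_eq_mul_div, mul_comm (b2 : ℚ)]
      push_cast at this ⊢
      exact this
    have g3 : ∀ x y : ℕ, (x : ℚ) + 1 - (y : ℚ) ≤ ((x + 1 - y : ℕ) : ℚ) := by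
      intro x y
      have h' : ((x + 1 : ℕ) : ℤ) - (y : ℤ) ≤ ((x + 1 - y : ℕ) : ℤ) := by omega
      have h'' : ((((x + 1 : ℕ) : ℤ) - (y : ℤ) : ℤ) : ℚ) ≤ (((x + 1 - y : ℕ) : ℤ) : ℚ) := by
        exact_mod_cast h'
      push_cast at h''
      exact h''
    have g3 := g3 (1000000000 * b1 / (N * b1 + a1)) (1000000000 * b2 / (N * b2 + a2))
    rw [sub_mul]
    linarith

/-- integral of a list of cells, from the integer bound -/
theorem list_spec (N : ℕ) (l : List (ℕ × ℕ × ℕ × ℕ × ℕ))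
    (hs : ∀ e ∈ l, 0 < e.2.1 ∧ 0 < e.2.2.2.1 ∧ e.1 * e.2.2.2.1 < e.2.2.1 * e.2.1)
    (hpos : ∀ e ∈ l, 0 < N * e.2.1 + e.1) :
    tabInt (l.map (toQ N)) ≤ (sumUb N l : ℚ) / 1000000000 := by
  unfold tabInt
  induction l with
  | nil => simp [sumUb]
  | cons e l ih =>
    have h1 : sumUb N (e :: l) = ub N e + sumUb N l := rfl
    rw [h1, List.map_cons, List.map_cons, List.sum_cons]
    obtain ⟨q1, q2, q3⟩ := hs e (by simp)
    have h2 := (ub_spec (N := N) q1 q2 q3 (hpos e (by simp))).2.2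
    have h3 := ih (fun e he => hs e (by simp [he])) (fun e he => hpos e (by simp [he]))
    push_cast
    rw [add_div]
    exact add_le_add h2 h3

theorem tabInt_append (s t : List (ℚ × ℚ × ℕ)) : tabInt (s ++ t) = tabInt s + tabInt t := by
  unfold tabInt
  rw [List.map_append, List.sum_append]

/-- the integral of the table, from bounds for the periods `1, ..., c` -/
theorem tabInt_le (c : ℕ) (B0 B1 : ℕ) (B : ℕ → ℕ)
    (hs0 : ∀ e ∈ T0, 0 < e.2.1 ∧ 0 < e.2.2.2.1 ∧ e.1 * e.2.2.2.1 < e.2.2.1 * e.2.1)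
    (hs1 : ∀ e ∈ T1a ++ T1b, 0 < e.2.1 ∧ 0 < e.2.2.2.1 ∧ e.1 * e.2.2.2.1 < e.2.2.1 * e.2.1)
    (hp0 : ∀ e ∈ T0, 0 < e.1) (hp1 : ∀ e ∈ T1b, 0 < e.1)
    (hB0 : sumUb 0 T0 ≤ B0) (hB1 : sumUb 0 T1b ≤ B1)
    (hB : ∀ i < c, sumUb (i + 1) (T1a ++ T1b) ≤ B i) :
    tabInt (tab T0 T1a T1b c) ≤ ((B0 + B1 + ∑ i ∈ Finset.range c, B i : ℕ) : ℚ) / 1000000000 := by
  have hble : ∀ x y : ℕ, x ≤ y → (x : ℚ) / 1000000000 ≤ (y : ℚ) / 1000000000 := by
    intro x y h
    have : (x : ℚ) ≤ y := by exact_mod_cast h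
    gcongr
  unfold tab
  rw [tabInt_append, tabInt_append]
  have a0 := (list_spec 0 T0 hs0 (fun e he => by have := hp0 e he; omega)).trans (hble _ _ hB0)
  have a1 := (list_spec 0 T1b (fun e he => hs1 e (List.mem_append_right _ he))
    (fun e he => by have := hp1 e he; omega)).trans (hble _ _ hB1)
  have a2 : ∀ c', c' ≤ c → tabInt ((List.range c').flatMap fun i => (T1a ++ T1b).map (toQ (i + 1))) ≤
      ((∑ i ∈ Finset.range c', B i : ℕ) : ℚ) / 1000000000 := by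
    intro c' hc'
    induction c' with
    | zero => simp [tabInt]
    | succ m ih =>
      rw [List.range_succ, List.flatMap_append, tabInt_append, Finset.sum_range_succ]
      have h1 := ih (by omega)
      have h2 := (list_spec (m + 1) (T1a ++ T1b) hs1 (fun e he => by
        have := (hs1 e he).1
        positivity)).trans (hble _ _ (hB m (by omega)))
      have h3 : tabInt ([m].flatMap fun i => (T1a ++ T1b).map (toQ (i + 1))) =
          tabInt ((T1a ++ T1b).map (toQ (m + 1))) := by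
        simp [List.flatMap_cons]
      rw [h3]
      push_cast at h1 h2 ⊢
      rw [add_div]
      exact add_le_add h1 h2
  have a3 := a2 c le_rfl
  push_cast at a0 a1 a3 ⊢
  rw [add_div, add_div]
  linarith

theorem cell_pos {C a1 b1 a2 b2 : ℕ} (h : sameb C a1 b1 a2 b2 = true) :
    0 < b1 ∧ 0 < b2 ∧ a1 * b2 < a2 * b1 := by
  obtain ⟨h1, h2, h3, -⟩ := sameb_iff h
  exact ⟨h1, h2, by omega⟩

/-- the generic table theorem -/
theorem sum_bound_of (hL : Lists D PL ML) (hs : D.s ∈ PL) (hlo : D.lo ∈ PL) {u v Ym : ℕ} (c : ℕ)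
    (huv : u ≤ v) (hv : 0 < v) (hY : (D.C - D.lo) * u ≤ (Ym + 1) * v)
    (h0 : ∀ e ∈ T0, okCellF D.C D.k D.s D.lo PL ML Ym e = true)
    (h1 : ∀ e ∈ T1a ++ T1b, okCell D.C D.k PL ML e = true)
    (c0 : chain 1 D.C T0 u v = true) (c1b : chain u v T1b 1 1 = true)
    (c1 : chain 0 1 (T1a ++ T1b) 1 1 = true)
    (hp0 : ∀ e ∈ T0, 0 < e.1) (hp1 : ∀ e ∈ T1b, 0 < e.1)
    (B0 B1 : ℕ) (B : ℕ → ℕ)
    (hB0 : sumUb 0 T0 ≤ B0) (hB1 : sumUb 0 T1b ≤ B1)
    (hB : ∀ i < c, sumUb (i + 1) (T1a ++ T1b) ≤ B i)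
    {be : ℝ} (hbe : ((B0 + B1 + ∑ i ∈ Finset.range c, B i : ℕ) : ℝ) / 1000000000 +
      ((PL.length + D.k : ℕ) : ℝ) / ((c + 1 : ℕ) : ℝ) < be) :
    ∃ d : ℕ → ℕ → ℕ, ∃ N : ℕ, ∀ n ≥ N, n.Prime →
      (∀ p : ℕ, p.Prime → p ≠ n → D.C * n < p ^ 2 → p ≤ D.C * n →
        ∀ l ∈ poles D n, bnd D n l p ≤ d n p) ∧
      ∑ p ∈ (Finset.Icc 1 (D.C * n)).filter (fun p => p.Prime ∧ D.C * n < p ^ 2 ∧ p ≠ n),
        (d n p : ℝ) * Real.log p ≤ be * n := by
  have hs0 : ∀ e ∈ T0, 0 < e.2.1 ∧ 0 < e.2.2.2.1 ∧ e.1 * e.2.2.2.1 < e.2.2.1 * e.2.1 := by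
    intro e he
    have := h0 e he
    unfold okCellF at this
    rw [Bool.and_eq_true] at this
    exact cell_pos this.1
  have hs1 : ∀ e ∈ T1a ++ T1b, 0 < e.2.1 ∧ 0 < e.2.2.2.1 ∧ e.1 * e.2.2.2.1 < e.2.2.1 * e.2.1 := by
    intro e he
    have := h1 e he
    unfold okCell at this
    rw [Bool.and_eq_true] at this
    exact cell_pos this.1
  have htab := tabInt_le (T0 := T0) (T1a := T1a) (T1b := T1b) c B0 B1 B hs0 hs1 hp0 hp1 hB0 hB1 hB
  have hpos : ∀ e ∈ tab T0 T1a T1b c, 0 < e.1 ∧ e.1 < e.2.1 := by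
    intro e he
    unfold tab at he
    rw [List.mem_append, List.mem_append, List.mem_flatMap] at he
    rcases he with he | he | ⟨i, -, he⟩
    · rw [List.mem_map] at he
      obtain ⟨x, hx, rfl⟩ := he
      obtain ⟨q1, q2, q3⟩ := hs0 x hx
      have h3 := hp0 x hx
      have := ub_spec (N := 0) q1 q2 q3 (by omega)
      exact ⟨this.1, this.2.1⟩
    · rw [List.mem_map] at he
      obtain ⟨x, hx, rfl⟩ := he
      obtain ⟨q1, q2, q3⟩ := hs1 x (List.mem_append_right _ hx)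
      have h3 := hp1 x hx
      have := ub_spec (N := 0) q1 q2 q3 (by omega)
      exact ⟨this.1, this.2.1⟩
    · rw [List.mem_map] at he
      obtain ⟨x, hx, rfl⟩ := he
      obtain ⟨q1, q2, q3⟩ := hs1 x hx
      have := ub_spec (N := i + 1) q1 q2 q3 (by positivity)
      exact ⟨this.1, this.2.1⟩
  have hA : (tabInt (tab T0 T1a T1b c) : ℝ) +
      ((PL.length + D.k : ℕ) : ℝ) / ((c + 1 : ℕ) : ℝ) < be := by
    refine lt_of_le_of_lt ?_ hbe
    have h : ((tabInt (tab T0 T1a T1b c) : ℚ) : ℝ) ≤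
        ((((B0 + B1 + ∑ i ∈ Finset.range c, B i : ℕ) : ℚ) / 1000000000 : ℚ) : ℝ) := by
      exact_mod_cast htab
    push_cast at h ⊢
    linarith
  obtain ⟨N, hN⟩ := sum_primes_le _ hpos (c + 1) (PL.length + D.k) (by omega) _ hA
  refine ⟨fun n p => tabVal (tab T0 T1a T1b c) n p + (if (c + 1) * p ≤ n then PL.length + D.k else 0),
    max N (D.C + 1), fun n hn hnp => ⟨?_, ?_⟩⟩
  · intro p hp hne hq1 hq2 l hl
    exact bnd_tab hL hs hlo huv hv hY h0 h1 c0 c1b c1 hnp hp hne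
      (le_trans (le_max_right _ _) hn) hq1 hq2 hl
  · refine le_trans ?_ (hN n (le_trans (le_max_left _ _) hn) (D.C * n))
    apply Finset.sum_le_sum_of_subset_of_nonneg
    · intro p hp
      rw [Finset.mem_filter] at hp ⊢
      exact ⟨hp.1, hp.2.1⟩
    · intro p _ _
      exact mul_nonneg (Nat.cast_nonneg _) (Real.log_natCast_nonneg p)

end Pool.Agent.OddZetaG.Tab
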