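import Pool.Agent.OddZetaG.TabMain

/-! Table theorem with semantic cell conditions (used for families of data).  Seat: helper57. -/

open Finset

namespace Pool.Agent.OddZetaG.Tab

open Pool.Agent.OddZeta (tabVal tabInt sum_primes_le)

/-- the periodic bound holds at the test point `a / b` -/
def PerOK (D : Dat) (a b d : ℕ) : Prop :=
  ∀ n p l : ℕ, 0 < p → Same D.C (n % p) p a b → bnd D n l p ≤ (d : ℤ)

/-- the explicit bound holds at the test point `a / b` -/
def FullOK (D : Dat) (Ym a b d : ℕ) : Prop :=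
  ∀ n p l : ℕ, 0 < p → n < p → Same D.C (n % p) p a b → l ∈ poles D n → l / p ≤ Ym →
    bnd D n l p ≤ (d : ℤ)

/-- a cell of the periodic range -/
def CellP (D : Dat) (e : ℕ × ℕ × ℕ × ℕ × ℕ) : Prop :=
  sameb D.C e.1 e.2.1 e.2.2.1 e.2.2.2.1 = true ∧ PerOK D (e.1 + e.2.2.1) (e.2.1 + e.2.2.2.1) e.2.2.2.2

/-- a cell of the explicit range -/
def CellF (D : Dat) (Ym : ℕ) (e : ℕ × ℕ × ℕ × ℕ × ℕ) : Prop :=
  sameb D.C e.1 e.2.1 e.2.2.1 e.2.2.2.1 = true ∧
    FullOK D Ym (e.1 + e.2.2.1) (e.2.1 + e.2.2.2.1) e.2.2.2.2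

variable {D : Dat} {PL ML : List ℕ} {T0 T1a T1b : List (ℕ × ℕ × ℕ × ℕ × ℕ)}

theorem bnd_tab_sem (hL : Lists D PL ML) (hlo : D.lo ∈ PL) {u v Ym c : ℕ}
    (_huv : u ≤ v) (_hv : 0 < v) (hY : (D.C - D.lo) * u ≤ (Ym + 1) * v)
    (h0 : ∀ e ∈ T0, CellF D Ym e)
    (h1 : ∀ e ∈ T1a ++ T1b, CellP D e)
    (c0 : chain 1 D.C T0 u v = true) (c1b : chain u v T1b 1 1 = true)
    (c1 : chain 0 1 (T1a ++ T1b) 1 1 = true)
    {n p l : ℕ} (hn : n.Prime) (hp : p.Prime) (hne : p ≠ n) (hnC : D.C < n)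
    (hp1 : D.C * n < p ^ 2) (hp2 : p ≤ D.C * n) (hl : l ∈ poles D n) :
    bnd D n l p ≤ ((tabVal (tab T0 T1a T1b c) n p +
      (if (c + 1) * p ≤ n then PL.length + D.k else 0) : ℕ) : ℤ) := by
  have hp0 : 0 < p := hp.pos
  have hpC : D.C < p := by
    by_contra hcon
    rw [not_lt] at hcon
    have : p ^ 2 ≤ D.C * n := by
      rw [pow_two]
      exact Nat.mul_le_mul hcon (hcon.trans hnC.le)
    omega
  have hnm : ∀ k, 0 < k → k ≤ D.C → (k * (n % p)) % p ≠ 0 := by
    intro k hk0 hk h0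
    have hd : p ∣ k * (n % p) := Nat.dvd_of_mod_eq_zero h0
    rcases (Nat.Prime.dvd_mul hp).1 hd with h3 | h3
    · have := Nat.le_of_dvd hk0 h3
      omega
    · have h4 : p ∣ n := by
        rw [Nat.dvd_mod_iff dvd_rfl] at h3
        exact h3
      exact hne ((Nat.prime_dvd_prime_iff_eq hp hn).1 h4)
  by_cases h10 : (c + 1) * p ≤ n
  · rw [if_pos h10]
    have := bnd_le_max hL (n := n) l hp0 hnm
    push_cast at this ⊢
    omega
  rw [if_neg h10, add_zero]
  have hN9 : n / p < c + 1 := by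
    rw [Nat.div_lt_iff_lt_mul hp0]
    omega
  have hmod : n % p < p := Nat.mod_lt _ hp0
  have hcell : ∀ e ∈ T1a ++ T1b, e.1 * p ≤ (n % p) * e.2.1 →
      (n % p) * e.2.2.2.1 < e.2.2.1 * p → toQ (n / p) e ∈ tab T0 T1a T1b c →
      bnd D n l p ≤ ((tabVal (tab T0 T1a T1b c) n p : ℕ) : ℤ) := by
    intro e he d1 d2 hmem
    have hok := h1 e he
    obtain ⟨p1, p2, -⟩ := sameb_iff hok.1
    obtain ⟨hS, hb⟩ := same_of hok.1 d1 d2 hnm
    have h5 := hok.2 n p l hp0 hS
    obtain ⟨q1, q2⟩ := toQ_cond p1 p2 rfl d1 d2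
    have h6 : e.2.2.2.2 ≤ tabVal (tab T0 T1a T1b c) n p := tabVal_ge hmem q1 q2
    have h6' : (e.2.2.2.2 : ℤ) ≤ (tabVal (tab T0 T1a T1b c) n p : ℤ) := by exact_mod_cast h6
    exact h5.trans h6'
  by_cases hN : n / p = 0
  · have hnp : n < p := by
      rwa [Nat.div_eq_zero_iff_lt hp0] at hN
    have hmn : n % p = n := Nat.mod_eq_of_lt hnp
    by_cases h24 : n * v < u * p
    · obtain ⟨e, he, d1, d2⟩ := cover T0 1 D.C u v c0 n p (by linarith) h24
      have hok := h0 e he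
      obtain ⟨p1, p2, -⟩ := sameb_iff hok.1
      rw [← hmn] at d1 d2
      obtain ⟨hS, hb⟩ := same_of hok.1 d1 d2 hnm
      have hYm : l / p ≤ Ym := by
        have hl1 : l ≤ (D.C - D.lo) * n := (Finset.mem_Icc.1 hl).2
        have : l / p < Ym + 1 := by
          rw [Nat.div_lt_iff_lt_mul hp0]
          have hCl : 0 < D.C - D.lo := by
            have := hL.lt D.lo (List.mem_append_left _ hlo)
            omega
          have f1 : l * v ≤ (D.C - D.lo) * n * v := Nat.mul_le_mul_right _ hl1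
          have f2 : (D.C - D.lo) * (n * v) < (D.C - D.lo) * (u * p) :=
            Nat.mul_lt_mul_of_pos_left h24 hCl
          have f3 : (D.C - D.lo) * u * p ≤ (Ym + 1) * v * p := Nat.mul_le_mul_right _ hY
          have f4 : l * v < (Ym + 1) * p * v := by
            calc l * v ≤ (D.C - D.lo) * n * v := f1
              _ = (D.C - D.lo) * (n * v) := by ring
              _ < (D.C - D.lo) * (u * p) := f2
              _ = (D.C - D.lo) * u * p := by ring
              _ ≤ (Ym + 1) * v * p := f3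
              _ = (Ym + 1) * p * v := by ring
          exact Nat.lt_of_mul_lt_mul_right f4
        omega
      have h5 := hok.2 n p l hp0 hnp hS hl hYm
      obtain ⟨q1, q2⟩ := toQ_cond p1 p2 hN d1 d2
      have hmem : toQ 0 e ∈ tab T0 T1a T1b c := by
        unfold tab
        exact List.mem_append_left _ (List.mem_map_of_mem he)
      have h6 : e.2.2.2.2 ≤ tabVal (tab T0 T1a T1b c) n p := tabVal_ge hmem q1 q2
      have h6' : (e.2.2.2.2 : ℤ) ≤ (tabVal (tab T0 T1a T1b c) n p : ℤ) := by exact_mod_cast h6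
      exact h5.trans h6'
    · obtain ⟨e, he, d1, d2⟩ := cover T1b u v 1 1 c1b n p (not_lt.1 h24) (by omega)
      rw [← hmn] at d1 d2
      refine hcell e (List.mem_append_right _ he) d1 d2 ?_
      rw [hN]
      unfold tab
      exact List.mem_append_right _ (List.mem_append_left _ (List.mem_map_of_mem he))
  · obtain ⟨e, he, d1, d2⟩ := cover (T1a ++ T1b) 0 1 1 1 c1 (n % p) p (by omega) (by omega)
    refine hcell e he d1 d2 ?_
    unfold tab
    refine List.mem_append_right _ (List.mem_append_right _ ?_)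
    rw [List.mem_flatMap]
    refine ⟨n / p - 1, List.mem_range.2 (Nat.sub_one_lt_of_le (Nat.pos_of_ne_zero hN)
      (Nat.lt_succ_iff.1 hN9)), ?_⟩
    rw [Nat.sub_add_cancel (Nat.one_le_iff_ne_zero.2 hN)]
    exact List.mem_map_of_mem he

/-- the generic table theorem, semantic form -/
theorem sum_bound_sem (hL : Lists D PL ML) (hlo : D.lo ∈ PL) {u v Ym : ℕ} (c : ℕ)
    (huv : u ≤ v) (hv : 0 < v) (hY : (D.C - D.lo) * u ≤ (Ym + 1) * v)
    (h0 : ∀ e ∈ T0, CellF D Ym e)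
    (h1 : ∀ e ∈ T1a ++ T1b, CellP D e)
    (c0 : chain 1 D.C T0 u v = true) (c1b : chain u v T1b 1 1 = true)
    (c1 : chain 0 1 (T1a ++ T1b) 1 1 = true)
    (hp0 : ∀ e ∈ T0, 0 < e.1) (hp1 : ∀ e ∈ T1b, 0 < e.1)
    (B0 B1 : ℕ) (B : ℕ → ℕ)
    (hB0 : sumUb 0 T0 ≤ B0) (hB1 : sumUb 0 T1b ≤ B1)
    (hB : ∀ i < c, sumUb (i + 1) (T1a ++ T1b) ≤ B i)
    {be : ℝ} (hbe : ((B0 + B1 + ∑ i ∈ Finset.range c, B i : ℕ) : ℝ) / 1000000000 +
      ((PL.length + D.k : ℕ) : ℝ) / ((c + 1 : ℕ) : ℝ) < be) :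
    ∃ d : ℕ → ℕ → ℕ, ∃ N : ℕ, ∀ n ≥ N, n.Prime →
      (∀ p : ℕ, p.Prime → p ≠ n → D.C * n < p ^ 2 → p ≤ D.C * n →
        ∀ l ∈ poles D n, bnd D n l p ≤ d n p) ∧
      ∑ p ∈ (Finset.Icc 1 (D.C * n)).filter (fun p => p.Prime ∧ D.C * n < p ^ 2 ∧ p ≠ n),
        (d n p : ℝ) * Real.log p ≤ be * n := by
  have hs0 : ∀ e ∈ T0, 0 < e.2.1 ∧ 0 < e.2.2.2.1 ∧ e.1 * e.2.2.2.1 < e.2.2.1 * e.2.1 := by
    intro e he
    exact cell_pos (h0 e he).1
  have hs1 : ∀ e ∈ T1a ++ T1b, 0 < e.2.1 ∧ 0 < e.2.2.2.1 ∧ e.1 * e.2.2.2.1 < e.2.2.1 * e.2.1 := by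
    intro e he
    exact cell_pos (h1 e he).1
  have htab := tabInt_le (T0 := T0) (T1a := T1a) (T1b := T1b) c B0 B1 B hs0 hs1 hp0 hp1 hB0 hB1 hB
  have hpos : ∀ e ∈ tab T0 T1a T1b c, 0 < e.1 ∧ e.1 < e.2.1 := by
    intro e he
    unfold tab at he
    rw [List.mem_append, List.mem_append, List.mem_flatMap] at he
    rcases he with he | he | ⟨i, -, he⟩
    · rw [List.mem_map] at he
      obtain ⟨x, hx, rfl⟩ := he
      obtain ⟨q1, q2, q3⟩ := hs0 x hx
      have h3 := hp0 x hx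
      have := ub_spec (N := 0) q1 q2 q3 (by omega)
      exact ⟨this.1, this.2.1⟩
    · rw [List.mem_map] at he
      obtain ⟨x, hx, rfl⟩ := he
      obtain ⟨q1, q2, q3⟩ := hs1 x (List.mem_append_right _ hx)
      have h3 := hp1 x hx
      have := ub_spec (N := 0) q1 q2 q3 (by omega)
      exact ⟨this.1, this.2.1⟩
    · rw [List.mem_map] at he
      obtain ⟨x, hx, rfl⟩ := he
      obtain ⟨q1, q2, q3⟩ := hs1 x hx
      have := ub_spec (N := i + 1) q1 q2 q3 (by positivity)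
      exact ⟨this.1, this.2.1⟩
  have hA : (tabInt (tab T0 T1a T1b c) : ℝ) +
      ((PL.length + D.k : ℕ) : ℝ) / ((c + 1 : ℕ) : ℝ) < be := by
    refine lt_of_le_of_lt ?_ hbe
    have h : ((tabInt (tab T0 T1a T1b c) : ℚ) : ℝ) ≤
        ((((B0 + B1 + ∑ i ∈ Finset.range c, B i : ℕ) : ℚ) / 1000000000 : ℚ) : ℝ) := by
      exact_mod_cast htab
    push_cast at h ⊢
    linarith
  obtain ⟨N, hN⟩ := sum_primes_le _ hpos (c + 1) (PL.length + D.k) (by omega) _ hA
  refine ⟨fun n p => tabVal (tab T0 T1a T1b c) n p + (if (c + 1) * p ≤ n then PL.length + D.k else 0),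
    max N (D.C + 1), fun n hn hnp => ⟨?_, ?_⟩⟩
  · intro p hp hne hq1 hq2 l hl
    exact bnd_tab_sem hL hlo huv hv hY h0 h1 c0 c1b c1 hnp hp hne
      (le_trans (le_max_right _ _) hn) hq1 hq2 hl
  · refine le_trans ?_ (hN n (le_trans (le_max_left _ _) hn) (D.C * n))
    apply Finset.sum_le_sum_of_subset_of_nonneg
    · intro p hp
      rw [Finset.mem_filter] at hp ⊢
      exact ⟨hp.1, hp.2.1⟩
    · intro p _ _
      exact mul_nonneg (Nat.cast_nonneg _) (Real.log_natCast_nonneg p)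

/-- the integer `E0` at the test point, for `n < p` -/
def Eint (C : ℕ) (PL ML : List ℕ) (a b : ℕ) : ℤ :=
  (kabS C a b ML : ℤ) + sFl' C a b PL + sFl a b ML - kabS C a b PL - sFl' C a b ML - sFl a b PL

theorem E0_match (hL : Lists D PL ML) {n p a b l o : ℕ} (H : Match D PL ML n p a b l o)
    (hN : n / p = 0) : E0 D n p = Eint D.C PL ML a b := by
  unfold Match at H
  rw [hN] at H
  simp only [Nat.cast_zero, mul_zero, add_zero] at H
  unfold E0
  have g : ∀ s : Finset ℕ, s ⊆ D.P ∪ D.M → ∑ i ∈ s, ((Nl D n (D.h i) / p : ℕ) : ℤ) =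
      ∑ i ∈ s, ((fl a b (D.C - D.h i) : ℤ) - fl a b (D.h i) - ka D.C a b (D.h i)) := by
    intro s hs
    apply Finset.sum_congr rfl
    intro i hi
    exact (H _ (h_mem hL (hs hi))).2.2
  rw [g _ Finset.subset_union_left, g _ Finset.subset_union_right]
  rw [sumP hL (fun h => (fl a b (D.C - h) : ℤ) - fl a b h - ka D.C a b h),
    sumM hL (fun h => (fl a b (D.C - h) : ℤ) - fl a b h - ka D.C a b h)]
  have hP : ∀ l : List ℕ, (l.map fun h => (fl a b (D.C - h) : ℤ) - fl a b h - ka D.C a b h).sum =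
      (sFl' D.C a b l : ℤ) - sFl a b l - kabS D.C a b l := by
    intro l
    rw [sFl'_eq, sFl_eq, kabS_eq]
    induction l with
    | nil => rfl
    | cons x l ih =>
      simp only [List.map_cons, List.sum_cons]
      rw [ih]
      ring
  rw [hP, hP]
  unfold Eint
  ring

/-- the explicit bound from the data at the threshold -/
theorem bnd_full_sem (hL : Lists D PL ML) (hs : D.s ∈ PL) (hlo : D.lo ∈ PL) {n p a b l o : ℕ}
    (hp : 0 < p) (H : Match D PL ML n p a b l o) (hN : n / p = 0) (hl : l ∈ poles D n) (d : ℤ)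
    (h : ¬ (0 ≤ ((l / p : ℕ) : ℤ) - fl a b D.lo - 1 + St a b (al a b o) D.lo ∧
        0 ≤ (fl a b (D.C - D.lo) : ℤ) - ((l / p : ℕ) : ℤ) - En D.C a b (al a b o) D.lo) ∨
      (arcSum D.C PL ML a b (al a b o) + D.k ≤ d ∨
        (selfA D.C PL ML a b (al a b o) ∧ arcSum D.C PL ML a b (al a b o) + D.k ≤ d + 1)) ∨
      (((l / p : ℕ) : ℤ) - fl a b D.s - 1 + St a b (al a b o) D.s < 1 ∧
        (arcSum D.C PL ML a b (al a b o) ≤ d + 1 ∨
          (- Eint D.C PL ML a b ≤ d ∧
            ∀ h ∈ PL, noPb D.C a b (l / p) (al a b o) h = true)))) :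
    bnd D n l p ≤ d := by
  have hp' : (0 : ℤ) < p := by exact_mod_cast hp
  have h1 := ord_sub_V_eq hL H
  have h2 : selfA D.C PL ML a b (al a b o) → selfP D n l p := selfP_of hL H
  have hE := E0_match hL H hN
  unfold Match at H
  rw [hN] at H
  simp only [Nat.cast_zero, mul_zero, sub_zero, add_zero] at H
  have hslo : D.s ∈ PL ++ ML := List.mem_append_left _ hs
  have hllo : D.lo ∈ PL ++ ML := List.mem_append_left _ hlo
  have hloC := hL.lt _ hllo
  obtain ⟨A28, B28, -⟩ := H D.lo hllo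
  obtain ⟨A25, B25, -⟩ := H D.s hslo
  have hl28 : l ∈ blk D n D.lo := hl
  rw [mem_blk_iff hp hloC] at hl28
  rcases h with h | h | ⟨h4, h⟩
  · exfalso
    rw [A28, B28] at hl28
    exact h hl28
  · unfold bnd
    rcases h with h3 | ⟨h3, h4⟩
    · split_ifs <;> omega
    · have := h2 h3
      split_ifs <;> omega
  · rw [← A25] at h4
    have h5 : ¬ p ≤ l - D.s * n := by
      intro h5
      unfold fA at h4
      have h6 : ((l : ℤ) - (D.s : ℕ) * n) / p ≥ 1 := by
        apply Int.le_ediv_of_mul_le hp'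
        have h7 : ((p : ℕ) : ℤ) ≤ ((l - D.s * n : ℕ) : ℤ) := by exact_mod_cast h5
        have h8 : D.s * n ≤ l := by omega
        rw [Nat.cast_sub h8] at h7
        push_cast at h7
        linarith
      omega
    unfold bnd
    rw [if_neg h5]
    rcases h with h6 | ⟨h6, h7⟩
    · split_ifs <;> omega
    · have hno : noP D n l p := by
        intro i hi
        have hh' : D.h i ∈ PL := h_mem_P hL hi
        have hh : D.h i ∈ PL ++ ML := List.mem_append_left _ hh'
        obtain ⟨Ah, Bh, -⟩ := H _ hh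
        have h10 := h7 _ hh'
        have hblk := mem_blk_iff (D := D) (n := n) (l := l) hp (hL.lt _ hh)
        have e1 := stb_eq a b (al a b o) (D.h i)
        have e2 := enb_eq D.C a b (al a b o) (D.h i)
        unfold noPb at h10
        rw [Bool.or_eq_true, Bool.and_eq_true, Bool.and_eq_true] at h10
        unfold cnt
        rw [Ah, Bh] at hblk ⊢
        unfold fl at hblk ⊢
        rcases h10 with h10 | ⟨h10, h11, h12⟩
        · have h13 := Nat.le_of_ble_eq_true h10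
          split_ifs with hc
          · rw [hblk] at hc
            omega
          · omega
        · have h10 := Nat.le_of_ble_eq_true h10
          have h11 := Nat.le_of_ble_eq_true h11
          have h12 := Nat.le_of_ble_eq_true h12
          rw [if_pos (hblk.2 (by omega))]
          omega
      rw [if_pos hno]
      apply le_trans (min_le_right _ _)
      rw [hE]
      exact h6

end Pool.Agent.OddZetaG.Tab
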