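import Pool.Agent.OddZetaG.Defs
import Pool.Agent.OddZetaG.TabBits

/-!
Generic finite table: soundness of the cell computation.  Seat: helper57.
-/

open Finset

namespace Pool.Agent.OddZetaG.Tab

/-- the lists of the block parameters -/
structure Lists (D : Dat) (PL ML : List ℕ) : Prop where
  P_eq : D.P.val.map D.h = (PL : Multiset ℕ)
  M_eq : D.M.val.map D.h = (ML : Multiset ℕ)
  lt : ∀ h ∈ PL ++ ML, 2 * h < D.C
  Cpos : 0 < D.C

/-- the thresholds `h` and `C - h` (and `0`) -/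
def Ol (C : ℕ) (PL ML : List ℕ) : List ℕ :=
  0 :: ((PL ++ ML) ++ (PL ++ ML).map (C - ·))

def al (q p o : ℕ) : ℕ := (o * q) % p
def fl (q p o : ℕ) : ℕ := (o * q) / p
def St (q p t h : ℕ) : ℤ := if al q p h ≤ t then 1 else 0
def En (C q p t h : ℕ) : ℤ := if al q p (C - h) ≤ t then 1 else 0
def ka (C q p h : ℕ) : ℤ := if al q p (C - h) < al q p h then 1 else 0

theorem sub_ediv (x y p : ℕ) (hp : 0 < p) :
    ((x : ℤ) - y) / p = ((x / p : ℕ) : ℤ) - ((y / p : ℕ) : ℤ) - 1 +
      (if y % p ≤ x % p then 1 else 0) := by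
  have hp' : (0 : ℤ) < p := by exact_mod_cast hp
  have hxl : x % p < p := Nat.mod_lt _ hp
  have hyl : y % p < p := Nat.mod_lt _ hp
  have hx : x = p * (x / p) + x % p := (Nat.div_add_mod x p).symm
  have hy : y = p * (y / p) + y % p := (Nat.div_add_mod y p).symm
  have hx' : (x : ℤ) = p * ((x / p : ℕ) : ℤ) + ((x % p : ℕ) : ℤ) := by exact_mod_cast hx
  have hy' : (y : ℤ) = p * ((y / p : ℕ) : ℤ) + ((y % p : ℕ) : ℤ) := by exact_mod_cast hy
  rw [hx', hy']
  generalize x / p = X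
  generalize y / p = Y
  generalize x % p = r at *
  generalize y % p = s at *
  have h1 : ((p : ℤ) * (X : ℤ) + (r : ℤ) - (p * (Y : ℤ) + (s : ℤ))) = (r - s) + p * (X - Y) := by
    ring
  rw [h1, Int.add_mul_ediv_left _ _ hp'.ne']
  split_ifs with h
  · rw [Int.ediv_eq_zero_of_lt (by omega) (by omega)]
    ring
  · have : ((r : ℤ) - s) / p = -1 := by
      rw [Int.ediv_eq_iff_of_pos hp']
      constructor <;> push_cast at * <;> omega
    rw [this]
    ring

theorem mul_mod_red (o n p : ℕ) : (o * n) % p = al (n % p) p o := by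
  unfold al
  rw [Nat.mul_mod_mod]

theorem mul_div_red (o n p : ℕ) (hp : 0 < p) : (o * n) / p = fl (n % p) p o + o * (n / p) := by
  unfold fl
  conv_lhs => rw [← Nat.div_add_mod n p]
  rw [Nat.mul_add, show o * (p * (n / p)) = p * (o * (n / p)) by ring, Nat.add_comm,
    Nat.add_mul_div_left _ _ hp]

theorem fA_eq (n l p h : ℕ) (hp : 0 < p) :
    fA n l p h = ((l / p : ℕ) : ℤ) - fl (n % p) p h - h * ((n / p : ℕ) : ℤ) - 1 +
      (if al (n % p) p h ≤ l % p then 1 else 0) := by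
  unfold fA
  have := sub_ediv l (h * n) p hp
  rw [mul_mod_red, mul_div_red _ _ _ hp] at this
  push_cast at this ⊢
  rw [this]
  ring

variable (D : Dat)

theorem fB_eq (n l p h : ℕ) (hp : 0 < p) (hh : 2 * h < D.C) :
    fB D n l p h = (fl (n % p) p (D.C - h) : ℤ) + (D.C - h) * ((n / p : ℕ) : ℤ) - ((l / p : ℕ) : ℤ) -
      (if al (n % p) p (D.C - h) < l % p then 1 else 0) := by
  unfold fB
  have := sub_ediv ((D.C - h) * n) l p hp
  rw [mul_mod_red, mul_div_red _ _ _ hp] at this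
  have h1 : (((D.C - h) * n : ℕ) : ℤ) = (D.C - h : ℤ) * n := by
    rw [Nat.cast_mul, Nat.cast_sub (by omega)]
  rw [h1] at this
  rw [this]
  have h2 : (((D.C - h : ℕ)) : ℤ) = (D.C - h : ℤ) := by
    rw [Nat.cast_sub (by omega)]
  push_cast
  rw [h2]
  by_cases hc : al (n % p) p (D.C - h) < l % p
  · rw [if_pos hc, if_neg (by omega)]
    ring
  · rw [if_neg hc, if_pos (by omega)]
    ring

theorem Nl_eq (n p h : ℕ) (hp : 0 < p) (hh : 2 * h < D.C) :
    ((Nl D n h / p : ℕ) : ℤ) = (fl (n % p) p (D.C - h) : ℤ) - fl (n % p) p h +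
      (D.C - 2 * h) * ((n / p : ℕ) : ℤ) - ka D.C (n % p) p h := by
  have := sub_ediv ((D.C - h) * n) (h * n) p hp
  rw [mul_mod_red, mul_mod_red, mul_div_red _ _ _ hp, mul_div_red _ _ _ hp] at this
  have h0 : (((D.C - h) * n : ℕ) : ℤ) - ((h * n : ℕ) : ℤ) = ((Nl D n h : ℕ) : ℤ) := by
    unfold Nl
    rw [Nat.cast_mul, Nat.cast_mul, Nat.cast_mul, Nat.cast_sub (by omega), Nat.cast_sub (by omega)]
    push_cast
    ring
  rw [h0] at this
  have h2 : (((D.C - h : ℕ)) : ℤ) = (D.C - h : ℤ) := by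
    rw [Nat.cast_sub (by omega)]
  rw [Int.natCast_div, this]
  push_cast
  rw [h2]
  unfold ka
  by_cases hc : al (n % p) p (D.C - h) < al (n % p) p h
  · rw [if_pos hc, if_neg (by omega)]
    ring
  · rw [if_neg hc, if_pos (by omega)]
    ring

/-- same floors at `q / p` and at the test point `a / b` -/
def Same (C q p a b : ℕ) : Prop :=
  ∀ k, 0 < k → k ≤ C → (k * q) / p = (k * a) / b ∧ (k * q) % p ≠ 0 ∧ (k * a) % b ≠ 0

theorem Same.fl_eq {C q p a b : ℕ} (h : Same C q p a b) {o : ℕ} (ho : o ≤ C) :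
    fl q p o = fl a b o := by
  rcases Nat.eq_zero_or_pos o with rfl | h0
  · simp [fl]
  · exact (h o h0 ho).1

theorem al_le_iff_of_lt {q p o o' : ℕ} (hp : 0 < p) (h : o < o') :
    al q p o ≤ al q p o' ↔ fl q p o' ≤ ((o' - o) * q) / p + fl q p o := by
  have h1 := Nat.div_add_mod (o * q) p
  have h2 := Nat.div_add_mod (o' * q) p
  have h3 := Nat.div_add_mod ((o' - o) * q) p
  have h4 : (o' - o) * q + o * q = o' * q := by
    rw [← Nat.add_mul, Nat.sub_add_cancel h.le]
  have l1 := Nat.mod_lt (o * q) hp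
  have l2 := Nat.mod_lt (o' * q) hp
  have l3 := Nat.mod_lt ((o' - o) * q) hp
  unfold al fl
  generalize ((o' - o) * q) / p = A at *
  generalize (o * q) / p = B at *
  generalize (o' * q) / p = C at *
  generalize ((o' - o) * q) % p = r3 at *
  generalize (o * q) % p = r1 at *
  generalize (o' * q) % p = r2 at *
  have h5 : p * A + r3 + (p * B + r1) = p * C + r2 := by omega
  constructor
  · intro h6
    by_contra h7
    have h8 : A + B + 1 ≤ C := by omega
    have h9 := Nat.mul_le_mul_left p h8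
    have : p * (A + B + 1) = p * A + p * B + p := by ring
    omega
  · intro h6
    by_contra h7
    have h9 := Nat.mul_le_mul_left p h6
    have : p * (A + B) = p * A + p * B := by ring
    omega

theorem al_ne {q p o o' : ℕ} (h : o < o') (hk : ((o' - o) * q) % p ≠ 0) :
    al q p o ≠ al q p o' := by
  intro he
  apply hk
  have h4 : (o' - o) * q + o * q = o' * q := by
    rw [← Nat.add_mul, Nat.sub_add_cancel h.le]
  have h5 : ((o' - o) * q + o * q) ≡ 0 + o * q [MOD p] := by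
    unfold Nat.ModEq
    rw [h4, zero_add]
    exact he.symm
  have := Nat.ModEq.add_right_cancel' _ h5
  simpa [Nat.ModEq] using this

theorem Same.ne_left {C q p a b : ℕ} (h : Same C q p a b) {o o' : ℕ} (ho : o ≤ C)
    (ho' : o' ≤ C) (hne : o ≠ o') : al q p o ≠ al q p o' := by
  rcases lt_or_gt_of_ne hne with h1 | h1
  · exact al_ne h1 (h _ (by omega) (by omega)).2.1
  · exact (al_ne h1 (h _ (by omega) (by omega)).2.1).symm

theorem Same.ne_right {C q p a b : ℕ} (h : Same C q p a b) {o o' : ℕ} (ho : o ≤ C)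
    (ho' : o' ≤ C) (hne : o ≠ o') : al a b o ≠ al a b o' := by
  rcases lt_or_gt_of_ne hne with h1 | h1
  · exact al_ne h1 (h _ (by omega) (by omega)).2.2
  · exact (al_ne h1 (h _ (by omega) (by omega)).2.2).symm

theorem Same.al_le_iff {C q p a b : ℕ} (h : Same C q p a b) (hp : 0 < p) (hb : 0 < b) {o o' : ℕ}
    (ho : o ≤ C) (ho' : o' ≤ C) : al q p o ≤ al q p o' ↔ al a b o ≤ al a b o' := by
  rcases lt_trichotomy o o' with h1 | h1 | h1
  · rw [al_le_iff_of_lt hp h1, al_le_iff_of_lt hb h1, h.fl_eq ho, h.fl_eq ho',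
      (h (o' - o) (by omega) (by omega)).1]
  · subst h1
    simp
  · have e1 := al_le_iff_of_lt (q := q) hp h1
    have e2 := al_le_iff_of_lt (q := a) hb h1
    rw [h.fl_eq ho, h.fl_eq ho', (h (o - o') (by omega) (by omega)).1, ← e2] at e1
    have n1 := h.ne_left ho ho' h1.ne'
    have n2 := h.ne_right ho ho' h1.ne'
    omega

variable {D} {PL ML : List ℕ}

theorem mem_Ol_le (hL : Lists D PL ML) {o : ℕ} (ho : o ∈ Ol D.C PL ML) : o ≤ D.C := by
  unfold Ol at ho
  rw [List.mem_cons, List.mem_append, List.mem_map] at ho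
  rcases ho with rfl | ho | ⟨h, -, rfl⟩
  · exact Nat.zero_le _
  · have := hL.lt o ho
    omega
  · exact Nat.sub_le _ _

theorem mem_Ol_start {h : ℕ} (hh : h ∈ PL ++ ML) : h ∈ Ol D.C PL ML :=
  List.mem_cons_of_mem _ (List.mem_append_left _ hh)

theorem mem_Ol_end {h : ℕ} (hh : h ∈ PL ++ ML) : D.C - h ∈ Ol D.C PL ML :=
  List.mem_cons_of_mem _ (List.mem_append_right _ (List.mem_map_of_mem hh))

/-- the threshold below `L` -/
theorem exists_thr {q p a b : ℕ} (hL : Lists D PL ML) (h : Same D.C q p a b) (L : ℕ) :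
    ∃ o ∈ Ol D.C PL ML, ∀ h ∈ PL ++ ML, (al q p h ≤ L ↔ al q p h ≤ al q p o) ∧
      (al q p (D.C - h) < L ↔ al q p (D.C - h) ≤ al q p o) := by
  classical
  let Pa : Finset ℕ := (Ol D.C PL ML).toFinset.filter
    fun o => (2 * o < D.C ∧ al q p o ≤ L) ∨ al q p o < L
  have hne : Pa.Nonempty := by
    refine ⟨0, ?_⟩
    simp only [Pa, Finset.mem_filter, List.mem_toFinset]
    refine ⟨by simp [Ol], Or.inl ⟨by have := hL.Cpos; omega, ?_⟩⟩
    simp [al]
  obtain ⟨o, ho, hmax⟩ := Finset.exists_max_image Pa (al q p) hne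
  simp only [Pa, Finset.mem_filter, List.mem_toFinset] at ho hmax
  refine ⟨o, ho.1, fun x hx => ⟨⟨fun h1 => ?_, fun h1 => ?_⟩, ⟨fun h1 => ?_, fun h1 => ?_⟩⟩⟩
  · exact hmax x ⟨mem_Ol_start hx, Or.inl ⟨hL.lt x hx, h1⟩⟩
  · rcases ho.2 with h2 | h2
    · exact h1.trans h2.2
    · exact h1.trans h2.le
  · exact hmax _ ⟨mem_Ol_end hx, Or.inr h1⟩
  · have hx' := hL.lt x hx
    rcases ho.2 with h2 | h2
    · have := h.ne_left (mem_Ol_le hL ho.1) (Nat.sub_le D.C x) (by omega)
      omega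
    · omega

/-- the data at the test point -/
def Match (D : Dat) (PL ML : List ℕ) (n p a b l o : ℕ) : Prop :=
  ∀ h ∈ PL ++ ML,
      fA n l p h = ((l / p : ℕ) : ℤ) - fl a b h - h * ((n / p : ℕ) : ℤ) - 1 + St a b (al a b o) h ∧
      fB D n l p h = (fl a b (D.C - h) : ℤ) + (D.C - h) * ((n / p : ℕ) : ℤ) - ((l / p : ℕ) : ℤ)
        - En D.C a b (al a b o) h ∧
      ((Nl D n h / p : ℕ) : ℤ) = (fl a b (D.C - h) : ℤ) - fl a b h +
        (D.C - 2 * h) * ((n / p : ℕ) : ℤ) - ka D.C a b h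

theorem key (hL : Lists D PL ML) {n p a b : ℕ} (l : ℕ) (hp : 0 < p) (hb : 0 < b)
    (hS : Same D.C (n % p) p a b) : ∃ o ∈ Ol D.C PL ML, Match D PL ML n p a b l o := by
  obtain ⟨o, ho, hO⟩ := exists_thr hL hS (l % p)
  refine ⟨o, ho, fun h hh => ?_⟩
  have m1 := hL.lt h hh
  obtain ⟨q1, q2⟩ := hO h hh
  have ho' := mem_Ol_le hL ho
  refine ⟨?_, ?_, ?_⟩
  · rw [fA_eq n l p h hp, hS.fl_eq (by omega)]
    have : (al (n % p) p h ≤ l % p) = (al a b h ≤ al a b o) := by
      rw [eq_iff_iff, q1, hS.al_le_iff hp hb (by omega) ho']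
    simp only [this, St]
  · rw [fB_eq D n l p h hp m1, hS.fl_eq (Nat.sub_le _ _)]
    have : (al (n % p) p (D.C - h) < l % p) = (al a b (D.C - h) ≤ al a b o) := by
      rw [eq_iff_iff, q2, hS.al_le_iff hp hb (Nat.sub_le _ _) ho']
    simp only [this, En]
  · rw [Nl_eq D n p h hp m1, hS.fl_eq (Nat.sub_le _ _), hS.fl_eq (by omega)]
    have : (al (n % p) p (D.C - h) < al (n % p) p h) = (al a b (D.C - h) < al a b h) := by
      rw [eq_iff_iff, ← not_le, ← not_le, hS.al_le_iff hp hb (by omega) (Nat.sub_le _ _)]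
    simp only [this, ka]

/-- the sum over the arcs containing the point just after `t` -/
def arcSum (C : ℕ) (PL ML : List ℕ) (a b t : ℕ) : ℤ :=
  (PL.map fun h => ka C a b h + St a b t h - En C a b t h).sum -
    (ML.map fun h => ka C a b h + St a b t h - En C a b t h).sum

def selfA (C : ℕ) (PL ML : List ℕ) (a b t : ℕ) : Prop :=
  ∀ h ∈ PL ++ ML, ∀ h' ∈ PL ++ ML, St a b t h + En C a b t h - fl a b h - fl a b (C - h) =
    St a b t h' + En C a b t h' - fl a b h' - fl a b (C - h')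

theorem sumP (hL : Lists D PL ML) (f : ℕ → ℤ) : ∑ i ∈ D.P, f (D.h i) = (PL.map f).sum := by
  have h1 : ∑ i ∈ D.P, f (D.h i) = ((D.P.val.map D.h).map f).sum := by
    rw [Multiset.map_map]
    rfl
  rw [h1, hL.P_eq]
  rfl

theorem sumM (hL : Lists D PL ML) (f : ℕ → ℤ) : ∑ i ∈ D.M, f (D.h i) = (ML.map f).sum := by
  have h1 : ∑ i ∈ D.M, f (D.h i) = ((D.M.val.map D.h).map f).sum := by
    rw [Multiset.map_map]
    rfl
  rw [h1, hL.M_eq]
  rfl

theorem h_mem (hL : Lists D PL ML) {i : ℕ} (hi : i ∈ D.P ∪ D.M) : D.h i ∈ PL ++ ML := by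
  rw [List.mem_append]
  rcases Finset.mem_union.1 hi with hi | hi
  · left
    have : D.h i ∈ D.P.val.map D.h := Multiset.mem_map_of_mem _ hi
    rw [hL.P_eq] at this
    exact this
  · right
    have : D.h i ∈ D.M.val.map D.h := Multiset.mem_map_of_mem _ hi
    rw [hL.M_eq] at this
    exact this

theorem h_mem_P (hL : Lists D PL ML) {i : ℕ} (hi : i ∈ D.P) : D.h i ∈ PL := by
  have : D.h i ∈ D.P.val.map D.h := Multiset.mem_map_of_mem _ hi
  rw [hL.P_eq] at this
  exact this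

theorem ord_sub_V (n l p : ℕ) : ord D n l - V D n l p =
    ∑ i ∈ D.P, (fA n l p (D.h i) + fB D n l p (D.h i) + 1 - ((Nl D n (D.h i) / p : ℕ) : ℤ)) -
    ∑ i ∈ D.M, (fA n l p (D.h i) + fB D n l p (D.h i) + 1 - ((Nl D n (D.h i) / p : ℕ) : ℤ)) := by
  have hc : ∀ s : Finset ℕ, (#{i ∈ s | l ∈ blk D n (D.h i)} : ℤ) =
      ∑ i ∈ s, (if l ∈ blk D n (D.h i) then (1 : ℤ) else 0) := by
    intro s
    rw [Finset.card_filter]
    push_cast
    rfl
  have hs : ∀ s : Finset ℕ, ∑ i ∈ s, (fA n l p (D.h i) + fB D n l p (D.h i) + 1 -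
      ((Nl D n (D.h i) / p : ℕ) : ℤ)) =
      ∑ i ∈ s, (if l ∈ blk D n (D.h i) then (1 : ℤ) else 0) -
        ∑ i ∈ s, (((Nl D n (D.h i) / p : ℕ) : ℤ) - cnt D n l p (D.h i)) := by
    intro s
    rw [← Finset.sum_sub_distrib]
    apply Finset.sum_congr rfl
    intro i _
    unfold cnt
    split_ifs <;> ring
  unfold ord V
  rw [hc, hc, hs, hs]
  ring

theorem ord_sub_V_eq (hL : Lists D PL ML) {n p a b l o : ℕ} (H : Match D PL ML n p a b l o) :
    ord D n l - V D n l p = arcSum D.C PL ML a b (al a b o) := by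
  rw [ord_sub_V]
  unfold arcSum
  have h1 : ∀ i ∈ D.P ∪ D.M, fA n l p (D.h i) + fB D n l p (D.h i) + 1 -
      ((Nl D n (D.h i) / p : ℕ) : ℤ) =
      ka D.C a b (D.h i) + St a b (al a b o) (D.h i) - En D.C a b (al a b o) (D.h i) := by
    intro i hi
    obtain ⟨e1, e2, e3⟩ := H _ (h_mem hL hi)
    rw [e1, e2, e3]
    ring
  rw [← sumP hL, ← sumM hL]
  congr 1
  · exact Finset.sum_congr rfl fun i hi => h1 i (Finset.mem_union_left _ hi)
  · exact Finset.sum_congr rfl fun i hi => h1 i (Finset.mem_union_right _ hi)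

theorem selfP_of (hL : Lists D PL ML) {n p a b l o : ℕ} (H : Match D PL ML n p a b l o)
    (hs : selfA D.C PL ML a b (al a b o)) : selfP D n l p := by
  intro i hi j hj
  have mi := h_mem hL hi
  have mj := h_mem hL hj
  obtain ⟨e1, e2, -⟩ := H _ mi
  obtain ⟨z1, z2, -⟩ := H _ mj
  have := hs _ mi _ mj
  rw [e1, e2, z1, z2]
  linarith

theorem bnd_per (hL : Lists D PL ML) {n p a b : ℕ} (l : ℕ) (hp : 0 < p) (hb : 0 < b)
    (hS : Same D.C (n % p) p a b) (d : ℤ)
    (hd : ∀ o ∈ Ol D.C PL ML, arcSum D.C PL ML a b (al a b o) + D.k ≤ d ∨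
      (selfA D.C PL ML a b (al a b o) ∧ arcSum D.C PL ML a b (al a b o) + D.k ≤ d + 1)) :
    bnd D n l p ≤ d := by
  obtain ⟨o, ho, H⟩ := key hL l hp hb hS
  have h1 := ord_sub_V_eq hL H
  have h2 : selfA D.C PL ML a b (al a b o) → selfP D n l p := selfP_of hL H
  unfold bnd
  rcases hd o ho with h3 | ⟨h3, h4⟩
  · split_ifs <;> omega
  · have := h2 h3
    split_ifs <;> omega

theorem arc_mem (C a b t h : ℕ) : 0 ≤ ka C a b h + St a b t h - En C a b t h ∧
    ka C a b h + St a b t h - En C a b t h ≤ 1 := by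
  unfold ka St En
  split_ifs <;> omega

theorem arcSum_le (C : ℕ) (PL ML : List ℕ) (a b t : ℕ) :
    arcSum C PL ML a b t ≤ PL.length := by
  unfold arcSum
  have h1 : ∀ l : List ℕ, (l.map fun h => ka C a b h + St a b t h - En C a b t h).sum ≤ l.length := by
    intro l
    induction l with
    | nil => simp
    | cons x l ih =>
      simp only [List.map_cons, List.sum_cons, List.length_cons]
      have := (arc_mem C a b t x).2
      push_cast
      omega
  have h2 : ∀ l : List ℕ, 0 ≤ (l.map fun h => ka C a b h + St a b t h - En C a b t h).sum := by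
    intro l
    induction l with
    | nil => simp
    | cons x l ih =>
      simp only [List.map_cons, List.sum_cons]
      have := (arc_mem C a b t x).1
      omega
  have := h1 PL
  have := h2 ML
  omega

theorem bnd_le_max (hL : Lists D PL ML) {n p : ℕ} (l : ℕ) (hp : 0 < p)
    (hk : ∀ k, 0 < k → k ≤ D.C → (k * (n % p)) % p ≠ 0) :
    bnd D n l p ≤ (PL.length + D.k : ℕ) := by
  have hS : Same D.C (n % p) p (n % p) p := fun k h1 h2 => ⟨rfl, hk k h1 h2, hk k h1 h2⟩
  apply bnd_per hL l hp hp hS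
  intro o _
  left
  have := arcSum_le D.C PL ML (n % p) p (al (n % p) p o)
  push_cast
  omega

/-! ### Boolean check of one cell -/

def kab (C a b h : ℕ) : ℕ := cond (Nat.blt (((C - h) * a) % b) ((h * a) % b)) 1 0
def kabS (C a b : ℕ) (l : List ℕ) : ℕ := l.foldr (fun h s => kab C a b h + s) 0
def sigb (C a b t h : ℕ) : ℕ := cond (Nat.ble ((h * a) % b) t) 1 0 +
  cond (Nat.ble (((C - h) * a) % b) t) 1 0 + ((C * a) / b - ((h * a) / b + ((C - h) * a) / b))
def selfb (C : ℕ) (PL ML : List ℕ) (a b t : ℕ) : Bool :=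
  match PL ++ ML with
  | [] => true
  | h0 :: l => l.all fun h => Nat.beq (sigb C a b t h) (sigb C a b t h0)
def Ub (C : ℕ) (PL ML : List ℕ) (a b : ℕ) : List ℕ :=
  (PL.map fun h => (h * a) % b) ++ (ML.map fun h => ((C - h) * a) % b)
def Db (C : ℕ) (PL ML : List ℕ) (a b : ℕ) : List ℕ :=
  (PL.map fun h => ((C - h) * a) % b) ++ (ML.map fun h => (h * a) % b)

theorem cond_ble (x y : ℕ) : cond (Nat.ble x y) 1 0 = if x ≤ y then 1 else 0 := by
  by_cases h : x ≤ y
  · rw [if_pos h, Nat.ble_eq_true_of_le h]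
    rfl
  · rw [if_neg h]
    have : Nat.ble x y = false := by
      rw [Bool.eq_false_iff]
      exact fun h' => h (Nat.le_of_ble_eq_true h')
    rw [this]
    rfl

theorem kab_eq (C a b h : ℕ) : (kab C a b h : ℤ) = ka C a b h := by
  unfold kab ka al
  by_cases hc : ((C - h) * a) % b < (h * a) % b
  · rw [if_pos hc]
    have : Nat.blt (((C - h) * a) % b) ((h * a) % b) = true := by
      simpa [Nat.blt_eq] using hc
    rw [this]
    rfl
  · rw [if_neg hc]
    have : Nat.blt (((C - h) * a) % b) ((h * a) % b) = false := by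
      rw [Bool.eq_false_iff]
      intro h'
      exact hc (by simpa [Nat.blt_eq] using h')
    rw [this]
    rfl

theorem kabS_eq (C a b : ℕ) (l : List ℕ) : (kabS C a b l : ℤ) = (l.map (ka C a b)).sum := by
  induction l with
  | nil => rfl
  | cons u l ih =>
    have : kabS C a b (u :: l) = kab C a b u + kabS C a b l := rfl
    rw [this, List.map_cons, List.sum_cons, ← ih]
    push_cast
    rw [kab_eq]

theorem arcSum_eq (C : ℕ) (PL ML : List ℕ) (a b t : ℕ) : arcSum C PL ML a b t =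
    kabS C a b PL + cn (Ub C PL ML a b) t - kabS C a b ML - cn (Db C PL ML a b) t := by
  rw [kabS_eq, kabS_eq]
  unfold arcSum Ub Db cn
  simp only [List.map_append, List.sum_append, List.map_map]
  have hP : ∀ l : List ℕ, (l.map fun h => ka C a b h + St a b t h - En C a b t h).sum =
      (l.map (ka C a b)).sum + (l.map (St a b t)).sum - (l.map (En C a b t)).sum := by
    intro l
    induction l with
    | nil => rfl
    | cons x l ih =>
      simp only [List.map_cons, List.sum_cons]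
      rw [ih]
      ring
  rw [hP, hP]
  have e1 : ∀ l : List ℕ, (l.map ((fun u => if u ≤ t then (1 : ℤ) else 0) ∘ fun h => h * a % b)).sum =
      (l.map (St a b t)).sum := fun l => rfl
  have e2 : ∀ l : List ℕ, (l.map ((fun u => if u ≤ t then (1 : ℤ) else 0) ∘
      fun h => (C - h) * a % b)).sum = (l.map (En C a b t)).sum := fun l => rfl
  rw [e1, e1, e2, e2]
  ring

theorem sigb_eq (C a b t h : ℕ) (hh : h ≤ C) : (sigb C a b t h : ℤ) =
    St a b t h + En C a b t h - fl a b h - fl a b (C - h) + fl a b C := by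
  unfold sigb St En al fl
  rw [cond_ble, cond_ble]
  have h1 : h * a / b + (C - h) * a / b ≤ C * a / b := by
    have := Nat.div_add_div_le_add_div (x := h * a) (y := (C - h) * a) (z := b)
    rwa [← Nat.add_mul, Nat.add_sub_cancel' hh] at this
  rw [Nat.cast_add, Nat.cast_sub h1]
  push_cast
  ring

theorem selfA_of (hL : Lists D PL ML) {a b t : ℕ} (h : selfb D.C PL ML a b t = true) :
    selfA D.C PL ML a b t := by
  unfold selfb at h
  have h0 : ∃ x, ∀ y ∈ PL ++ ML, sigb D.C a b t y = x := by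
    rcases hl : PL ++ ML with _ | ⟨h0, l⟩
    · exact ⟨0, by simp⟩
    · rw [hl] at h
      simp only [List.all_eq_true] at h
      refine ⟨sigb D.C a b t h0, fun y hy => ?_⟩
      rcases List.mem_cons.1 hy with rfl | hy
      · rfl
      · exact Nat.eq_of_beq_eq_true (h y hy)
  obtain ⟨x, hx⟩ := h0
  intro y hy z hz
  have h1 : (sigb D.C a b t y : ℤ) = sigb D.C a b t z := by rw [hx y hy, hx z hz]
  have hy' := hL.lt y hy
  have hz' := hL.lt z hz
  rw [sigb_eq D.C a b t y (by omega), sigb_eq D.C a b t z (by omega)] at h1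
  linarith

/-- the packed number of the cell -/
def XX (C k : ℕ) (PL ML : List ℕ) (a b d : ℕ) : ℕ :=
  Xb b (k + kabS C a b PL) (d + kabS C a b ML) (Ub C PL ML a b) (Db C PL ML a b)

/-- one threshold -/
def okt (C : ℕ) (PL ML : List ℕ) (a b X t : ℕ) : Bool :=
  Nat.ble 128 (X / 256 ^ t % 256) || (Nat.beq 127 (X / 256 ^ t % 256) && selfb C PL ML a b t)

/-- check of the cell with test point `a / b`, value `d` -/
def okPer (C k : ℕ) (PL ML : List ℕ) (a b d : ℕ) : Bool :=
  (Ol C PL ML).all fun o => okt C PL ML a b (XX C k PL ML a b d) ((o * a) % b)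

/-- the digits do not overflow -/
def room (k : ℕ) (PL ML : List ℕ) (d : ℕ) : Bool :=
  Nat.ble (k + PL.length + (PL.length + ML.length)) 128 &&
    Nat.blt (d + ML.length + (PL.length + ML.length)) 128

theorem kabS_le (C a b : ℕ) (l : List ℕ) : kabS C a b l ≤ l.length := by
  induction l with
  | nil => simp [kabS]
  | cons u l ih =>
    have : kabS C a b (u :: l) = kab C a b u + kabS C a b l := rfl
    rw [this, List.length_cons]
    have h2 : kab C a b u ≤ 1 := by
      unfold kab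
      cases Nat.blt (((C - u) * a) % b) ((u * a) % b) <;> simp
    omega

theorem XX_digit {C k : ℕ} {a b d t : ℕ} (hr : room k PL ML d = true) (ht : t < b) :
    ((XX C k PL ML a b d / 256 ^ t % 256 : ℕ) : ℤ) = 128 + d - k - arcSum C PL ML a b t := by
  unfold room at hr
  rw [Bool.and_eq_true, Nat.blt_eq] at hr
  obtain ⟨h1, h2⟩ := hr
  have h1 := Nat.le_of_ble_eq_true h1
  have hb : 0 < b := by omega
  have k1 := kabS_le C a b PL
  have k2 := kabS_le C a b ML
  have hlU : (Ub C PL ML a b).length = PL.length + ML.length := by simp [Ub]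
  have hlD : (Db C PL ML a b).length = PL.length + ML.length := by simp [Db]
  have hU : ∀ x ∈ Ub C PL ML a b, x ≤ b := by
    intro x hx
    unfold Ub at hx
    rw [List.mem_append, List.mem_map, List.mem_map] at hx
    rcases hx with ⟨h, -, rfl⟩ | ⟨h, -, rfl⟩ <;> exact (Nat.mod_lt _ hb).le
  have hD : ∀ x ∈ Db C PL ML a b, x ≤ b := by
    intro x hx
    unfold Db at hx
    rw [List.mem_append, List.mem_map, List.mem_map] at hx
    rcases hx with ⟨h, -, rfl⟩ | ⟨h, -, rfl⟩ <;> exact (Nat.mod_lt _ hb).le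
  unfold XX
  rw [Xb_digit hU hD (by omega) (by omega) ht, arcSum_eq]
  push_cast
  ring

theorem okt_spec (hL : Lists D PL ML) {k a b d t : ℕ} (hr : room k PL ML d = true) (ht : t < b)
    (h : okt D.C PL ML a b (XX D.C k PL ML a b d) t = true) :
    arcSum D.C PL ML a b t + k ≤ (d : ℤ) ∨
      (selfA D.C PL ML a b t ∧ arcSum D.C PL ML a b t + k ≤ (d : ℤ) + 1) := by
  unfold okt at h
  rw [Bool.or_eq_true, Bool.and_eq_true] at h
  have h1 := XX_digit (C := D.C) hr ht (a := a)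
  rcases h with h | ⟨h, h'⟩
  · left
    have := Nat.le_of_ble_eq_true h
    omega
  · right
    refine ⟨selfA_of hL h', ?_⟩
    have := Nat.eq_of_beq_eq_true h
    omega

theorem okPer_spec (hL : Lists D PL ML) {k a b d : ℕ} (hb : 0 < b) (hr : room k PL ML d = true)
    (h : okPer D.C k PL ML a b d = true) : ∀ o ∈ Ol D.C PL ML,
    arcSum D.C PL ML a b (al a b o) + k ≤ (d : ℤ) ∨
      (selfA D.C PL ML a b (al a b o) ∧ arcSum D.C PL ML a b (al a b o) + k ≤ (d : ℤ) + 1) := by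
  unfold okPer at h
  rw [List.all_eq_true] at h
  intro o ho
  exact okt_spec hL hr (Nat.mod_lt _ hb) (h o ho)

/-! ### the cells: neighbours in the Farey sequence of order `C` -/

def sameb (C a1 b1 a2 b2 : ℕ) : Bool :=
  Nat.blt 0 b1 && Nat.blt 0 b2 && Nat.beq (a2 * b1) (a1 * b2 + 1) && Nat.blt C (b1 + b2)

theorem floor_cell {C a1 b1 a2 b2 k Q P : ℕ} (hb1 : 0 < b1) (_hb2 : 0 < b2) (hk : 0 < k)
    (hkC : k ≤ C) (hn : a2 * b1 = a1 * b2 + 1) (hC : C < b1 + b2)
    (h1 : a1 * P ≤ Q * b1) (h2 : Q * b2 < a2 * P) :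
    (k * Q) / P = (k * a1) / b1 := by
  have hP : 0 < P := by
    rcases Nat.eq_zero_or_pos P with rfl | h
    · simp at h2
    · exact h
  have f1 : (k * a1) / b1 * b1 ≤ k * a1 := Nat.div_mul_le_self _ _
  have f3 : k * a1 < ((k * a1) / b1 + 1) * b1 := by
    have := Nat.lt_div_mul_add (a := k * a1) hb1
    have e : ((k * a1) / b1 + 1) * b1 = (k * a1) / b1 * b1 + b1 := by ring
    rw [e]
    exact this
  have f2 : k * a2 ≤ ((k * a1) / b1 + 1) * b2 := by
    generalize (k * a1) / b1 = f at *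
    by_contra hcon
    rw [not_le] at hcon
    -- x = (f+1) b1 - k a1 ≥ 1, y = k a2 - (f+1) b2 ≥ 1, b1 y + b2 x = k
    obtain ⟨x, hx⟩ : ∃ x, (f + 1) * b1 = k * a1 + x + 1 := ⟨(f + 1) * b1 - k * a1 - 1, by omega⟩
    obtain ⟨y, hy⟩ : ∃ y, k * a2 = (f + 1) * b2 + y + 1 := ⟨k * a2 - (f + 1) * b2 - 1, by omega⟩
    have e1 : k * (a2 * b1) = k * (a1 * b2) + k := by rw [hn]; ring
    have e2 : k * (a2 * b1) = ((f + 1) * b2 + y + 1) * b1 := by rw [← hy]; ring
    have e3 : ((f + 1) * b2 + y + 1) * b1 = ((f + 1) * b1) * b2 + (y + 1) * b1 := by ring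
    rw [hx] at e3
    have e4 : (k * a1 + x + 1) * b2 + (y + 1) * b1 = k * (a1 * b2) + (x + 1) * b2 + (y + 1) * b1 := by
      ring
    have e5 : k = (x + 1) * b2 + (y + 1) * b1 := by omega
    have e6 : b2 ≤ (x + 1) * b2 := Nat.le_mul_of_pos_left _ (by omega)
    have e7 : b1 ≤ (y + 1) * b1 := Nat.le_mul_of_pos_left _ (by omega)
    omega
  generalize (k * a1) / b1 = f at *
  apply Nat.div_eq_of_lt_le
  · have : f * P * b1 ≤ k * Q * b1 := by
      calc f * P * b1 = (f * b1) * P := by ring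
        _ ≤ (k * a1) * P := Nat.mul_le_mul_right _ f1
        _ = k * (a1 * P) := by ring
        _ ≤ k * (Q * b1) := Nat.mul_le_mul_left _ h1
        _ = k * Q * b1 := by ring
    exact Nat.le_of_mul_le_mul_right this hb1
  · have : k * Q * b2 < (f + 1) * P * b2 := by
      calc k * Q * b2 = k * (Q * b2) := by ring
        _ < k * (a2 * P) := Nat.mul_lt_mul_of_pos_left h2 hk
        _ = (k * a2) * P := by ring
        _ ≤ ((f + 1) * b2) * P := Nat.mul_le_mul_right _ f2
        _ = (f + 1) * P * b2 := by ring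
    have := Nat.lt_of_mul_lt_mul_right this
    simpa [Nat.succ_eq_add_one] using this

theorem sameb_iff {C a1 b1 a2 b2 : ℕ} (h : sameb C a1 b1 a2 b2 = true) :
    0 < b1 ∧ 0 < b2 ∧ a2 * b1 = a1 * b2 + 1 ∧ C < b1 + b2 := by
  unfold sameb at h
  simp only [Bool.and_eq_true, Nat.blt_eq] at h
  exact ⟨h.1.1.1, h.1.1.2, Nat.eq_of_beq_eq_true h.1.2, h.2⟩

theorem same_of {C a1 b1 a2 b2 q p : ℕ} (h : sameb C a1 b1 a2 b2 = true)
    (h1 : a1 * p ≤ q * b1) (h2 : q * b2 < a2 * p)
    (hk : ∀ k, 0 < k → k ≤ C → (k * q) % p ≠ 0) :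
    Same C q p (a1 + a2) (b1 + b2) ∧ 0 < b1 + b2 := by
  obtain ⟨hb1, hb2, hn, hC⟩ := sameb_iff h
  refine ⟨fun k hk0 hkC => ?_, by omega⟩
  have m1 : a1 * (b1 + b2) < (a1 + a2) * b1 := by
    have : a1 * (b1 + b2) = a1 * b1 + a1 * b2 := by ring
    have : (a1 + a2) * b1 = a1 * b1 + a2 * b1 := by ring
    omega
  have m2 : (a1 + a2) * b2 < a2 * (b1 + b2) := by
    have : a2 * (b1 + b2) = a2 * b1 + a2 * b2 := by ring
    have : (a1 + a2) * b2 = a1 * b2 + a2 * b2 := by ring
    omega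
  have e1 := floor_cell hb1 hb2 hk0 hkC hn hC h1 h2
  have e2 := floor_cell hb1 hb2 hk0 hkC hn hC m1.le m2
  refine ⟨by rw [e1, e2], hk k hk0 hkC, ?_⟩
  intro h0
  have e3 := Nat.div_add_mod (k * (a1 + a2)) (b1 + b2)
  rw [h0, e2, add_zero] at e3
  have f1 : (k * a1) / b1 * b1 ≤ k * a1 := Nat.div_mul_le_self _ _
  generalize (k * a1) / b1 = f at *
  have c1 : k * (a1 * (b1 + b2)) < k * ((a1 + a2) * b1) := Nat.mul_lt_mul_of_pos_left m1 hk0
  have c2 : f * b1 * (b1 + b2) ≤ k * a1 * (b1 + b2) := Nat.mul_le_mul_right _ f1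
  have c3 : k * ((a1 + a2) * b1) = ((b1 + b2) * f) * b1 := by rw [e3]; ring
  have c4 : ((b1 + b2) * f) * b1 = f * b1 * (b1 + b2) := by ring
  have c5 : k * (a1 * (b1 + b2)) = k * a1 * (b1 + b2) := by ring
  omega

end Pool.Agent.OddZetaG.Tab
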